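import Pool.Agent.Helper61.AD.Gauss
import Pool.Agent.Helper52.Vojta.BaseChange

/-!
# Block AD-LIOU: Liouville bound for the closeness

`cl_liou` with the statement of `Sep.lean`. The local terms `cl w a p`, corrected by `mult w * log 4` at the
infinite places, are non-negative, and their sum over all places is at most
`h(a) + h(p) + [N : ℚ] log 4` (product formula); the height of a root is at most the height of the polynomial up to
`[N : ℚ]` times a constant (`gauss_fin`, `gauss_inf`), and heights over `N` are `[N : K]` times the heights over `K`.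
-/

namespace Pool.Agent.Helper61.AD.LI

open NumberField Finset Polynomial Module
open Pool.Agent.Helper64.Vojta (Pl nv sn above le_sn sn_pos nv_one nv_pos)
open Pool.Agent.V2 (vn vH gsum FinS)

universe u

section aux

variable {N : Type u} [Field N] [NumberField N]

/-- `mult w * B` at the infinite places, `0` at the finite places -/
noncomputable def kap (B : ℝ) : Pl N → ℝ := fun v => match v with
  | .inl v => v.mult * B
  | .inr _ => 0

theorem finS_kap (B : ℝ) : FinS (kap (N := N) B) := by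
  unfold FinS kap
  simp

theorem gsum_kap (B : ℝ) : gsum (kap (N := N) B) = finrank ℚ N * B := Pool.Agent.V2.gsum_inf B

theorem kap_nonneg {B : ℝ} (hB : 0 ≤ B) (w : Pl N) : 0 ≤ kap B w := by
  rcases w with w | w
  · exact mul_nonneg (Nat.cast_nonneg _) hB
  · exact le_rfl

theorem le_kap_inl {B : ℝ} (hB : 0 ≤ B) (w : InfinitePlace N) : B ≤ kap B (.inl w : Pl N) := by
  have h1 : (1 : ℝ) ≤ w.mult := by
    exact_mod_cast Nat.one_le_iff_ne_zero.mpr w.mult_ne_zero
  change B ≤ w.mult * B
  nlinarith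

theorem sn_ge_one (w : Pl N) (y : N) : 1 ≤ sn w ![y, 1] := by
  have h := le_sn w ![y, 1] 1
  have h2 : nv w ((![y, 1] : Fin 2 → N) 1) = 1 := nv_one w
  rwa [h2] at h

theorem vec_ne_zero {R : Type*} [Semiring R] [Nontrivial R] (y : R) : (![y, 1] : Fin 2 → R) ≠ 0 := by
  intro h
  have := congrFun h 1
  simp at this

theorem finS_sn (y : N) : FinS (fun v => Real.log (sn v ![y, 1])) :=
  Pool.Agent.V2.finS_vn (vec_ne_zero y)

theorem cf_ne_zero {R : Type*} [Field R] {r : ℕ} {Q : R[X]} (hQ : Q.Monic) (hr : Q.natDegree = r) :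
    cf r Q ≠ 0 := by
  intro h
  have h1 := congrFun h (Fin.last r)
  have h2 : cf r Q (Fin.last r) = Q.coeff r := by simp [cf]
  rw [h2, ← hr] at h1
  have h3 : Q.coeff Q.natDegree = 1 := hQ
  rw [h3] at h1
  exact one_ne_zero h1

/-- the height of a root -/
theorem root_height {r : ℕ} {c : ℝ} (hc1 : 1 ≤ c)
    (hc : ∀ (w : InfinitePlace N) (x : Fin r → N),
      ∏ i, sn (.inl w) ![x i, 1] ≤ c * vn (.inl w) (cf r (∏ i, (X - C (x i)))))
    (x : Fin r → N) (i : Fin r) :
    vH ![x i, 1] ≤ vH (cf r (∏ i, (X - C (x i)))) + finrank ℚ N * Real.log c := by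
  classical
  set Q : N[X] := ∏ i, (X - C (x i)) with hQ
  have hQm : Q.Monic := monic_prod_of_monic _ _ fun i _ => monic_X_sub_C (x i)
  have hQr : Q.natDegree = r := by
    rw [hQ, natDegree_prod_of_monic _ _ fun i _ => monic_X_sub_C (x i)]
    simp
  have hne : cf r Q ≠ 0 := cf_ne_zero hQm hQr
  have hfin := Pool.Agent.V2.finS_vn hne
  rw [← gsum_kap (N := N) (Real.log c)]
  unfold vH
  rw [← Pool.Agent.V2.gsum_add hfin (finS_kap _)]
  refine Pool.Agent.V2.gsum_mono (finS_sn _) (hfin.add (finS_kap _)) fun w => ?_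
  have hle : sn w ![x i, 1] ≤ ∏ i, sn w ![x i, 1] := by
    rw [← Finset.mul_prod_erase _ _ (Finset.mem_univ i)]
    have h0 := sn_ge_one w (x i)
    have h1 : 1 ≤ ∏ j ∈ univ.erase i, sn w ![x j, 1] := by
      calc (1 : ℝ) = ∏ j ∈ univ.erase i, (1 : ℝ) := by simp
        _ ≤ ∏ j ∈ univ.erase i, sn w ![x j, 1] :=
          Finset.prod_le_prod (fun _ _ => zero_le_one) fun j _ => sn_ge_one w (x j)
    nlinarith
  have hpos : 0 < sn w ![x i, 1] := lt_of_lt_of_le one_pos (sn_ge_one w (x i))
  have hvpos : 0 < vn w (cf r Q) := Pool.Agent.V2.vn_pos w hne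
  change Real.log (sn w ![x i, 1]) ≤ Real.log (vn w (cf r Q)) + kap (Real.log c) w
  rcases w with w | w
  · have h2 : sn (.inl w) ![x i, 1] ≤ c * vn (.inl w) (cf r Q) := hle.trans (hc w x)
    have h3 := Real.log_le_log hpos h2
    rw [Real.log_mul (by linarith) hvpos.ne'] at h3
    have h4 := le_kap_inl (Real.log_nonneg hc1) w
    linarith
  · have h2 : sn (.inr w) ![x i, 1] ≤ vn (.inr w) (cf r Q) := hle.trans (gauss_fin w x)
    have h3 := Real.log_le_log hpos h2
    change _ ≤ _ + (0 : ℝ)
    linarith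

/-- the closeness at one place is bounded by heights, point at infinity -/
theorem cl_none_le (w : Pl N) (a : N) : cl w a none ≤ vH ![a, 1] :=
  Pool.Agent.V2.single_le_gsum (finS_sn a) (fun v => Real.log_nonneg (sn_ge_one v a)) w

/-- the closeness at one place is bounded by heights, affine point -/
theorem cl_some_le (w : Pl N) (a b : N) (h : some b ≠ some a) :
    cl w a (some b) ≤ vH ![a, 1] + vH ![b, 1] + finrank ℚ N * Real.log 4 := by
  have hab : a - b ≠ 0 := fun h0 => h (congrArg some (sub_eq_zero.mp h0).symm)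
  have h4 : (0 : ℝ) ≤ Real.log 4 := Real.log_nonneg (by norm_num)
  have hf1 := finS_sn a
  have hf2 := finS_sn b
  have hf3 := (Pool.Agent.V2.finS_nv hab).neg
  have hf4 := finS_kap (N := N) (Real.log 4)
  have h1 : FinS (fun v => ((Real.log (sn v ![a, 1]) + Real.log (sn v ![b, 1])) +
      -Real.log (nv v (a - b))) + kap (Real.log 4) v) := ((hf1.add hf2).add hf3).add hf4
  have h2 := Pool.Agent.V2.single_le_gsum h1 (fun v => by
    rcases v with v | v
    · have h5 := cl_ge (.inl v) a (some b) h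
      have h6 := le_kap_inl h4 v
      simp only [cl] at h5
      linarith
    · have h5 := cl_nonneg_fin v a (some b) h
      simp only [cl] at h5
      change 0 ≤ _ + (0 : ℝ)
      linarith) w
  rw [Pool.Agent.V2.gsum_add ((hf1.add hf2).add hf3) hf4, Pool.Agent.V2.gsum_add (hf1.add hf2) hf3,
    Pool.Agent.V2.gsum_add hf1 hf2, Pool.Agent.V2.gsum_neg, Pool.Agent.V2.gsum_nv hab,
    gsum_kap] at h2
  have h3 := kap_nonneg h4 w
  have h7 : gsum (fun v => Real.log (sn v ![a, 1])) = vH ![a, 1] := rfl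
  have h8 : gsum (fun v => Real.log (sn v ![b, 1])) = vH ![b, 1] := rfl
  rw [h7, h8] at h2
  simp only [cl]
  linarith

end aux

/-- heights under extension of the field -/
theorem vH_map {K N : Type u} [Field K] [NumberField K] [Field N] [NumberField N] [Algebra K N]
    {m : ℕ} {x : Fin m → K} (hx : x ≠ 0) :
    vH (fun i => algebraMap K N (x i)) = finrank K N * vH x := by
  have hx' : (fun i => algebraMap K N (x i)) ≠ 0 := by
    intro h
    apply hx
    funext i
    have := congrFun h i
    simpa using this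
  rw [Pool.Agent.V2.vH_eq hx', Pool.Agent.V2.vH_eq hx,
    Pool.Agent.Helper52.Vojta.logHeight_algebraMap hx]

theorem cl_liou {k K : Type u} [Field k] [NumberField k] [Field K] [NumberField K] [Algebra k K]
    (r : ℕ) (p : Option K) (D : ℕ) :
    ∃ c : ℝ, 0 ≤ c ∧ ∀ (N : Type u) [Field N] [NumberField N] [Algebra k N] [Algebra K N]
      [IsScalarTower k K N], finrank K N ≤ D → ∀ P : k[X], P.Monic → P.natDegree = r →
      ∀ x : Fin r → N, P.map (algebraMap k N) = ∏ i, (X - C (x i)) →
      ∀ i, p.map (algebraMap K N) ≠ some (x i) → ∀ w : Pl N,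
      cl w (x i) (p.map (algebraMap K N)) ≤ c * (vH (cf r (P.map (algebraMap k K))) + 1) := by
  classical
  obtain ⟨c₀, hc1, hc₀⟩ := gauss_inf.{u} r
  have hlc : 0 ≤ Real.log c₀ := Real.log_nonneg hc1
  have h4 : (0 : ℝ) ≤ Real.log 4 := Real.log_nonneg (by norm_num)
  -- the height of the point
  let hb : ℝ := match p with
    | some b => vH ![b, 1]
    | none => 0
  have hb0 : 0 ≤ hb := by
    rcases p with _ | b
    · exact le_rfl
    · exact Pool.Agent.V2.vH_nonneg (vec_ne_zero b)
  have hD0 : (0 : ℝ) ≤ D := Nat.cast_nonneg D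
  have hq0 : (0 : ℝ) ≤ finrank ℚ K := Nat.cast_nonneg _
  have hDq : 0 ≤ (finrank ℚ K : ℝ) * D := mul_nonneg hq0 hD0
  refine ⟨D + finrank ℚ K * D * Real.log c₀ + D * hb + finrank ℚ K * D * Real.log 4, by positivity,
    fun N _ _ _ _ _ hN P hP hr x hx i hi w => ?_⟩
  have hNr : (finrank K N : ℝ) ≤ D := by exact_mod_cast hN
  have hNq : (finrank ℚ N : ℝ) ≤ finrank ℚ K * D := by
    have h1 := Module.finrank_mul_finrank ℚ K N
    rw [← h1]
    push_cast
    exact mul_le_mul_of_nonneg_left hNr hq0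
  -- the height of the polynomial
  set Q : K[X] := P.map (algebraMap k K) with hQ
  have hQm : Q.Monic := hP.map _
  have hQr : Q.natDegree = r := by rw [hQ, natDegree_map]; exact hr
  have hQ0 : cf r Q ≠ 0 := cf_ne_zero hQm hQr
  have hH0 : 0 ≤ vH (cf r Q) := Pool.Agent.V2.vH_nonneg hQ0
  have hcf : cf r (∏ i, (X - C (x i))) = fun j => algebraMap K N (cf r Q j) := by
    funext j
    rw [← hx]
    simp only [cf, hQ, coeff_map]
    exact IsScalarTower.algebraMap_apply k K N _
  have hHN : vH (cf r (∏ i, (X - C (x i)))) = finrank K N * vH (cf r Q) := by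
    rw [hcf]; exact vH_map hQ0
  have hroot := root_height (N := N) hc1 (fun w x => hc₀ N w x) x i
  rw [hHN] at hroot
  have e1 : (finrank K N : ℝ) * vH (cf r Q) ≤ D * vH (cf r Q) :=
    mul_le_mul_of_nonneg_right hNr hH0
  have e2 : (finrank ℚ N : ℝ) * Real.log c₀ ≤ finrank ℚ K * D * Real.log c₀ :=
    mul_le_mul_of_nonneg_right hNq hlc
  have e3 : (finrank ℚ N : ℝ) * Real.log 4 ≤ finrank ℚ K * D * Real.log 4 :=
    mul_le_mul_of_nonneg_right hNq h4
  -- the bound by heights
  have key : cl w (x i) (p.map (algebraMap K N)) ≤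
      D * vH (cf r Q) + finrank ℚ K * D * Real.log c₀ + D * hb + finrank ℚ K * D * Real.log 4 := by
    rcases p with _ | b
    · have h1 := cl_none_le w (x i)
      have h2 : 0 ≤ (D : ℝ) * hb := mul_nonneg hD0 hb0
      have h3 : 0 ≤ (finrank ℚ K : ℝ) * D * Real.log 4 := mul_nonneg hDq h4
      change cl w (x i) none ≤ _
      linarith
    · have h1 := cl_some_le w (x i) (algebraMap K N b) hi
      have h2 : vH ![algebraMap K N b, 1] = finrank K N * vH ![b, 1] := by
        rw [← vH_map (K := K) (N := N) (vec_ne_zero b)]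
        congr 1
        funext j
        fin_cases j
        · rfl
        · simp
      have h3 : (finrank K N : ℝ) * vH ![b, 1] ≤ D * hb := mul_le_mul_of_nonneg_right hNr hb0
      change cl w (x i) (some (algebraMap K N b)) ≤ _
      rw [h2] at h1
      linarith
  have f1 : 0 ≤ (finrank ℚ K : ℝ) * D * Real.log c₀ := mul_nonneg hDq hlc
  have f2 : 0 ≤ (D : ℝ) * hb := mul_nonneg hD0 hb0
  have f3 : 0 ≤ (finrank ℚ K : ℝ) * D * Real.log 4 := mul_nonneg hDq h4
  have f4 : 0 ≤ ((finrank ℚ K : ℝ) * D * Real.log c₀ + D * hb + finrank ℚ K * D * Real.log 4) *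
      vH (cf r Q) := mul_nonneg (by linarith) hH0
  nlinarith

end Pool.Agent.Helper61.AD.LI
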