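import Pool.Agent.Helper61.AD.Gauss
import Pool.Agent.Helper52.Vojta.BaseChange
import Pool.Agent.Helper61.AD.Liou

/-!
# Block AD-SEP: separation of distinct points and Liouville bound for the closeness

(a) `cl_sep`. Let `a : N`, `p ≠ p'`. For `p = some b`, `p' = some b'`:
`(b - b') = (b - a) + (a - b')`, so `nv w (b - b') ≤ 4 max (nv w (a - b)) (nv w (a - b'))`; with
`A = sn w ![a,1]` etc. `nv w (a - b) = A B exp (- cl w a b)`. So if `e = min (cl w a b) (cl w a b')`:
`nv w (b - b') ≤ 4 A B B' exp (-e)` (as `B, B' ≥ 1`). If `A ≤ 16 * B` (say) this gives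
`e ≤ log (64 B B B') - log nv w (b - b')`. If `A > 16 B` then `nv w (a - b) ≥ A / 16`
(from `A ≤ 4 max (nv w (a - b)) B`... ) and so `cl w a b ≤ log (16 B)`. For `p' = none`: `cl w a none = log A`,
same case distinction: `A` large forces `cl w a b` bounded. Bounds in terms of
`B = sn w ![b,1] = (sn v ![b,1])^ldeg` (`sn_above`), `nv w (b - b') = (nv v (b-b'))^ldeg` (`nv_above`) with
`1 ≤ ldeg ≤ [N:K] ≤ D`, so uniformly bounded for `p, p'` in the finite set `A`.
(b) `cl_liou`. `p = none`: `cl w (x i) none = log sn w ![x i, 1] ≤ logHeight ![x i, 1]` (all local terms are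
`≥ 0`) and `∑ i, logHeight ![x i,1] ≤ vH (cf r (P.map (algebraMap k N))) + c [N:ℚ]` by `gauss_fin`,
`gauss_inf` (sum over all places; `logHeight_eq`, `vH_eq`), and `vH` over `N` is `[N:K]` times `vH` over `K`
(`Helper52.Vojta.logHeight_algebraMap`, `vH_eq`). `p = some b`: `cl w' a b ≥ - log 4` at infinite places and
`≥ 0` at finite places, and the sum over all places `w'` of `N` of `cl w' a b` is
`logHeight ![a,1] + logHeight ![b,1]` (`product_formula_log` for `a - b ≠ 0`), so every single term is at
most `logHeight ![a,1] + logHeight ![b,1] + [N:ℚ] log 4`. `logHeight ![algebraMap b, 1]` is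
`[N:K]` times the height over `K`, `[N:K] ≤ D`, `[N:ℚ] ≤ D [K:ℚ]`.
-/

namespace Pool.Agent.Helper61.AD

open NumberField Finset Polynomial Module
open Pool.Agent.Helper64.Vojta (Pl nv sn above nv_nonneg nv_pos nv_one le_sn sn_le)
open Pool.Agent.V2 (vn vH)

universe u

namespace SA

section

variable {N : Type u} [Field N] [NumberField N]

theorem nv_add_le (w : Pl N) (x y : N) : nv w (x + y) ≤ 4 * max (nv w x) (nv w y) := by
  rcases w with w | w
  · have h1 : w (x + y) ≤ 2 * max (w x) (w y) := by
      have h2 : w (x + y) ≤ w x + w y := w.1.add_le x y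
      have h3 := le_max_left (w x) (w y)
      have h4 := le_max_right (w x) (w y)
      linarith
    have h5 : max (nv (.inl w) x) (nv (.inl w) y) = max (w x) (w y) ^ w.mult := by
      change max (w x ^ w.mult) (w y ^ w.mult) = _
      rcases le_total (w x) (w y) with h | h
      · rw [max_eq_right h, max_eq_right (pow_le_pow_left₀ (apply_nonneg w x) h _)]
      · rw [max_eq_left h, max_eq_left (pow_le_pow_left₀ (apply_nonneg w y) h _)]
    have h6 : 0 ≤ max (w x) (w y) := (apply_nonneg w x).trans (le_max_left _ _)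
    calc nv (.inl w) (x + y) = w (x + y) ^ w.mult := rfl
      _ ≤ (2 * max (w x) (w y)) ^ w.mult := pow_le_pow_left₀ (apply_nonneg w _) h1 _
      _ = 2 ^ w.mult * max (w x) (w y) ^ w.mult := mul_pow _ _ _
      _ ≤ 4 * max (w x) (w y) ^ w.mult := by
          refine mul_le_mul_of_nonneg_right ?_ (pow_nonneg h6 _)
          calc (2 : ℝ) ^ w.mult ≤ 2 ^ 2 := GI.pow_mult_le (by norm_num) w
            _ = 4 := by norm_num
      _ = 4 * max (nv (.inl w) x) (nv (.inl w) y) := by rw [h5]
  · have h1 : nv (.inr w) (x + y) ≤ max (nv (.inr w) x) (nv (.inr w) y) := FinitePlace.add_le w _ _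
    have h2 : 0 ≤ max (nv (.inr w) x) (nv (.inr w) y) := (nv_nonneg _ _).trans (le_max_left _ _)
    linarith

theorem nv_neg (w : Pl N) (x : N) : nv w (-x) = nv w x := by
  rcases w with w | w
  · change w (-x) ^ w.mult = w x ^ w.mult
    rw [show w (-x) = w x from AbsoluteValue.map_neg w.1 x]
  · change w (-x) = w x
    exact AbsoluteValue.map_neg w.1 x

theorem sn_eq (w : Pl N) (a : N) : sn w ![a, 1] = max (nv w a) 1 := by
  refine le_antisymm (sn_le _ _ _ (zero_le_one.trans (le_max_right _ _)) ?_) (max_le ?_ ?_)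
  · intro i
    fin_cases i
    · exact le_max_left _ _
    · change nv w (1 : N) ≤ _
      rw [nv_one]
      exact le_max_right _ _
  · exact le_sn w ![a, 1] 0
  · have := le_sn w ![a, 1] 1
    rwa [show (![a, 1] : Fin 2 → N) 1 = 1 from rfl, nv_one] at this

theorem one_le (w : Pl N) (a : N) : 1 ≤ sn w ![a, 1] := by
  rw [sn_eq]; exact le_max_right _ _

/-- a point of large norm is not close to an affine point -/
theorem far (w : Pl N) (a b : N) (hab : a - b ≠ 0) (h : 16 * sn w ![b, 1] < sn w ![a, 1]) :
    Real.log (sn w ![a, 1]) + Real.log (sn w ![b, 1]) - Real.log (nv w (a - b)) ≤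
      Real.log 4 + Real.log (sn w ![b, 1]) := by
  have hb := one_le w b
  have ha : sn w ![a, 1] = nv w a := by
    rw [sn_eq w a] at h ⊢
    rcases le_total (nv w a) 1 with h1 | h1
    · rw [max_eq_right h1] at h
      linarith
    · exact max_eq_left h1
  have h1 : nv w a ≤ 4 * max (nv w (a - b)) (nv w b) := by
    have := nv_add_le w (a - b) b
    rwa [sub_add_cancel] at this
  have h2 : nv w b ≤ sn w ![b, 1] := le_sn w ![b, 1] 0
  have h3 : nv w a ≤ 4 * nv w (a - b) := by
    rcases le_total (nv w (a - b)) (nv w b) with h4 | h4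
    · rw [max_eq_right h4] at h1
      rw [ha] at h
      linarith
    · rwa [max_eq_left h4] at h1
  have hpos := nv_pos w hab
  have hapos : 0 < nv w a := by rw [← ha]; linarith [one_le w a]
  have h5 := Real.log_le_log hapos h3
  rw [Real.log_mul (by norm_num) hpos.ne'] at h5
  rw [ha]
  linarith

/-- separation from infinity and an affine point -/
theorem sep_none (w : Pl N) (a b : N) (hab : a - b ≠ 0) :
    min (Real.log (sn w ![a, 1]))
      (Real.log (sn w ![a, 1]) + Real.log (sn w ![b, 1]) - Real.log (nv w (a - b))) ≤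
      Real.log 64 + Real.log (sn w ![b, 1]) := by
  have hb := one_le w b
  have ha := one_le w a
  rcases le_or_gt (sn w ![a, 1]) (16 * sn w ![b, 1]) with h | h
  · have h1 := Real.log_le_log (by linarith) h
    rw [Real.log_mul (by norm_num) (by linarith)] at h1
    have h2 : Real.log 16 ≤ Real.log 64 := Real.log_le_log (by norm_num) (by norm_num)
    exact (min_le_left _ _).trans (by linarith)
  · have h1 := far w a b hab h
    have h2 : Real.log 4 ≤ Real.log 64 := Real.log_le_log (by norm_num) (by norm_num)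
    exact (min_le_right _ _).trans (by linarith)

/-- separation from two affine points -/
theorem sep_some (w : Pl N) (a b b' : N) (hab : a - b ≠ 0) (hab' : a - b' ≠ 0) (hbb : b - b' ≠ 0) :
    min (Real.log (sn w ![a, 1]) + Real.log (sn w ![b, 1]) - Real.log (nv w (a - b)))
      (Real.log (sn w ![a, 1]) + Real.log (sn w ![b', 1]) - Real.log (nv w (a - b'))) ≤
      Real.log 64 + 2 * Real.log (sn w ![b, 1]) + Real.log (sn w ![b', 1]) +
        |Real.log (nv w (b - b'))| := by
  have hb := one_le w b
  have hb' := one_le w b'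
  have ha := one_le w a
  have hlb := Real.log_nonneg hb
  have hlb' := Real.log_nonneg hb'
  have habs := abs_nonneg (Real.log (nv w (b - b')))
  have habs' := neg_abs_le (Real.log (nv w (b - b')))
  have h4 : Real.log 4 ≤ Real.log 64 := Real.log_le_log (by norm_num) (by norm_num)
  rcases le_or_gt (sn w ![a, 1]) (16 * sn w ![b, 1]) with h | h
  · have h1 := Real.log_le_log (by linarith) h
    rw [Real.log_mul (by norm_num) (by linarith)] at h1
    have h2 : nv w (b - b') ≤ 4 * max (nv w (a - b)) (nv w (a - b')) := by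
      have := nv_add_le w (-(a - b)) (a - b')
      rw [nv_neg] at this
      convert this using 2
      ring
    have hn := nv_pos w hbb
    have hn1 := nv_pos w hab
    have hn2 := nv_pos w hab'
    have h64 : Real.log 64 = Real.log 16 + Real.log 4 := by
      rw [← Real.log_mul (by norm_num) (by norm_num)]; norm_num
    rcases le_total (nv w (a - b)) (nv w (a - b')) with h3 | h3
    · rw [max_eq_right h3] at h2
      have h5 := Real.log_le_log hn h2
      rw [Real.log_mul (by norm_num) hn2.ne'] at h5
      exact (min_le_right _ _).trans (by linarith)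
    · rw [max_eq_left h3] at h2
      have h5 := Real.log_le_log hn h2
      rw [Real.log_mul (by norm_num) hn1.ne'] at h5
      exact (min_le_left _ _).trans (by linarith)
  · have h1 := far w a b hab h
    exact (min_le_left _ _).trans (by linarith)

end

/-- height of a point at a place -/
noncomputable def hp {K : Type*} [Field K] [NumberField K] (v : Pl K) : Option K → ℝ
  | some b => Real.log (sn v ![b, 1])
  | none => 0

/-- distance of two points at a place -/
noncomputable def dp {K : Type*} [Field K] [NumberField K] (v : Pl K) : Option K → Option K → ℝ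
  | some b, some b' => |Real.log (nv v (b - b'))|
  | _, _ => 0

theorem hp_nonneg {K : Type u} [Field K] [NumberField K] (v : Pl K) (p : Option K) : 0 ≤ hp v p := by
  rcases p with _ | b
  · exact le_refl _
  · exact Real.log_nonneg (one_le v b)

theorem dp_nonneg {K : Type*} [Field K] [NumberField K] (v : Pl K) (p p' : Option K) : 0 ≤ dp v p p' := by
  rcases p with _ | b
  · exact le_refl _
  · rcases p' with _ | b'
    · exact le_refl _
    · exact abs_nonneg _

/-- the bound for two points -/
noncomputable def bd {K : Type*} [Field K] [NumberField K] (v : Pl K) (D : ℕ) (p p' : Option K) : ℝ :=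
  Real.log 64 + D * (2 * hp v p + 2 * hp v p' + dp v p p')

theorem bd_nonneg {K : Type u} [Field K] [NumberField K] (v : Pl K) (D : ℕ) (p p' : Option K) :
    0 ≤ bd v D p p' := by
  have h1 := hp_nonneg v p
  have h2 := hp_nonneg v p'
  have h3 := dp_nonneg v p p'
  have h4 : 0 ≤ Real.log 64 := Real.log_nonneg (by norm_num)
  unfold bd
  positivity

section

variable {K : Type u} [Field K] [NumberField K] {N : Type u} [Field N] [NumberField N] [Algebra K N]

theorem ldeg_le {v : Pl K} {w : Pl N} (hw : w ∈ above N v) :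
    Helper52.Vojta.ldeg v w ≤ finrank K N := by
  rw [← Helper52.Vojta.sum_ldeg (L' := N) v]
  exact Finset.single_le_sum (f := fun w => Helper52.Vojta.ldeg v w) (fun _ _ => Nat.zero_le _) hw

theorem log_sn_le {v : Pl K} {w : Pl N} (hw : w ∈ above N v) {D : ℕ} (hD : finrank K N ≤ D) (b : K) :
    Real.log (sn w ![algebraMap K N b, 1]) ≤ D * Real.log (sn v ![b, 1]) := by
  have h1 : (![algebraMap K N b, 1] : Fin 2 → N) = fun i => algebraMap K N ((![b, 1] : Fin 2 → K) i) := by
    funext i
    fin_cases i
    · rfl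
    · exact (map_one _).symm
  rw [h1, Helper52.Vojta.sn_above (by norm_num) hw, Real.log_pow]
  refine mul_le_mul_of_nonneg_right ?_ (Real.log_nonneg (one_le v b))
  exact_mod_cast (ldeg_le hw).trans hD

theorem log_nv_le {v : Pl K} {w : Pl N} (hw : w ∈ above N v) {D : ℕ} (hD : finrank K N ≤ D) (b : K) :
    |Real.log (nv w (algebraMap K N b))| ≤ D * |Real.log (nv v b)| := by
  rw [Helper52.Vojta.nv_above hw, Real.log_pow, abs_mul, Nat.abs_cast]
  refine mul_le_mul_of_nonneg_right ?_ (abs_nonneg _)
  exact_mod_cast (ldeg_le hw).trans hD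

theorem sep_bd {v : Pl K} {w : Pl N} (hw : w ∈ above N v) {D : ℕ} (hD : finrank K N ≤ D) (a : N)
    (p p' : Option K) (hpp : p ≠ p') (h : p.map (algebraMap K N) ≠ some a)
    (h' : p'.map (algebraMap K N) ≠ some a) :
    min (cl w a (p.map (algebraMap K N))) (cl w a (p'.map (algebraMap K N))) ≤ bd v D p p' := by
  have hsub : ∀ b : K, (some b : Option K).map (algebraMap K N) ≠ some a → a - algebraMap K N b ≠ 0 := by
    intro b hb h0
    apply hb
    rw [sub_eq_zero.mp h0]; rfl
  have hp1 := fun b : K => Real.log_nonneg (one_le v b)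
  have hD0 : (0 : ℝ) ≤ D := Nat.cast_nonneg _
  rcases p with _ | b <;> rcases p' with _ | b'
  · exact absurd rfl hpp
  · have h1 := sep_none w a (algebraMap K N b') (hsub b' h')
    have h2 := log_sn_le hw hD b'
    have h3 : 0 ≤ (D : ℝ) * Real.log (sn v ![b', 1]) := mul_nonneg hD0 (hp1 b')
    refine h1.trans ?_
    change _ ≤ Real.log 64 + D * (2 * 0 + 2 * Real.log (sn v ![b', 1]) + 0)
    linarith
  · have h1 := sep_none w a (algebraMap K N b) (hsub b h)
    have h2 := log_sn_le hw hD b
    have h3 : 0 ≤ (D : ℝ) * Real.log (sn v ![b, 1]) := mul_nonneg hD0 (hp1 b)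
    rw [min_comm] at h1
    refine h1.trans ?_
    change _ ≤ Real.log 64 + D * (2 * Real.log (sn v ![b, 1]) + 2 * 0 + 0)
    linarith
  · have hbb : b - b' ≠ 0 := fun h0 => hpp (by rw [sub_eq_zero.mp h0])
    have hbb' : algebraMap K N b - algebraMap K N b' ≠ 0 := by
      rw [← map_sub]
      exact (_root_.map_ne_zero _).mpr hbb
    have h1 := sep_some w a (algebraMap K N b) (algebraMap K N b') (hsub b h) (hsub b' h') hbb'
    have h2 := log_sn_le hw hD b
    have h3 := log_sn_le hw hD b'
    have h4 := log_nv_le hw hD (b - b')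
    rw [map_sub] at h4
    have h5 : 0 ≤ (D : ℝ) * Real.log (sn v ![b', 1]) := mul_nonneg hD0 (hp1 b')
    refine h1.trans ?_
    change _ ≤ Real.log 64 + D * (2 * Real.log (sn v ![b, 1]) + 2 * Real.log (sn v ![b', 1]) +
      |Real.log (nv v (b - b'))|)
    linarith

end

end SA

theorem cl_sep {K : Type u} [Field K] [NumberField K] (v : Pl K) (A : Finset (Option K)) (D : ℕ) :
    ∃ c : ℝ, ∀ (N : Type u) [Field N] [NumberField N] [Algebra K N], finrank K N ≤ D →
      ∀ w ∈ above N v, ∀ a : N, ∀ p ∈ A, ∀ p' ∈ A, p ≠ p' →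
      p.map (algebraMap K N) ≠ some a → p'.map (algebraMap K N) ≠ some a →
      min (cl w a (p.map (algebraMap K N))) (cl w a (p'.map (algebraMap K N))) ≤ c := by
  refine ⟨∑ p ∈ A, ∑ p' ∈ A, SA.bd v D p p', fun N _ _ _ hD w hw a p hp p' hp' hpp h h' => ?_⟩
  refine (SA.sep_bd hw hD a p p' hpp h h').trans ?_
  calc SA.bd v D p p' ≤ ∑ p' ∈ A, SA.bd v D p p' :=
        Finset.single_le_sum (f := fun p' => SA.bd v D p p') (fun _ _ => SA.bd_nonneg v D _ _) hp'
    _ ≤ ∑ p ∈ A, ∑ p' ∈ A, SA.bd v D p p' :=
        Finset.single_le_sum (f := fun p => ∑ p' ∈ A, SA.bd v D p p')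
          (fun _ _ => Finset.sum_nonneg fun _ _ => SA.bd_nonneg v D _ _) hp

theorem cl_liou {k K : Type u} [Field k] [NumberField k] [Field K] [NumberField K] [Algebra k K]
    (r : ℕ) (p : Option K) (D : ℕ) :
    ∃ c : ℝ, 0 ≤ c ∧ ∀ (N : Type u) [Field N] [NumberField N] [Algebra k N] [Algebra K N]
      [IsScalarTower k K N], finrank K N ≤ D → ∀ P : k[X], P.Monic → P.natDegree = r →
      ∀ x : Fin r → N, P.map (algebraMap k N) = ∏ i, (X - C (x i)) →
      ∀ i, p.map (algebraMap K N) ≠ some (x i) → ∀ w : Pl N,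
      cl w (x i) (p.map (algebraMap K N)) ≤ c * (vH (cf r (P.map (algebraMap k K))) + 1) :=
  LI.cl_liou r p D

end Pool.Agent.Helper61.AD
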