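import Mathlib

/-!
# Block AD-SORT: sorting a finite family of real numbers

Proof. `l i = L (σ i)` for `i < r` (σ a permutation which makes `L ∘ σ` antitone, `Tuple.sort` of `-L`), `l i = 0`
for `i ≥ r`. (a) `∑_{i,j} min (L i) (L j) = ∑_{i,j < r} min (l i) (l j)`, `min (l i) (l j) = l (max i j)`, and
`max i j = a` for `2 a + 1` pairs. (b) the sum of `L` over `I` is at least the sum of the `|I|` smallest
values, i.e. `∑_{i ∈ Ico (r - |I|) r} l i` (compare the increasing enumeration of `σ⁻¹ I`:
its `a`-th element from the top is `≤ r - 1 - a`). (c), (d) clear.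
-/

namespace Pool.Agent.Helper61.AD

open Finset

theorem sort_sum_max (l : ℕ → ℝ) (n : ℕ) :
    ∑ i ∈ Finset.range n, ∑ j ∈ Finset.range n, l (max i j)
      = ∑ i ∈ Finset.range n, (2 * (i : ℝ) + 1) * l i := by
  induction n with
  | zero => simp
  | succ n ih =>
    rw [Finset.sum_range_succ, Finset.sum_range_succ (fun i => (2 * (i : ℝ) + 1) * l i)]
    have h1 : ∀ i ∈ Finset.range n, ∑ j ∈ Finset.range (n + 1), l (max i j)
        = ∑ j ∈ Finset.range n, l (max i j) + l n := by
      intro i hi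
      rw [Finset.sum_range_succ]
      congr 2
      exact max_eq_right (Finset.mem_range.mp hi).le
    rw [Finset.sum_congr rfl h1, Finset.sum_add_distrib, ih]
    have h2 : ∑ j ∈ Finset.range (n + 1), l (max n j) = ∑ j ∈ Finset.range (n + 1), l n := by
      refine Finset.sum_congr rfl fun j hj => ?_
      congr 1
      exact max_eq_left (Nat.lt_succ_iff.mp (Finset.mem_range.mp hj))
    rw [h2]
    simp only [Finset.sum_const, Finset.card_range, nsmul_eq_mul]
    push_cast
    ring

theorem sort_sum_low (l : ℕ → ℝ) (hl : Antitone l) (r : ℕ) (J : Finset ℕ)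
    (hJ : J ⊆ Finset.range r) :
    ∑ i ∈ Finset.Ico (r - J.card) r, l i ≤ ∑ i ∈ J, l i := by
  classical
  have hcard : J.card ≤ r := by
    simpa using Finset.card_le_card hJ
  set K := Finset.Ico (r - J.card) r with hK
  have hKc : K.card = J.card := by
    rw [hK, Nat.card_Ico]; omega
  have hsd : (K \ J).card = (J \ K).card := Finset.card_sdiff_comm hKc
  have h1 : ∑ i ∈ K \ J, l i ≤ (K \ J).card • l (r - J.card) := by
    refine Finset.sum_le_card_nsmul _ _ _ fun i hi => ?_
    have hi' := (Finset.mem_sdiff.mp hi).1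
    rw [hK, Finset.mem_Ico] at hi'
    exact hl hi'.1
  have h2 : (J \ K).card • l (r - J.card) ≤ ∑ i ∈ J \ K, l i := by
    refine Finset.card_nsmul_le_sum _ _ _ fun i hi => ?_
    obtain ⟨hiJ, hiK⟩ := Finset.mem_sdiff.mp hi
    have hir := Finset.mem_range.mp (hJ hiJ)
    rw [hK, Finset.mem_Ico] at hiK
    have : i ≤ r - J.card := by
      by_contra hcon
      exact hiK ⟨by omega, hir⟩
    exact hl this
  have h3 : ∑ i ∈ K, l i = ∑ i ∈ K \ J, l i + ∑ i ∈ K ∩ J, l i := by
    rw [add_comm]; exact (Finset.sum_inter_add_sum_sdiff K J l).symm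
  have h4 : ∑ i ∈ J, l i = ∑ i ∈ J \ K, l i + ∑ i ∈ K ∩ J, l i := by
    rw [add_comm, Finset.inter_comm]; exact (Finset.sum_inter_add_sum_sdiff J K l).symm
  rw [h3, h4]
  rw [hsd] at h1
  linarith

theorem sort_data {r : ℕ} (L : Fin r → ℝ) (hL : ∀ i, 0 ≤ L i) :
    ∃ l : ℕ → ℝ, Antitone l ∧ (∀ i, 0 ≤ l i) ∧ (∀ i, r ≤ i → l i = 0) ∧
      (∑ i, ∑ j, min (L i) (L j) = ∑ i ∈ Finset.range r, (2 * i + 1) * l i) ∧
      (∀ I : Finset (Fin r), ∑ i ∈ Finset.Ico (r - I.card) r, l i ≤ ∑ i ∈ I, L i) ∧
      (∀ c : ℝ, ((Finset.range r).filter (fun i => c < l i)).card =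
        ((Finset.univ : Finset (Fin r)).filter (fun i => c < L i)).card) ∧
      (∀ B : ℝ, 0 ≤ B → (∀ i, L i ≤ B) → ∀ i, l i ≤ B) := by
  classical
  set σ : Equiv.Perm (Fin r) := Tuple.sort (fun i => - L i) with hσ
  have hmono : Monotone ((fun i => - L i) ∘ σ) := Tuple.monotone_sort _
  have hanti : ∀ a b : Fin r, a ≤ b → L (σ b) ≤ L (σ a) := by
    intro a b hab
    have := hmono hab
    simp only [Function.comp] at this
    linarith
  let l : ℕ → ℝ := fun i => if h : i < r then L (σ ⟨i, h⟩) else 0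
  have hl1 : ∀ (i : ℕ) (h : i < r), l i = L (σ ⟨i, h⟩) := fun i h => by simp only [l, dif_pos h]
  have hl2 : ∀ i : ℕ, r ≤ i → l i = 0 := fun i h => by
    simp only [l]; rw [dif_neg (by omega)]
  have hlF : ∀ i : Fin r, l i = L (σ i) := fun i => hl1 i i.2
  have hl0 : ∀ i, 0 ≤ l i := by
    intro i
    by_cases h : i < r
    · rw [hl1 i h]; exact hL _
    · rw [hl2 i (by omega)]
  have hla : Antitone l := by
    intro i j hij
    by_cases hj : j < r
    · rw [hl1 j hj, hl1 i (by omega)]
      exact hanti _ _ (by simpa using hij)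
    · rw [hl2 j (by omega)]; exact hl0 i
  refine ⟨l, hla, hl0, hl2, ?_, ?_, ?_, ?_⟩
  · rw [← sort_sum_max, Finset.sum_range]
    rw [← Equiv.sum_comp σ]
    refine Finset.sum_congr rfl fun i _ => ?_
    rw [Finset.sum_range, ← Equiv.sum_comp σ]
    refine Finset.sum_congr rfl fun j _ => ?_
    rw [← hlF i, ← hlF j]
    rcases le_total (i : ℕ) (j : ℕ) with h | h
    · rw [max_eq_right h, min_eq_right (hla h)]
    · rw [max_eq_left h, min_eq_left (hla h)]
  · intro I
    have hinj : Function.Injective (fun i : Fin r => ((σ.symm i : Fin r) : ℕ)) :=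
      Fin.val_injective.comp σ.symm.injective
    set J : Finset ℕ := I.image (fun i : Fin r => ((σ.symm i : Fin r) : ℕ)) with hJ
    have hJc : J.card = I.card := Finset.card_image_of_injective _ hinj
    have hJr : J ⊆ Finset.range r := by
      intro x hx
      rw [hJ, Finset.mem_image] at hx
      obtain ⟨i, _, rfl⟩ := hx
      exact Finset.mem_range.mpr (σ.symm i).2
    have := sort_sum_low l hla r J hJr
    rw [hJc] at this
    refine this.trans (le_of_eq ?_)
    rw [hJ, Finset.sum_image (fun a _ b _ h => hinj h)]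
    refine Finset.sum_congr rfl fun i _ => ?_
    rw [hlF (σ.symm i), Equiv.apply_symm_apply]
  · intro c
    rw [Finset.card_filter, Finset.card_filter, Finset.sum_range,
      ← Equiv.sum_comp σ (fun i => if c < L i then 1 else 0)]
    refine Finset.sum_congr rfl fun i _ => ?_
    rw [hlF i]
  · intro B hB hLB i
    by_cases h : i < r
    · rw [hl1 i h]; exact hLB _
    · rw [hl2 i (by omega)]; exact hB

end Pool.Agent.Helper61.AD
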