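import Pool.Agent.Helper61.AD.Defs
import Pool.Agent.Helper52.Vojta.BaseChange
import Pool.Agent.Helper52.Vojta.Divisor

/-!
# Block AD-TOWER: sums over places and points in a tower `k ⊆ K ⊆ N`

(a) `sum_pts`: the roots of `g` in `N` are the images of the roots in `K` (`g` splits in `K`;
`Polynomial.aroots_map`/`Splits.roots_map` ...); `Option.map (algebraMap K N)` is injective; `none ↦ none`.
(b) `sum_above_tower`: `w` lies above `ν` iff the place of `K` below `w` (`exists_below`) lies above `ν`
(infinite places: `InfinitePlace.LiesOver` is transitive via `comap_comp`; finite places: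
`Ideal.LiesOver.trans`; uniqueness of the place below: `above_unique`). So `above N ν` is the disjoint union of
`above N v`, `v ∈ above K ν`. `upW K S = S.biUnion (above K)` (Helper52/Vojta/Divisor.lean, `sum_upW`).
-/

namespace Pool.Agent.Helper61.AD

open NumberField Finset Polynomial
open Pool.Agent.Helper64.Vojta (Pl nv sn above)
open Pool.Agent.Helper52.Vojta (upW)

theorem pts_tower {k K N : Type*} [Field k] [Field K] [Field N] [Algebra k K] [Algebra k N]
    [Algebra K N] [IsScalarTower k K N] [DecidableEq (Option N)] (g : k[X])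
    (hsp : (g.map (algebraMap k K)).Splits) (q : ℕ) :
    pts g q N = (pts g q K).image (Option.map (algebraMap K N)) := by
  classical
  have hroots : g.aroots N = (g.aroots K).map (algebraMap K N) := by
    have h1 : g.map (algebraMap k N) = (g.map (algebraMap k K)).map (algebraMap K N) := by
      rw [Polynomial.map_map, ← IsScalarTower.algebraMap_eq]
    rw [Polynomial.aroots, Polynomial.aroots, h1]
    exact hsp.roots_map (algebraMap K N)
  ext p
  unfold pts
  rw [hroots]
  simp only [Finset.mem_union, Finset.mem_image, Multiset.mem_toFinset, Multiset.mem_map]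
  constructor
  · rintro (⟨a, ⟨b, hb, rfl⟩, rfl⟩ | h)
    · exact ⟨some b, Or.inl ⟨b, hb, rfl⟩, rfl⟩
    · split_ifs at h with hq
      · rw [Finset.mem_singleton] at h
        refine ⟨none, Or.inr ?_, h.symm⟩
        rw [if_pos hq, Finset.mem_singleton]
      · exact absurd h (Finset.notMem_empty _)
  · rintro ⟨a, (⟨b, hb, rfl⟩ | h), rfl⟩
    · exact Or.inl ⟨algebraMap K N b, ⟨b, hb, rfl⟩, rfl⟩
    · split_ifs at h with hq
      · rw [Finset.mem_singleton] at h
        refine Or.inr ?_
        rw [if_pos hq, Finset.mem_singleton, h]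
        rfl
      · exact absurd h (Finset.notMem_empty _)

theorem sum_pts {k K N : Type*} [Field k] [Field K] [Field N] [Algebra k K] [Algebra k N]
    [Algebra K N] [IsScalarTower k K N] (g : k[X]) (hg : g ≠ 0)
    (hsp : (g.map (algebraMap k K)).Splits) (q : ℕ) (f : Option N → ℝ) :
    ∑ p ∈ pts g q N, f p = ∑ p ∈ pts g q K, f (p.map (algebraMap K N)) := by
  classical
  rw [pts_tower (K := K) g hsp q, Finset.sum_image]
  intro a _ b _ h
  exact Option.map_injective (algebraMap K N).injective h

theorem above_trans {k K N : Type*} [Field k] [NumberField k] [Field K] [NumberField K]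
    [Field N] [NumberField N] [Algebra k K] [Algebra k N] [Algebra K N] [IsScalarTower k K N]
    {ν : Pl k} {v : Pl K} {w : Pl N} (h1 : v ∈ above K ν) (h2 : w ∈ above N v) : w ∈ above N ν := by
  rw [Pool.Agent.Helper64.Vojta.mem_above] at h1 h2 ⊢
  rcases ν with ν | ν <;> rcases v with v | v <;> rcases w with w | w
  · have b1 : w.1.LiesOver v.1 := h2
    have b2 : v.1.LiesOver ν.1 := h1
    have a1 : v.comap (algebraMap k K) = ν := InfinitePlace.LiesOver.comap_eq v ν
    have a2 : w.comap (algebraMap K N) = v := InfinitePlace.LiesOver.comap_eq w v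
    have a3 : w.comap (algebraMap k N) = ν := by
      rw [IsScalarTower.algebraMap_eq k K N, InfinitePlace.comap_comp, a2, a1]
    subst a3
    exact ⟨rfl⟩
  · exact absurd h2 id
  · exact absurd h1 id
  · exact absurd h1 id
  · exact absurd h1 id
  · exact absurd h1 id
  · exact absurd h2 id
  · have a1 : v.maximalIdeal.asIdeal.LiesOver ν.maximalIdeal.asIdeal := h1
    have a2 : w.maximalIdeal.asIdeal.LiesOver v.maximalIdeal.asIdeal := h2
    exact Ideal.LiesOver.trans w.maximalIdeal.asIdeal v.maximalIdeal.asIdeal ν.maximalIdeal.asIdeal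

theorem sum_above_tower {k K N : Type*} [Field k] [NumberField k] [Field K] [NumberField K]
    [Field N] [NumberField N] [Algebra k K] [Algebra k N] [Algebra K N] [IsScalarTower k K N]
    (S : Finset (Pl k)) (f : Pl N → ℝ) :
    ∑ ν ∈ S, ∑ w ∈ above N ν, f w = ∑ v ∈ upW K S, ∑ w ∈ above N v, f w := by
  classical
  rw [Pool.Agent.Helper52.Vojta.sum_upW]
  refine Finset.sum_congr rfl fun ν _ => ?_
  have hset : above N ν = (above K ν).biUnion (above N) := by
    ext w
    rw [Finset.mem_biUnion]
    constructor
    · intro hw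
      obtain ⟨v, hv⟩ := Pool.Agent.Helper52.Vojta.exists_below (L := K) w
      obtain ⟨ν', hν'⟩ := Pool.Agent.Helper52.Vojta.exists_below (L := k) v
      have h3 := above_trans hν' hv
      have h4 : ν' = ν := Pool.Agent.Helper64.Vojta.above_unique
        (Pool.Agent.Helper64.Vojta.mem_above.mp h3) (Pool.Agent.Helper64.Vojta.mem_above.mp hw)
      rw [h4] at hν'
      exact ⟨v, hν', hv⟩
    · rintro ⟨v, hv, hw⟩
      exact above_trans hv hw
  rw [hset, Finset.sum_biUnion]
  intro a _ b _ hab
  rw [Function.onFun, Finset.disjoint_left]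
  intro w hwa hwb
  exact hab (Pool.Agent.Helper64.Vojta.above_unique
    (Pool.Agent.Helper64.Vojta.mem_above.mp hwa) (Pool.Agent.Helper64.Vojta.mem_above.mp hwb))

theorem inl_mem_upW {k K : Type*} [Field k] [NumberField k] [Field K] [NumberField K] [Algebra k K]
    (S : Finset (Pl k)) (hS : ∀ v : InfinitePlace k, Sum.inl v ∈ S) (v : InfinitePlace K) :
    Sum.inl v ∈ upW K S := by
  classical
  obtain ⟨ν, hν⟩ := Pool.Agent.Helper52.Vojta.exists_below (L := k) (.inl v : Pl K)
  unfold upW
  rw [Finset.mem_biUnion]
  refine ⟨ν, ?_, hν⟩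
  rcases ν with ν | ν
  · exact hS ν
  · exact absurd (Pool.Agent.Helper64.Vojta.mem_above.mp hν) id

end Pool.Agent.Helper61.AD
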