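import Pool.Agent.Helper61.AD.Root
import Pool.Agent.Helper61.AD.Sort
import Pool.Agent.Helper61.AD.Tower
import Pool.Agent.Helper61.AD.Sep

/-!
# Block AD-PN: the local data of one point

Proof. `A = pts g q K`, `T = upW K S`, `[N:K] ≤ [N:k] ≤ D`. No `p ∈ A` has
`p.map (algebraMap K N) = some (x i)`: else `x i` is a common root of `P` and `g`, and `P`
(irreducible) divides `g`. For `v ∈ T` and `w ∈ above N v` put
`G w = (1 / ldeg v w) ∑_{p ∈ A} ∑_{i,j} min (L i) (L j)`, `L i = max 0 (cl w (x i) (p.map ..))`, and let `w_v`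
be a maximum point of `G` on `above N v` (non-empty since `∑ ldeg = [N:K] > 0`, `sum_ldeg`). `l v p` = the
sorted sequence (`sort_data`) of `L i / ldeg v w_v`.
(i) `sum_above_tower`, `sum_pts`, `min (cl) (cl) ≤ min (L i) (L j)`,
 `∑_{w ∈ above N v} ∑∑ min (L) (L) = ∑_w ldeg v w * G w ≤ [N:K] G w_v` and
 `G w_v = ∑_p ∑_{i<r} (2 i + 1) l v p i`.
(ii) `root_bound` at `w_v` with `M = ldeg * ∑_{i ∈ Ico s r} l v p i`;
 `(tay (p.map ..) r (P.map (algebraMap k N))) = (tay p r (P.map (algebraMap k K))).map ..` (`tay_map`,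
 `Polynomial.map_map`), `nv w_v (algebraMap K N a) = nv v a ^ ldeg` (`nv_above`), same for `vn`
 (as `sn_above`; `vn` is the same supremum), so the inequality is `X^ldeg ≤ c B^(r ldeg) E^ldeg Y^ldeg`, and
 take the root: `X ≤ c B^r E Y` (`c ≥ 1`, `ldeg ≥ 1`); `B = sn v ![p.getD 0, 1]`, finitely many `p`, `v`.
(iii) `cl_liou`, `ldeg ≥ 1`. (iv) `cl_sep`: if `c < l v p i` for several `p` the sets of `i` (as indices
 of roots, `sort_data` (c)) are pairwise disjoint subsets of `Fin r`.
For `v ∉ T` or `p ∉ A` put `l = 0`.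
-/

namespace Pool.Agent.Helper61.AD

open NumberField Finset Polynomial Module
open Pool.Agent.Helper64.Vojta (Pl nv sn above)
open Pool.Agent.V2 (vn vH)
open Pool.Agent.Helper52.Vojta (upW)

universe u

theorem vn_above {κ : Type*} [Nonempty κ] [Finite κ] {L L' : Type*} [Field L] [NumberField L] [Field L'] [NumberField L']
    [Algebra L L'] {ν : Pl L} {w : Pl L'} (h : w ∈ above L' ν) (x : κ → L) :
    vn w (fun i => algebraMap L L' (x i)) = vn ν x ^ Helper52.Vojta.ldeg ν w := by
  unfold vn
  rw [Real.iSup_pow (fun i => Helper64.Vojta.nv_nonneg _ _)]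
  congr 1
  funext i
  exact Helper52.Vojta.nv_above h (x i)

theorem ldeg_ne {L L' : Type*} [Field L] [NumberField L] [Field L'] [NumberField L']
    [Algebra L L'] {ν : Pl L} {w : Pl L'} (h : w ∈ above L' ν) : Helper52.Vojta.ldeg ν w ≠ 0 := by
  intro h0
  have h1 := Helper52.Vojta.nv_above h (0 : L)
  rw [h0, pow_zero, map_zero, Helper64.Vojta.nv_zero] at h1
  exact zero_ne_one h1

theorem above_nonempty {L L' : Type*} [Field L] [NumberField L] [Field L'] [NumberField L']
    [Algebra L L'] (ν : Pl L) : (above L' ν).Nonempty := by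
  rw [Finset.nonempty_iff_ne_empty]
  intro h0
  have h1 := Helper52.Vojta.sum_ldeg (L' := L') ν
  rw [h0, Finset.sum_empty] at h1
  have : 0 < finrank L L' := finrank_pos
  omega

/-- a point of the divisor is not a root of an irreducible polynomial which does not divide `g` -/
theorem pts_ne {k K N : Type*} [Field k] [Field K] [Field N] [Algebra k K] [Algebra k N]
    [Algebra K N] [IsScalarTower k K N] {g : k[X]} {q : ℕ} {P : k[X]} (hPm : P.Monic)
    (hPi : Irreducible P) (hPg : ¬ P ∣ g) {r : ℕ} (x : Fin r → N)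
    (hx : P.map (algebraMap k N) = ∏ i, (X - C (x i))) {p : Option K} (hp : p ∈ pts g q K)
    (i : Fin r) : p.map (algebraMap K N) ≠ some (x i) := by
  classical
  intro h
  cases p with
  | none => simp at h
  | some b =>
    rw [Option.map_some, Option.some.injEq] at h
    apply hPg
    have hb : aeval b g = 0 := by
      unfold pts at hp
      rw [Finset.mem_union] at hp
      rcases hp with hp | hp
      · rw [Finset.mem_image] at hp
        obtain ⟨b', hb', e⟩ := hp
        rw [Option.some.injEq] at e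
        rw [← e]
        rw [Multiset.mem_toFinset] at hb'
        exact (mem_aroots'.mp hb').2
      · split_ifs at hp with h1
        · simp at hp
        · simp at hp
    have h1 : aeval (x i) g = 0 := by
      rw [← h, aeval_algebraMap_apply, hb, map_zero]
    have h2 : aeval (x i) P = 0 := by
      rw [aeval_def, ← eval_map, hx, eval_prod]
      exact Finset.prod_eq_zero (Finset.mem_univ i) (by simp)
    have h3 : P = minpoly k (x i) := minpoly.eq_of_irreducible_of_monic hPi h2 hPm
    rw [h3]
    exact minpoly.dvd k (x i) h1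

theorem per_point {k K : Type u} [Field k] [NumberField k] [Field K] [NumberField K] [Algebra k K]
    (g : k[X]) (hg : g ≠ 0) (hsp : (g.map (algebraMap k K)).Splits) (q : ℕ) (S : Finset (Pl k))
    (r : ℕ) (hr : 0 < r) (D : ℕ) :
    ∃ c : ℝ, 1 ≤ c ∧ ∀ (N : Type u) [Field N] [NumberField N] [Algebra k N] [Algebra K N]
      [IsScalarTower k K N], finrank k N ≤ D → ∀ P : k[X], P.Monic → Irreducible P →
      P.natDegree = r → ¬ P ∣ g → ∀ x : Fin r → N,
      P.map (algebraMap k N) = ∏ i, (X - C (x i)) →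
      ∃ l : Pl K → Option K → ℕ → ℝ,
        (∀ v p, Antitone (l v p)) ∧ (∀ v p i, 0 ≤ l v p i) ∧ (∀ v p i, r ≤ i → l v p i = 0) ∧
        (∑ ν ∈ S, ∑ w ∈ above N ν, ∑ p ∈ pts g q N, ∑ i, ∑ j, min (cl w (x i) p) (cl w (x j) p) ≤
          finrank K N * ∑ v ∈ upW K S, ∑ p ∈ pts g q K, ∑ i ∈ Finset.range r,
            (2 * i + 1) * l v p i) ∧
        (∀ v ∈ upW K S, ∀ p ∈ pts g q K, ∀ s ≤ r,
          nv v ((tay p r (P.map (algebraMap k K))).coeff s) ≤
            c * vn v (cf r (P.map (algebraMap k K))) *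
              Real.exp (-(∑ i ∈ Finset.Ico s r, l v p i))) ∧
        (∀ v p i, l v p i ≤ c * (vH (cf r (P.map (algebraMap k K))) + 1)) ∧
        (∀ v ∈ upW K S, ∑ p ∈ pts g q K,
          ((Finset.range r).filter (fun i => c < l v p i)).card ≤ r) := by
  classical
  obtain ⟨c0, hc0, hroot⟩ := root_bound.{u} r
  choose cs hcs using fun v : Pl K => cl_sep.{u} v (pts g q K) D
  choose cL hcL0 hcL using fun p : Option K => cl_liou.{u} (k := k) (K := K) r p D
  set A := pts g q K with hA
  set T := upW K S with hT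
  set B : Pl K → Option K → ℝ := fun v p => (sn v ![p.getD 0, 1]) ^ r with hB
  have hsn0 : ∀ (v : Pl K) (y : Fin 2 → K), 0 ≤ sn v y := fun v y =>
    Real.iSup_nonneg (fun i => Helper64.Vojta.nv_nonneg _ _)
  have hB0 : ∀ v p, 0 ≤ B v p := fun v p => pow_nonneg (hsn0 _ _) _
  set c : ℝ := 1 + c0 * ∑ v ∈ T, ∑ p ∈ A, B v p + ∑ p ∈ A, cL p + ∑ v ∈ T, |cs v| with hc
  have n1 : 0 ≤ c0 * ∑ v ∈ T, ∑ p ∈ A, B v p :=
    mul_nonneg (by linarith) (Finset.sum_nonneg fun v _ => Finset.sum_nonneg fun p _ => hB0 v p)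
  have n2 : 0 ≤ ∑ p ∈ A, cL p := Finset.sum_nonneg fun p _ => hcL0 p
  have n3 : 0 ≤ ∑ v ∈ T, |cs v| := Finset.sum_nonneg fun v _ => abs_nonneg _
  have hc1 : 1 ≤ c := by rw [hc]; linarith
  have hcB : ∀ v ∈ T, ∀ p ∈ A, c0 * B v p ≤ c := by
    intro v hv p hp
    have h1 : B v p ≤ ∑ v ∈ T, ∑ p ∈ A, B v p :=
      (Finset.single_le_sum (f := fun p => B v p) (fun p _ => hB0 v p) hp).trans
        (Finset.single_le_sum (f := fun v => ∑ p ∈ A, B v p)
          (fun v _ => Finset.sum_nonneg fun p _ => hB0 v p) hv)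
    have h2 := mul_le_mul_of_nonneg_left h1 (by linarith : (0 : ℝ) ≤ c0)
    rw [hc]; linarith
  have hccL : ∀ p ∈ A, cL p ≤ c := by
    intro p hp
    have h1 := Finset.single_le_sum (f := cL) (fun p _ => hcL0 p) hp
    rw [hc]; linarith
  have hccs : ∀ v ∈ T, cs v ≤ c := by
    intro v hv
    have h1 := Finset.single_le_sum (f := fun v => |cs v|) (fun v _ => abs_nonneg _) hv
    have h2 := le_abs_self (cs v)
    rw [hc]; linarith
  refine ⟨c, hc1, ?_⟩
  intro N _ _ _ _ _ hND P hPm hPi hPd hPg x hx
  have hne : ∀ p ∈ A, ∀ i, p.map (algebraMap K N) ≠ some (x i) := fun p hp i =>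
    pts_ne hPm hPi hPg x hx hp i
  have hfk : Module.Finite k K := Module.Finite.of_restrictScalars_finite ℚ k K
  have hKN : finrank K N ≤ D := by
    have h1 : finrank k K * finrank K N = finrank k N := finrank_mul_finrank k K N
    have h2 : 0 < finrank k K := finrank_pos
    calc finrank K N ≤ finrank k K * finrank K N := Nat.le_mul_of_pos_left _ h2
      _ = finrank k N := h1
      _ ≤ D := hND
  -- the closenesses
  set L : Pl N → Option K → Fin r → ℝ := fun w p i => max 0 (cl w (x i) (p.map (algebraMap K N)))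
    with hL
  have hL0 : ∀ w p i, 0 ≤ L w p i := fun w p i => le_max_left _ _
  set G : Pl K → Pl N → ℝ := fun v w =>
    ∑ p ∈ A, ∑ i, ∑ j, min (L w p i / Helper52.Vojta.ldeg v w) (L w p j / Helper52.Vojta.ldeg v w)
    with hG
  have hmax : ∀ v : Pl K, ∃ w ∈ above N v, ∀ w' ∈ above N v, G v w' ≤ G v w := fun v =>
    Finset.exists_max_image _ _ (above_nonempty v)
  choose wv hwv hwmax using hmax
  have hld : ∀ v, (1 : ℝ) ≤ (Helper52.Vojta.ldeg v (wv v) : ℝ) := fun v => by
    have := Nat.one_le_iff_ne_zero.mpr (ldeg_ne (hwv v))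
    exact_mod_cast this
  have hsort := fun (v : Pl K) (p : Option K) =>
    sort_data (fun i => L (wv v) p i / Helper52.Vojta.ldeg v (wv v))
      (fun i => div_nonneg (hL0 _ _ _) (Nat.cast_nonneg _))
  choose l0 s1 s2 s3 s4 s5 s6 s7 using hsort
  refine ⟨fun v p => if p ∈ A then l0 v p else fun _ => 0, ?_, ?_, ?_, ?_, ?_, ?_, ?_⟩
  · intro v p
    by_cases hp : p ∈ A
    · simp only [if_pos hp]; exact s1 v p
    · simp only [if_neg hp]; exact fun _ _ _ => le_refl _
  · intro v p i
    by_cases hp : p ∈ A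
    · simp only [if_pos hp]; exact s2 v p i
    · simp only [if_neg hp]; exact le_refl _
  · intro v p i hi
    by_cases hp : p ∈ A
    · simp only [if_pos hp]; exact s3 v p i hi
    · simp only [if_neg hp]
  · -- (i)
    rw [sum_above_tower (K := K) S
      (fun w => ∑ p ∈ pts g q N, ∑ i, ∑ j, min (cl w (x i) p) (cl w (x j) p)), ← hT, Finset.mul_sum]
    apply Finset.sum_le_sum
    intro v hv
    have h1 : ∀ w ∈ above N v, ∑ p ∈ pts g q N, ∑ i, ∑ j, min (cl w (x i) p) (cl w (x j) p) ≤
        (Helper52.Vojta.ldeg v w : ℝ) * G v (wv v) := by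
      intro w hw
      have hd : (0 : ℝ) < (Helper52.Vojta.ldeg v w : ℝ) := by
        exact_mod_cast Nat.pos_of_ne_zero (ldeg_ne hw)
      rw [sum_pts g hg hsp q
        (fun p => ∑ i, ∑ j, min (cl w (x i) p) (cl w (x j) p)), ← hA]
      refine le_trans ?_ (mul_le_mul_of_nonneg_left (hwmax v w hw) hd.le)
      rw [hG]
      simp only
      rw [Finset.mul_sum]
      apply Finset.sum_le_sum
      intro p hp
      rw [Finset.mul_sum]
      apply Finset.sum_le_sum
      intro i _
      rw [Finset.mul_sum]
      apply Finset.sum_le_sum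
      intro j _
      rw [min_div_div_right hd.le, mul_div_cancel₀ _ hd.ne']
      exact min_le_min (le_max_right _ _) (le_max_right _ _)
    refine (Finset.sum_le_sum h1).trans ?_
    rw [← Finset.sum_mul, ← Nat.cast_sum, Helper52.Vojta.sum_ldeg]
    apply le_of_eq
    congr 1
    rw [hG]
    apply Finset.sum_congr rfl
    intro p hp
    simp only [if_pos hp]
    exact s4 v p
  · -- (ii)
    intro v hv p hp s hs
    simp only [if_pos hp]
    have hw := hwv v
    have hd := ldeg_ne hw
    have hdR : (0 : ℝ) < (Helper52.Vojta.ldeg v (wv v) : ℝ) := by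
      exact_mod_cast Nat.pos_of_ne_zero hd
    have hmap : P.map (algebraMap k N) = (P.map (algebraMap k K)).map (algebraMap K N) := by
      rw [Polynomial.map_map, ← IsScalarTower.algebraMap_eq]
    have h1 := hroot N (wv v) x (p.map (algebraMap K N)) (hne p hp) s hs
      ((Helper52.Vojta.ldeg v (wv v) : ℝ) * ∑ i ∈ Finset.Ico s r, l0 v p i) (by
        intro I hI
        have h2 := s5 v p I
        rw [hI, show r - (r - s) = s by omega, ← Finset.sum_div, le_div_iff₀ hdR, mul_comm] at h2
        exact h2)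
    rw [← hx, hmap, tay_map, coeff_map, Helper52.Vojta.nv_above hw] at h1
    have h3 : sn (wv v) ![(p.map (algebraMap K N)).getD 0, 1] =
        sn v ![p.getD 0, 1] ^ Helper52.Vojta.ldeg v (wv v) := by
      rw [← Helper52.Vojta.sn_above (by norm_num) hw]
      congr 1
      funext i
      fin_cases i
      · cases p <;> simp
      · simp
    have h4 : vn (wv v) (cf r ((P.map (algebraMap k K)).map (algebraMap K N))) =
        vn v (cf r (P.map (algebraMap k K))) ^ Helper52.Vojta.ldeg v (wv v) := by
      rw [← vn_above hw]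
      congr 1
      funext i
      simp [cf]
    have h5 : Real.exp (-((Helper52.Vojta.ldeg v (wv v) : ℝ) * ∑ i ∈ Finset.Ico s r, l0 v p i)) =
        Real.exp (-(∑ i ∈ Finset.Ico s r, l0 v p i)) ^ Helper52.Vojta.ldeg v (wv v) := by
      rw [← Real.exp_nat_mul]
      congr 1
      ring
    rw [h3, h4, h5] at h1
    have hvn0 : 0 ≤ vn v (cf r (P.map (algebraMap k K))) :=
      Real.iSup_nonneg (fun i => Helper64.Vojta.nv_nonneg _ _)
    have h6 : nv v ((tay p r (P.map (algebraMap k K))).coeff s) ^ Helper52.Vojta.ldeg v (wv v) ≤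
        (c0 * B v p * Real.exp (-(∑ i ∈ Finset.Ico s r, l0 v p i)) *
          vn v (cf r (P.map (algebraMap k K)))) ^ Helper52.Vojta.ldeg v (wv v) := by
      refine h1.trans ?_
      rw [mul_pow, mul_pow, mul_pow]
      have e1 : (sn v ![p.getD 0, 1] ^ Helper52.Vojta.ldeg v (wv v)) ^ r =
          B v p ^ Helper52.Vojta.ldeg v (wv v) := by
        rw [hB]
        simp only
        rw [← pow_mul, ← pow_mul, mul_comm]
      rw [e1]
      have e2 : c0 ≤ c0 ^ Helper52.Vojta.ldeg v (wv v) := le_self_pow₀ hc0 hd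
      have e3 : 0 ≤ B v p ^ Helper52.Vojta.ldeg v (wv v) := pow_nonneg (hB0 v p) _
      have e4 : 0 ≤ Real.exp (-(∑ i ∈ Finset.Ico s r, l0 v p i)) ^ Helper52.Vojta.ldeg v (wv v) := by
        positivity
      have e5 : 0 ≤ vn v (cf r (P.map (algebraMap k K))) ^ Helper52.Vojta.ldeg v (wv v) :=
        pow_nonneg hvn0 _
      exact mul_le_mul_of_nonneg_right (mul_le_mul_of_nonneg_right
        (mul_le_mul_of_nonneg_right e2 e3) e4) e5
    have h7 : nv v ((tay p r (P.map (algebraMap k K))).coeff s) ≤
        c0 * B v p * Real.exp (-(∑ i ∈ Finset.Ico s r, l0 v p i)) *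
          vn v (cf r (P.map (algebraMap k K))) :=
      le_of_pow_le_pow_left₀ hd (by
        have := hB0 v p
        have : 0 ≤ c0 := by linarith
        positivity) h6
    refine h7.trans ?_
    calc c0 * B v p * Real.exp (-(∑ i ∈ Finset.Ico s r, l0 v p i)) *
          vn v (cf r (P.map (algebraMap k K)))
        ≤ c * Real.exp (-(∑ i ∈ Finset.Ico s r, l0 v p i)) *
          vn v (cf r (P.map (algebraMap k K))) := by
          apply mul_le_mul_of_nonneg_right _ hvn0
          exact mul_le_mul_of_nonneg_right (hcB v hv p hp) (Real.exp_pos _).le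
      _ = c * vn v (cf r (P.map (algebraMap k K))) *
          Real.exp (-(∑ i ∈ Finset.Ico s r, l0 v p i)) := by ring
  · -- (iii)
    intro v p i
    have hPK : (P.map (algebraMap k K)).Monic := hPm.map _
    have hcf : cf r (P.map (algebraMap k K)) ≠ 0 := by
      intro h0
      have h1 := congrFun h0 (Fin.last r)
      have h2 : (P.map (algebraMap k K)).coeff r = 1 := by
        have h3 : (P.map (algebraMap k K)).natDegree = r := by rw [hPm.natDegree_map, hPd]
        conv_lhs => rw [← h3]
        exact hPK.coeff_natDegree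
      simp only [cf, Fin.val_last, Pi.zero_apply] at h1
      rw [h2] at h1
      exact one_ne_zero h1
    have hvH : 0 ≤ vH (cf r (P.map (algebraMap k K))) := V2.vH_nonneg hcf
    have hpos : 0 ≤ c * (vH (cf r (P.map (algebraMap k K))) + 1) := by
      apply mul_nonneg (by linarith) (by linarith)
    by_cases hp : p ∈ A
    · simp only [if_pos hp]
      apply s7 v p _ hpos
      intro i
      rw [div_le_iff₀ (by linarith [hld v])]
      have h1 : L (wv v) p i ≤ c * (vH (cf r (P.map (algebraMap k K))) + 1) := by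
        rw [hL]
        apply max_le hpos
        refine (hcL p N hKN P hPm hPd x hx i (hne p hp i) (wv v)).trans ?_
        exact mul_le_mul_of_nonneg_right (hccL p hp) (by linarith)
      exact h1.trans (le_mul_of_one_le_right hpos (hld v))
    · simp only [if_neg hp]; exact hpos
  · -- (iv)
    intro v hv
    have h1 : ∀ p ∈ A, ((Finset.range r).filter (fun i => c < (if p ∈ A then l0 v p else fun _ => 0) i)).card =
        ((Finset.univ : Finset (Fin r)).filter
          (fun i => c < L (wv v) p i / Helper52.Vojta.ldeg v (wv v))).card := by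
      intro p hp
      rw [if_pos hp]
      exact s6 v p c
    rw [Finset.sum_congr rfl h1, ← Finset.card_biUnion]
    · calc _ ≤ (Finset.univ : Finset (Fin r)).card := Finset.card_le_card (Finset.subset_univ _)
        _ = r := by simp
    · intro p hp p' hp' hpp
      rw [Function.onFun, Finset.disjoint_left]
      intro i hi hi'
      rw [Finset.mem_filter] at hi hi'
      have e1 : c < L (wv v) p i := hi.2.trans_le (div_le_self (hL0 _ _ _) (hld v))
      have e2 : c < L (wv v) p' i := hi'.2.trans_le (div_le_self (hL0 _ _ _) (hld v))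
      have e3 : c < cl (wv v) (x i) (p.map (algebraMap K N)) := by
        rw [hL] at e1
        rcases lt_max_iff.mp e1 with h | h
        · linarith
        · exact h
      have e4 : c < cl (wv v) (x i) (p'.map (algebraMap K N)) := by
        rw [hL] at e2
        rcases lt_max_iff.mp e2 with h | h
        · linarith
        · exact h
      have e5 := hcs v N hKN (wv v) (hwv v) (x i) p hp p' hp' hpp (hne p hp i) (hne p' hp' i)
      have e6 := hccs v hv
      have e7 := lt_min e3 e4
      linarith

end Pool.Agent.Helper61.AD
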