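import Mathlib
import Pool.Agent.Helper21.V2.M0

/-! # Global sums of functions supported on a finite set of places -/

namespace Pool.Agent.Helper61.AD

open NumberField Finset
open Pool.Agent.Helper64.Vojta (Pl nv)
open Pool.Agent.V2

variable {k : Type*} [Field k] [NumberField k]

theorem gsum_supp (T : Finset (Pl k)) (f : Pl k → ℝ) (h : ∀ v, v ∉ T → f v = 0) :
    gsum f = ∑ v ∈ T, f v := by
  classical
  unfold gsum
  have h1 : ∑ v : InfinitePlace k, f (.inl v) = ∑ v ∈ T.toLeft, f (.inl v) := by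
    symm
    refine Finset.sum_subset (Finset.subset_univ _) fun v _ hv => ?_
    exact h _ fun hcon => hv (Finset.mem_toLeft.mpr hcon)
  have h2 : ∑ᶠ v : FinitePlace k, f (.inr v) = ∑ v ∈ T.toRight, f (.inr v) := by
    refine finsum_eq_sum_of_support_subset _ fun v hv => ?_
    by_contra hcon
    exact hv (h _ fun hc => hcon (Finset.mem_coe.mpr (Finset.mem_toRight.mpr hc)))
  rw [h1, h2]
  conv_rhs => rw [← Finset.toLeft_disjSum_toRight (u := T)]
  rw [Finset.sum_disjSum]

theorem finS_supp (T : Finset (Pl k)) (f : Pl k → ℝ) (h : ∀ v, v ∉ T → f v = 0) : FinS f := by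
  refine Set.Finite.subset T.toRight.finite_toSet fun v hv => ?_
  by_contra hcon
  exact hv (h _ fun hc => hcon (Finset.mem_coe.mpr (Finset.mem_toRight.mpr hc)))

/-- a global sum is at most a finite sum if the other terms are non-positive -/
theorem gsum_le_sum (T : Finset (Pl k)) {f g : Pl k → ℝ} (hf : FinS f)
    (h1 : ∀ v ∈ T, f v ≤ g v) (h2 : ∀ v, v ∉ T → f v ≤ 0) : gsum f ≤ ∑ v ∈ T, g v := by
  classical
  have h3 : gsum (fun v => if v ∈ T then g v else 0) = ∑ v ∈ T, (if v ∈ T then g v else 0) :=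
    gsum_supp T _ fun v hv => if_neg hv
  have h4 : ∑ v ∈ T, (if v ∈ T then g v else 0) = ∑ v ∈ T, g v :=
    Finset.sum_congr rfl fun v hv => if_pos hv
  rw [← h4, ← h3]
  refine gsum_mono hf (finS_supp T _ fun v hv => if_neg hv) fun v => ?_
  by_cases hv : v ∈ T
  · simp only [if_pos hv]; exact h1 v hv
  · simp only [if_neg hv]; exact h2 v hv

end Pool.Agent.Helper61.AD
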