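import Pool.Agent.Helper61.AD.Gauss
import Pool.Agent.Helper61.AD.Tower

/-!
# Block AD-FIN2: the discriminant

(a) `discr_eq`: for `P` monic irreducible of degree `r ≥ 1` with roots `x i` in `N`:
`algebraMap k N P.discr = ± ∏_i ∏_{j ≠ i} (x i - x j)` (`Polynomial.resultant_deriv`, `resultant_eq_prod_eval` or
`resultant_eq_prod_roots_sub`, `discr`/`resultant` commute with `map`: `resultant_map_map`), and it is non-zero.
(b) `disc_le`. Product formula for `P.discr ≠ 0` over `k`: with `R = 2 r - 2`,
`R vH (cf r P) = ∑_all places (R log vn ν (cf r P) - log nv ν P.discr)`; the finite places outside `S` give the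
finsum; so it remains to see for `ν ∈ S`:
`[N:k] (R log vn ν (cf r P) - log nv ν P.discr) ≤ ∑_{w ∈ above N ν} ∑_i ∑_{j ≠ i} cl w (x i) (some (x j)) + c`.
Indeed `∑_i ∑_{j ≠ i} cl w (x i) (some (x j)) = R ∑_i log sn w ![x i,1] - log nv w (algebraMap P.discr)` and
`log vn w (cf r (P.map ..)) ≤ log c + ∑_i log sn w ![x i,1]` (`easy_fin`, `easy_inf`), and
`∑_{w ∈ above N ν} log vn w (P.map ..) = [N:k] log vn ν (P)` (as `sum_log_sn`; `sn` and `vn` are the same
supremum), `sum_log_nv`.
-/

namespace Pool.Agent.Helper61.AD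

open NumberField Finset Polynomial Module
open Pool.Agent.Helper64.Vojta (Pl nv sn above)
open Pool.Agent.V2 (vn vH)

universe u

namespace Fin2

/-- derivative of a product of linear factors at a root -/
theorem eval_deriv_prod {N : Type*} [Field N] {r : ℕ} (x : Fin r → N) (i : Fin r) :
    (derivative (∏ i, (X - C (x i)))).eval (x i) = ∏ j ∈ Finset.univ.erase i, (x i - x j) := by
  classical
  rw [derivative_prod_finset, eval_finsetSum, Finset.sum_eq_single i]
  · simp [eval_prod]
  · intro b _ hb
    rw [eval_mul, eval_prod, Finset.prod_eq_zero (i := i) (Finset.mem_erase.mpr ⟨hb.symm, Finset.mem_univ _⟩), zero_mul]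
    simp
  · intro h; exact absurd (Finset.mem_univ _) h

end Fin2

theorem discr_eq {k : Type u} [Field k] [NumberField k] {N : Type u} [Field N] [NumberField N]
    [Algebra k N] {r : ℕ} (hr : 0 < r) (P : k[X]) (hP : P.Monic) (hirr : Irreducible P)
    (hdeg : P.natDegree = r) (x : Fin r → N)
    (hx : P.map (algebraMap k N) = ∏ i, (X - C (x i))) :
    P.discr ≠ 0 ∧ Function.Injective x ∧ ∃ e : ℕ,
      algebraMap k N P.discr = (-1) ^ e * ∏ i, ∏ j ∈ Finset.univ.erase i, (x i - x j) := by
  classical
  have hinj : Function.Injective x := by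
    have hsep : (P.map (algebraMap k N)).Separable := hirr.separable.map
    rw [hx] at hsep
    exact separable_prod_X_sub_C_iff.mp hsep
  have hprod : ∏ i, ∏ j ∈ Finset.univ.erase i, (x i - x j) ≠ 0 := by
    refine Finset.prod_ne_zero_iff.mpr fun i _ => Finset.prod_ne_zero_iff.mpr fun j hj => ?_
    rw [sub_ne_zero]
    intro h
    exact (Finset.mem_erase.mp hj).1 (hinj h).symm
  have hdegP : 0 < P.degree := natDegree_pos_iff_degree_pos.mp (by omega)
  have h1 := resultant_deriv hdegP
  rw [hP.leadingCoeff, mul_one] at h1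
  have h2 := congrArg (algebraMap k N) h1
  rw [← resultant_map_map, ← derivative_map, hx] at h2
  have hQd : (∏ i, (X - C (x i))).natDegree = r := by
    rw [← hx, natDegree_map, hdeg]
  have hQm : (∏ i, (X - C (x i))).Monic := monic_prod_of_monic _ _ fun i _ => monic_X_sub_C _
  have hsp : (∏ i, (X - C (x i))).Splits := Splits.prod fun i _ => Splits.X_sub_C _
  have h3 := resultant_eq_prod_eval (∏ i, (X - C (x i))) (derivative (∏ i, (X - C (x i)))) (r - 1)
    ((natDegree_derivative_le _).trans (by rw [hQd])) hsp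
  rw [hQd, hQm.leadingCoeff, one_pow, one_mul] at h3
  rw [hdeg, h3] at h2
  have h4 : ((∏ i, (X - C (x i))).roots.map (derivative (∏ i, (X - C (x i)))).eval).prod
      = ∏ i, ∏ j ∈ Finset.univ.erase i, (x i - x j) := by
    have : (∏ i, (X - C (x i))).roots = Finset.univ.val.map x := by
      have := roots_multiset_prod_X_sub_C (Finset.univ.val.map x)
      rw [Multiset.map_map] at this
      exact this
    rw [this, Multiset.map_map]
    refine Finset.prod_congr rfl fun i _ => ?_
    exact Fin2.eval_deriv_prod x i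
  rw [h4] at h2
  rw [map_mul, map_pow, map_neg, map_one] at h2
  have h5 : algebraMap k N P.discr = (-1) ^ (r * (r - 1) / 2) * ∏ i, ∏ j ∈ Finset.univ.erase i, (x i - x j) := by
    rw [h2, ← mul_assoc, ← pow_add, ← two_mul, pow_mul]
    simp
  refine ⟨?_, hinj, _, h5⟩
  intro h0
  rw [h0, map_zero] at h5
  have : ((-1 : N)) ^ (r * (r - 1) / 2) ≠ 0 := pow_ne_zero _ (by simp)
  exact (mul_ne_zero this hprod) h5.symm


namespace Fin2

/-- finite sets of places and finsums -/
theorem finsum_split {k : Type u} [Field k] [NumberField k] (S : Finset (Pl k))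
    (hS : ∀ v : InfinitePlace k, Sum.inl v ∈ S) (g : Pl k → ℝ)
    (hg : (Function.support fun v : FinitePlace k => g (.inr v)).Finite) :
    ∑ v : InfinitePlace k, g (.inl v) + ∑ᶠ v : FinitePlace k, g (.inr v)
      = (∑ᶠ (v : FinitePlace k) (_ : Sum.inr v ∉ S), g (.inr v)) + ∑ ν ∈ S, g ν := by
  classical
  let W : Finset (FinitePlace k) := hg.toFinset ∪ S.toRight
  have h1 : ∑ᶠ v : FinitePlace k, g (.inr v) = ∑ v ∈ W, g (.inr v) := by
    apply finsum_eq_sum_of_support_subset
    intro v hv
    simp only [W, Finset.coe_union, Set.mem_union, Set.Finite.coe_toFinset]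
    left; exact hv
  have h2 : (∑ᶠ (v : FinitePlace k) (_ : Sum.inr v ∉ S), g (.inr v))
      = ∑ v ∈ W.filter (fun v => Sum.inr v ∉ S), g (.inr v) := by
    have : ∀ v : FinitePlace k, (∑ᶠ (_ : Sum.inr v ∉ S), g (.inr v)) = if Sum.inr v ∉ S then g (.inr v) else 0 := by
      intro v
      by_cases h : Sum.inr v ∉ S
      · simp [h]
      · simp [h]
    simp_rw [this]
    rw [Finset.sum_filter]
    apply finsum_eq_sum_of_support_subset
    intro v hv
    simp only [W, Finset.coe_union, Set.mem_union, Set.Finite.coe_toFinset]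
    left
    rw [Function.mem_support] at hv ⊢
    intro h0
    apply hv
    simp [h0]
  have h3 : ∑ ν ∈ S, g ν = ∑ v : InfinitePlace k, g (.inl v) + ∑ v ∈ S.toRight, g (.inr v) := by
    rw [← Finset.toLeft_disjSum_toRight (u := S), Finset.sum_disjSum, Finset.toLeft_disjSum_toRight (u := S)]
    congr 1
    refine Finset.sum_subset (Finset.subset_univ _) ?_
    intro w _ hw
    exact absurd (Finset.mem_toLeft.mpr (hS w)) hw
  have h4 : W.filter (fun v => Sum.inr v ∈ S) = S.toRight := by
    ext v
    simp only [W, Finset.mem_filter, Finset.mem_union, Finset.mem_toRight]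
    constructor
    · rintro ⟨_, h⟩; exact h
    · intro h; exact ⟨Or.inr h, h⟩
  have h5 : ∑ v ∈ W, g (.inr v) = ∑ v ∈ W.filter (fun v => Sum.inr v ∈ S), g (.inr v)
      + ∑ v ∈ W.filter (fun v => Sum.inr v ∉ S), g (.inr v) :=
    (Finset.sum_filter_add_sum_filter_not _ _ _).symm
  rw [h1, h2, h3, h5, h4]
  ring

theorem nv_neg_one_pow {N : Type*} [Field N] [NumberField N] (w : Pl N) (e : ℕ) (y : N) :
    nv w ((-1) ^ e * y) = nv w y := by
  have h1 : nv w (-1 : N) = 1 := by
    rcases w with w | w
    · have : w (-1 : N) = 1 := by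
        have h := w.1.map_neg (1 : N)
        rw [w.1.map_one] at h
        exact h
      change w (-1 : N) ^ w.mult = 1
      rw [this, one_pow]
    · have h := w.1.map_neg (1 : N)
      rw [w.1.map_one] at h
      exact h
  have h2 : nv w ((-1 : N) ^ e) = 1 := by
    induction e with
    | zero => rw [pow_zero, Pool.Agent.Helper64.Vojta.nv_one]
    | succ e ih => rw [pow_succ, Pool.Agent.Helper64.Vojta.nv_mul, ih, h1, one_mul]
  rw [Pool.Agent.Helper64.Vojta.nv_mul, h2, one_mul]

theorem nv_prod {N : Type*} [Field N] [NumberField N] (w : Pl N) {ι : Type*} (s : Finset ι) (f : ι → N) :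
    nv w (∏ i ∈ s, f i) = ∏ i ∈ s, nv w (f i) := by
  classical
  induction s using Finset.induction_on with
  | empty => simp [Pool.Agent.Helper64.Vojta.nv_one]
  | insert a s ha ih => rw [Finset.prod_insert ha, Finset.prod_insert ha, Pool.Agent.Helper64.Vojta.nv_mul, ih]

theorem sn_one_pos {N : Type*} [Field N] [NumberField N] (w : Pl N) (a : N) : 0 < sn w ![a, 1] := by
  refine Pool.Agent.Helper64.Vojta.sn_pos w ?_
  intro h
  have := congrFun h 1
  simp at this

/-- the double sum of the local closenesses -/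
theorem cl_sum {N : Type*} [Field N] [NumberField N] (w : Pl N) {r : ℕ} (x : Fin r → N)
    (hinj : Function.Injective x) :
    ∑ i, ∑ j ∈ Finset.univ.erase i, cl w (x i) (some (x j))
      = (2 * (r : ℝ) - 2) * ∑ i, Real.log (sn w ![x i, 1])
        - Real.log (nv w (∏ i, ∏ j ∈ Finset.univ.erase i, (x i - x j))) := by
  classical
  have hne : ∀ i, ∀ j ∈ Finset.univ.erase i, nv w (x i - x j) ≠ 0 := by
    intro i j hj
    refine (Pool.Agent.Helper64.Vojta.nv_pos w ?_).ne'
    rw [sub_ne_zero]
    intro h
    exact (Finset.mem_erase.mp hj).1 (hinj h).symm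
  rw [nv_prod]
  simp_rw [nv_prod]
  rw [Real.log_prod (fun i _ => Finset.prod_ne_zero_iff.mpr (hne i))]
  have h1 : ∀ i, Real.log (∏ j ∈ Finset.univ.erase i, nv w (x i - x j))
      = ∑ j ∈ Finset.univ.erase i, Real.log (nv w (x i - x j)) := fun i =>
    Real.log_prod (hne i)
  simp_rw [h1]
  have h2 : ∀ i, ∑ j ∈ Finset.univ.erase i, cl w (x i) (some (x j))
      = ((r : ℝ) - 1) * Real.log (sn w ![x i, 1])
        + (∑ j, Real.log (sn w ![x j, 1]) - Real.log (sn w ![x i, 1]))
        - ∑ j ∈ Finset.univ.erase i, Real.log (nv w (x i - x j)) := by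
    intro i
    have hr : 0 < r := i.pos
    change ∑ j ∈ Finset.univ.erase i, (Real.log (sn w ![x i, 1]) + Real.log (sn w ![x j, 1])
      - Real.log (nv w (x i - x j))) = _
    rw [Finset.sum_sub_distrib, Finset.sum_add_distrib, Finset.sum_const,
      Finset.card_erase_of_mem (Finset.mem_univ _), Finset.card_univ, Fintype.card_fin, nsmul_eq_mul,
      Finset.sum_erase_eq_sub (Finset.mem_univ _), Nat.cast_sub (by omega)]
    push_cast
    ring
  simp_rw [h2]
  rw [Finset.sum_sub_distrib, Finset.sum_add_distrib, Finset.sum_sub_distrib, Finset.sum_const,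
    Finset.card_univ, Fintype.card_fin, nsmul_eq_mul, ← Finset.mul_sum]
  ring

theorem sum_log_vn {k : Type u} [Field k] [NumberField k] {N : Type u} [Field N] [NumberField N]
    [Algebra k N] (r : ℕ) (ν : Pl k) (P : k[X]) :
    ∑ w ∈ above N ν, Real.log (vn w (cf r (P.map (algebraMap k N))))
      = finrank k N * Real.log (vn ν (cf r P)) := by
  have h := Pool.Agent.Helper52.Vojta.sum_log_sn (L' := N) (Nat.succ_pos r) ν (cf r P)
  have e : (fun i => algebraMap k N (cf r P i)) = cf r (P.map (algebraMap k N)) := by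
    funext i
    simp [cf, coeff_map]
  rw [e] at h
  exact h

end Fin2

theorem disc_le {k : Type u} [Field k] [NumberField k] (S : Finset (Pl k))
    (hS : ∀ v : InfinitePlace k, Sum.inl v ∈ S) (r : ℕ) (hr : 0 < r) (D : ℕ) :
    ∃ c : ℝ, ∀ (N : Type u) [Field N] [NumberField N] [Algebra k N], finrank k N ≤ D →
      ∀ P : k[X], P.Monic → Irreducible P → P.natDegree = r → ∀ x : Fin r → N,
      P.map (algebraMap k N) = ∏ i, (X - C (x i)) →
      finrank k N * ((2 * r - 2) * vH (cf r P)) ≤
        finrank k N * (∑ᶠ (v : FinitePlace k) (_ : Sum.inr v ∉ S),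
          ((2 * r - 2) * Real.log (vn (.inr v) (cf r P)) - Real.log (nv (.inr v) P.discr))) +
        ∑ ν ∈ S, ∑ w ∈ above N ν, ∑ i, ∑ j ∈ Finset.univ.erase i, cl w (x i) (some (x j)) + c := by
  classical
  obtain ⟨c0, hc0, heasy⟩ := easy_inf r
  have hR : (0 : ℝ) ≤ 2 * (r : ℝ) - 2 := by
    have : (1 : ℝ) ≤ r := by exact_mod_cast hr
    linarith
  have hlogc : 0 ≤ Real.log c0 := Real.log_nonneg hc0
  refine ⟨S.card * (D * ((2 * (r : ℝ) - 2) * Real.log c0)), ?_⟩
  intro N _ _ _ hND P hP hirr hdeg x hx
  obtain ⟨hdisc, hinj, e, he⟩ := discr_eq hr P hP hirr hdeg x hx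
  have hcf : cf r P ≠ 0 := by
    intro h
    have := congrFun h (Fin.last r)
    simp only [cf, Fin.val_last, Pi.zero_apply] at this
    rw [← hdeg] at this
    rw [coeff_natDegree, hP.leadingCoeff] at this
    exact one_ne_zero this
  set g : Pl k → ℝ := fun ν => (2 * (r : ℝ) - 2) * Real.log (vn ν (cf r P)) - Real.log (nv ν P.discr) with hg
  have hs1 : (Function.support fun v : FinitePlace k => Real.log (sn (.inr v) (cf r P))).Finite :=
    Pool.Agent.Helper64.Vojta.log_support _ (Pool.Agent.Helper64.Vojta.fin_support_sn hcf)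
  have hs2 : (Function.support fun v : FinitePlace k => Real.log (nv (.inr v) P.discr)).Finite :=
    Pool.Agent.Helper64.Vojta.log_support _ (Pool.Agent.Helper64.Vojta.fin_support_nv hdisc)
  have hgs : (Function.support fun v : FinitePlace k => g (.inr v)).Finite := by
    refine (hs1.union hs2).subset ?_
    intro v hv
    by_contra hcon
    simp only [Set.mem_union, Function.mem_support, not_or, not_not] at hcon
    apply hv
    change (2 * (r : ℝ) - 2) * Real.log (sn (.inr v) (cf r P)) - Real.log (nv (.inr v) P.discr) = 0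
    rw [hcon.1, hcon.2]; ring
  have htot : (2 * (r : ℝ) - 2) * vH (cf r P)
      = ∑ v : InfinitePlace k, g (.inl v) + ∑ᶠ v : FinitePlace k, g (.inr v) := by
    have hpf := Pool.Agent.Helper64.Vojta.product_formula_log hdisc
    have e1 : ∑ v : InfinitePlace k, g (.inl v)
        = (2 * (r : ℝ) - 2) * ∑ v : InfinitePlace k, Real.log (vn (.inl v) (cf r P))
          - ∑ v : InfinitePlace k, Real.log (nv (.inl v) P.discr) := by
      rw [hg, Finset.sum_sub_distrib, Finset.mul_sum]
    have e2 : ∑ᶠ v : FinitePlace k, g (.inr v)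
        = (2 * (r : ℝ) - 2) * ∑ᶠ v : FinitePlace k, Real.log (vn (.inr v) (cf r P))
          - ∑ᶠ v : FinitePlace k, Real.log (nv (.inr v) P.discr) := by
      rw [hg, finsum_sub_distrib ?_ hs2, mul_finsum]
      · refine Set.Finite.subset hs1 ?_
        intro v hv
        rw [Function.mem_support] at hv ⊢
        intro h0
        apply hv
        change (2 * (r : ℝ) - 2) * Real.log (sn (.inr v) (cf r P)) = 0
        rw [h0, mul_zero]
    rw [e1, e2]
    change (2 * (r : ℝ) - 2) * (∑ v : InfinitePlace k, Real.log (vn (.inl v) (cf r P))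
      + ∑ᶠ v : FinitePlace k, Real.log (vn (.inr v) (cf r P))) = _
    linear_combination hpf
  have hsplit := Fin2.finsum_split S hS g hgs
  -- local estimate
  have hloc : ∀ ν ∈ S, (finrank k N : ℝ) * g ν ≤ ∑ w ∈ above N ν, ∑ i, ∑ j ∈ Finset.univ.erase i,
      cl w (x i) (some (x j)) + D * ((2 * (r : ℝ) - 2) * Real.log c0) := by
    intro ν _
    have h1 := Fin2.sum_log_vn (N := N) r ν P
    have h2 := Pool.Agent.Helper52.Vojta.sum_log_nv (L' := N) ν P.discr
    have h3 : (finrank k N : ℝ) * g ν = ∑ w ∈ above N ν, ((2 * (r : ℝ) - 2)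
        * Real.log (vn w (cf r (P.map (algebraMap k N)))) - Real.log (nv w (algebraMap k N P.discr))) := by
      rw [Finset.sum_sub_distrib, ← Finset.mul_sum, h1, h2, hg]
      ring
    rw [h3]
    have h4 : ∀ w ∈ above N ν, ((2 * (r : ℝ) - 2)
        * Real.log (vn w (cf r (P.map (algebraMap k N)))) - Real.log (nv w (algebraMap k N P.discr)))
        ≤ ∑ i, ∑ j ∈ Finset.univ.erase i, cl w (x i) (some (x j)) + (2 * (r : ℝ) - 2) * Real.log c0 := by
      intro w _
      rw [Fin2.cl_sum w x hinj, he, Fin2.nv_neg_one_pow, hx]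
      have hpos : 0 < ∏ i, sn w ![x i, 1] := Finset.prod_pos fun i _ => Fin2.sn_one_pos w _
      have hcfx : cf r (∏ i, (X - C (x i))) ≠ 0 := by
        intro h
        have := congrFun h (Fin.last r)
        simp only [cf, Fin.val_last, Pi.zero_apply] at this
        rw [← hx, coeff_map, ← hdeg, coeff_natDegree, hP.leadingCoeff, map_one] at this
        exact one_ne_zero this
      have hvpos : 0 < vn w (cf r (∏ i, (X - C (x i)))) := Pool.Agent.Helper64.Vojta.sn_pos w hcfx
      have h5 : Real.log (vn w (cf r (∏ i, (X - C (x i))))) ≤ Real.log c0 + ∑ i, Real.log (sn w ![x i, 1]) := by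
        rw [← Real.log_prod (fun i _ => (Fin2.sn_one_pos w (x i)).ne')]
        rcases w with w | w
        · have := heasy N w x
          rw [← Real.log_mul (by linarith) hpos.ne']
          exact Real.log_le_log hvpos this
        · have := easy_fin w x
          have := Real.log_le_log hvpos this
          linarith
      have h6 := mul_le_mul_of_nonneg_left h5 hR
      linarith
    refine (Finset.sum_le_sum h4).trans ?_
    rw [Finset.sum_add_distrib, Finset.sum_const, nsmul_eq_mul]
    have h7 : ((above N ν).card : ℝ) ≤ D := by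
      exact_mod_cast (Pool.Agent.Helper64.Vojta.card_above_le ν).trans hND
    have h8 : ((above N ν).card : ℝ) * ((2 * (r : ℝ) - 2) * Real.log c0)
        ≤ D * ((2 * (r : ℝ) - 2) * Real.log c0) :=
      mul_le_mul_of_nonneg_right h7 (mul_nonneg hR hlogc)
    linarith
  have hsum := Finset.sum_le_sum hloc
  rw [← Finset.mul_sum, Finset.sum_add_distrib, Finset.sum_const, nsmul_eq_mul] at hsum
  rw [htot, hsplit, mul_add]
  linarith

end Pool.Agent.Helper61.AD
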