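import Pool.Agent.Helper61.AD.Defs

/-!
# Block AD-GAUSSF: local norms of a product of linear factors at the finite places

`gauss_fin`, `easy_fin`, `cl_nonneg_fin` with the statements of `Gauss.lean`; the proofs use the
multiplicativity of the Gauss norm of a non-archimedean absolute value (`Polynomial.gaussNorm_mul`).
-/

namespace Pool.Agent.Helper61.AD.GF

open NumberField Finset Polynomial
open Pool.Agent.Helper64.Vojta (Pl nv sn nv_nonneg nv_zero nv_one nv_pos le_sn sn_le sn_pos)
open Pool.Agent.V2 (vn vH le_vn vn_le)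

universe u

variable {N : Type u} [Field N] [NumberField N]

theorem isNonarch (w : FinitePlace N) : IsNonarchimedean w.1 :=
  fun a b => FinitePlace.add_le w a b

/-- The Gauss norm of a linear factor. -/
theorem gaussNorm_lin (w : FinitePlace N) (a : N) :
    (X - C a : N[X]).gaussNorm w.1 1 = sn (.inr w) ![a, 1] := by
  have h1 : sn (.inr w) ![a, 1] = max (w a) 1 := by
    refine le_antisymm (sn_le _ _ _ (le_max_of_le_right zero_le_one) ?_) (max_le ?_ ?_)
    · intro i
      fin_cases i
      · exact le_max_left _ _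
      · refine le_trans (le_of_eq ?_) (le_max_right _ _)
        exact nv_one (.inr w)
    · exact le_sn (.inr w) ![a, 1] 0
    · have := le_sn (.inr w) ![a, 1] 1
      rwa [show (![a, 1] : Fin 2 → N) 1 = 1 from rfl, nv_one] at this
  rw [h1]
  refine le_antisymm ?_ (max_le ?_ ?_)
  · obtain ⟨i, hi⟩ := (X - C a : N[X]).exists_eq_gaussNorm w.1 1
    rw [hi, one_pow, mul_one]
    rcases i with _ | _ | i
    · refine le_trans (le_of_eq ?_) (le_max_left _ _)
      rw [coeff_sub, coeff_X_zero, coeff_C_zero, zero_sub, AbsoluteValue.map_neg]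
      rfl
    · refine le_trans (le_of_eq ?_) (le_max_right _ _)
      rw [coeff_sub, coeff_X_one, coeff_C_of_ne_zero (by norm_num), sub_zero, map_one]
    · refine le_trans (le_of_eq ?_) (le_max_of_le_right zero_le_one)
      rw [coeff_sub, coeff_X_of_ne_one (by omega), coeff_C_of_ne_zero (by omega), sub_zero, map_zero]
  · have := (X - C a : N[X]).le_gaussNorm w.1 zero_le_one 0
    rwa [one_pow, mul_one, coeff_sub, coeff_X_zero, coeff_C_zero, zero_sub,
      AbsoluteValue.map_neg] at this
  · have := (X - C a : N[X]).le_gaussNorm w.1 zero_le_one 1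
    rwa [one_pow, mul_one, coeff_sub, coeff_X_one, coeff_C_of_ne_zero (by norm_num), sub_zero,
      map_one] at this

theorem gaussNorm_prod (w : FinitePlace N) {ι : Type*} (s : Finset ι) (f : ι → N[X]) :
    (∏ i ∈ s, f i).gaussNorm w.1 1 = ∏ i ∈ s, (f i).gaussNorm w.1 1 := by
  classical
  induction s using Finset.induction_on with
  | empty =>
    rw [Finset.prod_empty, Finset.prod_empty, ← C_1, gaussNorm_C, map_one]
  | insert a s ha ih =>
    rw [Finset.prod_insert ha, Finset.prod_insert ha, gaussNorm_mul (isNonarch w) zero_lt_one, ih]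

theorem gaussNorm_cf (w : FinitePlace N) {r : ℕ} (x : Fin r → N) :
    (∏ i, (X - C (x i))).gaussNorm w.1 1 = ∏ i, sn (.inr w) ![x i, 1] := by
  rw [gaussNorm_prod]
  exact Finset.prod_congr rfl fun i _ => gaussNorm_lin w (x i)

theorem vn_cf (w : FinitePlace N) {r : ℕ} (P : N[X]) (hP : P.natDegree ≤ r) :
    vn (.inr w) (cf r P) = P.gaussNorm w.1 1 := by
  refine le_antisymm (vn_le _ _ (P.gaussNorm_nonneg w.1 zero_le_one) fun j => ?_) ?_
  · have := P.le_gaussNorm w.1 zero_le_one j
    rwa [one_pow, mul_one] at this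
  · obtain ⟨i, hi⟩ := P.exists_eq_gaussNorm w.1 1
    rw [hi, one_pow, mul_one]
    by_cases hir : i ≤ r
    · exact le_vn (.inr w) (cf r P) ⟨i, by omega⟩
    · rw [coeff_eq_zero_of_natDegree_lt (by omega), map_zero]
      exact (nv_nonneg (.inr w) _).trans (le_vn (.inr w) (cf r P) 0)

omit [NumberField N] in
theorem natDegree_le_r {r : ℕ} (x : Fin r → N) : (∏ i, (X - C (x i))).natDegree ≤ r := by
  refine (Polynomial.natDegree_prod_le _ _).trans ?_
  simp

/-- The Gauss norm identity: equality at the finite places. -/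
theorem gauss_eq_fin (w : FinitePlace N) {r : ℕ} (x : Fin r → N) :
    vn (.inr w) (cf r (∏ i, (X - C (x i)))) = ∏ i, sn (.inr w) ![x i, 1] := by
  rw [vn_cf w _ (natDegree_le_r x), gaussNorm_cf]

theorem gauss_fin {N : Type u} [Field N] [NumberField N] (w : FinitePlace N) {r : ℕ} (x : Fin r → N) :
    ∏ i, sn (.inr w) ![x i, 1] ≤ vn (.inr w) (cf r (∏ i, (X - C (x i)))) :=
  (gauss_eq_fin w x).ge

theorem easy_fin {N : Type u} [Field N] [NumberField N] (w : FinitePlace N) {r : ℕ} (x : Fin r → N) :
    vn (.inr w) (cf r (∏ i, (X - C (x i)))) ≤ ∏ i, sn (.inr w) ![x i, 1] :=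
  (gauss_eq_fin w x).le

theorem one_le_sn (w : FinitePlace N) (a : N) : 1 ≤ sn (.inr w) ![a, 1] := by
  have := le_sn (.inr w) ![a, 1] 1
  rwa [show (![a, 1] : Fin 2 → N) 1 = 1 from rfl, nv_one] at this

theorem cl_nonneg_fin {N : Type u} [Field N] [NumberField N] (w : FinitePlace N) (a : N)
    (p : Option N) (h : p ≠ some a) : 0 ≤ cl (.inr w) a p := by
  rcases p with _ | b
  · exact Real.log_nonneg (one_le_sn w a)
  · have hab : a - b ≠ 0 := by
      intro h0
      exact h (by rw [sub_eq_zero.mp h0])
    have h1 : nv (.inr w) (a - b) ≤ sn (.inr w) ![a, 1] * sn (.inr w) ![b, 1] := by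
      have h2 : nv (.inr w) (a - b) ≤ max (nv (.inr w) a) (nv (.inr w) (-b)) := by
        rw [sub_eq_add_neg]
        exact FinitePlace.add_le w _ _
      have h3 : nv (.inr w) (-b) = nv (.inr w) b := by
        change w.1 (-b) = w.1 b
        exact AbsoluteValue.map_neg _ _
      refine h2.trans (max_le ?_ ?_)
      · have h4 : nv (.inr w) a ≤ sn (.inr w) ![a, 1] := le_sn (.inr w) ![a, 1] 0
        have h5 := one_le_sn w b
        have h6 := one_le_sn w a
        nlinarith
      · rw [h3]
        have h4 : nv (.inr w) b ≤ sn (.inr w) ![b, 1] := le_sn (.inr w) ![b, 1] 0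
        have h5 := one_le_sn w b
        have h6 := one_le_sn w a
        nlinarith
    have h7 := Real.log_le_log (nv_pos (.inr w) hab) h1
    rw [Real.log_mul (by linarith [one_le_sn w a]) (by linarith [one_le_sn w b])] at h7
    change 0 ≤ Real.log (sn (.inr w) ![a, 1]) + Real.log (sn (.inr w) ![b, 1]) -
      Real.log (nv (.inr w) (a - b))
    linarith

end Pool.Agent.Helper61.AD.GF
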