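import Pool.Agent.Helper61.AD.GaussF

/-!
# Block AD-GAUSSI: local norms of a product of linear factors at the infinite places

`gauss_inf`, `easy_inf`, `cl_ge` with the statements of `Gauss.lean`; the proofs use the Mahler measure of
the image of the polynomial under the embedding of the place.
-/

namespace Pool.Agent.Helper61.AD.GI

open NumberField Finset Polynomial
open Pool.Agent.Helper64.Vojta (Pl nv sn nv_nonneg nv_zero nv_one nv_pos le_sn sn_le sn_pos mult_le_two)
open Pool.Agent.V2 (vn vH le_vn vn_le)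

universe u

variable {N : Type u} [Field N] [NumberField N]

theorem sn_inf (w : InfinitePlace N) (a : N) : sn (.inl w) ![a, 1] = max 1 (w a) ^ w.mult := by
  refine le_antisymm (sn_le _ _ _ (pow_nonneg (zero_le_one.trans (le_max_left _ _)) _) ?_) ?_
  · intro i
    fin_cases i
    · exact pow_le_pow_left₀ (apply_nonneg w a) (le_max_right _ _) _
    · change nv (.inl w) (1 : N) ≤ _
      rw [nv_one]
      exact one_le_pow₀ (le_max_left _ _)
  · rcases le_total 1 (w a) with h | h
    · rw [max_eq_right h]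
      exact le_sn (.inl w) ![a, 1] 0
    · rw [max_eq_left h, one_pow]
      have := le_sn (.inl w) ![a, 1] 1
      rwa [show (![a, 1] : Fin 2 → N) 1 = 1 from rfl, nv_one] at this

omit [NumberField N] in
/-- The Mahler measure of the image of the product of linear factors. -/
theorem mahler_prod (w : InfinitePlace N) {ι : Type*} (s : Finset ι) (x : ι → N) :
    ((∏ i ∈ s, (X - C (x i))).map w.embedding).mahlerMeasure = ∏ i ∈ s, max 1 (w (x i)) := by
  classical
  induction s using Finset.induction_on with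
  | empty => simp
  | insert a s ha ih =>
    rw [Finset.prod_insert ha, Finset.prod_insert ha, Polynomial.map_mul, mahlerMeasure_mul, ih,
      Polynomial.map_sub, map_X, map_C, mahlerMeasure_X_sub_C, InfinitePlace.norm_embedding_eq]

theorem prod_sn (w : InfinitePlace N) {r : ℕ} (x : Fin r → N) :
    ∏ i, sn (.inl w) ![x i, 1] =
      ((∏ i, (X - C (x i))).map w.embedding).mahlerMeasure ^ w.mult := by
  rw [mahler_prod, ← Finset.prod_pow]
  exact Finset.prod_congr rfl fun i _ => sn_inf w (x i)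

omit [NumberField N] in
theorem pow_mult_le {c : ℝ} (hc : 1 ≤ c) (w : InfinitePlace N) : c ^ w.mult ≤ c ^ 2 :=
  pow_le_pow_right₀ hc (mult_le_two w)

omit [NumberField N] in
theorem norm_coeff_map (w : InfinitePlace N) (P : N[X]) (j : ℕ) :
    ‖(P.map w.embedding).coeff j‖ = w (P.coeff j) := by
  rw [coeff_map, InfinitePlace.norm_embedding_eq]

theorem gauss_inf (r : ℕ) : ∃ c : ℝ, 1 ≤ c ∧ ∀ (N : Type u) [Field N] [NumberField N]
    (w : InfinitePlace N) (x : Fin r → N),
    ∏ i, sn (.inl w) ![x i, 1] ≤ c * vn (.inl w) (cf r (∏ i, (X - C (x i)))) := by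
  have hr : (1 : ℝ) ≤ (r : ℝ) + 1 := by
    have : (0 : ℝ) ≤ r := Nat.cast_nonneg _
    linarith
  refine ⟨((r : ℝ) + 1) ^ 2, one_le_pow₀ hr, ?_⟩
  intro N _ _ w x
  rw [prod_sn]
  set P : N[X] := ∏ i, (X - C (x i)) with hP
  have hdeg : P.natDegree ≤ r := GF.natDegree_le_r x
  obtain ⟨j0, hj0⟩ := Finite.exists_max fun j : Fin (r + 1) => w (P.coeff j)
  have h1 : (P.map w.embedding).mahlerMeasure ≤ ((r : ℝ) + 1) * w (P.coeff j0) := by
    refine (mahlerMeasure_le_sum_norm_coeff _).trans ?_
    rw [Polynomial.sum_over_range' _ (fun _ => norm_zero) (r + 1)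
      (lt_of_le_of_lt natDegree_map_le (Nat.lt_succ_of_le hdeg))]
    calc ∑ a ∈ range (r + 1), ‖(P.map w.embedding).coeff a‖
        ≤ ∑ _a ∈ range (r + 1), w (P.coeff j0) := by
          refine Finset.sum_le_sum fun a ha => ?_
          rw [norm_coeff_map]
          exact hj0 ⟨a, Finset.mem_range.mp ha⟩
      _ = ((r : ℝ) + 1) * w (P.coeff j0) := by
          rw [Finset.sum_const, Finset.card_range, nsmul_eq_mul]; push_cast; ring
  calc (P.map w.embedding).mahlerMeasure ^ w.mult
      ≤ (((r : ℝ) + 1) * w (P.coeff j0)) ^ w.mult :=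
        pow_le_pow_left₀ (mahlerMeasure_nonneg _) h1 _
    _ = ((r : ℝ) + 1) ^ w.mult * w (P.coeff j0) ^ w.mult := mul_pow _ _ _
    _ ≤ ((r : ℝ) + 1) ^ 2 * vn (.inl w) (cf r P) := by
        refine mul_le_mul (pow_mult_le hr w) ?_ (pow_nonneg (apply_nonneg w _) _) (by positivity)
        exact le_vn (.inl w) (cf r P) j0

theorem easy_inf (r : ℕ) : ∃ c : ℝ, 1 ≤ c ∧ ∀ (N : Type u) [Field N] [NumberField N]
    (w : InfinitePlace N) (x : Fin r → N),
    vn (.inl w) (cf r (∏ i, (X - C (x i)))) ≤ c * ∏ i, sn (.inl w) ![x i, 1] := by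
  have hr : (1 : ℝ) ≤ (2 : ℝ) ^ r := one_le_pow₀ (by norm_num)
  refine ⟨((2 : ℝ) ^ r) ^ 2, one_le_pow₀ hr, ?_⟩
  intro N _ _ w x
  rw [prod_sn]
  set P : N[X] := ∏ i, (X - C (x i)) with hP
  have hdeg : P.natDegree ≤ r := GF.natDegree_le_r x
  have hM : 0 ≤ (P.map w.embedding).mahlerMeasure := mahlerMeasure_nonneg _
  refine vn_le _ _ (by positivity) fun j => ?_
  have h1 : w (P.coeff j) ≤ (2 : ℝ) ^ r * (P.map w.embedding).mahlerMeasure := by
    rw [← norm_coeff_map]
    refine (norm_coeff_le_choose_mul_mahlerMeasure _ _).trans ?_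
    refine mul_le_mul_of_nonneg_right ?_ hM
    have h2 : (P.map w.embedding).natDegree.choose j ≤ 2 ^ r := by
      refine (Nat.choose_le_two_pow _ _).trans ?_
      exact Nat.pow_le_pow_right (by norm_num) (natDegree_map_le.trans hdeg)
    exact_mod_cast h2
  calc nv (.inl w) (cf r P j) = w (P.coeff j) ^ w.mult := rfl
    _ ≤ ((2 : ℝ) ^ r * (P.map w.embedding).mahlerMeasure) ^ w.mult :=
        pow_le_pow_left₀ (apply_nonneg w _) h1 _
    _ = ((2 : ℝ) ^ r) ^ w.mult * (P.map w.embedding).mahlerMeasure ^ w.mult := mul_pow _ _ _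
    _ ≤ ((2 : ℝ) ^ r) ^ 2 * (P.map w.embedding).mahlerMeasure ^ w.mult :=
        mul_le_mul_of_nonneg_right (pow_mult_le hr w) (pow_nonneg hM _)

theorem cl_ge_inf (w : InfinitePlace N) (a : N) (p : Option N) (h : p ≠ some a) :
    -Real.log 4 ≤ cl (.inl w) a p := by
  have hl4 : 0 ≤ Real.log 4 := Real.log_nonneg (by norm_num)
  have hsn : ∀ b : N, 1 ≤ sn (.inl w) ![b, 1] := fun b => by
    rw [sn_inf]; exact one_le_pow₀ (le_max_left _ _)
  rcases p with _ | b
  · change -Real.log 4 ≤ Real.log (sn (.inl w) ![a, 1])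
    have := Real.log_nonneg (hsn a)
    linarith
  · have hab : a - b ≠ 0 := fun h0 => h (by rw [sub_eq_zero.mp h0])
    have h1 : w (a - b) ≤ 2 * (max 1 (w a) * max 1 (w b)) := by
      have h2 : w (a - b) ≤ w a + w b := by
        have := w.1.add_le a (-b)
        rw [← sub_eq_add_neg, AbsoluteValue.map_neg] at this
        exact this
      have h3 : w a ≤ max 1 (w a) := le_max_right _ _
      have h4 : w b ≤ max 1 (w b) := le_max_right _ _
      have h5 : 1 ≤ max 1 (w a) := le_max_left _ _
      have h6 : 1 ≤ max 1 (w b) := le_max_left _ _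
      nlinarith
    have h7 : nv (.inl w) (a - b) ≤ 4 * (sn (.inl w) ![a, 1] * sn (.inl w) ![b, 1]) := by
      rw [sn_inf, sn_inf, ← mul_pow]
      calc nv (.inl w) (a - b) = w (a - b) ^ w.mult := rfl
        _ ≤ (2 * (max 1 (w a) * max 1 (w b))) ^ w.mult :=
            pow_le_pow_left₀ (apply_nonneg w _) h1 _
        _ = 2 ^ w.mult * (max 1 (w a) * max 1 (w b)) ^ w.mult := mul_pow _ _ _
        _ ≤ 4 * (max 1 (w a) * max 1 (w b)) ^ w.mult := by
            refine mul_le_mul_of_nonneg_right ?_ (by positivity)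
            calc (2 : ℝ) ^ w.mult ≤ 2 ^ 2 := pow_mult_le (by norm_num) w
              _ = 4 := by norm_num
    have h8 := Real.log_le_log (nv_pos (.inl w) hab) h7
    have ha := hsn a
    have hb := hsn b
    rw [Real.log_mul (by norm_num) (by positivity), Real.log_mul (by positivity) (by positivity)] at h8
    change -Real.log 4 ≤ Real.log (sn (.inl w) ![a, 1]) + Real.log (sn (.inl w) ![b, 1]) -
      Real.log (nv (.inl w) (a - b))
    linarith

theorem cl_ge {N : Type u} [Field N] [NumberField N] (w : Pl N) (a : N)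
    (p : Option N) (h : p ≠ some a) : -Real.log 4 ≤ cl w a p := by
  rcases w with w | w
  · exact cl_ge_inf w a p h
  · have h1 := GF.cl_nonneg_fin w a p h
    have hl4 : 0 ≤ Real.log 4 := Real.log_nonneg (by norm_num)
    linarith

end Pool.Agent.Helper61.AD.GI
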