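import Pool.Agent.Helper61.AD.Defs
import Pool.Agent.Helper61.AD.GaussF
import Pool.Agent.Helper61.AD.GaussI

/-!
# Block AD-GAUSS: local norms of a product of linear factors

(a) `gauss_fin`: at a finite place `∏ max(1, |x i|) ≤ max |coefficients|` (Gauss lemma). Proof by induction on the
number of factors: for polynomials over a non-archimedean valued field the sup norm of the coefficients is
multiplicative; direct proof for `≥`: let `J = {i : |x i| > 1}`; the coefficient of `X^(r - |J|)` is
`± e_|J|(x)`, a sum of products over sets of size `|J|`; the product over `J` has absolute value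
`∏_{J} |x i| = ∏ max(1,|x i|)` and every other set of size `|J|` gives a strictly smaller absolute value, so the
absolute value of the coefficient equals the product (ultrametric). Or use `mul_X_sub_C` step by step:
`‖(X - a) Q‖ = max(1,|a|) ‖Q‖`: if `|a| ≤ 1` take the largest index where `Q` attains its norm, if
`|a| > 1` the smallest one. `Mathlib` may have `Polynomial.gaussNorm_mul`.
(b) `gauss_inf`: at an infinite place with a constant depending on `r` only: Mahler measure:
`∏ max(1, |x i|) = mahlerMeasure ≤ sum of |coefficients| ≤ (r+1) max` (Mathlib: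
`Polynomial.mahlerMeasure_le_sum_norm_coeff`, `mahlerMeasure_eq_leadingCoeff_mul_prod_roots`); apply to the
image in `ℂ[X]` under `w.embedding`, `w y = ‖w.embedding y‖`, and raise to the power `mult ≤ 2`.
(c), (d): the easy converse: coefficients are sums of at most `2^r` products of `x i`, each at most
`∏ max(1, |x i|)`.
(e), (f): the chordal distance is at most `1` (finite), at most `4` (infinite; `mult ≤ 2`).
-/

namespace Pool.Agent.Helper61.AD

open NumberField Finset Polynomial
open Pool.Agent.Helper64.Vojta (Pl nv sn)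
open Pool.Agent.V2 (vn vH)

universe u

theorem gauss_fin {N : Type u} [Field N] [NumberField N] (w : FinitePlace N) {r : ℕ} (x : Fin r → N) :
    ∏ i, sn (.inr w) ![x i, 1] ≤ vn (.inr w) (cf r (∏ i, (X - C (x i)))) :=
  GF.gauss_fin w x

theorem gauss_inf (r : ℕ) : ∃ c : ℝ, 1 ≤ c ∧ ∀ (N : Type u) [Field N] [NumberField N]
    (w : InfinitePlace N) (x : Fin r → N),
    ∏ i, sn (.inl w) ![x i, 1] ≤ c * vn (.inl w) (cf r (∏ i, (X - C (x i)))) :=
  GI.gauss_inf r

theorem easy_fin {N : Type u} [Field N] [NumberField N] (w : FinitePlace N) {r : ℕ} (x : Fin r → N) :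
    vn (.inr w) (cf r (∏ i, (X - C (x i)))) ≤ ∏ i, sn (.inr w) ![x i, 1] :=
  GF.easy_fin w x

theorem easy_inf (r : ℕ) : ∃ c : ℝ, 1 ≤ c ∧ ∀ (N : Type u) [Field N] [NumberField N]
    (w : InfinitePlace N) (x : Fin r → N),
    vn (.inl w) (cf r (∏ i, (X - C (x i)))) ≤ c * ∏ i, sn (.inl w) ![x i, 1] :=
  GI.easy_inf r

theorem cl_nonneg_fin {N : Type u} [Field N] [NumberField N] (w : FinitePlace N) (a : N)
    (p : Option N) (h : p ≠ some a) : 0 ≤ cl (.inr w) a p :=
  GF.cl_nonneg_fin w a p h

theorem cl_ge {N : Type u} [Field N] [NumberField N] (w : Pl N) (a : N)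
    (p : Option N) (h : p ≠ some a) : -Real.log 4 ≤ cl w a p :=
  GI.cl_ge w a p h

end Pool.Agent.Helper61.AD
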