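import Pool.Agent.Helper61.AD.Tower
import Pool.Agent.Helper52.Vojta.NormLocal

/-!
# Block AD-LAM: the Weil function of a point is the average over its conjugates
-/

namespace Pool.Agent.Helper61.AD.LA

open NumberField Finset Polynomial Module
open Pool.Agent.Helper64.Vojta (Pl nv sn above nv_mul nv_pos)
open Pool.Agent.V2 (vn vH)

universe u

theorem exists_hom {k L N : Type*} [Field k] [Field L] [Field N] [Algebra k L] [Algebra k N]
    [FiniteDimensional k L] (y : L) (hy : (minpoly k y).natDegree = finrank k L) (z : N)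
    (hz : aeval z (minpoly k y) = 0) : ∃ σ : L →ₐ[k] N, σ y = z := by
  have htop : IntermediateField.adjoin k {y} = ⊤ :=
    (Field.primitive_element_iff_minpoly_natDegree_eq k y).mpr hy
  have hint : IsIntegral k y := IsIntegral.of_finite k y
  let pb := IntermediateField.adjoin.powerBasis hint
  have hgen : pb.gen = IntermediateField.AdjoinSimple.gen k y := rfl
  have hmin : minpoly k pb.gen = minpoly k y := by
    rw [hgen]
    exact IntermediateField.minpoly_gen k y
  have hz' : aeval z (minpoly k pb.gen) = 0 := by rw [hmin]; exact hz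
  let τ : IntermediateField.adjoin k {y} →ₐ[k] N := pb.lift z hz'
  have hτ : τ pb.gen = z := pb.lift_gen z hz'
  let e : L ≃ₐ[k] IntermediateField.adjoin k {y} :=
    (IntermediateField.topEquiv.symm).trans (IntermediateField.equivOfEq htop.symm)
  refine ⟨τ.comp e.toAlgHom, ?_⟩
  have he : e y = pb.gen := by
    rw [hgen]
    apply Subtype.ext
    rfl
  change τ (e y) = z
  rw [he, hτ]

/-- the number of points -/
theorem card_pts {k N : Type*} [Field k] [Field N] [Algebra k N] (g : k[X]) (q : ℕ)
    (hq1 : g.natDegree ≤ q) (hq2 : q ≤ g.natDegree + 1) (s : Finset N) (hs : s.card = g.natDegree)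
    (A : ℝ) (f : N → ℝ) :
    ∑ α ∈ s, (A + f α) + (if g.natDegree < q then A else 0) = q * A + ∑ α ∈ s, f α := by
  rw [Finset.sum_add_distrib, Finset.sum_const, hs, nsmul_eq_mul]
  split_ifs with h
  · have : q = g.natDegree + 1 := by omega
    rw [this]; push_cast; ring
  · have : q = g.natDegree := by omega
    rw [this]; ring

theorem sum_pts_eq {k N : Type*} [Field k] [Field N] [Algebra k N] (g : k[X]) (q : ℕ)
    (F : Option N → ℝ) :
    ∑ p ∈ pts g q N, F p = ∑ α ∈ (by classical exact (g.aroots N).toFinset), F (some α)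
      + (if g.natDegree < q then F none else 0) := by
  classical
  unfold pts
  rw [Finset.sum_union]
  · congr 1
    · rw [Finset.sum_image]
      intro a _ b _ h
      exact Option.some_injective _ h
    · split_ifs with h <;> simp
  · rw [Finset.disjoint_left]
    intro a ha
    obtain ⟨b, _, rfl⟩ := Finset.mem_image.mp ha
    split_ifs with h <;> simp

theorem log_sn_one_nonneg {N : Type*} [Field N] [NumberField N] (w : Pl N) (a : N) :
    0 ≤ Real.log (sn w ![a, 1]) := by
  apply Real.log_nonneg
  have := Pool.Agent.Helper64.Vojta.le_sn w ![a, 1] 1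
  have h1 : nv w ((![a, 1] : Fin 2 → N) 1) = 1 := by
    change nv w 1 = 1
    exact Pool.Agent.Helper64.Vojta.nv_one w
  rw [h1] at this
  exact this

/-- the local inequality -/
theorem local_le {k N : Type u} [Field k] [NumberField k] [Field N] [NumberField N] [Algebra k N]
    (g : k[X]) (hg : Squarefree g) (q : ℕ) (hq1 : g.natDegree ≤ q) (hq2 : q ≤ g.natDegree + 1)
    (hsp : (g.map (algebraMap k N)).Splits) (w : Pl N) (x : N) (hx : aeval x g ≠ 0) :
    q * Real.log (sn w ![x, 1]) - Real.log (nv w (aeval x g))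
      + Real.log (nv w (algebraMap k N g.leadingCoeff)) ≤ ∑ p ∈ pts g q N, cl w x p := by
  classical
  have hg0 : g ≠ 0 := hg.ne_zero
  have hlc : algebraMap k N g.leadingCoeff ≠ 0 := by
    rw [Ne, map_eq_zero]
    exact leadingCoeff_ne_zero.mpr hg0
  have hsep : g.Separable := PerfectField.separable_iff_squarefree.mpr hg
  have hnod : (g.aroots N).Nodup := nodup_roots (hsep.map)
  have hcard : (g.aroots N).toFinset.card = g.natDegree := by
    rw [Multiset.toFinset_card_of_nodup hnod]
    have := hsp.natDegree_eq_card_roots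
    rw [natDegree_map] at this
    exact this.symm
  have hprod : aeval x g = algebraMap k N g.leadingCoeff * ∏ α ∈ (g.aroots N).toFinset, (x - α) := by
    have h1 : aeval x g = (g.map (algebraMap k N)).eval x := by
      rw [eval_map_algebraMap]
    have h2 := hsp.eq_prod_roots
    rw [h1]
    conv_lhs => rw [h2]
    rw [eval_mul, eval_C, leadingCoeff_map]
    congr 1
    rw [eval_multiset_prod, Multiset.map_map]
    rw [Finset.prod, Multiset.toFinset_val, Multiset.dedup_eq_self.mpr hnod]
    congr 1
    apply Multiset.map_congr rfl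
    intro a _
    simp
  have hne : ∀ α ∈ (g.aroots N).toFinset, x - α ≠ 0 := by
    intro α hα h0
    apply hx
    rw [hprod, Finset.prod_eq_zero hα h0, mul_zero]
  have hlog : Real.log (nv w (aeval x g)) = Real.log (nv w (algebraMap k N g.leadingCoeff))
      + ∑ α ∈ (g.aroots N).toFinset, Real.log (nv w (x - α)) := by
    rw [hprod, nv_mul]
    have hp : ∀ s : Finset N, (∀ α ∈ s, x - α ≠ 0) →
        nv w (∏ α ∈ s, (x - α)) = ∏ α ∈ s, nv w (x - α) := by
      intro s
      induction s using Finset.induction_on with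
      | empty =>
        intro _
        simp [Pool.Agent.Helper64.Vojta.nv_one]
      | insert a s ha ih =>
        intro h
        rw [Finset.prod_insert ha, Finset.prod_insert ha, nv_mul, ih (fun α hα => h α (Finset.mem_insert_of_mem hα))]
    rw [hp _ hne, Real.log_mul (nv_pos w hlc).ne', Real.log_prod]
    · intro α hα
      exact (nv_pos w (hne α hα)).ne'
    · exact Finset.prod_ne_zero_iff.mpr fun α hα => (nv_pos w (hne α hα)).ne'
  rw [sum_pts_eq]
  have e1 : ∀ α : N, cl w x (some α) = Real.log (sn w ![x, 1])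
      + (Real.log (sn w ![α, 1]) - Real.log (nv w (x - α))) := by
    intro α
    change _ + _ - _ = _
    ring
  have e2 : cl w x none = Real.log (sn w ![x, 1]) := rfl
  simp only [e1, e2]
  rw [card_pts g q hq1 hq2 _ hcard, Finset.sum_sub_distrib, hlog]
  have h3 : 0 ≤ ∑ α ∈ (g.aroots N).toFinset, Real.log (sn w ![α, 1]) :=
    Finset.sum_nonneg fun α _ => log_sn_one_nonneg w α
  linarith

theorem lam_le {k : Type u} [Field k] [NumberField k] (g : k[X]) (hg : Squarefree g) (q : ℕ)
    (hq1 : g.natDegree ≤ q) (hq2 : q ≤ g.natDegree + 1) (ν : Pl k) (r : ℕ) (hr : 0 < r) (D : ℕ) :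
    ∃ c : ℝ, ∀ (L N : Type u) [Field L] [NumberField L] [Algebra k L] [Field N] [NumberField N]
      [Algebra k N], finrank k L = r → finrank k N ≤ D → (g.map (algebraMap k N)).Splits →
      ∀ y : L, (minpoly k y).natDegree = r → aeval y g ≠ 0 → ∀ x : Fin r → N,
      (minpoly k y).map (algebraMap k N) = ∏ i, (X - C (x i)) →
      finrank k N * ∑ w ∈ above L ν, (q * Real.log (sn w ![y, 1]) - Real.log (nv w (aeval y g))) ≤
        ∑ w ∈ above N ν, ∑ i, ∑ p ∈ pts g q N, cl w (x i) p + c := by
  refine ⟨r * (D * |Real.log (nv ν g.leadingCoeff)|), ?_⟩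
  intro L N _ _ _ _ _ _ hL hN hsp y hy hyg x hx
  have hfd : FiniteDimensional k L := FiniteDimensional.right ℚ k L
  have hfdN : FiniteDimensional k N := FiniteDimensional.right ℚ k N
  have hroot : ∀ i, aeval (x i) (minpoly k y) = 0 := by
    intro i
    rw [← eval_map_algebraMap, hx, eval_prod]
    exact Finset.prod_eq_zero (Finset.mem_univ i) (by simp)
  have hσ : ∀ i, ∃ σ : L →ₐ[k] N, σ y = x i := fun i =>
    exists_hom y (by rw [hy, hL]) (x i) (hroot i)
  -- the contribution of one conjugate
  have key : ∀ i, aeval (x i) g ≠ 0 ∧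
      r * ∑ w ∈ above N ν, (q * Real.log (sn w ![x i, 1]) - Real.log (nv w (aeval (x i) g)))
      = finrank k N * ∑ w ∈ above L ν, (q * Real.log (sn w ![y, 1]) - Real.log (nv w (aeval y g))) := by
    intro i
    obtain ⟨σ, hs⟩ := hσ i
    let _ : Algebra L N := σ.toRingHom.toAlgebra
    have : IsScalarTower k L N := IsScalarTower.of_algebraMap_eq fun a => (σ.commutes a).symm
    have hmap : ∀ a : L, algebraMap L N a = σ a := fun a => rfl
    have hg1 : aeval (x i) g = algebraMap L N (aeval y g) := by
      rw [← hs, hmap, Polynomial.aeval_algHom_apply]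
    refine ⟨?_, ?_⟩
    · rw [hg1, Ne, map_eq_zero]
      exact hyg
    have hfr : (finrank k N : ℝ) = r * finrank L N := by
      rw [← hL]
      exact_mod_cast (finrank_mul_finrank k L N).symm
    have ht := sum_above_tower (k := k) (K := L) (N := N) {ν}
      (fun w => (q * Real.log (sn w ![x i, 1]) - Real.log (nv w (aeval (x i) g))))
    rw [Finset.sum_singleton, Pool.Agent.Helper52.Vojta.sum_upW (L' := L)] at ht
    rw [Finset.sum_singleton] at ht
    rw [ht, hfr, mul_assoc]
    congr 1
    rw [Finset.mul_sum]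
    refine Finset.sum_congr rfl fun v _ => ?_
    rw [Finset.sum_sub_distrib, ← Finset.mul_sum]
    have hv : (![x i, 1] : Fin 2 → N) = fun j => algebraMap L N ((![y, 1] : Fin 2 → L) j) := by
      funext j
      fin_cases j
      · exact hs.symm
      · exact (map_one (algebraMap L N)).symm
    rw [hg1, Pool.Agent.Helper52.Vojta.sum_log_nv, hv, Pool.Agent.Helper52.Vojta.sum_log_sn (by norm_num)]
    ring
  -- compare the two sides
  have hloc : ∀ w ∈ above N ν, ∀ i, q * Real.log (sn w ![x i, 1]) - Real.log (nv w (aeval (x i) g))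
      + Real.log (nv w (algebraMap k N g.leadingCoeff)) ≤ ∑ p ∈ pts g q N, cl w (x i) p := fun w _ i =>
    local_le g hg q hq1 hq2 hsp w (x i) (key i).1
  have hsum : ∑ w ∈ above N ν, ∑ i, (q * Real.log (sn w ![x i, 1]) - Real.log (nv w (aeval (x i) g))
      + Real.log (nv w (algebraMap k N g.leadingCoeff)))
      ≤ ∑ w ∈ above N ν, ∑ i, ∑ p ∈ pts g q N, cl w (x i) p :=
    Finset.sum_le_sum fun w hw => Finset.sum_le_sum fun i _ => hloc w hw i
  have hsum2 : ∑ w ∈ above N ν, ∑ i : Fin r, (q * Real.log (sn w ![x i, 1]) - Real.log (nv w (aeval (x i) g))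
      + Real.log (nv w (algebraMap k N g.leadingCoeff)))
      = ∑ i : Fin r, ∑ w ∈ above N ν, (q * Real.log (sn w ![x i, 1]) - Real.log (nv w (aeval (x i) g)))
        + r * (finrank k N * Real.log (nv ν g.leadingCoeff)) := by
    rw [Finset.sum_comm]
    simp_rw [Finset.sum_add_distrib]
    rw [Pool.Agent.Helper52.Vojta.sum_log_nv, Finset.sum_const, Finset.card_univ, Fintype.card_fin,
      nsmul_eq_mul]
  have hr' : (0 : ℝ) < r := by exact_mod_cast hr
  have hsum3 : ∑ i : Fin r, ∑ w ∈ above N ν, (q * Real.log (sn w ![x i, 1]) - Real.log (nv w (aeval (x i) g)))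
      = finrank k N * ∑ w ∈ above L ν, (q * Real.log (sn w ![y, 1]) - Real.log (nv w (aeval y g))) := by
    have h1 : ∀ i : Fin r, ∑ w ∈ above N ν, (q * Real.log (sn w ![x i, 1]) - Real.log (nv w (aeval (x i) g)))
        = (finrank k N * ∑ w ∈ above L ν, (q * Real.log (sn w ![y, 1]) - Real.log (nv w (aeval y g)))) / r := by
      intro i
      rw [eq_div_iff hr'.ne', ← (key i).2]
      ring
    rw [Finset.sum_congr rfl fun i _ => h1 i, Finset.sum_const, Finset.card_univ, Fintype.card_fin,
      nsmul_eq_mul]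
    field_simp
  have hlow : -(r * (D * |Real.log (nv ν g.leadingCoeff)|)) ≤ r * (finrank k N * Real.log (nv ν g.leadingCoeff)) := by
    have h1 : -|Real.log (nv ν g.leadingCoeff)| ≤ Real.log (nv ν g.leadingCoeff) := neg_abs_le _
    have h2 : (finrank k N : ℝ) ≤ D := by exact_mod_cast hN
    have h3 : (0 : ℝ) ≤ finrank k N := Nat.cast_nonneg _
    have h4 : 0 ≤ |Real.log (nv ν g.leadingCoeff)| := abs_nonneg _
    have h5 : -(D * |Real.log (nv ν g.leadingCoeff)|) ≤ finrank k N * Real.log (nv ν g.leadingCoeff) := by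
      nlinarith
    nlinarith
  linarith

end Pool.Agent.Helper61.AD.LA
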