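import Pool.Agent.Helper61.AD.Gauss
import Pool.Agent.Helper61.AD.Lam

/-!
# Block AD-HT: the height of the minimal polynomial is at most the height of the point plus a constant

`[N:k] vH (cf r P) = vH_N (cf r (P.map ..))` (`vH_eq`, `logHeight_algebraMap`)
`≤ ∑ i, logHeight_N ![x i,1] + [N:ℚ] log c0` (`easy_fin`, `easy_inf`, `gsum_le`), and
`logHeight_N ![x i,1] = [N:L] logHeight_L ![y,1]`; the sum over `i` is `[N:k] logHeight_L ![y,1]`. Divide by `[N:k]`.
-/

namespace Pool.Agent.Helper61.AD.HTA

open NumberField Finset Polynomial Module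
open Pool.Agent.Helper64.Vojta (Pl nv sn above)
open Pool.Agent.V2 (vn vH gsum FinS vH_eq finS_vn vn_pos gsum_le gsum_add gsum_neg gsum_sum)

universe u

theorem ht_le {k : Type u} [Field k] [NumberField k] (r : ℕ) (hr : 0 < r) (D : ℕ) :
    ∃ c : ℝ, ∀ (L N : Type u) [Field L] [NumberField L] [Algebra k L] [Field N] [NumberField N]
      [Algebra k N], finrank k L = r → finrank k N ≤ D → ∀ y : L,
      (minpoly k y).natDegree = r → ∀ x : Fin r → N,
      (minpoly k y).map (algebraMap k N) = ∏ i, (X - C (x i)) →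
      vH (cf r (minpoly k y)) ≤ Height.logHeight ![y, 1] + c := by
  obtain ⟨c0, hc0, heasy⟩ := easy_inf.{u} r
  refine ⟨finrank ℚ k * Real.log c0, ?_⟩
  intro L N _ _ _ _ _ _ hL _ y hy x hx
  have hfd : FiniteDimensional k L := FiniteDimensional.right ℚ k L
  have hfdN : FiniteDimensional k N := FiniteDimensional.right ℚ k N
  have hfdL : FiniteDimensional ℚ k := inferInstance
  have hint : IsIntegral k y := IsIntegral.of_finite k y
  have hmonic : (minpoly k y).Monic := minpoly.monic hint
  -- the coefficient vectors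
  have hcf0 : cf r (minpoly k y) ≠ 0 := by
    intro h
    have h1 := congrFun h (Fin.last r)
    have h2 : (minpoly k y).coeff r = 1 := by
      have := hmonic.coeff_natDegree
      rwa [hy] at this
    have h3 : cf r (minpoly k y) (Fin.last r) = (minpoly k y).coeff r := by
      simp [cf]
    rw [h3, h2] at h1
    exact one_ne_zero h1
  have hcfN : cf r (∏ i, (X - C (x i))) = fun j => algebraMap k N (cf r (minpoly k y) j) := by
    funext j
    rw [← hx]
    simp [cf]
  have hcfN0 : cf r (∏ i, (X - C (x i))) ≠ 0 := by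
    intro h
    apply hcf0
    funext j
    have h1 := congrFun h j
    rw [hcfN] at h1
    simpa using h1
  have hvH : vH (cf r (∏ i, (X - C (x i)))) = finrank k N * vH (cf r (minpoly k y)) := by
    rw [vH_eq hcfN0, vH_eq hcf0, hcfN]
    exact Pool.Agent.Helper52.Vojta.logHeight_algebraMap hcf0
  -- heights of the conjugates
  have hroot : ∀ i, aeval (x i) (minpoly k y) = 0 := by
    intro i
    rw [← eval_map_algebraMap, hx, eval_prod]
    exact Finset.prod_eq_zero (Finset.mem_univ i) (by simp)
  have hx0 : ∀ i, (![x i, 1] : Fin 2 → N) ≠ 0 := fun i h => by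
    have := congrFun h 1
    simp at this
  have hy0 : (![y, 1] : Fin 2 → L) ≠ 0 := fun h => by
    have := congrFun h 1
    simp at this
  have hht : ∀ i, r * vH (![x i, 1] : Fin 2 → N) = finrank k N * Height.logHeight ![y, 1] := by
    intro i
    obtain ⟨σ, hs⟩ := LA.exists_hom y (by rw [hy, hL]) (x i) (hroot i)
    let _ : Algebra L N := σ.toRingHom.toAlgebra
    have : IsScalarTower k L N := IsScalarTower.of_algebraMap_eq fun a => (σ.commutes a).symm
    have hv : (![x i, 1] : Fin 2 → N) = fun j => algebraMap L N ((![y, 1] : Fin 2 → L) j) := by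
      funext j
      fin_cases j
      · exact hs.symm
      · exact (map_one (algebraMap L N)).symm
    have hfr : (finrank k N : ℝ) = r * finrank L N := by
      rw [← hL]
      exact_mod_cast (finrank_mul_finrank k L N).symm
    rw [vH_eq (hx0 i), hv, Pool.Agent.Helper52.Vojta.logHeight_algebraMap hy0, hfr]
    ring
  -- the local inequality
  have hprodpos : ∀ w : Pl N, 0 < ∏ i, sn w ![x i, 1] := fun w =>
    Finset.prod_pos fun i _ => vn_pos w (hx0 i)
  have hlogprod : ∀ w : Pl N, Real.log (∏ i, sn w ![x i, 1]) = ∑ i, Real.log (vn w ![x i, 1]) :=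
    fun w => Real.log_prod fun i _ => (vn_pos w (hx0 i)).ne'
  have hc0' : 0 ≤ Real.log c0 := Real.log_nonneg hc0
  have hfs1 : FinS (fun w : Pl N => Real.log (vn w (cf r (∏ i, (X - C (x i)))))) := finS_vn hcfN0
  have hfs2 : ∀ i ∈ (Finset.univ : Finset (Fin r)),
      FinS (fun w : Pl N => Real.log (vn w ![x i, 1])) := fun i _ => finS_vn (hx0 i)
  have hfs3 : FinS (fun w : Pl N => ∑ i, Real.log (vn w ![x i, 1])) := FinS.sum _ hfs2
  have hle : gsum (fun w : Pl N => Real.log (vn w (cf r (∏ i, (X - C (x i)))))
      + -(∑ i, Real.log (vn w ![x i, 1]))) ≤ finrank ℚ N * Real.log c0 := by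
    refine gsum_le (hfs1.add hfs3.neg) (Real.log c0) ?_ ?_
    · intro v
      have h1 := heasy N v x
      have h2 := Real.log_le_log (vn_pos (.inl v) hcfN0) h1
      rw [Real.log_mul (by linarith) (hprodpos _).ne', hlogprod] at h2
      have h3 : (1 : ℝ) ≤ v.mult := by exact_mod_cast v.mult_pos
      have h4 : Real.log c0 ≤ v.mult * Real.log c0 := by nlinarith
      linarith
    · intro v
      have h1 := easy_fin v x
      have h2 := Real.log_le_log (vn_pos (.inr v) hcfN0) h1
      rw [hlogprod] at h2
      linarith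
  rw [gsum_add hfs1 hfs3.neg, gsum_neg, gsum_sum _ hfs2] at hle
  have hsum : ∑ i, gsum (fun w : Pl N => Real.log (vn w ![x i, 1])) =
      finrank k N * Height.logHeight ![y, 1] := by
    have hr' : (0 : ℝ) < r := by exact_mod_cast hr
    have h1 : ∀ i : Fin r, gsum (fun w : Pl N => Real.log (vn w ![x i, 1])) =
        (finrank k N * Height.logHeight ![y, 1]) / r := by
      intro i
      rw [eq_div_iff hr'.ne', ← hht i, mul_comm]
      rfl
    rw [Finset.sum_congr rfl fun i _ => h1 i, Finset.sum_const, Finset.card_univ, Fintype.card_fin,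
      nsmul_eq_mul]
    field_simp
  rw [hsum] at hle
  have hvH' : gsum (fun w : Pl N => Real.log (vn w (cf r (∏ i, (X - C (x i)))))) =
      finrank k N * vH (cf r (minpoly k y)) := hvH
  rw [hvH'] at hle
  have hpos : (0 : ℝ) < finrank k N := by exact_mod_cast finrank_pos
  have hfr : (finrank ℚ N : ℝ) = finrank k N * finrank ℚ k := by
    rw [mul_comm]
    exact_mod_cast (finrank_mul_finrank ℚ k N).symm
  rw [hfr] at hle
  have hfin : (finrank k N : ℝ) * vH (cf r (minpoly k y)) ≤
      finrank k N * (Height.logHeight ![y, 1] + finrank ℚ k * Real.log c0) := by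
    linarith
  exact le_of_mul_le_mul_left hfin hpos

end Pool.Agent.Helper61.AD.HTA
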