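import Pool.Agent.Helper61.AD.Gauss
import Pool.Agent.Helper61.AD.Tower
import Pool.Agent.Helper52.Vojta.NormLocal
import Pool.Agent.Helper61.AD.Lam
import Pool.Agent.Helper61.AD.Ht

/-!
# Block AD-FIN1: heights and Weil functions of the point and of its conjugates

`L` = field of the point `y` (degree `r`), `N` = a field containing the conjugates `x i`. For every `i` there is a
`k`-embedding `σ i : L → N` with `σ i y = x i` (`y` generates `L`: `(minpoly k y).natDegree = finrank k L`, power basis,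
`PowerBasis.lift`). Use it as an algebra structure `L → N` (with `IsScalarTower k L N`).
(a) `ht_le`: `[N:k] vH (cf r P) = vH_N (cf r (P.map ..))` (`vH_eq`, `logHeight_algebraMap`)
 `≤ ∑ i, logHeight_N ![x i,1] + const` (`easy_fin`, `easy_inf`: sum over all places, infinite places cost
 `log c`, there are at most `[N:ℚ] ≤ D [k:ℚ]` of them) and `logHeight_N ![σ y,1] = [N:L] logHeight_L ![y,1]`
 (`logHeight_algebraMap`), `∑ i` gives `r [N:L] = [N:k]`. Divide by `[N:k] ≥ 1`.
(b) `lam_le`: for every `i`: `∑_{w ∈ above N ν} log sn w ![x i,1] = [N:L] ∑_{w ∈ above L ν} log sn w ![y,1]`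
 (`sum_log_sn` for `L → N`, `sum_above_tower` for `k ⊆ L ⊆ N` with `S = {ν}`), same for
 `log nv w (aeval (x i) g)` (`sum_log_nv`). Sum over `i`:
 `∑_w ∑_i (q log sn w ![x i,1] - log nv w (aeval (x i) g)) = [N:k] ∑_{w ∈ above L ν} (..y..)`. Over `N`:
 `g.map = C lc * ∏_{α root} (X - C α)` (simple roots, `g` squarefree), so
 `log nv w (aeval (x i) g) = log nv w (lc) + ∑_α log nv w (x i - α)` and
 `∑_{p ∈ pts} cl w (x i) p = (number of p) log sn w ![x i,1] + ∑_α log sn w ![α,1] - ∑_α log nv w (x i - α)`,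
 number of `p` = `q`. So the two sides differ by `∑_w ∑_i (∑_α log sn w ![α,1] + log nv w lc)`, and
 `sn ≥ 1`, `∑_{w ∈ above N ν} log nv w lc = [N:k] log nv ν lc ≥ - D |log nv ν lc|`.
-/

namespace Pool.Agent.Helper61.AD

open NumberField Finset Polynomial Module
open Pool.Agent.Helper64.Vojta (Pl nv sn above)
open Pool.Agent.V2 (vn vH)

universe u

theorem ht_le {k : Type u} [Field k] [NumberField k] (r : ℕ) (hr : 0 < r) (D : ℕ) :
    ∃ c : ℝ, ∀ (L N : Type u) [Field L] [NumberField L] [Algebra k L] [Field N] [NumberField N]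
      [Algebra k N], finrank k L = r → finrank k N ≤ D → ∀ y : L,
      (minpoly k y).natDegree = r → ∀ x : Fin r → N,
      (minpoly k y).map (algebraMap k N) = ∏ i, (X - C (x i)) →
      vH (cf r (minpoly k y)) ≤ Height.logHeight ![y, 1] + c :=
  HTA.ht_le r hr D

theorem lam_le {k : Type u} [Field k] [NumberField k] (g : k[X]) (hg : Squarefree g) (q : ℕ)
    (hq1 : g.natDegree ≤ q) (hq2 : q ≤ g.natDegree + 1) (ν : Pl k) (r : ℕ) (hr : 0 < r) (D : ℕ) :
    ∃ c : ℝ, ∀ (L N : Type u) [Field L] [NumberField L] [Algebra k L] [Field N] [NumberField N]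
      [Algebra k N], finrank k L = r → finrank k N ≤ D → (g.map (algebraMap k N)).Splits →
      ∀ y : L, (minpoly k y).natDegree = r → aeval y g ≠ 0 → ∀ x : Fin r → N,
      (minpoly k y).map (algebraMap k N) = ∏ i, (X - C (x i)) →
      finrank k N * ∑ w ∈ above L ν, (q * Real.log (sn w ![y, 1]) - Real.log (nv w (aeval y g))) ≤
        ∑ w ∈ above N ν, ∑ i, ∑ p ∈ pts g q N, cl w (x i) p + c :=
  LA.lam_le g hg q hq1 hq2 ν r hr D

end Pool.Agent.Helper61.AD
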