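import Pool.Agent.Helper61.AD.DefsA

/-! # Enumeration of the roots of a monic irreducible polynomial -/

namespace Pool.Agent.Helper61.AD

open Polynomial Finset

/-- The roots of a monic irreducible polynomial which splits in `N`, numbered by `Fin r`. -/
theorem exists_enum {k N : Type*} [Field k] [CharZero k] [Field N] [Algebra k N] (P : k[X])
    (hP : P.Monic) (hirr : Irreducible P) (hsp : (P.map (algebraMap k N)).Splits) {r : ℕ}
    (hdeg : P.natDegree = r) [DecidableEq N] :
    ∃ x : Fin r → N, Function.Injective x ∧ P.map (algebraMap k N) = ∏ i, (X - C (x i)) ∧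
      Finset.univ.image x = (P.aroots N).toFinset := by
  have hsep : P.Separable := hirr.separable
  have hnd : (P.map (algebraMap k N)).roots.Nodup := nodup_roots hsep.map
  have hcard : ((P.aroots N).toFinset).card = r := by
    rw [aroots, Multiset.toFinset_card_of_nodup hnd, ← hdeg, ← natDegree_map (algebraMap k N)]
    exact hsp.natDegree_eq_card_roots.symm
  let e : Fin r ≃ (P.aroots N).toFinset := (Finset.equivFinOfCardEq hcard).symm
  refine ⟨fun i => (e i : N), fun i j h => e.injective (Subtype.ext h), ?_, ?_⟩
  · have h1 : P.map (algebraMap k N) = ((P.aroots N).map fun a => X - C a).prod :=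
      hsp.eq_prod_roots_of_monic (hP.map _)
    rw [h1]
    have h2 : ((P.aroots N).map fun a => X - C a).prod = ∏ a ∈ (P.aroots N).toFinset, (X - C a) := by
      rw [Finset.prod_multiset_map_count]
      refine Finset.prod_congr rfl fun a ha => ?_
      rw [Multiset.count_eq_one_of_mem hnd (Multiset.mem_toFinset.mp ha), pow_one]
    rw [h2, ← Finset.prod_coe_sort]
    exact (Fintype.prod_equiv e _ _ fun i => rfl).symm
  · ext a
    simp only [Finset.mem_image, Finset.mem_univ, true_and]
    constructor
    · rintro ⟨i, rfl⟩
      exact (e i).2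
    · intro ha
      exact ⟨e.symm ⟨a, ha⟩, by simp⟩

end Pool.Agent.Helper61.AD
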