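import Pool.Agent.Helper61.AD.DefsA

/-! # Basic properties of `tay` -/

namespace Pool.Agent.Helper61.AD

open Polynomial

variable {K : Type*} [Field K]

theorem tay_some (a : K) (d : ℕ) (P : K[X]) : tay (some a) d P = P.comp (X + C a) := rfl

theorem tay_none (d : ℕ) (P : K[X]) : tay none d P = P.reflect d := rfl

theorem natDegree_reflect_le' {d : ℕ} {P : K[X]} (hP : P.natDegree ≤ d) :
    (P.reflect d).natDegree ≤ d := by
  rw [natDegree_le_iff_coeff_eq_zero]
  intro i hi
  rw [coeff_reflect, revAt_eq_self_of_lt hi]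
  exact coeff_eq_zero_of_natDegree_lt (hP.trans_lt hi)

theorem natDegree_tay_le (p : Option K) {d : ℕ} {P : K[X]} (hP : P.natDegree ≤ d) :
    (tay p d P).natDegree ≤ d := by
  cases p with
  | none => exact natDegree_reflect_le' hP
  | some a =>
    rw [tay_some]
    refine natDegree_comp_le.trans ?_
    rw [natDegree_X_add_C, mul_one]
    exact hP

theorem tay_mul (p : Option K) {d e : ℕ} {P Q : K[X]} (hP : P.natDegree ≤ d)
    (hQ : Q.natDegree ≤ e) : tay p (d + e) (P * Q) = tay p d P * tay p e Q := by
  cases p with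
  | none => exact reflect_mul P Q hP hQ
  | some a => simp only [tay_some, mul_comp]

theorem tay_add (p : Option K) (d : ℕ) (P Q : K[X]) :
    tay p d (P + Q) = tay p d P + tay p d Q := by
  cases p with
  | none => exact reflect_add P Q d
  | some a => simp only [tay_some, add_comp]

theorem tay_C_mul (p : Option K) (d : ℕ) (a : K) (P : K[X]) :
    tay p d (C a * P) = C a * tay p d P := by
  cases p with
  | none => exact reflect_C_mul P a d
  | some b => simp only [tay_some, mul_comp, C_comp]

theorem tay_zero (p : Option K) (d : ℕ) : tay p d (0 : K[X]) = 0 := by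
  cases p with
  | none => exact reflect_zero
  | some b => simp only [tay_some, zero_comp]

theorem tay_sum {ι : Type*} (p : Option K) (d : ℕ) (s : Finset ι) (P : ι → K[X]) :
    tay p d (∑ i ∈ s, P i) = ∑ i ∈ s, tay p d (P i) := by
  classical
  induction s using Finset.induction_on with
  | empty => simp [tay_zero]
  | insert a s ha ih => rw [Finset.sum_insert ha, Finset.sum_insert ha, tay_add, ih]

theorem natDegree_prod_le' {ι : Type*} (s : Finset ι) (B : ι → K[X]) {r : ℕ}
    (hB : ∀ i ∈ s, (B i).natDegree ≤ r) : (∏ i ∈ s, B i).natDegree ≤ r * s.card := by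
  refine (natDegree_prod_le s B).trans ?_
  refine (Finset.sum_le_card_nsmul s _ r hB).trans ?_
  rw [smul_eq_mul, mul_comm]

theorem tay_prod {ι : Type*} (p : Option K) {r : ℕ} (s : Finset ι) (B : ι → K[X])
    (hB : ∀ i ∈ s, (B i).natDegree ≤ r) :
    tay p (r * s.card) (∏ i ∈ s, B i) = ∏ i ∈ s, tay p r (B i) := by
  classical
  induction s using Finset.induction_on with
  | empty =>
    cases p with
    | none => simp [tay_none, reflect_one]
    | some a => simp [tay_some]
  | insert a s ha ih =>
    rw [Finset.prod_insert ha, Finset.prod_insert ha, Finset.card_insert_of_notMem ha,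
      show r * (s.card + 1) = r + r * s.card by ring,
      tay_mul p (hB a (Finset.mem_insert_self a s))
        (natDegree_prod_le' s B fun i hi => hB i (Finset.mem_insert_of_mem hi)),
      ih fun i hi => hB i (Finset.mem_insert_of_mem hi)]

theorem tay_map {N : Type*} [Field N] (φ : K →+* N) (p : Option K) (d : ℕ) (P : K[X]) :
    tay (p.map φ) d (P.map φ) = (tay p d P).map φ := by
  cases p with
  | none => exact (reflect_map φ P d)
  | some a => simp [tay_some, Option.map_some, Polynomial.map_comp]

/-- the Taylor coefficients of a linear combination -/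
theorem coeff_tay_comb {n : ℕ} (p : Option K) (d : ℕ) (b : Fin n → K[X]) (y : Fin n → K) (s : ℕ) :
    (tay p d (∑ i, C (y i) * b i)).coeff s = ∑ i, y i * (tay p d (b i)).coeff s := by
  rw [tay_sum, finsetSum_coeff]
  refine Finset.sum_congr rfl fun i _ => ?_
  rw [tay_C_mul, coeff_C_mul]

/-- The Taylor coefficient as a row vector: `(tay p d P).coeff s = ∑ j, T j * P.coeff j`. -/
theorem exists_row (p : Option K) (d s : ℕ) : ∃ T : ℕ → K, ∀ P : K[X], P.natDegree ≤ d →
    (tay p d P).coeff s = ∑ j ∈ Finset.range (d + 1), T j * P.coeff j := by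
  refine ⟨fun j => (tay p d (X ^ j : K[X])).coeff s, fun P hP => ?_⟩
  have h1 : P = ∑ j ∈ Finset.range (d + 1), C (P.coeff j) * X ^ j := by
    conv_lhs => rw [P.as_sum_range' (d + 1) (Nat.lt_succ_of_le hP)]
    exact Finset.sum_congr rfl fun j _ => (C_mul_X_pow_eq_monomial).symm
  conv_lhs => rw [h1]
  rw [tay_sum, finsetSum_coeff]
  refine Finset.sum_congr rfl fun j _ => ?_
  rw [tay_C_mul, coeff_C_mul, mul_comm]

end Pool.Agent.Helper61.AD
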