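import Pool.Agent.Helper61.AD.Tay

/-!
# Block AD-NBX: `NoBase` is invariant under a change of basis

Proof. `x` is an invertible matrix (n independent vectors of `Fin n → K`), so the `b i` are
`K`-linear combinations of the `B l = ∑ i, C (x l i) * b i` and vice versa: same ideal
(`Ideal.span_le`); if all `(B l).coeff r = 0` then all `(b i).coeff r = 0`. Degrees: clear.
-/

namespace Pool.Agent.Helper61.AD

open Polynomial

theorem NoBase.change {K : Type*} [Field K] {n r : ℕ} {b : Fin n → K[X]} (hb : NoBase r b)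
    (x : Fin n → Fin n → K) (hx : LinearIndependent K x) :
    NoBase r (fun l => ∑ i, C (x l i) * b i) := by
  classical
  -- the inverse matrix
  let M : Matrix (Fin n) (Fin n) K := x
  have hM : IsUnit M := Matrix.linearIndependent_rows_iff_isUnit.1 hx
  have hdet : IsUnit M.det := (Matrix.isUnit_iff_isUnit_det M).1 hM
  have hinv : M⁻¹ * M = 1 := Matrix.nonsing_inv_mul M hdet
  have hback : ∀ i, b i = ∑ l, C (M⁻¹ i l) * ∑ j, C (x l j) * b j := by
    intro i
    have h1 : ∑ l, C (M⁻¹ i l) * ∑ j, C (x l j) * b j = ∑ j, C ((M⁻¹ * M) i j) * b j := by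
      simp only [Matrix.mul_apply, map_sum, Finset.mul_sum, Finset.sum_mul, map_mul]
      rw [Finset.sum_comm]
      refine Finset.sum_congr rfl fun j _ => Finset.sum_congr rfl fun l _ => ?_
      rw [mul_assoc]
    rw [h1, hinv]
    simp [Matrix.one_apply]
  refine ⟨fun l => ?_, ?_, ?_⟩
  · refine natDegree_sum_le_of_forall_le _ _ fun i _ => ?_
    exact (natDegree_C_mul_le _ _).trans (hb.deg i)
  · rw [eq_top_iff, ← hb.span, Ideal.span_le]
    rintro _ ⟨i, rfl⟩
    rw [hback i]
    refine Ideal.sum_mem _ fun l _ => Ideal.mul_mem_left _ _ (Ideal.subset_span ⟨l, rfl⟩)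
  · by_contra hcon
    push Not at hcon
    obtain ⟨i, hi⟩ := hb.top
    apply hi
    rw [hback i, finsetSum_coeff]
    refine Finset.sum_eq_zero fun l _ => ?_
    rw [coeff_C_mul, hcon l, mul_zero]

end Pool.Agent.Helper61.AD
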