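import Mathlib

/-!
# Block AD-DEG: the field generated by the roots has bounded degree

Proof. Induction on the finite set `s` of roots: `adjoin k (insert a s) = adjoin k {a} ⊔ adjoin k s`
(`IntermediateField.adjoin_union`), `IntermediateField.finrank_sup_le`, and
`finrank k k⟮a⟯ = (minpoly k a).natDegree ≤ d` as `minpoly k a ∣ f`. There are at most `d` roots, so the degree
is at most `d ^ d` (with `d ≥ 1`; for `d = 0` there are no roots and the degree is `1`). Take
`D = (d+1)^d`.
-/

namespace Pool.Agent.Helper61.AD

open Polynomial Module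

theorem finrank_adjoin_finset {k Ω : Type*} [Field k] [Field Ω] [Algebra k Ω]
    [Algebra.IsAlgebraic k Ω] (d : ℕ) (f : k[X]) (hf : f ≠ 0) (hd : f.natDegree ≤ d) (s : Finset Ω)
    (hs : ∀ a ∈ s, aeval a f = 0) :
    FiniteDimensional k (IntermediateField.adjoin k (s : Set Ω)) ∧
    finrank k (IntermediateField.adjoin k (s : Set Ω)) ≤ (d + 1) ^ s.card := by
  classical
  induction s using Finset.induction_on with
  | empty =>
    rw [Finset.coe_empty, IntermediateField.adjoin_empty]
    refine ⟨inferInstance, ?_⟩
    simp
  | insert a s ha ih =>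
    obtain ⟨h1, h2⟩ := ih fun b hb => hs b (Finset.mem_insert_of_mem hb)
    have hint : IsIntegral k a := (Algebra.IsAlgebraic.isAlgebraic a).isIntegral
    have h3 : FiniteDimensional k (IntermediateField.adjoin k ({a} : Set Ω)) :=
      IntermediateField.adjoin.finiteDimensional hint
    have h4 : finrank k (IntermediateField.adjoin k ({a} : Set Ω)) ≤ d + 1 := by
      rw [IntermediateField.adjoin.finrank hint]
      have := natDegree_le_of_dvd (minpoly.dvd k a (hs a (Finset.mem_insert_self a s))) hf
      omega
    have h5 : IntermediateField.adjoin k ((insert a s : Finset Ω) : Set Ω)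
        = IntermediateField.adjoin k ({a} : Set Ω) ⊔ IntermediateField.adjoin k (s : Set Ω) := by
      rw [Finset.coe_insert, Set.insert_eq, IntermediateField.adjoin_union]
    rw [h5]
    refine ⟨IntermediateField.finiteDimensional_sup _ _, ?_⟩
    refine (IntermediateField.finrank_sup_le _ _).trans ?_
    rw [Finset.card_insert_of_notMem ha, pow_succ, mul_comm]
    exact Nat.mul_le_mul h2 h4

theorem finrank_adjoin_roots {k Ω : Type*} [Field k] [Field Ω] [Algebra k Ω]
    [Algebra.IsAlgebraic k Ω] (d : ℕ) (f : k[X]) (hf : f ≠ 0) (hd : f.natDegree ≤ d) :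
    FiniteDimensional k (IntermediateField.adjoin k (f.rootSet Ω)) ∧
    finrank k (IntermediateField.adjoin k (f.rootSet Ω)) ≤ (d + 1) ^ d := by
  classical
  obtain ⟨h1, h2⟩ := finrank_adjoin_finset d f hf hd ((f.aroots Ω).toFinset) (fun a ha => by
    rw [Multiset.mem_toFinset, mem_aroots] at ha
    exact ha.2)
  refine ⟨h1, h2.trans ?_⟩
  refine Nat.pow_le_pow_right (Nat.succ_pos d) ?_
  refine (Multiset.toFinset_card_le _).trans ((card_roots' _).trans ?_)
  exact (natDegree_map_le).trans hd

end Pool.Agent.Helper61.AD
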