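import Pool.Agent.Helper61.AD.Gen

/-!
# Block AD-LIM: passage to the limit

Proof. Let `t n = vH (cf r ((P n).map ..)) ≥ 0` (`vH_nonneg`, the vector is non-zero as the polynomial is monic of
degree `r`). By `hfail` and `hup`: `(2r+ε) t n + n ≤ C' (t n + 1)` with
`C' = c * ∑_{T, A} ∑_{i<r} (2i+1)`, so `t n → ∞` (`n → ∞`). `U = Filter.hyperfilter ℕ`, `t → ∞` along `U`. For `v ∈ T`,
`p ∈ A`, `i`: `l n v p i / t n ∈ [0, 2 c]` eventually, so it has a limit `λ v p i` along `U`
(compactness: `isCompact_Icc.ultrafilter_le_nhds` applied to the mapped ultrafilter; choose the limits). `λ` is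
non-negative, antitone in `i`, zero for `i ≥ r`. `m v p s = ∑_{i ∈ Ico s r} λ v p i`,
`nn v p = #{i < r : 0 < λ v p i}`; as `λ` is antitone, `λ v p i = 0` for `i ≥ nn v p`. `Prof (m v p) (nn v p)`:
`m s - m (s+1) = λ s` for `s < r`, `0` for `s ≥ r`. `∑_p nn v p ≤ r`: if `λ v p i > 0` then eventually
`c < l n v p i` (as `t n → ∞`); take one `n` which works for all the finitely many `(p, i)` and use `hcnt`.
Hypothesis `happ` of `core_irred` (with `t n`): from `htay`, `c ≤ exp (ε t n / 2)` eventually and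
`∑_{Ico s r} l n v p i ≥ t n (m v p s - ε / 2)` eventually. Conclusion of `core_irred`:
`∑∑ (m 0 + 2 ∑_{Ico 1 r} m s) ≤ 2 r`. And `m 0 + 2 ∑_{s ∈ Ico 1 r} m s = ∑_{i<r} (2 i + 1) λ i`
(exchange of summation). But dividing `hfail` by `t n` and passing to the limit:
`2 r + ε ≤ ∑∑∑ (2 i + 1) λ v p i`. Contradiction.
-/

namespace Pool.Agent.Helper61.AD

open NumberField Finset Polynomial Module
open Pool.Agent.Helper64.Vojta (Pl nv sn)
open Pool.Agent.V2 (vn vH)

/-- exchange of summation -/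
theorem sum_exch (r : ℕ) (f : ℕ → ℝ) :
    (∑ i ∈ Finset.Ico 0 r, f i) + 2 * ∑ s ∈ Finset.Ico 1 r, ∑ i ∈ Finset.Ico s r, f i =
      ∑ i ∈ Finset.range r, (2 * i + 1) * f i := by
  have h1 : ∑ s ∈ Finset.Ico 1 r, ∑ i ∈ Finset.Ico s r, f i = ∑ i ∈ Finset.range r, (i : ℝ) * f i := by
    rw [Finset.sum_comm' (t' := Finset.range r) (s' := fun y => Finset.Ico 1 (y + 1))]
    · refine Finset.sum_congr rfl fun i _ => ?_
      rw [Finset.sum_const, Nat.card_Ico, nsmul_eq_mul]
      simp
    · intro x y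
      simp only [Finset.mem_Ico, Finset.mem_range]
      omega
  rw [h1, Finset.mul_sum, ← Finset.range_eq_Ico, ← Finset.sum_add_distrib]
  refine Finset.sum_congr rfl fun i _ => ?_
  ring

/-- the profile attached to an antitone sequence of limits -/
theorem prof_of {r : ℕ} (lam : ℕ → ℝ) (h0 : ∀ i, 0 ≤ lam i) (hanti : Antitone lam)
    (hz : ∀ i, r ≤ i → lam i = 0) :
    Prof (fun s => ∑ i ∈ Finset.Ico s r, lam i) ((Finset.range r).filter (fun i => 0 < lam i)).card := by
  have hd : ∀ s, (∑ i ∈ Finset.Ico s r, lam i) = lam s + ∑ i ∈ Finset.Ico (s + 1) r, lam i := by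
    intro s
    by_cases hs : s < r
    · exact Finset.sum_eq_sum_Ico_succ_bot hs _
    · rw [Finset.Ico_eq_empty (by omega), Finset.Ico_eq_empty (by omega), hz s (by omega)]
      simp
  refine ⟨fun s => Finset.sum_nonneg fun i _ => h0 i, ?_, ?_, ?_⟩
  · intro a b hab
    exact Finset.sum_le_sum_of_subset_of_nonneg (Finset.Ico_subset_Ico hab le_rfl) fun i _ _ => h0 i
  · intro s
    have h1 := hd s
    have h2 := hd (s + 1)
    have h3 := hanti (Nat.le_succ s)
    simp only [Nat.succ_eq_add_one] at h3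
    have h4 : (∑ i ∈ Finset.Ico (s + 1 + 1) r, lam i) = ∑ i ∈ Finset.Ico (s + 2) r, lam i := rfl
    change (∑ i ∈ Finset.Ico (s + 1) r, lam i) - (∑ i ∈ Finset.Ico (s + 2) r, lam i) ≤
      (∑ i ∈ Finset.Ico s r, lam i) - (∑ i ∈ Finset.Ico (s + 1) r, lam i)
    rw [h1, h2, h4]
    rw [h4] at h2
    linarith
  · intro s hs
    refine Finset.sum_eq_zero fun i hi => ?_
    by_contra hne
    have hpos : 0 < lam i := lt_of_le_of_ne (h0 i) (Ne.symm hne)
    have hi' := Finset.mem_Ico.mp hi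
    have hsub : Finset.range (i + 1) ⊆ (Finset.range r).filter (fun i => 0 < lam i) := by
      intro j hj
      rw [Finset.mem_range] at hj
      rw [Finset.mem_filter, Finset.mem_range]
      exact ⟨by omega, lt_of_lt_of_le hpos (hanti (by omega))⟩
    have h1 := Finset.card_le_card hsub
    rw [Finset.card_range] at h1
    omega

theorem limit_contra {k K : Type*} [Field k] [NumberField k] [Field K] [NumberField K] [Algebra k K]
    {r : ℕ} (hr : 0 < r) (T : Finset (Pl K)) (hT : ∀ v : InfinitePlace K, Sum.inl v ∈ T)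
    (A : Finset (Option K)) (c ε : ℝ) (hc : 1 ≤ c) (hε : 0 < ε)
    (P : ℕ → k[X]) (hmon : ∀ n, (P n).Monic) (hirr : ∀ n, Irreducible (P n))
    (hdeg : ∀ n, (P n).natDegree = r)
    (l : ℕ → Pl K → Option K → ℕ → ℝ) (hanti : ∀ n v p, Antitone (l n v p))
    (hpos : ∀ n v p i, 0 ≤ l n v p i) (hzero : ∀ n v p i, r ≤ i → l n v p i = 0)
    (htay : ∀ n, ∀ v ∈ T, ∀ p ∈ A, ∀ s ≤ r,
      nv v ((tay p r ((P n).map (algebraMap k K))).coeff s) ≤
        c * vn v (cf r ((P n).map (algebraMap k K))) *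
          Real.exp (-(∑ i ∈ Finset.Ico s r, l n v p i)))
    (hup : ∀ n v p i, l n v p i ≤ c * (vH (cf r ((P n).map (algebraMap k K))) + 1))
    (hcnt : ∀ n, ∀ v ∈ T, ∑ p ∈ A, ((Finset.range r).filter (fun i => c < l n v p i)).card ≤ r)
    (hfail : ∀ n : ℕ, (2 * r + ε) * vH (cf r ((P n).map (algebraMap k K))) + n ≤
      ∑ v ∈ T, ∑ p ∈ A, ∑ i ∈ Finset.range r, (2 * i + 1) * l n v p i) : False := by
  classical
  set t : ℕ → ℝ := fun n => vH (cf r ((P n).map (algebraMap k K))) with ht_def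
  have hcf0 : ∀ j, cf r ((P j).map (algebraMap k K)) ≠ 0 := by
    intro j h0
    have h1 : ((P j).map (algebraMap k K)).coeff r = 1 := by
      have h2 := ((hmon j).map (algebraMap k K)).coeff_natDegree
      rwa [(hmon j).natDegree_map, hdeg j] at h2
    have h2 : cf r ((P j).map (algebraMap k K)) (Fin.last r) = 0 := by rw [h0]; rfl
    have h3 : cf r ((P j).map (algebraMap k K)) (Fin.last r) =
      ((P j).map (algebraMap k K)).coeff r := rfl
    rw [h3, h1] at h2
    exact one_ne_zero h2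
  have ht0 : ∀ n, 0 ≤ t n := fun n => Pool.Agent.V2.vH_nonneg (hcf0 n)
  have hfail' : ∀ n : ℕ, (2 * r + ε) * t n + n ≤
      ∑ v ∈ T, ∑ p ∈ A, ∑ i ∈ Finset.range r, (2 * i + 1) * l n v p i := hfail
  have hup' : ∀ n v p i, l n v p i ≤ c * (t n + 1) := hup
  -- `t → ∞`
  obtain ⟨C', hC'0, hC'⟩ : ∃ C' : ℝ, 0 ≤ C' ∧ ∀ n : ℕ, (n : ℝ) ≤ C' * (t n + 1) := by
    refine ⟨∑ v ∈ T, ∑ p ∈ A, ∑ i ∈ Finset.range r, (2 * (i : ℝ) + 1) * c, ?_, fun n => ?_⟩
    · positivity
    · have h1 : ∑ v ∈ T, ∑ p ∈ A, ∑ i ∈ Finset.range r, (2 * (i : ℝ) + 1) * l n v p i ≤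
          ∑ v ∈ T, ∑ p ∈ A, ∑ i ∈ Finset.range r, ((2 * (i : ℝ) + 1) * c) * (t n + 1) := by
        refine Finset.sum_le_sum fun v _ => Finset.sum_le_sum fun p _ =>
          Finset.sum_le_sum fun i _ => ?_
        rw [mul_assoc]
        exact mul_le_mul_of_nonneg_left (hup' n v p i) (by positivity)
      have h2 := hfail' n
      have h3 : 0 ≤ (2 * (r : ℝ) + ε) * t n := mul_nonneg (by positivity) (ht0 n)
      simp only [Finset.sum_mul]
      linarith
  have htop : Filter.Tendsto t Filter.atTop Filter.atTop := by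
    have h1 : Filter.Tendsto (fun n : ℕ => (n : ℝ) / (C' + 1) - 1) Filter.atTop Filter.atTop := by
      refine Filter.tendsto_atTop_add_const_right _ _ ?_
      exact tendsto_natCast_atTop_atTop.atTop_div_const (by linarith)
    refine Filter.tendsto_atTop_mono (fun n => ?_) h1
    have h2 := hC' n
    have h3 : (n : ℝ) ≤ (C' + 1) * (t n + 1) := by nlinarith [ht0 n]
    have h4 : (n : ℝ) / (C' + 1) ≤ t n + 1 := by
      rw [div_le_iff₀ (by linarith)]
      linarith
    linarith
  let U : Ultrafilter ℕ := Filter.hyperfilter ℕ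
  have hU : (U : Filter ℕ) ≤ Filter.atTop := Nat.hyperfilter_le_atTop
  have htU : Filter.Tendsto t (U : Filter ℕ) Filter.atTop := htop.mono_left hU
  have ht1 : ∀ᶠ n in (U : Filter ℕ), 1 ≤ t n := htU.eventually (Filter.eventually_ge_atTop _)
  -- limits
  have hlim : ∀ v p i, ∃ x : ℝ, 0 ≤ x ∧
      Filter.Tendsto (fun n => l n v p i / t n) (U : Filter ℕ) (nhds x) := by
    intro v p i
    have h1 : ∀ᶠ n in (U : Filter ℕ), l n v p i / t n ∈ Set.Icc 0 (2 * c) := by
      filter_upwards [ht1] with n hn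
      refine ⟨div_nonneg (hpos n v p i) (ht0 n), ?_⟩
      rw [div_le_iff₀ (by linarith)]
      have h2 := hup' n v p i
      nlinarith
    obtain ⟨x, hx, hx'⟩ := (isCompact_Icc (a := (0 : ℝ)) (b := 2 * c)).ultrafilter_le_nhds
      (U.map (fun n => l n v p i / t n)) (by
        rw [Filter.le_principal_iff, Ultrafilter.coe_map, Filter.mem_map]
        exact h1)
    exact ⟨x, hx.1, hx'⟩
  choose lam hlam0 hlam using hlim
  have hlanti : ∀ v p, Antitone (lam v p) := by
    intro v p i j hij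
    refine le_of_tendsto_of_tendsto (hlam v p j) (hlam v p i) ?_
    exact Filter.Eventually.of_forall fun n => div_le_div_of_nonneg_right (hanti n v p hij) (ht0 n)
  have hlz : ∀ v p i, r ≤ i → lam v p i = 0 := by
    intro v p i hi
    refine tendsto_nhds_unique (hlam v p i) ?_
    have h1 : (fun n => l n v p i / t n) = fun _ => (0 : ℝ) := by
      funext n
      rw [hzero n v p i hi, zero_div]
    rw [h1]
    exact tendsto_const_nhds
  let m : Pl K → Option K → ℕ → ℝ := fun v p s => ∑ i ∈ Finset.Ico s r, lam v p i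
  let nn : Pl K → Option K → ℕ := fun v p =>
    ((Finset.range r).filter (fun i => 0 < lam v p i)).card
  have hprof : ∀ w ∈ T, ∀ p ∈ A, Prof (m w p) (nn w p) := fun w _ p _ =>
    prof_of (lam w p) (hlam0 w p) (hlanti w p) (hlz w p)
  have hnn : ∀ w ∈ T, ∑ p ∈ A, nn w p ≤ r := by
    intro w hw
    have h1 : ∀ᶠ n in (U : Filter ℕ), ∀ p ∈ A, ∀ i ∈ Finset.range r,
        0 < lam w p i → c < l n w p i := by
      rw [Filter.eventually_all_finset]
      intro p _
      rw [Filter.eventually_all_finset]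
      intro i _
      by_cases hi : 0 < lam w p i
      · have h2 : ∀ᶠ n in (U : Filter ℕ), lam w p i / 2 < l n w p i / t n :=
          (hlam w p i).eventually (lt_mem_nhds (by linarith))
        have h3 : ∀ᶠ n in (U : Filter ℕ), c / (lam w p i / 2) ≤ t n :=
          htU.eventually (Filter.eventually_ge_atTop _)
        filter_upwards [h2, h3, ht1] with n h2 h3 h4 _
        rw [lt_div_iff₀ (by linarith)] at h2
        rw [div_le_iff₀ (by linarith)] at h3
        linarith
      · exact Filter.Eventually.of_forall fun n h => absurd h hi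
    obtain ⟨n, hn⟩ := h1.exists
    refine le_trans (Finset.sum_le_sum fun p hp => ?_) (hcnt n w hw)
    refine Finset.card_le_card fun i hi => ?_
    rw [Finset.mem_filter] at hi ⊢
    exact ⟨hi.1, hn p hp i hi.1 hi.2⟩
  have hcore := core_irred hr T hT A nn hnn m hprof U t htU P hmon hirr hdeg htU
    (fun δ hδ => Filter.Eventually.of_forall fun n => by
      have := ht0 n
      change t n ≤ (1 + δ) * t n
      nlinarith)
    (by
      intro w hw p hp s hs δ hδ
      have h1 : Filter.Tendsto (fun n => ∑ i ∈ Finset.Ico s r, l n w p i / t n) (U : Filter ℕ)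
          (nhds (m w p s)) := tendsto_finsetSum _ fun i _ => hlam w p i
      have h2 : ∀ᶠ n in (U : Filter ℕ), m w p s - δ / 2 < ∑ i ∈ Finset.Ico s r, l n w p i / t n :=
        h1.eventually (lt_mem_nhds (by linarith))
      have h3 : ∀ᶠ n in (U : Filter ℕ), Real.log c / (δ / 2) ≤ t n :=
        htU.eventually (Filter.eventually_ge_atTop _)
      filter_upwards [h2, h3, ht1] with n h2 h3 h4
      rw [← Finset.sum_div, lt_div_iff₀ (by linarith)] at h2
      rw [div_le_iff₀ (by linarith)] at h3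
      refine (htay n w hw p hp s hs).trans ?_
      have hvn : 0 ≤ vn w (cf r ((P n).map (algebraMap k K))) :=
        (Pool.Agent.Helper64.Vojta.nv_nonneg w _).trans (Pool.Agent.V2.le_vn w _ (Fin.last r))
      have h5 : c * Real.exp (-(∑ i ∈ Finset.Ico s r, l n w p i)) ≤
          Real.exp (t n * (δ - m w p s)) := by
        have h6 : c = Real.exp (Real.log c) := (Real.exp_log (by linarith)).symm
        rw [h6, ← Real.exp_add]
        apply Real.exp_le_exp.mpr
        nlinarith
      calc c * vn w (cf r ((P n).map (algebraMap k K))) *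
            Real.exp (-(∑ i ∈ Finset.Ico s r, l n w p i))
          = vn w (cf r ((P n).map (algebraMap k K))) *
            (c * Real.exp (-(∑ i ∈ Finset.Ico s r, l n w p i))) := by ring
        _ ≤ vn w (cf r ((P n).map (algebraMap k K))) * Real.exp (t n * (δ - m w p s)) :=
            mul_le_mul_of_nonneg_left h5 hvn)
  have hsum : ∑ w ∈ T, ∑ p ∈ A, (m w p 0 + 2 * ∑ s ∈ Finset.Ico 1 r, m w p s) =
      ∑ w ∈ T, ∑ p ∈ A, ∑ i ∈ Finset.range r, (2 * (i : ℝ) + 1) * lam w p i :=
    Finset.sum_congr rfl fun w _ => Finset.sum_congr rfl fun p _ => sum_exch r (lam w p)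
  rw [hsum] at hcore
  have hlimS : Filter.Tendsto (fun n => ∑ v ∈ T, ∑ p ∈ A, ∑ i ∈ Finset.range r,
      (2 * (i : ℝ) + 1) * (l n v p i / t n)) (U : Filter ℕ)
      (nhds (∑ v ∈ T, ∑ p ∈ A, ∑ i ∈ Finset.range r, (2 * (i : ℝ) + 1) * lam v p i)) :=
    tendsto_finsetSum _ fun v _ => tendsto_finsetSum _ fun p _ => tendsto_finsetSum _ fun i _ =>
      (hlam v p i).const_mul _
  have hge : ∀ᶠ n in (U : Filter ℕ), 2 * (r : ℝ) + ε ≤ ∑ v ∈ T, ∑ p ∈ A, ∑ i ∈ Finset.range r,
      (2 * (i : ℝ) + 1) * (l n v p i / t n) := by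
    filter_upwards [ht1] with n hn
    have h1 := hfail' n
    have h2 : ∑ v ∈ T, ∑ p ∈ A, ∑ i ∈ Finset.range r, (2 * (i : ℝ) + 1) * (l n v p i / t n) =
        (∑ v ∈ T, ∑ p ∈ A, ∑ i ∈ Finset.range r, (2 * (i : ℝ) + 1) * l n v p i) / t n := by
      simp only [Finset.sum_div, mul_div_assoc]
    rw [h2, le_div_iff₀ (by linarith)]
    have h3 : (0 : ℝ) ≤ n := Nat.cast_nonneg n
    linarith
  have := ge_of_tendsto hlimS hge
  linarith

end Pool.Agent.Helper61.AD
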