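import Pool.Agent.Helper61.AD.PerPoint
import Pool.Agent.Helper61.AD.Lim
import Pool.Agent.Helper61.AD.Deg

/-!
# Block AD-MAIN: the main inequality

Proof. `K = g.SplittingField` (a number field). Suppose the statement fails; for every `n` choose a counterexample
`N, P, x` for `C = n`. As `g` splits in `N`, there is a `k`-embedding `K → N` (`SplittingField.lift`), which makes
`N` a `K`-algebra (`IsScalarTower.of_algebraMap_eq'`). `per_point` gives `l n`. `[N:k] = [N:K] [K:k]`,
`vH` over `K` of the coefficient vector is `[K:k]` times `vH` over `k` (`vH_eq` and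
`Helper52.Vojta.logHeight_algebraMap`). So
`[N:K] [K:k] ((2r+ε) vH_k + n) < (sum) ≤ [N:K] ∑∑∑ (2i+1) l n v p i`; divide by `[N:K] > 0`:
`(2r+ε) vH_K + n ≤ (2r+ε) vH_K + [K:k] n ≤ ∑∑∑`. Now `limit_contra` with `T = upW K S` (`inl_mem_upW`),
`A = pts g q K`.
-/

namespace Pool.Agent.Helper61.AD

open NumberField Finset Polynomial Module
open Pool.Agent.Helper64.Vojta (Pl nv sn above)
open Pool.Agent.V2 (vn vH)
open Pool.Agent.Helper52.Vojta (upW)

universe u

theorem cf_ne_zero {K : Type*} [Field K] {r : ℕ} {P : K[X]} (hP : P.Monic) (hd : P.natDegree = r) :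
    cf r P ≠ 0 := by
  intro h
  have h1 : P.coeff r = 0 := congrFun h (Fin.last r)
  have h2 : P.coeff r = 1 := by rw [← hd]; exact hP
  rw [h1] at h2
  exact zero_ne_one h2

theorem vH_cf_map {k K : Type*} [Field k] [NumberField k] [Field K] [NumberField K] [Algebra k K]
    {r : ℕ} {P : k[X]} (hP : P.Monic) (hd : P.natDegree = r) :
    vH (cf r (P.map (algebraMap k K))) = finrank k K * vH (cf r P) := by
  have h1 : cf r (P.map (algebraMap k K)) = fun i => algebraMap k K (cf r P i) := by
    funext i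
    simp [cf]
  have h2 : cf r (P.map (algebraMap k K)) ≠ 0 :=
    cf_ne_zero (hP.map _) (by rw [hP.natDegree_map]; exact hd)
  rw [Pool.Agent.V2.vH_eq h2, Pool.Agent.V2.vH_eq (cf_ne_zero hP hd), h1]
  exact Pool.Agent.Helper52.Vojta.logHeight_algebraMap (cf_ne_zero hP hd)

theorem main_ineq {k : Type u} [Field k] [NumberField k] (g : k[X]) (hg : g ≠ 0) (q : ℕ)
    (S : Finset (Pl k)) (hS : ∀ v : InfinitePlace k, Sum.inl v ∈ S) (r : ℕ) (hr : 0 < r) (D : ℕ)
    (ε : ℝ) (hε : 0 < ε) :
    ∃ c : ℝ, ∀ (N : Type u) [Field N] [NumberField N] [Algebra k N], finrank k N ≤ D →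
      (g.map (algebraMap k N)).Splits → ∀ P : k[X], P.Monic → Irreducible P → P.natDegree = r →
      ¬ P ∣ g → ∀ x : Fin r → N, P.map (algebraMap k N) = ∏ i, (X - C (x i)) →
      ∑ ν ∈ S, ∑ w ∈ above N ν, ∑ p ∈ pts g q N, ∑ i, ∑ j, min (cl w (x i) p) (cl w (x j) p) ≤
        finrank k N * ((2 * r + ε) * vH (cf r P) + c) := by
  classical
  let K := IntermediateField.adjoin k (g.rootSet (AlgebraicClosure k))
  have hspf : g.IsSplittingField k K :=
    IntermediateField.adjoin_rootSet_isSplittingField (IsAlgClosed.splits _)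
  have hfd : FiniteDimensional k K := (finrank_adjoin_roots _ _ hg le_rfl).1
  have hcz : CharZero K := charZero_of_injective_algebraMap (algebraMap k K).injective
  have hfdQ : FiniteDimensional ℚ K := Module.Finite.trans k K
  have hNF : NumberField K := { to_charZero := hcz, to_finiteDimensional := hfdQ }
  have hspK : (g.map (algebraMap k K)).Splits := hspf.splits'
  obtain ⟨c, hc1, hc⟩ := per_point.{u} (k := k) (K := K) g hg hspK q S r hr D
  by_contra hcon
  push Not at hcon
  have key : ∀ n : ℕ, ∃ (P : k[X]) (l : Pl K → Option K → ℕ → ℝ), P.Monic ∧ Irreducible P ∧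
      P.natDegree = r ∧ (∀ v p, Antitone (l v p)) ∧ (∀ v p i, 0 ≤ l v p i) ∧
      (∀ v p i, r ≤ i → l v p i = 0) ∧
      (∀ v ∈ upW K S, ∀ p ∈ pts g q K, ∀ s ≤ r,
          nv v ((tay p r (P.map (algebraMap k K))).coeff s) ≤
            c * vn v (cf r (P.map (algebraMap k K))) *
              Real.exp (-(∑ i ∈ Finset.Ico s r, l v p i))) ∧
      (∀ v p i, l v p i ≤ c * (vH (cf r (P.map (algebraMap k K))) + 1)) ∧
      (∀ v ∈ upW K S, ∑ p ∈ pts g q K,
          ((Finset.range r).filter (fun i => c < l v p i)).card ≤ r) ∧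
      (2 * r + ε) * vH (cf r (P.map (algebraMap k K))) + n ≤
        ∑ v ∈ upW K S, ∑ p ∈ pts g q K, ∑ i ∈ Finset.range r, (2 * i + 1) * l v p i := by
    intro n
    obtain ⟨N, iN, iNF, iA, hD, hspN, P, hmon, hirr, hdeg, hndvd, x, hx, hfail⟩ := hcon n
    let φ : K →ₐ[k] N := Polynomial.IsSplittingField.lift K g hspN
    letI : Algebra K N := φ.toRingHom.toAlgebra
    have htower : IsScalarTower k K N := IsScalarTower.of_algebraMap_eq' φ.comp_algebraMap.symm
    obtain ⟨l, h1, h2, h3, h4, h5, h6, h7⟩ := hc N hD P hmon hirr hdeg hndvd x hx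
    refine ⟨P, l, hmon, hirr, hdeg, h1, h2, h3, h5, h6, h7, ?_⟩
    have hfin : finrank k K * finrank K N = finrank k N := by
      have : FiniteDimensional k N := FiniteDimensional.right ℚ k N
      have : FiniteDimensional K N := FiniteDimensional.right k K N
      exact finrank_mul_finrank k K N
    have hposN : (0 : ℝ) < finrank K N := by
      have : FiniteDimensional ℚ N := NumberField.to_finiteDimensional
      have : FiniteDimensional k N := FiniteDimensional.right ℚ k N
      have : FiniteDimensional K N := FiniteDimensional.right k K N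
      exact_mod_cast finrank_pos
    have hposK : (1 : ℝ) ≤ finrank k K := by
      have : 0 < finrank k K := finrank_pos
      exact_mod_cast this
    have hvH := vH_cf_map (K := K) hmon hdeg
    have h8 := hfail.trans_le h4
    rw [← hfin] at h8
    push_cast at h8
    have h9 : (finrank K N : ℝ) * (finrank k K * ((2 * r + ε) * vH (cf r P) + n)) <
        finrank K N * ∑ v ∈ upW K S, ∑ p ∈ pts g q K, ∑ i ∈ Finset.range r,
            (2 * i + 1) * l v p i := by
      refine lt_of_eq_of_lt ?_ h8
      ring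
    have h10 := lt_of_mul_lt_mul_left h9 hposN.le
    rw [hvH]
    have h11 : (n : ℝ) ≤ finrank k K * n := le_mul_of_one_le_left (Nat.cast_nonneg _) hposK
    nlinarith
  choose P l hmon hirr hdeg h1 h2 h3 h4 h5 h6 h7 using key
  exact limit_contra hr (upW K S) (inl_mem_upW S hS) (pts g q K) c ε hc1 hε P hmon hirr hdeg l h1 h2
    h3 h4 h5 h6 h7

end Pool.Agent.Helper61.AD
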