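import Pool.Agent.Helper52.Vojta.BaseChange

/-!
# Block AD-RAM: a place where the discriminant of a generating polynomial has odd order ramifies

Proof. `L = k(y)`. Let `N` be a Galois closure of `L / k` (e.g. `(minpoly k y).SplittingField`, with an embedding
`L → N`, or `normalClosure`), `D = (minpoly k y).discr ∈ k`. `D` is a square in `N`:
`D = ± ∏_{i<j} (x i - x j)^2`; sign: `discr = ∏_{i<j} (x i - x j)^2` exactly, or argue with `± D` (the sign does not
change the order at `v`; so take `z ∈ N` with `z^2 = D` or `z^2 = -D`; see block AD-FIN2, `discr_eq`,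
which may be used as a stub: `∏_i ∏_{j≠i} (x i - x j) = ± (∏_{i<j} (x i - x j))^2`). Hence for a prime `𝔓` of `N`
above `v`: `2 ord_𝔓 z = e(𝔓|v) (2m+1)`-type equation, so `e(𝔓|v)` is even (see `FD.exists_ram` in
`Helper21/V2/FD.lean`, same computation). In particular `e(𝔓|v) ≥ 2`.
Claim: some prime `w` of `L` above `v` has `e(w|v) ≥ 2`. Otherwise `v` is unramified in `L`, hence in all
conjugate fields `L_i = σ_i(L) ⊆ N`. `N/k` and `N/L_i` are Galois; the inertia group
`I ⊆ Gal(N/k)` of `𝔓` has order `e(𝔓|v)` (Mathlib: `Ideal.card_inertia_eq_ramificationIdxIn` or similar),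
`I ∩ Gal(N/L_i)` has order `e(𝔓| 𝔓 ∩ L_i)`, and `e(𝔓|v) = e(𝔓|𝔓 ∩ L_i) e(𝔓 ∩ L_i|v)`
(`ramificationIdx_algebra_tower`) `= e(𝔓|𝔓 ∩ L_i)`. So `I ⊆ Gal(N/L_i)` for all `i`, and as the `L_i` generate
`N`, `I = 1`, contradiction to `e(𝔓|v) ≥ 2`. (Any other proof is welcome: e.g. the discriminant of a local
integral basis is a unit at an unramified `v` and the discriminants of two bases differ by a
square, `Algebra.discr_of_matrix_vecMul`.)
The last two conclusions follow from `e(w|v) ≥ 2`: `Ideal.le_pow_of_le_ramificationIdx'`, and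
`N w = (N v)^f` as in `FD.exists_ram`.
`sum_ram`: same proof as `quad_ram` in `Helper21/V2/FD.lean` (with `2` replaced by `finrank k L`).

Proof given here (helper44): the other route. Let `b` be lifts to `𝓞 L` of a basis of `𝓞 L / p` over `𝓞 k / p`.
If no prime above `p` divides the different, then the trace form modulo `p` is non-degenerate, so `disc b` is
prime to `p`, and the discriminant of `1, y, ..., y^(r-1)` is `disc b` times a square: its order is even. So some
prime above `p` divides the different, and it is ramified (residue fields are finite).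
-/

namespace Pool.Agent.Helper61.AD

open NumberField Finset Polynomial Module
open Pool.Agent.Helper64.Vojta (Pl nv sn above)

universe u

namespace Ram

section key

variable {k L : Type*} [Field k] [NumberField k] [Field L] [NumberField L] [Algebra k L]

/-- The trace form is non-degenerate modulo a prime over which no prime divides the different. -/
theorem mem_map_of_trace (p : Ideal (𝓞 k)) [hpm : p.IsMaximal] (hp0 : p ≠ ⊥)
    (hun : ∀ P : Ideal (𝓞 L), P.IsPrime → P.comap (algebraMap (𝓞 k) (𝓞 L)) = p →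
      ¬ P ∣ differentIdeal (𝓞 k) (𝓞 L)) (x : 𝓞 L)
    (hx : ∀ y : 𝓞 L, Algebra.intTrace (𝓞 k) (𝓞 L) (x * y) ∈ p) :
    x ∈ p.map (algebraMap (𝓞 k) (𝓞 L)) := by
  have : FiniteDimensional k L := FiniteDimensional.right ℚ k L
  have : IsScalarTower (𝓞 k) (𝓞 L) L := inferInstance
  -- an element of the different outside `p`
  obtain ⟨s, hs1, hs2⟩ : ∃ s : 𝓞 k, algebraMap (𝓞 k) (𝓞 L) s ∈ differentIdeal (𝓞 k) (𝓞 L) ∧
      s ∉ p := by
    by_contra hcon
    push Not at hcon
    obtain ⟨P, hP1, hP2, hP3⟩ := Ideal.exists_ideal_over_prime_of_isIntegral p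
      (differentIdeal (𝓞 k) (𝓞 L)) (fun s hs => hcon s hs)
    exact hun P hP2 hP3 (Ideal.dvd_iff_le.mpr hP1)
  -- `c p ⊆ (π)`, `c ∉ p`
  obtain ⟨π, hπ1, hπ2⟩ := Ideal.exists_mem_pow_notMem_pow_succ p hp0 hpm.ne_top 1
  rw [pow_one] at hπ1
  have hπ0 : π ≠ 0 := by
    rintro rfl
    exact hπ2 (zero_mem _)
  obtain ⟨a, ha⟩ : p ∣ Ideal.span {π} := Ideal.dvd_span_singleton.mpr hπ1
  have hap : ¬ a ≤ p := by
    intro h
    apply hπ2
    have : Ideal.span {π} ≤ p ^ 2 := by
      rw [ha, pow_two]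
      exact Ideal.mul_mono_right h
    exact this (Ideal.mem_span_singleton_self π)
  obtain ⟨c, hca, hcp⟩ := SetLike.not_le_iff_exists.mp hap
  have hcpi : ∀ t ∈ p, ∃ t' : 𝓞 k, c * t = π * t' := by
    intro t ht
    have h1 : t * c ∈ p * a := Ideal.mul_mem_mul ht hca
    rw [← ha, Ideal.mem_span_singleton'] at h1
    obtain ⟨t', ht'⟩ := h1
    exact ⟨t', by rw [mul_comm c t, ← ht']; ring⟩
  have hπL : (algebraMap (𝓞 k) L π) ≠ 0 := by
    rw [IsScalarTower.algebraMap_apply (𝓞 k) k L]
    simpa using hπ0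
  have hπk : (algebraMap (𝓞 k) k π) ≠ 0 := by
    simpa using hπ0
  set z : L := algebraMap (𝓞 k) L c * algebraMap (𝓞 L) L x / algebraMap (𝓞 k) L π with hz
  have hzd : z ∈ Submodule.traceDual (𝓞 k) k (1 : Submodule (𝓞 L) L) := by
    rw [Submodule.mem_traceDual]
    rintro w hw
    obtain ⟨y, rfl⟩ := Submodule.mem_one.mp hw
    obtain ⟨t', ht'⟩ := hcpi _ (hx y)
    refine ⟨t', ?_⟩
    rw [Algebra.traceForm_apply]
    have e1 : z * algebraMap (𝓞 L) L y =
        (algebraMap (𝓞 k) k c / algebraMap (𝓞 k) k π) • (algebraMap (𝓞 L) L (x * y)) := by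
      rw [hz, Algebra.smul_def, map_div₀, ← IsScalarTower.algebraMap_apply,
        ← IsScalarTower.algebraMap_apply, map_mul]
      ring
    rw [e1, map_smul, ← Algebra.algebraMap_intTrace (A := 𝓞 k), smul_eq_mul, div_mul_eq_mul_div,
      eq_div_iff hπk, ← map_mul, ← map_mul, ht', mul_comm]
  have hs3 : algebraMap (𝓞 L) L (algebraMap (𝓞 k) (𝓞 L) s) ∈
      (1 / Submodule.traceDual (𝓞 k) k (1 : Submodule (𝓞 L) L) : Submodule (𝓞 L) L) := by
    rw [← coeSubmodule_differentIdeal (𝓞 k) k (B := 𝓞 L) (L := L)]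
    exact ⟨_, hs1, rfl⟩
  obtain ⟨b, hb⟩ := Submodule.mem_one.mp (Submodule.mem_div_iff_forall_mul_mem.mp hs3 z hzd)
  have hb2 : algebraMap (𝓞 k) (𝓞 L) (s * c) * x = algebraMap (𝓞 k) (𝓞 L) π * b := by
    apply FaithfulSMul.algebraMap_injective (𝓞 L) L
    simp only [map_mul]
    rw [hb, hz]
    simp only [← IsScalarTower.algebraMap_apply]
    field_simp
  have hsc : s * c ∉ p := fun h => (hpm.isPrime.mem_or_mem h).elim hs2 hcp
  obtain ⟨u, q, hq, huq⟩ := Ideal.IsMaximal.exists_inv hpm hsc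
  have e2 : x = algebraMap (𝓞 k) (𝓞 L) π * (algebraMap (𝓞 k) (𝓞 L) u * b) +
      algebraMap (𝓞 k) (𝓞 L) q * x := by
    have h1 : algebraMap (𝓞 k) (𝓞 L) (u * (s * c) + q) = 1 := by rw [huq, map_one]
    rw [map_add, map_mul] at h1
    linear_combination (-x) * h1 + algebraMap (𝓞 k) (𝓞 L) u * hb2
  rw [e2]
  exact Ideal.add_mem _ (Ideal.mul_mem_right _ _ (Ideal.mem_map_of_mem _ hπ1))
    (Ideal.mul_mem_right _ _ (Ideal.mem_map_of_mem _ hq))

/-- The discriminant of lifts of a basis modulo `p` is prime to `p`. -/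
theorem exists_discr (p : Ideal (𝓞 k)) [hpm : p.IsMaximal] (hp0 : p ≠ ⊥)
    (hun : ∀ P : Ideal (𝓞 L), P.IsPrime → P.comap (algebraMap (𝓞 k) (𝓞 L)) = p →
      ¬ P ∣ differentIdeal (𝓞 k) (𝓞 L)) :
    ∃ (b : Fin (finrank k L) → L) (d : 𝓞 k), algebraMap (𝓞 k) k d = Algebra.discr k b ∧ d ∉ p := by
  classical
  have : FiniteDimensional k L := FiniteDimensional.right ℚ k L
  let _ : Field (𝓞 k ⧸ p) := Ideal.Quotient.field p
  have hfr : finrank (𝓞 k ⧸ p) (𝓞 L ⧸ p.map (algebraMap (𝓞 k) (𝓞 L))) = finrank k L :=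
    Ideal.finrank_quotient_map p k L
  have hpos : 0 < finrank k L := finrank_pos
  have : Module.Finite (𝓞 k ⧸ p) (𝓞 L ⧸ p.map (algebraMap (𝓞 k) (𝓞 L))) :=
    Module.finite_of_finrank_pos (hfr ▸ hpos)
  let B := finBasisOfFinrankEq (𝓞 k ⧸ p) (𝓞 L ⧸ p.map (algebraMap (𝓞 k) (𝓞 L))) hfr
  choose b hb using fun i => Ideal.Quotient.mk_surjective (B i)
  let T : Matrix (Fin (finrank k L)) (Fin (finrank k L)) (𝓞 k) :=
    fun i j => Algebra.intTrace (𝓞 k) (𝓞 L) (b i * b j)
  refine ⟨fun i => algebraMap (𝓞 L) L (b i), T.det, ?_, ?_⟩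
  · rw [RingHom.map_det, Algebra.discr_def]
    congr 1
    ext i j
    rw [RingHom.mapMatrix_apply, Matrix.map_apply, Algebra.traceMatrix_apply,
      Algebra.traceForm_apply, ← map_mul, ← Algebra.algebraMap_intTrace (A := 𝓞 k)]
  · intro hdet
    have h1 : ((Ideal.Quotient.mk p).mapMatrix T).det = 0 := by
      rw [← RingHom.map_det]
      exact Ideal.Quotient.eq_zero_iff_mem.mpr hdet
    obtain ⟨v, hv0, hv⟩ := Matrix.exists_vecMul_eq_zero_iff.mpr h1
    choose a ha using fun i => Ideal.Quotient.mk_surjective (v i)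
    set x : 𝓞 L := ∑ i, algebraMap (𝓞 k) (𝓞 L) (a i) * b i with hx
    have hxm : Ideal.Quotient.mk (p.map (algebraMap (𝓞 k) (𝓞 L))) x = ∑ i, v i • B i := by
      rw [hx, map_sum]
      refine Finset.sum_congr rfl fun i _ => ?_
      rw [map_mul, hb, ← ha, Algebra.smul_def]
      rfl
    have hlin : ∀ y : 𝓞 L ⧸ p.map (algebraMap (𝓞 k) (𝓞 L)),
        Algebra.trace (𝓞 k ⧸ p) _ (Ideal.Quotient.mk (p.map (algebraMap (𝓞 k) (𝓞 L))) x * y) = 0 := by
      have h2 : (Algebra.trace (𝓞 k ⧸ p) (𝓞 L ⧸ p.map (algebraMap (𝓞 k) (𝓞 L)))) ∘ₗ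
          LinearMap.mulLeft (𝓞 k ⧸ p) (Ideal.Quotient.mk (p.map (algebraMap (𝓞 k) (𝓞 L))) x) = 0 := by
        refine B.ext fun j => ?_
        rw [LinearMap.comp_apply, LinearMap.mulLeft_apply, LinearMap.zero_apply, ← hb j, ← map_mul,
          Algebra.trace_quotient_eq_of_isDedekindDomain, hx, Finset.sum_mul, map_sum, map_sum]
        have h3 := congrFun hv j
        rw [Matrix.vecMul, dotProduct, Pi.zero_apply] at h3
        rw [← h3]
        refine Finset.sum_congr rfl fun i _ => ?_
        rw [RingHom.mapMatrix_apply, Matrix.map_apply, ← ha, ← map_mul, mul_assoc,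
          ← Algebra.smul_def, map_smul, smul_eq_mul]
      intro y
      exact LinearMap.congr_fun h2 y
    have hxp := mem_map_of_trace p hp0 hun x (fun y => by
      rw [← Ideal.Quotient.eq_zero_iff_mem, ← Algebra.trace_quotient_eq_of_isDedekindDomain, map_mul]
      exact hlin _)
    rw [← Ideal.Quotient.eq_zero_iff_mem, hxm] at hxp
    apply hv0
    funext i
    exact Fintype.linearIndependent_iff.mp B.linearIndependent v hxp i

/-- A generator of `L` gives a basis of powers, whose discriminant is that of the minimal polynomial. -/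
theorem discr_minpoly (y : L) (hy : (minpoly k y).natDegree = finrank k L) :
    ∃ b : Basis (Fin (finrank k L)) k L, (minpoly k y).discr = Algebra.discr k b := by
  classical
  have : FiniteDimensional k L := FiniteDimensional.right ℚ k L
  have hint : IsIntegral k y := Algebra.IsIntegral.isIntegral y
  have h1 : IntermediateField.adjoin k {y} = ⊤ :=
    (Field.primitive_element_iff_minpoly_natDegree_eq k y).mpr hy
  have h2 : Algebra.adjoin k {y} = ⊤ := by
    rw [← IntermediateField.adjoin_simple_toSubalgebra_of_isAlgebraic hint.isAlgebraic, h1]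
    rfl
  set pb : PowerBasis k L := PowerBasis.ofAdjoinEqTop hint h2 with hpb
  have hgen : pb.gen = y := PowerBasis.ofAdjoinEqTop_gen hint h2
  have hdim : pb.dim = finrank k L := pb.finrank.symm
  refine ⟨pb.basis.reindex (finCongr hdim), ?_⟩
  have h3 : Algebra.discr k (pb.basis.reindex (finCongr hdim)) = Algebra.discr k pb.basis := by
    rw [Basis.coe_reindex]
    exact Algebra.discr_reindex k pb.basis (finCongr hdim)
  rw [h3, Algebra.discr_powerBasis_eq_norm, hgen]
  -- the norm of `f'(y)` is the resultant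
  set f := minpoly k y with hf
  have hmon : f.Monic := minpoly.monic hint
  have hpos : 0 < f.natDegree := minpoly.natDegree_pos hint
  have hres := resultant_deriv (natDegree_pos_iff_degree_pos.mp hpos)
  rw [hmon.leadingCoeff, mul_one] at hres
  have hnorm : Algebra.norm k (aeval y f.derivative) =
      resultant f f.derivative f.natDegree (f.natDegree - 1) := by
    let E := AlgebraicClosure L
    apply (algebraMap k E).injective
    have hsp : (f.map (algebraMap k E)).Splits := IsAlgClosed.splits _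
    have hr := resultant_eq_prod_eval (f.map (algebraMap k E)) (f.derivative.map (algebraMap k E))
      (f.natDegree - 1) (natDegree_map_le.trans (natDegree_derivative_le f)) hsp
    rw [(hmon.map _).leadingCoeff, one_pow, one_mul, hmon.natDegree_map, resultant_map_map] at hr
    rw [hr, Algebra.norm_eq_prod_embeddings]
    have hnodup : (f.map (algebraMap k E)).roots.Nodup :=
      nodup_roots (Separable.map (Algebra.IsSeparable.isSeparable k y))
    have e1 : ((f.map (algebraMap k E)).roots.map (eval · (f.derivative.map (algebraMap k E)))).prod =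
        ∏ a ∈ (f.map (algebraMap k E)).roots.toFinset, eval a (f.derivative.map (algebraMap k E)) := by
      rw [Finset.prod_multiset_map_count]
      refine Finset.prod_congr rfl fun a ha => ?_
      rw [Multiset.count_eq_one_of_mem hnodup (Multiset.mem_toFinset.mp ha), pow_one]
    rw [e1]
    refine Finset.prod_bij (fun σ _ => σ y) ?_ ?_ ?_ ?_
    · intro σ _
      rw [Multiset.mem_toFinset, mem_roots (hmon.map _).ne_zero, IsRoot.def, eval_map_algebraMap,
        aeval_algHom_apply, minpoly.aeval, map_zero]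
    · intro σ _ τ _ h
      apply pb.algHom_ext
      rw [hgen]
      exact h
    · intro a ha
      rw [Multiset.mem_toFinset, mem_roots (hmon.map _).ne_zero, IsRoot.def,
        eval_map_algebraMap] at ha
      have hga : aeval a (minpoly k pb.gen) = 0 := by
        rw [hgen]
        exact ha
      refine ⟨pb.lift a hga, mem_univ _, ?_⟩
      calc pb.lift a hga y = pb.lift a hga pb.gen := congrArg _ hgen.symm
        _ = a := pb.lift_gen a hga
    · intro σ _
      rw [eval_map_algebraMap, aeval_algHom_apply]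
  rw [hnorm, hres, ← hy, ← mul_assoc, ← pow_add, ← two_mul, pow_mul]
  simp

end key

/-- the value of a nonzero element at a finite place is an integral power of the norm -/
theorem fin_zpow {K : Type*} [Field K] [NumberField K] (w : FinitePlace K) {x : K} (hx : x ≠ 0) :
    ∃ j : ℤ, w x = (Ideal.absNorm w.maximalIdeal.asIdeal : ℝ) ^ j := by
  have h1 : w x = ‖FinitePlace.embedding w.maximalIdeal x‖ :=
    (FinitePlace.norm_embedding_eq w _).symm
  have hv : w.maximalIdeal.valuation K x ≠ 0 := (Valuation.ne_zero_iff _).mpr hx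
  rw [h1, FinitePlace.norm_embedding', WithZeroMulInt.toNNReal_neg_apply _ hv]
  exact ⟨Multiplicative.toAdd (WithZero.unzero hv), by push_cast; rfl⟩

end Ram

open Ram in
theorem odd_ram {k L : Type u} [Field k] [NumberField k] [Field L] [NumberField L] [Algebra k L]
    (y : L) (hy : (minpoly k y).natDegree = finrank k L) (v : FinitePlace k) (m : ℤ)
    (hm : nv (.inr v) (minpoly k y).discr =
      (Ideal.absNorm v.maximalIdeal.asIdeal : ℝ) ^ (2 * m + 1)) :
    ∃ w : FinitePlace L, w.maximalIdeal.asIdeal.LiesOver v.maximalIdeal.asIdeal ∧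
      v.maximalIdeal.asIdeal.map (algebraMap (𝓞 k) (𝓞 L)) ≤ w.maximalIdeal.asIdeal ^ 2 ∧
      Ideal.absNorm v.maximalIdeal.asIdeal ≤ Ideal.absNorm w.maximalIdeal.asIdeal := by
  classical
  have : FiniteDimensional k L := FiniteDimensional.right ℚ k L
  set p := v.maximalIdeal with hp
  have hp0 : p.asIdeal ≠ ⊥ := p.ne_bot
  have hpm : p.asIdeal.IsMaximal := p.isMaximal
  have hn1 : (1 : ℝ) < Ideal.absNorm p.asIdeal := by
    exact_mod_cast HeightOneSpectrum.one_lt_absNorm p
  -- a prime dividing the different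
  obtain ⟨P, hPp, hPc, hPd⟩ : ∃ P : Ideal (𝓞 L), P.IsPrime ∧
      P.comap (algebraMap (𝓞 k) (𝓞 L)) = p.asIdeal ∧ P ∣ differentIdeal (𝓞 k) (𝓞 L) := by
    by_contra hcon
    push Not at hcon
    obtain ⟨b, d, hd, hdp⟩ := exists_discr (L := L) p.asIdeal hp0 hcon
    obtain ⟨b', hb'⟩ := discr_minpoly y hy
    have hd0 : d ≠ 0 := by
      rintro rfl
      exact hdp (zero_mem _)
    have hvd : v (algebraMap (𝓞 k) k d) = 1 := by
      rw [← FinitePlace.norm_embedding_eq v]
      exact (FinitePlace.norm_eq_one_iff_notMem k p d).mpr hdp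
    have hli : LinearIndependent k b := by
      by_contra h
      have := Algebra.discr_zero_of_not_linearIndependent k h
      rw [this] at hd
      apply hd0
      simpa using hd
    have : NeZero (finrank k L) := ⟨finrank_pos.ne'⟩
    let bb : Basis (Fin (finrank k L)) k L :=
      basisOfLinearIndependentOfCardEqFinrank hli (by simp)
    have hbb : (bb : Fin (finrank k L) → L) = b := coe_basisOfLinearIndependentOfCardEqFinrank _ _
    have h1 : Algebra.discr k b' = (bb.toMatrix b').det ^ 2 * Algebra.discr k b := by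
      rw [← hbb, ← Algebra.discr_of_matrix_vecMul, Basis.toMatrix_map_vecMul]
    have hdet0 : (bb.toMatrix b').det ≠ 0 := by
      intro h0
      rw [h0] at h1
      have := Algebra.discr_not_zero_of_basis k b'
      apply this
      rw [h1]
      ring
    obtain ⟨j, hj⟩ := fin_zpow v hdet0
    have hm' : v (minpoly k y).discr = (Ideal.absNorm p.asIdeal : ℝ) ^ (2 * m + 1) := hm
    rw [hb', h1, ← hd, map_mul, map_pow, hvd, mul_one, hj, ← zpow_natCast, ← zpow_mul] at hm'
    have h2 := zpow_right_injective₀ (by linarith) hn1.ne' hm'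
    push_cast at h2
    omega
  have hP0 : P ≠ ⊥ := by
    rintro rfl
    apply hp0
    rw [← hPc]
    exact Ideal.comap_bot_of_injective _ (FaithfulSMul.algebraMap_injective (𝓞 k) (𝓞 L))
  have hPm : P.IsMaximal := hPp.isMaximal hP0
  have hlies : P.LiesOver p.asIdeal := ⟨hPc.symm⟩
  let W : IsDedekindDomain.HeightOneSpectrum (𝓞 L) := ⟨P, hPp, hP0⟩
  refine ⟨FinitePlace.mk W, ?_, ?_, ?_⟩
  · rw [FinitePlace.maximalIdeal_mk]
    exact hlies
  · rw [FinitePlace.maximalIdeal_mk]
    change p.asIdeal.map (algebraMap (𝓞 k) (𝓞 L)) ≤ P ^ 2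
    by_contra hle
    have hdiv : P ∣ p.asIdeal.map (algebraMap (𝓞 k) (𝓞 L)) :=
      Ideal.dvd_iff_le.mpr (Ideal.map_le_iff_le_comap.mpr hPc.ge)
    obtain ⟨Q, hQ⟩ := hdiv
    have hcop : IsCoprime P Q := by
      rw [Ideal.isCoprime_iff_sup_eq]
      refine hPm.1.2 (P ⊔ Q) (left_lt_sup.mpr fun hQP => hle ?_)
      rw [hQ, pow_two]
      exact Ideal.mul_mono_right hQP
    exact not_dvd_differentIdeal_of_isCoprime (𝓞 k) P Q hcop hQ.symm hPd
  · rw [FinitePlace.maximalIdeal_mk]
    change Ideal.absNorm p.asIdeal ≤ Ideal.absNorm P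
    have hN : Ideal.absNorm P = Ideal.absNorm p.asIdeal ^ (p.asIdeal.inertiaDeg' P) :=
      Ideal.absNorm_eq_pow_inertiaDeg'_of_liesOver P p.asIdeal p.isPrime p.ne_bot
    have hf0 : p.asIdeal.inertiaDeg' P ≠ 0 := by
      intro h0
      rw [h0, pow_zero] at hN
      exact hPp.ne_top (Ideal.absNorm_eq_one_iff.mp hN)
    rw [hN]
    exact Nat.le_self_pow hf0 _

theorem sum_ram {k L : Type u} [Field k] [NumberField k] [Field L] [NumberField L] [Algebra k L]
    (W : Finset (FinitePlace k))
    (hW : ∀ v ∈ W, ∃ w : FinitePlace L, w.maximalIdeal.asIdeal.LiesOver v.maximalIdeal.asIdeal ∧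
      v.maximalIdeal.asIdeal.map (algebraMap (𝓞 k) (𝓞 L)) ≤ w.maximalIdeal.asIdeal ^ 2 ∧
      Ideal.absNorm v.maximalIdeal.asIdeal ≤ Ideal.absNorm w.maximalIdeal.asIdeal) :
    ∑ v ∈ W, Real.log (Ideal.absNorm v.maximalIdeal.asIdeal) ≤
      Real.log |(discr L : ℝ)| - finrank k L * Real.log |(discr k : ℝ)| := by
  classical
  have hne : W.Nonempty → Nonempty (FinitePlace L) := by
    rintro ⟨v, hv⟩
    obtain ⟨w, _⟩ := hW v hv
    exact ⟨w⟩
  have hdk : (discr k).natAbs ≠ 0 := Int.natAbs_ne_zero.mpr (discr_ne_zero k)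
  have hD0 : Ideal.absNorm (differentIdeal (𝓞 k) (𝓞 L)) ≠ 0 := by
    rw [Ne, Ideal.absNorm_eq_zero_iff]
    exact differentIdeal_ne_bot
  have hdisc := natAbs_discr_eq_absNorm_differentIdeal_mul_natAbs_discr_pow k (𝓞 k) L (𝓞 L)
  have hcastL : |(discr L : ℝ)| = ((discr L).natAbs : ℝ) := by
    rw [Nat.cast_natAbs, Int.cast_abs]
  have hcastk : |(discr k : ℝ)| = ((discr k).natAbs : ℝ) := by
    rw [Nat.cast_natAbs, Int.cast_abs]
  rw [hcastL, hcastk, hdisc]
  push_cast
  rw [Real.log_mul (by exact_mod_cast hD0) (pow_ne_zero _ (by exact_mod_cast hdk)), Real.log_pow]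
  rcases W.eq_empty_or_nonempty with rfl | hWne
  · rw [Finset.sum_empty]
    have : 0 ≤ Real.log (Ideal.absNorm (differentIdeal (𝓞 k) (𝓞 L)) : ℝ) :=
      Real.log_natCast_nonneg _
    push_cast
    linarith
  have := hne hWne
  choose! w hw1 hw2 hw3 using hW
  -- the different is divisible by the product of the ramified primes
  have hinj : ∀ v ∈ W, ∀ v' ∈ W, v ≠ v' → (w v).maximalIdeal.asIdeal ≠ (w v').maximalIdeal.asIdeal := by
    intro v hv v' hv' hne h
    apply hne
    rw [← FinitePlace.maximalIdeal_inj]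
    refine IsDedekindDomain.HeightOneSpectrum.ext ?_
    rw [(hw1 v hv).over, (hw1 v' hv').over, h]
  have hdvd : ∀ v ∈ W, (w v).maximalIdeal.asIdeal ∣ differentIdeal (𝓞 k) (𝓞 L) := by
    intro v hv
    have h1 := pow_sub_one_dvd_differentIdeal (𝓞 k) (p := v.maximalIdeal.asIdeal)
      (w v).maximalIdeal.asIdeal 2 v.maximalIdeal.ne_bot (Ideal.dvd_iff_le.mpr (hw2 v hv))
    simpa using h1
  have hprod : ∏ v ∈ W, (w v).maximalIdeal.asIdeal ∣ differentIdeal (𝓞 k) (𝓞 L) := by
    refine Finset.prod_dvd_of_coprime ?_ hdvd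
    intro v hv v' hv' hne
    change IsCoprime _ _
    rw [Ideal.isCoprime_iff_sup_eq]
    exact Ideal.IsMaximal.coprime_of_ne inferInstance inferInstance (hinj v hv v' hv' hne)
  have hle : ∏ v ∈ W, Ideal.absNorm (w v).maximalIdeal.asIdeal ≤
      Ideal.absNorm (differentIdeal (𝓞 k) (𝓞 L)) := by
    rw [← map_prod]
    exact Nat.le_of_dvd (Nat.pos_of_ne_zero hD0) (Ideal.absNorm_dvd_absNorm_of_le
      (Ideal.dvd_iff_le.mp hprod))
  have hle2 : ∏ v ∈ W, Ideal.absNorm v.maximalIdeal.asIdeal ≤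
      Ideal.absNorm (differentIdeal (𝓞 k) (𝓞 L)) :=
    (Finset.prod_le_prod' hw3).trans hle
  have h3 : ∑ v ∈ W, Real.log (Ideal.absNorm v.maximalIdeal.asIdeal) ≤
      Real.log (Ideal.absNorm (differentIdeal (𝓞 k) (𝓞 L))) := by
    rw [← Real.log_prod (fun v _ => by
      exact_mod_cast (zero_lt_one.trans (HeightOneSpectrum.one_lt_absNorm v.maximalIdeal)).ne')]
    apply Real.log_le_log
    · exact Finset.prod_pos fun v _ => by
        exact_mod_cast zero_lt_one.trans (HeightOneSpectrum.one_lt_absNorm v.maximalIdeal)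
    · exact_mod_cast hle2
  push_cast
  linarith

end Pool.Agent.Helper61.AD
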