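import Pool.Agent.Helper61.AD.Defs
import Pool.Agent.Helper61.AD.Ram
import Pool.Agent.Helper61.AD.Gs
import Pool.Agent.Helper21.V2.FC

/-!
# Block AD-DK: order discriminant and field discriminant

`ld v P = (2 r - 2) log (max |coefficients of P|_v) - log |disc P|_v`. Proof: as `delta_le` in
`Helper21/V2/FinE.lean` (which is the case `r = 2`): for a finite place `v`, `ld v P = n_v log N v` with an integer
`n_v`, and `n_v` is odd iff `ord_v (disc P)` is odd (`2 r - 2` is even). Then
`∑ n_v log N v = 2 ∑ ⌊n_v / 2⌋ log N v + ∑_{n_v odd} log N v`, and the last sum is bounded by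
`odd_ram` and `sum_ram`. (Proof: helper48.)
-/

namespace Pool.Agent.Helper61.AD

open NumberField Finset Polynomial Module
open Pool.Agent.Helper64.Vojta (Pl nv sn above)
open Pool.Agent.V2 (vn vH)

universe u

namespace DK

theorem finsum_cond {α : Type*} (p : α → Prop) (f : α → ℝ) (s : Finset α)
    (h1 : ∀ a, p a → f a ≠ 0 → a ∈ s) (h2 : ∀ a ∈ s, p a) :
    ∑ᶠ (a) (_ : p a), f a = ∑ a ∈ s, f a := by
  classical
  simp_rw [finsum_eq_if]
  rw [finsum_eq_sum_of_support_subset (s := s)]
  · exact Finset.sum_congr rfl fun a ha => if_pos (h2 a ha)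
  · intro a ha
    rw [Function.mem_support] at ha
    by_cases hp : p a
    · rw [if_pos hp] at ha
      exact h1 a hp ha
    · rw [if_neg hp] at ha
      exact absurd rfl ha

/-- The local term is an integer multiple of `log N v`, and its parity is that of the order of `D`. -/
theorem ld_int {k : Type*} [Field k] [NumberField k] (r : ℕ) {κ : Type*} [Finite κ] (F : κ → k)
    (hF : F ≠ 0) (D : k) (hD : D ≠ 0) (v : FinitePlace k) :
    ∃ n : ℤ, (2 * (r : ℝ) - 2) * Real.log (vn (.inr v) F) - Real.log (nv (.inr v) D) =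
        n * Real.log (Ideal.absNorm v.maximalIdeal.asIdeal) ∧
      (Odd n → ∃ m : ℤ, nv (.inr v) D = (Ideal.absNorm v.maximalIdeal.asIdeal : ℝ) ^ (2 * m + 1)) := by
  obtain ⟨j, hj⟩ := Function.ne_iff.mp hF
  haveI : Nonempty κ := ⟨j⟩
  obtain ⟨i, hi⟩ : ∃ i, nv (.inr v) (F i) = vn (.inr v) F :=
    exists_eq_ciSup_of_finite (f := fun i => nv (.inr v : Pl k) (F i))
  have hvn : 0 < vn (.inr v : Pl k) F := Pool.Agent.V2.vn_pos _ hF
  have hFi : F i ≠ 0 := by
    intro h0
    rw [h0, Pool.Agent.Helper64.Vojta.nv_zero] at hi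
    exact hvn.ne hi
  obtain ⟨a, ha⟩ := Pool.Agent.V2.FC.exists_zpow v hFi
  obtain ⟨b, hb⟩ := Pool.Agent.V2.FC.exists_zpow v hD
  refine ⟨(2 * r - 2) * a - b, ?_, ?_⟩
  · rw [← hi, ha, hb, Real.log_zpow, Real.log_zpow]
    push_cast
    ring
  · rintro ⟨c, hc⟩
    refine ⟨(r - 1) * a - c - 1, ?_⟩
    rw [hb]
    congr 1
    linarith

end DK

theorem delta_le {k L : Type u} [Field k] [NumberField k] [Field L] [NumberField L] [Algebra k L]
    (r : ℕ) (hr : 0 < r) (y : L) (hL : finrank k L = r) (hy : (minpoly k y).natDegree = r)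
    (hdisc : (minpoly k y).discr ≠ 0) (S : Finset (Pl k)) :
    ∑ᶠ (v : FinitePlace k) (_ : Sum.inr v ∉ S),
        ((2 * r - 2) * Real.log (vn (.inr v) (cf r (minpoly k y))) -
          Real.log (nv (.inr v) (minpoly k y).discr)) ≤
      (Real.log |(discr L : ℝ)| - r * Real.log |(discr k : ℝ)|) +
      2 * ∑ᶠ (v : FinitePlace k) (_ : Sum.inr v ∉ S),
        (⌊((2 * r - 2) * Real.log (vn (.inr v) (cf r (minpoly k y))) -
          Real.log (nv (.inr v) (minpoly k y).discr)) /
            (2 * Real.log (Ideal.absNorm v.maximalIdeal.asIdeal))⌋ : ℝ) *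
          Real.log (Ideal.absNorm v.maximalIdeal.asIdeal) := by
  classical
  have hF : cf r (minpoly k y) ≠ 0 := by
    intro h
    have h1 := congrFun h (Fin.last r)
    have hint : IsIntegral k y := by
      haveI : FiniteDimensional k L := by
        apply FiniteDimensional.of_finrank_pos
        omega
      exact IsIntegral.of_finite k y
    have h2 : (minpoly k y).coeff r = 1 := by
      have h3 := minpoly.monic hint
      rw [← hy]
      exact h3
    have h4 : (minpoly k y).coeff r = 0 := by simpa [cf] using h1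
    rw [h2] at h4
    exact one_ne_zero h4
  set g : FinitePlace k → ℝ := fun v => (2 * (r : ℝ) - 2) * Real.log (vn (.inr v) (cf r (minpoly k y))) -
    Real.log (nv (.inr v) (minpoly k y).discr) with hg
  -- finitely many places matter
  have hfin : (Function.support g).Finite := by
    have h1 := (Pool.Agent.V2.finS_vn hF).const_mul (2 * (r : ℝ) - 2)
    have h2 := (h1.add (Pool.Agent.V2.finS_nv hdisc).neg)
    refine Set.Finite.subset h2 fun v hv => ?_
    rw [Function.mem_support] at hv ⊢
    rw [hg] at hv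
    simp only [sub_eq_add_neg] at hv ⊢
    exact hv
  choose n hn1 hn2 using fun v : FinitePlace k =>
    DK.ld_int r (cf r (minpoly k y)) hF (minpoly k y).discr hdisc v
  have hN : ∀ v : FinitePlace k, 0 < Real.log (Ideal.absNorm v.maximalIdeal.asIdeal) := fun v =>
    Real.log_pos (Pool.Agent.V2.FC.one_lt_norm v)
  set T : Finset (FinitePlace k) := hfin.toFinset.filter (fun v => Sum.inr v ∉ S) with hT
  have hfloor : ∀ v : FinitePlace k,
      (⌊g v / (2 * Real.log (Ideal.absNorm v.maximalIdeal.asIdeal))⌋ : ℝ) = ((n v / 2 : ℤ) : ℝ) := by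
    intro v
    have h1 : g v / (2 * Real.log (Ideal.absNorm v.maximalIdeal.asIdeal)) = (n v : ℝ) / (2 : ℕ) := by
      rw [hg]
      simp only []
      rw [hn1 v]
      have := (hN v).ne'
      field_simp
      push_cast
      ring
    rw [h1, Int.floor_div_natCast, Int.floor_intCast]
    rfl
  have hs1 : ∑ᶠ (v : FinitePlace k) (_ : Sum.inr v ∉ S), g v = ∑ v ∈ T, g v := by
    refine DK.finsum_cond _ _ T (fun v hv hne => ?_) (fun v hv => (Finset.mem_filter.mp hv).2)
    exact Finset.mem_filter.mpr ⟨hfin.mem_toFinset.mpr hne, hv⟩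
  have hs2 : ∑ᶠ (v : FinitePlace k) (_ : Sum.inr v ∉ S),
      (⌊g v / (2 * Real.log (Ideal.absNorm v.maximalIdeal.asIdeal))⌋ : ℝ) *
        Real.log (Ideal.absNorm v.maximalIdeal.asIdeal)
      = ∑ v ∈ T, ((n v / 2 : ℤ) : ℝ) * Real.log (Ideal.absNorm v.maximalIdeal.asIdeal) := by
    simp_rw [hfloor]
    refine DK.finsum_cond _ _ T (fun v hv hne => ?_) (fun v hv => (Finset.mem_filter.mp hv).2)
    refine Finset.mem_filter.mpr ⟨hfin.mem_toFinset.mpr ?_, hv⟩
    intro h0
    apply hne
    have h0' : (n v : ℝ) * Real.log (Ideal.absNorm v.maximalIdeal.asIdeal) = 0 := by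
      rw [← hn1 v]; exact h0
    have h3 : (n v : ℝ) = 0 := (mul_eq_zero.mp h0').resolve_right (hN v).ne'
    have h4 : n v = 0 := by exact_mod_cast h3
    rw [h4]
    simp
  have hs1' := hs1
  have hs2' := hs2
  rw [hg] at hs1' hs2'
  simp only [] at hs1' hs2'
  rw [hs1', hs2']
  set W := T.filter (fun v => Odd (n v)) with hW
  have hram := sum_ram (k := k) (L := L) W (fun v hv => by
    obtain ⟨m, hm⟩ := hn2 v (Finset.mem_filter.mp hv).2
    exact odd_ram y (by rw [hy, hL]) v m hm)
  rw [hL] at hram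
  have hsum : ∑ v ∈ T, g v = 2 * ∑ v ∈ T, ((n v / 2 : ℤ) : ℝ) *
      Real.log (Ideal.absNorm v.maximalIdeal.asIdeal)
      + ∑ v ∈ W, Real.log (Ideal.absNorm v.maximalIdeal.asIdeal) := by
    have hWs : ∑ v ∈ W, Real.log (Ideal.absNorm v.maximalIdeal.asIdeal)
        = ∑ v ∈ T, if Odd (n v) then Real.log (Ideal.absNorm v.maximalIdeal.asIdeal) else 0 :=
      Finset.sum_filter _ _
    rw [hWs, Finset.mul_sum, ← Finset.sum_add_distrib]
    refine Finset.sum_congr rfl fun v _ => ?_
    have hgv : g v = n v * Real.log (Ideal.absNorm v.maximalIdeal.asIdeal) := hn1 v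
    rw [hgv]
    split_ifs with h
    · obtain ⟨m, hm⟩ := h
      have h1 : n v / 2 = m := by omega
      rw [h1, hm]
      push_cast
      ring
    · rw [Int.not_odd_iff_even] at h
      obtain ⟨m, hm⟩ := h
      have h1 : n v / 2 = m := by omega
      rw [h1, hm]
      push_cast
      ring
  have hsum' := hsum
  rw [hg] at hsum'
  simp only [] at hsum'
  linarith

end Pool.Agent.Helper61.AD
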