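import Mathlib

/-!
# Algebraic definitions for the order discriminant inequality in all degrees (MP_71c16a_nt, helper61)

A point of the projective line is an element of `Option K`: `some a` is the affine point `a`, `none`
is the point at infinity.
-/

namespace Pool.Agent.Helper61.AD

open Finset Polynomial

section alg

variable {K : Type*} [Field K]

/-- Taylor polynomial at the point `p` of the binary form of degree `d` with dehomogenisation `P`. -/
noncomputable def tay (p : Option K) (d : ℕ) (P : K[X]) : K[X] :=
  match p with
  | some a => P.comp (X + C a)
  | none => P.reflect d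

/-- The binary forms of degree `r` with dehomogenisations `b i` have no common zero on the
projective line (over any extension field). -/
structure NoBase (r : ℕ) {n : ℕ} (b : Fin n → K[X]) : Prop where
  deg : ∀ i, (b i).natDegree ≤ r
  span : Ideal.span (Set.range b) = ⊤
  top : ∃ i, (b i).coeff r ≠ 0

/-- The points of the divisor `g = 0` (if `q ≤ deg g`) or `g = 0` plus infinity (if `q > deg g`)
over an extension field. -/
noncomputable def pts (g : K[X]) (q : ℕ) (N : Type*) [Field N] [Algebra K N] : Finset (Option N) := by
  classical
  exact (g.aroots N).toFinset.image some ∪ if g.natDegree < q then {none} else ∅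

/-- The coefficient vector of a polynomial of degree at most `r`. -/
def cf (r : ℕ) (P : K[X]) : Fin (r + 1) → K := fun j => P.coeff j

end alg

/-- The exponent at level `i` of a product of `N` factors with exponents `m`:
`(N - i % N) m (i / N) + (i % N) m (i / N + 1)`. -/
noncomputable def lev (N : ℕ) (m : ℕ → ℝ) (i : ℕ) : ℝ :=
  ((N - i % N : ℕ) : ℝ) * m (i / N) + ((i % N : ℕ) : ℝ) * m (i / N + 1)

/-- The sequence `m` is non-negative, non-increasing, convex, and vanishes from `n` on. -/
structure Prof (m : ℕ → ℝ) (n : ℕ) : Prop where
  nonneg : ∀ s, 0 ≤ m s
  anti : Antitone m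
  conv : ∀ s, m (s + 1) - m (s + 2) ≤ m s - m (s + 1)
  zero : ∀ s, n ≤ s → m s = 0

end Pool.Agent.Helper61.AD
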