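import Mathlib
import Pool.Agent.Helper21.V2.BB
import Pool.Agent.Helper61.AD.DefsA

/-!
# Definitions for the order discriminant inequality in all degrees (MP_71c16a_nt, helper61)
-/

namespace Pool.Agent.Helper61.AD

open NumberField Finset Polynomial Module
open Pool.Agent.Helper64.Vojta (Pl nv sn)

variable {K : Type*} [Field K] [NumberField K]

/-- Minus the logarithm of the chordal distance of the affine point `a` and the point `p` at `w`. -/
noncomputable def cl (w : Pl K) (a : K) (p : Option K) : ℝ :=
  match p with
  | some b => Real.log (sn w ![a, 1]) + Real.log (sn w ![b, 1]) - Real.log (nv w (a - b))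
  | none => Real.log (sn w ![a, 1])

end Pool.Agent.Helper61.AD
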