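import Mathlib

/-!
# Block AD-ADAPT: bases adapted to a filtration

`V τ` (`τ` real) is a non-increasing family of subspaces of `Fin n → K` with `V 0 = ⊤`, `Λ` a finite
set of non-negative levels containing `0`. There is an invertible matrix whose rows `M i` lie in
`V (c i)`, `c i ∈ Λ`, such that for `τ ∈ Λ` the space `V τ` is contained in the span of the rows with
`τ ≤ c i`.

Proof. Induction over the levels from the top: for a set of levels `τ_1 > τ_2 > ... > τ_k = 0`
(sorted `Λ`) choose a basis of `V τ_1`, extend it to a basis of `V τ_2`, and so on; a vector added at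
step `j` gets the level `τ_j`. Formally one may prove by `Finset.induction_on_min`
(adding a new minimal level) the statement: for every finite `Λ` (not containing 0 necessarily) and
antitone `V` there are a linearly independent set `s ⊆ V (min Λ)` and `c : (Fin n → K) → ℝ` with
`span s = V (min Λ)`, `c x ∈ Λ`, `x ∈ V (c x)` for `x ∈ s` and for `τ ∈ Λ`,
`V τ ≤ span {x ∈ s | τ ≤ c x}`. Use `LinearIndependent` extension inside `V τ`
(`exists_linearIndependent_extension` / `LinearIndepOn.extend`). At the end `V 0 = ⊤`, so `s` is a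
basis of `Fin n → K`; number it by `Fin n`.
-/

namespace Pool.Agent.Helper61.AD

private lemma adapt_aux {K : Type*} [Field K] {n : ℕ} (V : ℝ → Submodule K (Fin n → K))
    (hV : Antitone V) (Λ : Finset ℝ) :
    ∃ (s : Set (Fin n → K)) (c : (Fin n → K) → ℝ), LinearIndepOn K id s ∧
      (∀ x ∈ s, c x ∈ Λ ∧ x ∈ V (c x)) ∧
      ∀ τ ∈ Λ, V τ ≤ Submodule.span K {x | x ∈ s ∧ τ ≤ c x} := by
  classical
  induction Λ using Finset.induction_on_min with
  | empty => exact ⟨∅, fun _ => 0, linearIndepOn_empty K id, by simp, by simp⟩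
  | insert a Λ ha ih =>
    obtain ⟨s, c, hs, hc, hsp⟩ := ih
    have hsV : s ⊆ (V a : Set (Fin n → K)) := fun x hx =>
      hV (ha _ (hc x hx).1).le (hc x hx).2
    obtain ⟨b, hbt, hsb, htb, hb⟩ := exists_linearIndepOn_id_extension hs hsV
    refine ⟨b, fun x => if x ∈ s then c x else a, hb, ?_, ?_⟩
    · intro x hx
      by_cases hxs : x ∈ s
      · simp only [hxs, if_true]
        exact ⟨Finset.mem_insert_of_mem (hc x hxs).1, (hc x hxs).2⟩
      · simp only [hxs, if_false]
        exact ⟨Finset.mem_insert_self _ _, hbt hx⟩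
    · intro τ hτ
      rcases Finset.mem_insert.mp hτ with rfl | hτ'
      · intro x hx
        refine Submodule.span_mono ?_ (htb hx)
        intro y hy
        refine ⟨hy, ?_⟩
        by_cases hys : y ∈ s
        · simp only [hys, if_true]
          exact (ha _ (hc y hys).1).le
        · simp only [hys, if_false]; exact le_refl _
      · refine (hsp τ hτ').trans (Submodule.span_mono ?_)
        rintro y ⟨hys, hy⟩
        refine ⟨hsb hys, ?_⟩
        simp only [hys, if_true]
        exact hy

theorem adapt {K : Type*} [Field K] {n : ℕ} (Λ : Finset ℝ) (h0 : (0 : ℝ) ∈ Λ)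
    (hΛ : ∀ τ ∈ Λ, 0 ≤ τ) (V : ℝ → Submodule K (Fin n → K)) (hV0 : V 0 = ⊤) (hV : Antitone V) :
    ∃ (M : Matrix (Fin n) (Fin n) K) (c : Fin n → ℝ), M.det ≠ 0 ∧ (∀ i, c i ∈ Λ) ∧
      (∀ i, M i ∈ V (c i)) ∧
      ∀ τ ∈ Λ, V τ ≤ Submodule.span K {x | ∃ i, τ ≤ c i ∧ x = M i} := by
  classical
  obtain ⟨s, c, hs, hc, hsp⟩ := adapt_aux V hV Λ
  have hspan : ⊤ ≤ Submodule.span K (Set.range (fun x : s => (x : Fin n → K))) := by
    rw [Subtype.range_coe_subtype]
    have := hsp 0 h0
    rw [hV0] at this
    exact this.trans (Submodule.span_mono fun x hx => hx.1)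
  have hli : LinearIndependent K (fun x : s => (x : Fin n → K)) := hs
  let b : Module.Basis s K (Fin n → K) := Module.Basis.mk hli hspan
  have : Finite s := Module.Finite.finite_basis b
  have : Fintype s := Fintype.ofFinite s
  have hcard : Fintype.card s = n := by
    have := Module.finrank_eq_card_basis b
    rw [Module.finrank_fin_fun] at this
    exact this.symm
  let e : s ≃ Fin n := Fintype.equivFinOfCardEq hcard
  let M : Matrix (Fin n) (Fin n) K := fun i => ((e.symm i : s) : Fin n → K)
  have hM : LinearIndependent K M := by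
    have : M = (fun x : s => (x : Fin n → K)) ∘ e.symm := rfl
    rw [this]
    exact hli.comp _ e.symm.injective
  refine ⟨M, fun i => c (M i), ?_, ?_, ?_, ?_⟩
  · have h1 : IsUnit M := Matrix.linearIndependent_rows_iff_isUnit.mp hM
    exact ((Matrix.isUnit_iff_isUnit_det M).mp h1).ne_zero
  · intro i
    exact (hc _ (e.symm i).2).1
  · intro i
    exact (hc _ (e.symm i).2).2
  · intro τ hτ
    refine (hsp τ hτ).trans (Submodule.span_mono ?_)
    rintro x ⟨hxs, hx⟩
    refine ⟨e ⟨x, hxs⟩, ?_, ?_⟩
    · simpa [M] using hx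
    · simp [M]

end Pool.Agent.Helper61.AD
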