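import Pool.Agent.Helper61.AD.Tay

/-!
# Block AD-HERM: Hermite interpolation on the projective line

The Taylor functionals `P ↦ (tay p (Q-1) P).coeff s` (`p ∈ A`, `s < J p`) on polynomials of degree
`< Q` are linearly independent if `∑ J p ≤ Q`, hence they are rows of an invertible matrix acting on
the coefficient vector.

Proof. Let `ψ : (Fin Q → K) → ((p, s) ↦ K)` be the linear map with these functionals as components
(`Fin Q → K` = coefficient vectors = `degreeLT K Q`; use `exists_row` of `Tay.lean` to see that
they are linear in the coefficients). Kernel: if `P` is in the kernel then `(X - a)^(J (some a))`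
divides `P` for `some a ∈ A` (the first `J` coefficients of `P.comp (X + C a)` vanish), and, if
`none ∈ A`, the coefficients `Q-1-s`, `s < J none`, of `P` vanish, so `P.natDegree < Q - J none` or
`P = 0`. The factors `(X - a)^J` are pairwise coprime, so `P = M * R` with
`M = ∏ (X - a)^(J a)` monic and `R` of degree `< Q - ∑ J p`. So the kernel has dimension at most
`Q - ∑ J p` (it embeds in `degreeLT K (Q - ∑ J p)` by `P ↦ R`), so the rank of `ψ` is at least
`∑ J p` = the dimension of the target: `ψ` is surjective, i.e. the rows (elements of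
`Fin Q → K`) are linearly independent. Extend them to a basis of `Fin Q → K`
(`LinearIndependent.extend` or `exists_linearIndependent_extension`, `Basis.sumExtend`), and number
the basis by `Fin Q` (cardinality = finrank). (If `Q = 0` then all `J p = 0` and everything is empty.)
-/

namespace Pool.Agent.Helper61.AD

open Polynomial

/-- the factor attached to a point -/
noncomputable def fac {K : Type*} [Field K] (J : Option K → ℕ) : Option K → K[X]
  | none => 1
  | some a => (X - C a) ^ J (some a)

lemma fac_monic {K : Type*} [Field K] (J : Option K → ℕ) (p : Option K) : (fac J p).Monic := by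
  cases p with
  | none => exact monic_one
  | some a => exact (monic_X_sub_C a).pow _

lemma fac_natDegree {K : Type*} [Field K] [DecidableEq (Option K)] (J : Option K → ℕ)
    (p : Option K) : (fac J p).natDegree + (if p = none then J none else 0) = J p := by
  cases p with
  | none => simp [fac]
  | some a => simp [fac, natDegree_pow]

lemma fac_coprime {K : Type*} [Field K] (J : Option K → ℕ) {p q : Option K} (h : p ≠ q) :
    IsCoprime (fac J p) (fac J q) := by
  cases p with
  | none => exact isCoprime_one_left
  | some a =>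
    cases q with
    | none => exact isCoprime_one_right
    | some b =>
      apply IsCoprime.pow
      apply isCoprime_X_sub_C_of_isUnit_sub
      rw [isUnit_iff_ne_zero, sub_ne_zero]
      intro hab
      exact h (by rw [hab])

/-- the polynomial with coefficient vector `v` -/
noncomputable def pv {K : Type*} [Field K] {Q : ℕ} (v : Fin Q → K) : K[X] :=
  ∑ j : Fin Q, C (v j) * X ^ (j : ℕ)

lemma pv_coeff {K : Type*} [Field K] {Q : ℕ} (v : Fin Q → K) (j : Fin Q) :
    (pv v).coeff j = v j := by
  unfold pv
  simp only [finsetSum_coeff, coeff_C_mul, coeff_X_pow]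
  rw [Finset.sum_eq_single j]
  · simp
  · intro k _ hk
    rw [if_neg, mul_zero]
    intro h
    exact hk (Fin.ext h.symm)
  · intro h; exact absurd (Finset.mem_univ j) h

lemma pv_natDegree {K : Type*} [Field K] {Q : ℕ} (hQ : 0 < Q) (v : Fin Q → K) :
    (pv v).natDegree < Q := by
  have : (pv v).natDegree ≤ Q - 1 := by
    unfold pv
    apply natDegree_sum_le_of_forall_le
    intro k _
    refine (natDegree_C_mul_le _ _).trans ?_
    rw [natDegree_X_pow]
    omega
  omega

lemma pv_eq {K : Type*} [Field K] {Q : ℕ} {P : K[X]} (hP : P.natDegree < Q) :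
    pv (fun j : Fin Q => P.coeff j) = P := by
  conv_rhs => rw [P.as_sum_range' Q hP]
  unfold pv
  rw [Finset.sum_range]
  exact Finset.sum_congr rfl fun j _ => C_mul_X_pow_eq_monomial

/-- divisibility by the local factor -/
lemma dvd_of_tay {K : Type*} [Field K] (J : Option K → ℕ) (p : Option K) {d : ℕ} {P : K[X]}
    (h : ∀ s, s < J p → (tay p d P).coeff s = 0) : fac J p ∣ P := by
  cases p with
  | none => exact one_dvd _
  | some a =>
    have h1 : (X : K[X]) ^ J (some a) ∣ P.comp (X + C a) := by
      rw [X_pow_dvd_iff]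
      exact h
    obtain ⟨R, hR⟩ := h1
    refine ⟨R.comp (X - C a), ?_⟩
    have h2 : (P.comp (X + C a)).comp (X - C a) = P := by
      rw [comp_assoc]; simp
    rw [← h2, hR]
    simp [fac]

lemma kernel_deg {K : Type*} [Field K] [DecidableEq (Option K)] (A : Finset (Option K))
    (J : Option K → ℕ) (Q : ℕ)
    (hJ : ∑ p ∈ A, J p ≤ Q) {P : K[X]} (hP : P.natDegree < Q)
    (h : ∀ p ∈ A, ∀ s, s < J p → (tay p (Q - 1) P).coeff s = 0) :
    ∃ R : K[X], R ∈ degreeLT K (Q - ∑ p ∈ A, J p) ∧ P = (∏ p ∈ A, fac J p) * R := by
  have hdvd : (∏ p ∈ A, fac J p) ∣ P := by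
    apply Finset.prod_dvd_of_coprime
    · intro p _ q _ hpq
      exact fac_coprime J hpq
    · intro p hp
      exact dvd_of_tay J p (h p hp)
  obtain ⟨R, hR⟩ := hdvd
  refine ⟨R, ?_, hR⟩
  rw [mem_degreeLT]
  have hmon : (∏ p ∈ A, fac J p).Monic := monic_prod_of_monic _ _ fun p _ => fac_monic J p
  have hdeg : (∏ p ∈ A, fac J p).natDegree + (if none ∈ A then J none else 0) = ∑ p ∈ A, J p := by
    rw [natDegree_prod_of_monic _ _ fun p _ => fac_monic J p]
    rw [← Finset.sum_congr rfl fun p _ => fac_natDegree J p, Finset.sum_add_distrib]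
    congr 1
    rw [Finset.sum_ite_eq']
  by_cases hR0 : R = 0
  · rw [hR0, degree_zero]
    exact WithBot.bot_lt_coe _
  have hP0 : P ≠ 0 := by
    rw [hR]
    exact mul_ne_zero hmon.ne_zero hR0
  have hdegP : P.natDegree + (if none ∈ A then J none else 0) < Q := by
    by_cases hn : none ∈ A
    · rw [if_pos hn]
      by_contra hcon
      push Not at hcon
      have hJn : J none ≤ Q := (Finset.single_le_sum (f := J) (fun _ _ => Nat.zero_le _) hn).trans hJ
      have h1 := h none hn (Q - 1 - P.natDegree) (by omega)
      rw [tay_none, coeff_reflect, revAt_le (by omega)] at h1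
      rw [show Q - 1 - (Q - 1 - P.natDegree) = P.natDegree by omega] at h1
      exact hP0 (leadingCoeff_eq_zero.1 h1)
    · rw [if_neg hn]; omega
  have hnd : P.natDegree = (∏ p ∈ A, fac J p).natDegree + R.natDegree := by
    rw [hR, hmon.natDegree_mul' hR0]
  rw [degree_eq_natDegree hR0]
  exact_mod_cast (by omega : R.natDegree < Q - ∑ p ∈ A, J p)

theorem herm {K : Type*} [Field K] (A : Finset (Option K)) (J : Option K → ℕ) (Q : ℕ)
    (hJ : ∑ p ∈ A, J p ≤ Q) :
    ∃ (Λ : Matrix (Fin Q) (Fin Q) K) (e : ((p : A) × Fin (J p.1)) → Fin Q),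
      Λ.det ≠ 0 ∧ Function.Injective e ∧
      ∀ (i : (p : A) × Fin (J p.1)) (P : K[X]), P.natDegree < Q →
        Λ.mulVec (fun j : Fin Q => P.coeff j) (e i) = (tay (i.1 : Option K) (Q - 1) P).coeff i.2 := by
  classical
  rcases Nat.eq_zero_or_pos Q with hQ | hQ
  · subst hQ
    have hempty : IsEmpty ((p : A) × Fin (J p.1)) := by
      constructor
      rintro ⟨p, s⟩
      have h1 : J p.1 ≤ 0 := (Finset.single_le_sum (f := J) (fun _ _ => Nat.zero_le _) p.2).trans hJ
      have := s.2
      omega
    refine ⟨0, fun i => (hempty.false i).elim, ?_, fun i => (hempty.false i).elim,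
      fun i => (hempty.false i).elim⟩
    simp
  -- the rows
  have hrow : ∀ i : (p : A) × Fin (J p.1), ∃ T : Fin Q → K, ∀ P : K[X], P.natDegree < Q →
      (tay (i.1 : Option K) (Q - 1) P).coeff i.2 = ∑ j, T j * P.coeff j := by
    intro i
    obtain ⟨T, hT⟩ := exists_row (i.1 : Option K) (Q - 1) i.2
    refine ⟨fun j => T j, fun P hP => ?_⟩
    rw [hT P (by omega), show Q - 1 + 1 = Q by omega, Finset.sum_range]
  choose T hT using hrow
  -- the linear map
  let ψ : (Fin Q → K) →ₗ[K] (((p : A) × Fin (J p.1)) → K) := (Matrix.of T).mulVecLin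
  have hψ : ∀ v i, ψ v i = (tay (i.1 : Option K) (Q - 1) (pv v)).coeff i.2 := by
    intro v i
    rw [hT i _ (pv_natDegree hQ v)]
    simp only [ψ, Matrix.mulVecLin_apply, Matrix.mulVec, dotProduct, Matrix.of_apply, pv_coeff]
  -- the kernel
  let m := Q - ∑ p ∈ A, J p
  let χ : degreeLT K m →ₗ[K] (Fin Q → K) :=
    { toFun := fun R j => ((∏ p ∈ A, fac J p) * R.1).coeff j
      map_add' := fun R S => by
        funext j
        simp [mul_add]
      map_smul' := fun c R => by
        funext j
        simp [mul_smul_comm] }
  have hker : LinearMap.ker ψ ≤ LinearMap.range χ := by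
    intro v hv
    rw [LinearMap.mem_ker] at hv
    obtain ⟨R, hR, hPR⟩ := kernel_deg A J Q hJ (pv_natDegree hQ v) (by
      intro p hp s hs
      have := hψ v ⟨⟨p, hp⟩, ⟨s, hs⟩⟩
      rw [hv] at this
      exact this.symm)
    refine ⟨⟨R, hR⟩, ?_⟩
    funext j
    show ((∏ p ∈ A, fac J p) * R).coeff j = v j
    rw [← hPR, pv_coeff]
  have hkd : Module.finrank K (LinearMap.ker ψ) ≤ m := by
    refine (Submodule.finrank_mono hker).trans ?_
    refine (LinearMap.finrank_range_le χ).trans ?_
    rw [(degreeLTEquiv K m).finrank_eq]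
    simp
  have hcard : Fintype.card ((p : A) × Fin (J p.1)) = ∑ p ∈ A, J p := by
    rw [Fintype.card_sigma]
    simp only [Fintype.card_fin]
    exact Finset.sum_coe_sort A J
  have hsurj : Function.Surjective ψ := by
    rw [← LinearMap.range_eq_top]
    apply Submodule.eq_top_of_finrank_eq
    have h1 := LinearMap.finrank_range_add_finrank_ker ψ
    have h2 : Module.finrank K (LinearMap.range ψ) ≤
        Module.finrank K (((p : A) × Fin (J p.1)) → K) := Submodule.finrank_le _
    rw [Module.finrank_fin_fun] at h1
    rw [Module.finrank_fintype_fun_eq_card, hcard] at h2 ⊢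
    simp only [m] at hkd
    omega
  -- independence
  have hli : LinearIndependent K T := by
    rw [Fintype.linearIndependent_iff]
    intro c hc i
    obtain ⟨v, hv⟩ := hsurj (Pi.single i 1)
    have h1 : ∑ k, c k * ψ v k = 0 := by
      have h2 : ∑ k, c k * ψ v k = dotProduct (∑ k, c k • T k) v := by
        simp only [ψ, Matrix.mulVecLin_apply, Matrix.mulVec, dotProduct, Matrix.of_apply,
          Finset.sum_apply, Pi.smul_apply, smul_eq_mul, Finset.mul_sum, Finset.sum_mul]
        rw [Finset.sum_comm]
        apply Finset.sum_congr rfl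
        intro j _
        apply Finset.sum_congr rfl
        intro k _
        ring
      rw [h2, hc]
      simp
    rw [hv] at h1
    simpa [Pi.single_apply] using h1
  -- extension to a basis
  have hlo : LinearIndepOn K id (Set.range T) := hli.linearIndepOn_id
  let B := Module.Basis.extend hlo
  have hBcard : Nat.card (hlo.extend (Set.subset_univ _)) = Q := by
    have := Module.finrank_eq_nat_card_basis B
    rw [Module.finrank_fin_fun] at this
    exact this.symm
  have hfin : Finite (hlo.extend (Set.subset_univ _)) := Nat.finite_of_card_ne_zero (by omega)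
  have hFt : Fintype (hlo.extend (Set.subset_univ _)) := Fintype.ofFinite _
  let eqv : (hlo.extend (Set.subset_univ _)) ≃ Fin Q :=
    Fintype.equivFinOfCardEq (by rw [← Nat.card_eq_fintype_card]; exact hBcard)
  have hmem : ∀ i, T i ∈ hlo.extend (Set.subset_univ _) := fun i =>
    hlo.subset_extend (Set.subset_univ _) ⟨i, rfl⟩
  let Λ : Matrix (Fin Q) (Fin Q) K := Matrix.of fun k => B (eqv.symm k)
  refine ⟨Λ, fun i => eqv ⟨T i, hmem i⟩, ?_, ?_, ?_⟩
  · have h1 : LinearIndependent K Λ.row := by
      have := B.linearIndependent.comp eqv.symm eqv.symm.injective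
      exact this
    rw [Matrix.linearIndependent_rows_iff_isUnit, Matrix.isUnit_iff_isUnit_det,
      isUnit_iff_ne_zero] at h1
    exact h1
  · intro i k hik
    have h1 := eqv.injective hik
    have h2 := congrArg Subtype.val h1
    exact hli.injective h2
  · intro i P hP
    rw [hT i P hP]
    simp only [Matrix.mulVec, dotProduct, Λ, Matrix.of_apply, Equiv.symm_apply_apply, B,
      Module.Basis.extend_apply_self]

end Pool.Agent.Helper61.AD
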