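import Pool.Agent.Helper61.AD.DefsA

/-!
# Block AD-LEV: two elementary facts about `lev`

`lev N m i = (N - i % N) m (i / N) + (i % N) m (i / N + 1)`.

(a) `le_sum_of_prof`. Write `i = q N + ρ`, `ρ < N`, `l = m q - m (q+1) ≥ 0`. By convexity
`m s ≥ m q - (s - q) l` for all `s` (real subtraction; for `s > q` sum the differences, which are
`≤ l`; for `s < q` the differences are `≥ l`). Summing over `j`:
`∑ m (s j) ≥ N m q - (∑ s j - q N) l ≥ N m q - ρ l = lev N m i` because `∑ s j ≤ i` and `l ≥ 0`.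

(b) `sum_lev`. Group `i ∈ range (N n)` as `i = q N + ρ` (`Finset.sum_range` with `Nat.divMod`, or
induction on `n` with `Finset.sum_range_add`/`Finset.range_add`): the block of `q` contributes
`∑_{ρ<N} ((N-ρ) m q + ρ m (q+1)) = N (N+1)/2 m q + N (N-1)/2 m (q+1)`. Sum over `q < n` with
`m n = 0`: `N(N+1)/2 m 0 + N² ∑_{1 ≤ s < n} m s` (`n ≥ 1`), and `N (N+1) ≥ N²`, `m 0 ≥ 0`. For `n = 0`
both sides are `0` since `m 0 = 0`.
-/

namespace Pool.Agent.Helper61.AD

open Finset

theorem Prof.diff_anti {m : ℕ → ℝ} {n : ℕ} (hm : Prof m n) :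
    Antitone (fun s => m s - m (s + 1)) :=
  antitone_nat_of_succ_le fun s => hm.conv s

theorem Prof.tangent {m : ℕ → ℝ} {n : ℕ} (hm : Prof m n) (q s : ℕ) :
    m q - ((s : ℝ) - q) * (m q - m (q + 1)) ≤ m s := by
  have hd := hm.diff_anti
  rcases le_total q s with h | h
  · obtain ⟨k, rfl⟩ := Nat.exists_eq_add_of_le h
    induction k with
    | zero => simp
    | succ k ih =>
      have h1 := ih (Nat.le_add_right _ _)
      have h2 : m (q + k) - m (q + k + 1) ≤ m q - m (q + 1) := hd (Nat.le_add_right q k)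
      have h3 : q + (k + 1) = q + k + 1 := by ring
      rw [h3]
      push_cast at h1 ⊢
      nlinarith
  · obtain ⟨k, rfl⟩ := Nat.exists_eq_add_of_le h
    have key : m (s + k) + k * (m (s + k) - m (s + k + 1)) ≤ m s := by
      clear h
      induction k with
      | zero => simp
      | succ k ih =>
        have h2 : m (s + k + 1) - m (s + k + 1 + 1) ≤ m (s + k) - m (s + k + 1) :=
          hd (Nat.le_succ (s + k))
        have h3 : s + (k + 1) = s + k + 1 := by ring
        rw [h3]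
        push_cast
        have hk : (0 : ℝ) ≤ k := Nat.cast_nonneg k
        nlinarith
    push_cast
    linarith

theorem lev_eq {m : ℕ → ℝ} {N : ℕ} (hN : 0 < N) (i : ℕ) :
    lev N m i = N * m (i / N) - ((i % N : ℕ) : ℝ) * (m (i / N) - m (i / N + 1)) := by
  unfold lev
  rw [Nat.cast_sub (Nat.mod_lt i hN).le]
  ring

theorem lev_le_sum {m : ℕ → ℝ} {n : ℕ} (hm : Prof m n) {N : ℕ} (hN : 0 < N) (s : Fin N → ℕ) (i : ℕ)
    (hs : ∑ j, s j ≤ i) : lev N m i ≤ ∑ j, m (s j) := by
  set q := i / N with hq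
  set l := m q - m (q + 1) with hl
  have hl0 : 0 ≤ l := sub_nonneg.2 (hm.anti (Nat.le_succ q))
  have h1 : ∑ j, (m q - ((s j : ℝ) - q) * l) ≤ ∑ j, m (s j) :=
    Finset.sum_le_sum fun j _ => hm.tangent q (s j)
  have h2 : ∑ j : Fin N, (m q - ((s j : ℝ) - q) * l)
      = N * m q - (((∑ j, s j : ℕ) : ℝ) - N * q) * l := by
    rw [Finset.sum_sub_distrib, ← Finset.sum_mul, Finset.sum_sub_distrib]
    simp
  have h3 : (((∑ j, s j : ℕ) : ℝ) - N * q) * l ≤ ((i % N : ℕ) : ℝ) * l := by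
    apply mul_le_mul_of_nonneg_right _ hl0
    have h4 : N * (i / N) + i % N = i := Nat.div_add_mod i N
    have h5 : ((∑ j, s j : ℕ) : ℝ) ≤ i := by exact_mod_cast hs
    have h6 : (N : ℝ) * q + ((i % N : ℕ) : ℝ) = i := by
      rw [hq]; exact_mod_cast h4
    linarith
  rw [lev_eq hN, ← hq, ← hl]
  linarith

theorem lev_nonneg {m : ℕ → ℝ} {n : ℕ} (hm : Prof m n) (N i : ℕ) : 0 ≤ lev N m i := by
  unfold lev
  have h1 := hm.nonneg (i / N)
  have h2 := hm.nonneg (i / N + 1)
  positivity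

theorem two_mul_sum_block (m : ℕ → ℝ) {N : ℕ} (hN : 0 < N) (q : ℕ) :
    2 * ∑ x ∈ Finset.range N, lev N m (N * q + x)
      = N * (N + 1) * m q + N * (N - 1) * m (q + 1) := by
  have h1 : ∀ x ∈ Finset.range N, lev N m (N * q + x)
      = N * m q - (x : ℝ) * (m q - m (q + 1)) := by
    intro x hx
    have hx' : x < N := Finset.mem_range.1 hx
    have hd : (N * q + x) / N = q := by
      rw [Nat.mul_add_div hN, Nat.div_eq_of_lt hx', add_zero]
    have hmod : (N * q + x) % N = x := by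
      rw [Nat.mul_add_mod, Nat.mod_eq_of_lt hx']
    rw [lev_eq hN, hd, hmod]
  have h4 : ∑ x ∈ Finset.range N, (x : ℝ) * (m q - m (q + 1))
      = (∑ x ∈ Finset.range N, (x : ℝ)) * (m q - m (q + 1)) :=
    (Finset.sum_mul _ _ _).symm
  rw [Finset.sum_congr rfl h1, Finset.sum_sub_distrib, h4]
  have h2 : ∀ M : ℕ, 2 * ∑ x ∈ Finset.range M, (x : ℝ) = M * (M - 1) := by
    intro M
    induction M with
    | zero => simp
    | succ M ih => rw [Finset.sum_range_succ, mul_add, ih]; push_cast; ring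
  have h3 := h2 N
  simp only [Finset.sum_const, Finset.card_range, nsmul_eq_mul]
  linear_combination (-(m q - m (q + 1))) * h3

theorem two_mul_sum_lev (m : ℕ → ℝ) {N : ℕ} (hN : 0 < N) (n : ℕ) :
    2 * ∑ i ∈ Finset.range (N * n), lev N m i
      = ∑ q ∈ Finset.range n, (N * (N + 1) * m q + N * (N - 1) * m (q + 1)) := by
  induction n with
  | zero => simp
  | succ n ih =>
    rw [Finset.sum_range_succ, ← ih, Nat.mul_succ, Finset.sum_range_add, mul_add,
      two_mul_sum_block m hN n]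

theorem sum_lev {m : ℕ → ℝ} {n : ℕ} (hm : Prof m n) {N : ℕ} (hN : 0 < N) :
    (N : ℝ) ^ 2 * (m 0 + 2 * ∑ s ∈ Finset.Ico 1 n, m s) ≤ 2 * ∑ i ∈ Finset.range (N * n), lev N m i := by
  rw [two_mul_sum_lev m hN n]
  rcases Nat.eq_zero_or_pos n with h0 | h0
  · subst h0
    simp [hm.zero 0 le_rfl]
  · obtain ⟨k, rfl⟩ : ∃ k, n = k + 1 := ⟨n - 1, by omega⟩
    rw [Finset.sum_add_distrib, ← Finset.mul_sum, ← Finset.mul_sum]
    have h1 : ∑ q ∈ Finset.range (k + 1), m q = m 0 + ∑ s ∈ Finset.Ico 1 (k + 1), m s := by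
      rw [Finset.sum_range_succ', Finset.sum_Ico_eq_sum_range]
      simp [add_comm]
    have h2 : ∑ q ∈ Finset.range (k + 1), m (q + 1) = ∑ s ∈ Finset.Ico 1 (k + 1), m s := by
      rw [Finset.sum_range_succ, hm.zero (k + 1) le_rfl, add_zero, Finset.sum_Ico_eq_sum_range]
      simp [add_comm]
    rw [h1, h2]
    have h3 := hm.nonneg 0
    have hN' : (0 : ℝ) < N := by exact_mod_cast hN
    nlinarith [mul_nonneg hN'.le h3]

end Pool.Agent.Helper61.AD
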