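import Pool.Agent.Helper61.AD.Tay
import Pool.Agent.Helper61.AD.Defs
import Pool.Agent.Helper61.AD.Lev

/-!
# Block AD-LOC: local estimate for a product of `N` forms

Proof. By `tay_mul`, `tay_prod` (and `r * N + r - 1 = (r - 1) + r * N`),
`tay p (r*N+r-1) (X^a * ∏ B j) = tay p (r-1) (X^a) * ∏ tay p r (B j)`. Its `i`-th coefficient is a sum of
at most `(r+1)^N` products `(tay p (r-1) (X^a)).coeff s0 * ∏ (tay p r (B j)).coeff (s j)` with
`s0 + ∑ s j = i` (`coeff_mul_prod` below).
Only `s j ≤ r` matter (`natDegree_tay_le`). Each product is at most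
`C0 * D^N * exp (τ (N κ - ∑ m (s j)))`, and `∑ m (s j) ≥ lev N m i` by `lev_le_sum` since
`∑ s j ≤ i`. `C0 = sum over a < r and s0 < r of nv w ((tay p (r-1) (X^a)).coeff s0)`, and sums cost
`(card + 1)^2` (`Pool.Agent.Helper64.Vojta.nv_sum_le`).
-/

namespace Pool.Agent.Helper61.AD

open NumberField Finset Polynomial
open Pool.Agent.Helper64.Vojta (Pl nv sn)

/-- the coefficients of a product with a power of the indeterminate -/
theorem coeff_mul_prod {K : Type*} [Field K] {r N : ℕ} (F : Fin N → K[X])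
    (hF : ∀ j, (F j).natDegree ≤ r) (G : K[X]) (i : ℕ) :
    (G * ∏ j, F j).coeff i = ∑ φ ∈ Fintype.piFinset (fun _ : Fin N => Finset.range (r + 1)),
      (∏ j, (F j).coeff (φ j)) * (G * X ^ (∑ j, φ j)).coeff i := by
  have h1 : ∀ j, F j = ∑ s ∈ Finset.range (r + 1), C ((F j).coeff s) * X ^ s := fun j => by
    conv_lhs => rw [(F j).as_sum_range' (r + 1) (Nat.lt_succ_of_le (hF j))]
    exact Finset.sum_congr rfl fun s _ => (C_mul_X_pow_eq_monomial).symm
  have h2 : ∏ j, F j = ∑ φ ∈ Fintype.piFinset (fun _ : Fin N => Finset.range (r + 1)),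
      C (∏ j, (F j).coeff (φ j)) * X ^ (∑ j, φ j) := by
    conv_lhs => rw [Finset.prod_congr rfl fun j _ => h1 j]
    rw [Finset.prod_univ_sum]
    refine Finset.sum_congr rfl fun φ _ => ?_
    rw [Finset.prod_mul_distrib, Finset.prod_pow_eq_pow_sum, map_prod]
  rw [h2, Finset.mul_sum, finsetSum_coeff]
  refine Finset.sum_congr rfl fun φ _ => ?_
  rw [mul_left_comm, coeff_C_mul]

theorem nv_prod_loc {K : Type*} [Field K] [NumberField K] (w : Pl K) {ι : Type*} (s : Finset ι) (f : ι → K) :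
    nv w (∏ j ∈ s, f j) = ∏ j ∈ s, nv w (f j) := by
  classical
  induction s using Finset.induction_on with
  | empty => simp [Pool.Agent.Helper64.Vojta.nv_one]
  | insert a s ha ih =>
    rw [Finset.prod_insert ha, Finset.prod_insert ha, Pool.Agent.Helper64.Vojta.nv_mul, ih]

theorem loc_bound {K : Type*} [Field K] [NumberField K] (w : Pl K) (p : Option K) {r N : ℕ}
    (hr : 0 < r) (hN : 0 < N) :
    ∃ c : ℝ, 1 ≤ c ∧ ∀ (m : ℕ → ℝ) (n : ℕ), Prof m n → ∀ (τ κ D : ℝ), 0 ≤ τ → 1 ≤ D →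
      ∀ B : Fin N → K[X], (∀ j, (B j).natDegree ≤ r) →
      (∀ j, ∀ s ≤ r, nv w ((tay p r (B j)).coeff s) ≤ D * Real.exp (τ * (κ - m s))) →
      ∀ a < r, ∀ i, nv w ((tay p (r * N + r - 1) (X ^ a * ∏ j, B j)).coeff i) ≤
        c * D ^ N * Real.exp (τ * (N * κ - lev N m i)) := by
  have hnn := fun (y : K) => Pool.Agent.Helper64.Vojta.nv_nonneg w y
  set C0 : ℝ := 1 + ∑ a ∈ Finset.range r, ∑ s ∈ Finset.range r,
    nv w ((tay p (r - 1) (X ^ a : K[X])).coeff s) with hC0
  have hC01 : 1 ≤ C0 := by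
    have : 0 ≤ ∑ a ∈ Finset.range r, ∑ s ∈ Finset.range r,
        nv w ((tay p (r - 1) (X ^ a : K[X])).coeff s) :=
      Finset.sum_nonneg fun a _ => Finset.sum_nonneg fun s _ => hnn _
    linarith
  have hG : ∀ a < r, ∀ s, nv w ((tay p (r - 1) (X ^ a : K[X])).coeff s) ≤ C0 := by
    intro a ha s
    rcases lt_or_ge s r with hs | hs
    · have h1 : nv w ((tay p (r - 1) (X ^ a : K[X])).coeff s) ≤
          ∑ s ∈ Finset.range r, nv w ((tay p (r - 1) (X ^ a : K[X])).coeff s) :=
        Finset.single_le_sum (f := fun s => nv w ((tay p (r - 1) (X ^ a : K[X])).coeff s))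
          (fun s _ => hnn _) (Finset.mem_range.2 hs)
      have h2 : ∑ s ∈ Finset.range r, nv w ((tay p (r - 1) (X ^ a : K[X])).coeff s) ≤
          ∑ a ∈ Finset.range r, ∑ s ∈ Finset.range r,
            nv w ((tay p (r - 1) (X ^ a : K[X])).coeff s) :=
        Finset.single_le_sum
          (f := fun a => ∑ s ∈ Finset.range r, nv w ((tay p (r - 1) (X ^ a : K[X])).coeff s))
          (fun a _ => Finset.sum_nonneg fun s _ => hnn _) (Finset.mem_range.2 ha)
      linarith
    · have h1 : (tay p (r - 1) (X ^ a : K[X])).natDegree ≤ r - 1 :=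
        natDegree_tay_le p (by rw [natDegree_X_pow]; omega)
      rw [coeff_eq_zero_of_natDegree_lt (by omega), Pool.Agent.Helper64.Vojta.nv_zero]
      linarith
  refine ⟨(((r + 1) ^ N : ℕ) + 1 : ℝ) ^ 2 * C0, ?_, ?_⟩
  · have h1 : (0 : ℝ) ≤ ((r + 1) ^ N : ℕ) := Nat.cast_nonneg _
    have h2 : (1 : ℝ) ≤ (((r + 1) ^ N : ℕ) + 1 : ℝ) ^ 2 := by nlinarith
    calc (1 : ℝ) = 1 * 1 := by ring
      _ ≤ _ := mul_le_mul h2 hC01 zero_le_one (by positivity)
  intro m n hm τ κ D hτ hD B hB hbd a ha i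
  have hD0 : 0 ≤ D := by linarith
  have hsplit : tay p (r * N + r - 1) (X ^ a * ∏ j, B j) =
      tay p (r - 1) (X ^ a) * ∏ j, tay p r (B j) := by
    have h1 := tay_prod p (Finset.univ : Finset (Fin N)) B fun j _ => hB j
    rw [Finset.card_univ, Fintype.card_fin] at h1
    rw [← h1, ← tay_mul p (by rw [natDegree_X_pow]; omega) (by
      have := natDegree_prod_le' (Finset.univ : Finset (Fin N)) B fun j _ => hB j
      rwa [Finset.card_univ, Fintype.card_fin] at this)]
    congr 1
    omega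
  rw [hsplit, coeff_mul_prod (fun j => tay p r (B j)) (fun j => natDegree_tay_le p (hB j))]
  have hterm : ∀ φ ∈ Fintype.piFinset (fun _ : Fin N => Finset.range (r + 1)),
      nv w ((∏ j, (tay p r (B j)).coeff (φ j)) * (tay p (r - 1) (X ^ a) * X ^ (∑ j, φ j)).coeff i) ≤
        C0 * D ^ N * Real.exp (τ * (N * κ - lev N m i)) := by
    intro φ hφ
    rw [Fintype.mem_piFinset] at hφ
    rw [Pool.Agent.Helper64.Vojta.nv_mul, coeff_mul_X_pow']
    split_ifs with hle
    · have h1 : nv w (∏ j, (tay p r (B j)).coeff (φ j)) ≤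
          D ^ N * Real.exp (τ * (N * κ - ∑ j, m (φ j))) := by
        rw [nv_prod_loc]
        calc ∏ j, nv w ((tay p r (B j)).coeff (φ j))
            ≤ ∏ j : Fin N, (D * Real.exp (τ * (κ - m (φ j)))) :=
              Finset.prod_le_prod (fun j _ => hnn _) fun j _ =>
                hbd j (φ j) (Nat.lt_succ_iff.1 (Finset.mem_range.1 (hφ j)))
          _ = D ^ N * Real.exp (τ * (N * κ - ∑ j, m (φ j))) := by
              rw [Finset.prod_mul_distrib, Finset.prod_const, Finset.card_univ, Fintype.card_fin,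
                ← Real.exp_sum]
              congr 2
              rw [← Finset.mul_sum, Finset.sum_sub_distrib, Finset.sum_const, Finset.card_univ,
                Fintype.card_fin, nsmul_eq_mul]
      have h2 : Real.exp (τ * (N * κ - ∑ j, m (φ j))) ≤ Real.exp (τ * (N * κ - lev N m i)) := by
        apply Real.exp_le_exp.2
        exact mul_le_mul_of_nonneg_left (sub_le_sub_left (lev_le_sum hm hN φ i hle) _) hτ
      calc nv w (∏ j, (tay p r (B j)).coeff (φ j)) * nv w ((tay p (r - 1) (X ^ a)).coeff (i - ∑ j, φ j))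
          ≤ (D ^ N * Real.exp (τ * (N * κ - lev N m i))) * C0 :=
            mul_le_mul (h1.trans (mul_le_mul_of_nonneg_left h2 (pow_nonneg hD0 _))) (hG a ha _) (hnn _)
              (by positivity)
        _ = C0 * D ^ N * Real.exp (τ * (N * κ - lev N m i)) := by ring
    · rw [Pool.Agent.Helper64.Vojta.nv_zero, mul_zero]
      positivity
  have hcard : (Fintype.piFinset (fun _ : Fin N => Finset.range (r + 1))).card = (r + 1) ^ N := by
    rw [Fintype.card_piFinset, Finset.prod_const, Finset.card_range, Finset.card_univ, Fintype.card_fin]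
  have hfin := Pool.Agent.Helper64.Vojta.nv_sum_le w
    (Fintype.piFinset (fun _ : Fin N => Finset.range (r + 1)))
    (fun φ => (∏ j, (tay p r (B j)).coeff (φ j)) * (tay p (r - 1) (X ^ a) * X ^ (∑ j, φ j)).coeff i)
    (C0 * D ^ N * Real.exp (τ * (N * κ - lev N m i))) (by positivity) hterm
  rw [hcard] at hfin
  refine hfin.trans (le_of_eq ?_)
  ring

end Pool.Agent.Helper61.AD
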