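import Pool.Agent.Helper61.AD.Tay

/-!
# Block AD-SPAN: products of `N` forms without base point span everything

Proof. Let `W = span K (range B)`. Claim: for `d ≥ r`, every polynomial of degree `< d + r` is in
`span {X^a * B i : a < d}`. Fix `i0` with `(B i0).coeff r ≠ 0`, so `(B i0).natDegree = r`. As
`Ideal.span (range B) = ⊤`, `P = ∑ c i * B i` for some polynomials `c i`
(`Ideal.mem_span_range_iff_exists_fun` or `Submodule.mem_span_range...`). For `i ≠ i0` replace `c i` by
`c i % B i0` (degree `< r ≤ d`) and move `(c i / B i0) * B i` to the coefficient of `B i0`. The new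
coefficient `c'` of `B i0` satisfies `deg (c' * B i0) < d + r`
(both `P` and the other terms `(c i % B i0) * B i` have degree `< d + r`), so `deg c' < d`. Now
induct on `N` (start: `N = 0`, polynomials of degree `< r` are combinations of `X^a`, `a < r`; step:
with `d = r * N + r ≥ r`). Hence the family `X^a * ∏ B (i_j)` spans `degreeLT K (r*N+r)`, so the
coefficient vectors span `Fin (r*N+r) → K`, and a spanning family contains a basis
(`exists_linearIndependent'` or `Submodule.exists_fun_fin_finrank_span_eq`), which has `r*N+r` elements.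
All the products have degree `< r*N+r`, since `deg (B i) ≤ r` and `a < r`.
-/

namespace Pool.Agent.Helper61.AD

open Polynomial

theorem exists_comb {K : Type*} [Field K] {n r : ℕ} (B : Fin n → K[X])
    (hB : NoBase r B) {d : ℕ} (hd : r ≤ d) {P : K[X]} (hP : P ∈ degreeLT K (d + r)) :
    ∃ c : Fin n → K[X], (∀ i, c i ∈ degreeLT K d) ∧ ∑ i, c i * B i = P := by
  classical
  obtain ⟨i0, hi0⟩ := hB.top
  have hPs : P ∈ Ideal.span (Set.range B) := by rw [hB.span]; trivial
  obtain ⟨c, hc⟩ := Ideal.mem_span_range_iff_exists_fun.1 hPs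
  have hdeg0 : (B i0).natDegree = r := le_antisymm (hB.deg i0) (le_natDegree_of_ne_zero hi0)
  have hne : B i0 ≠ 0 := by
    rintro h
    exact hi0 (by rw [h]; simp)
  have hdeg : (B i0).degree = (r : WithBot ℕ) := by
    rw [degree_eq_natDegree hne, hdeg0]
  set c' : Fin n → K[X] := fun i =>
    if i = i0 then c i0 + ∑ j ∈ Finset.univ.erase i0, (c j / B i0) * B j else c i % B i0 with hc'
  have h0 : c' i0 = c i0 + ∑ j ∈ Finset.univ.erase i0, (c j / B i0) * B j := by
    simp [hc']
  have h1 : ∀ i, i ≠ i0 → c' i = c i % B i0 := by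
    intro i hi
    simp [hc', hi]
  have hsum : ∑ i, c' i * B i = P := by
    rw [← hc, ← Finset.add_sum_erase _ _ (Finset.mem_univ i0),
      ← Finset.add_sum_erase _ (fun i => c i * B i) (Finset.mem_univ i0), h0, add_mul, add_assoc,
      Finset.sum_mul, ← Finset.sum_add_distrib]
    congr 1
    refine Finset.sum_congr rfl fun j hj => ?_
    rw [h1 j (Finset.ne_of_mem_erase hj)]
    have := EuclideanDomain.div_add_mod (c j) (B i0)
    conv_rhs => rw [← this]
    ring
  have hlt : ∀ i, i ≠ i0 → (c' i).degree < (r : WithBot ℕ) := by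
    intro i hi
    rw [h1 i hi, ← hdeg]
    exact EuclideanDomain.mod_lt (c i) hne
  have hprod : ∀ i, i ≠ i0 → c' i * B i ∈ degreeLT K (d + r) := by
    intro i hi
    rw [mem_degreeLT]
    rcases eq_or_ne (c' i) 0 with h | h
    · rw [h, zero_mul, degree_zero]
      exact WithBot.bot_lt_coe _
    rcases eq_or_ne (B i) 0 with h' | h'
    · rw [h', mul_zero, degree_zero]
      exact WithBot.bot_lt_coe _
    have e1 := hlt i hi
    rw [degree_eq_natDegree h] at e1
    have e1' : (c' i).natDegree < r := by exact_mod_cast e1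
    rw [degree_eq_natDegree (mul_ne_zero h h'), natDegree_mul h h']
    have := hB.deg i
    have : (c' i).natDegree + (B i).natDegree < d + r := by omega
    exact_mod_cast this
  refine ⟨c', fun i => ?_, hsum⟩
  rcases eq_or_ne i i0 with rfl | hi
  · have hmem : c' i * B i ∈ degreeLT K (d + r) := by
      have : c' i * B i = P - ∑ j ∈ Finset.univ.erase i, c' j * B j := by
        rw [← hsum, ← Finset.add_sum_erase _ _ (Finset.mem_univ i)]
        ring
      rw [this]
      exact Submodule.sub_mem _ hP (Submodule.sum_mem _ fun j hj =>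
        hprod j (Finset.ne_of_mem_erase hj))
    rw [mem_degreeLT] at hmem ⊢
    rcases eq_or_ne (c' i) 0 with h | h
    · rw [h, degree_zero]
      exact WithBot.bot_lt_coe _
    rw [degree_eq_natDegree (mul_ne_zero h hne), natDegree_mul h hne, hdeg0] at hmem
    have : (c' i).natDegree + r < d + r := by exact_mod_cast hmem
    rw [degree_eq_natDegree h]
    have : (c' i).natDegree < d := by omega
    exact_mod_cast this
  · rw [mem_degreeLT]
    exact (hlt i hi).trans_le (by exact_mod_cast hd)

theorem mem_span_prod {K : Type*} [Field K] {n r : ℕ} (B : Fin n → K[X])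
    (hB : NoBase r B) (N : ℕ) : ∀ P ∈ degreeLT K (r * N + r),
    P ∈ Submodule.span K (Set.range (fun x : Fin r × (Fin N → Fin n) =>
      X ^ (x.1 : ℕ) * ∏ i, B (x.2 i))) := by
  induction N with
  | zero =>
    intro P hP
    classical
    rw [mul_zero, zero_add] at hP
    rw [degreeLT_eq_span_X_pow] at hP
    refine Submodule.span_mono ?_ hP
    intro Q hQ
    simp only [Finset.coe_image, Finset.coe_range, Set.mem_image, Set.mem_Iio] at hQ
    obtain ⟨a, ha, rfl⟩ := hQ
    exact ⟨(⟨a, ha⟩, Fin.elim0), by simp⟩
  | succ N ih =>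
    intro P hP
    have hP' : P ∈ degreeLT K ((r * N + r) + r) := by
      rw [mul_add, mul_one] at hP
      exact hP
    obtain ⟨c, hc, rfl⟩ := exists_comb B hB (Nat.le_add_left r (r * N)) hP'
    refine Submodule.sum_mem _ fun i _ => ?_
    have h1 := ih (c i) (hc i)
    have h2 : (LinearMap.mulRight K (B i)) (c i) ∈ Submodule.map (LinearMap.mulRight K (B i))
        (Submodule.span K (Set.range (fun x : Fin r × (Fin N → Fin n) =>
      X ^ (x.1 : ℕ) * ∏ i, B (x.2 i)))) := Submodule.mem_map_of_mem h1
    rw [Submodule.map_span] at h2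
    rw [LinearMap.mulRight_apply] at h2
    refine Submodule.span_mono ?_ h2
    rintro _ ⟨_, ⟨x, rfl⟩, rfl⟩
    refine ⟨(x.1, Fin.cons i x.2), ?_⟩
    simp only [LinearMap.mulRight_apply]
    rw [Fin.prod_univ_succ]
    simp only [Fin.cons_zero, Fin.cons_succ]
    ring

theorem span_prod {K : Type*} [Field K] {n r : ℕ} (hr : 0 < r) (N : ℕ) (B : Fin n → K[X])
    (hB : NoBase r B) :
    ∃ f : Fin (r * N + r) → Fin r × (Fin N → Fin n),
      LinearIndependent K (fun (l : Fin (r * N + r)) (j : Fin (r * N + r)) =>
        (X ^ ((f l).1 : ℕ) * ∏ i, B ((f l).2 i)).coeff j) := by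
  classical
  set m := r * N + r with hm
  let g : Fin r × (Fin N → Fin n) → K[X] := fun x => X ^ (x.1 : ℕ) * ∏ i, B (x.2 i)
  let φ : K[X] →ₗ[K] (Fin m → K) := LinearMap.pi fun j => lcoeff K (j : ℕ)
  have hspan : Submodule.span K (Set.range (fun x => φ (g x))) = ⊤ := by
    rw [eq_top_iff]
    intro w _
    have hP : (∑ j : Fin m, C (w j) * X ^ (j : ℕ)) ∈ degreeLT K m := by
      refine Submodule.sum_mem _ fun j _ => ?_
      rw [mem_degreeLT]
      refine (degree_C_mul_X_pow_le _ _).trans_lt ?_
      exact_mod_cast j.2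
    have h1 := mem_span_prod B hB N _ hP
    have h2 := Submodule.mem_map_of_mem (f := φ) h1
    rw [Submodule.map_span, ← Set.range_comp] at h2
    have h3 : φ (∑ j : Fin m, C (w j) * X ^ (j : ℕ)) = w := by
      ext k
      simp only [φ, LinearMap.pi_apply, lcoeff_apply, finset_sum_coeff, coeff_C_mul, coeff_X_pow]
      rw [Finset.sum_eq_single k]
      · simp
      · intro b _ hb
        rw [if_neg, mul_zero]
        intro h
        exact hb (Fin.ext h.symm)
      · simp
    rw [h3] at h2
    exact h2
  obtain ⟨κ, a, ha, hsp, hli⟩ := exists_linearIndependent' K (fun x => φ (g x))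
  rw [hspan] at hsp
  let bs := Module.Basis.mk hli (le_of_eq hsp.symm)
  haveI : Fintype κ := Fintype.ofInjective a ha
  have hcard : Fintype.card κ = m := by
    have := Module.finrank_eq_card_basis bs
    rw [Module.finrank_fin_fun] at this
    exact this.symm
  let e : Fin m ≃ κ := (Fintype.equivFinOfCardEq hcard).symm
  refine ⟨fun l => a (e l), ?_⟩
  have := hli.comp e e.injective
  exact this

end Pool.Agent.Helper61.AD
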