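import Pool.Agent.Helper61.AD.Tay
import Pool.Agent.Helper61.AD.Herm
import Pool.Agent.Helper61.AD.Span
import Pool.Agent.Helper61.AD.Change
import Pool.Agent.Helper61.AD.Loc
import Pool.Agent.Helper61.AD.Gs

/-!
# Block AD-DET: the determinant inequality for one parameter

Proof. `Q = r N + r`. For `w ∈ T` let `Λ_w, e_w` be the Hermite matrix (`herm`) for
`J p = N * nn w p` (`∑ J ≤ N r ≤ Q`). Frm `F : Frm K (Fin Q)`: `F.S = T.toRight`, `F.L w = Λ_w` for
`w ∈ T`, `1` otherwise. Exponents `β w q = - τ * lev N (m w p) i` if `w ∈ T` and `q = e_w (p, i)`,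
`0` otherwise (`ExpS F.S β`). `deg β = - τ ∑ ∑ ∑ lev` (`gsum_supp` in `Gs.lean`: a global sum of a
function which vanishes outside `T`; `e_w` injective). By `NoBase.change` and `span_prod` there are
`Q` products `P l = X^a * ∏ B ..` (`B l = ∑ C (x l i) * b i`) whose coefficient vectors are linearly
independent; `det_lower` (V2, constant `C0` depending only on `F`) gives
`τ ∑∑∑ lev - C0 ≤ ∑ l, tH F β (P l)`.
Upper bound for `tH F β (P l) = gsum (log tn)`: for `w ∈ T`:
`tn ≤ C_w D^N exp (τ N κ_w)`: the coordinate `q = e_w (p,i)` by `loc_bound w p` (note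
`Q - 1 = r*N+r-1`), any other coordinate `q` by the trivial bound
`nv w ((Λ_w *ᵥ P) q) ≤ C * max_j nv w (P.coeff j)` and `loc_bound w (some 0)` with `m = 0`
(`tay (some 0) r B = B.comp (X + C 0) = B`). For `w` finite, not in `T`: the coefficients of `b i` and `x l i`
have absolute value `≤ 1`, so have those of the products, `tn ≤ 1`. All infinite places are in `T`. So
`tH F β (P l) ≤ ∑ w ∈ T, (log (C_w D^N) + τ N κ_w)` (`gsum_le_sum` in `Gs.lean`). Sum over
the `Q` values of `l`. The constant `C = C0 + Q * ∑ log (C_w D^N)` does not depend on `m, τ, κ, x`.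
-/

namespace Pool.Agent.Helper61.AD

open NumberField Finset Polynomial
open Pool.Agent.Helper64.Vojta (Pl nv sn nv_nonneg nv_mul nv_one nv_zero nv_pos nv_sum_le
  nv_sum_le_inr)
open Pool.Agent.V2

namespace DetB

variable {K : Type*} [Field K] [NumberField K]

/-- the coefficients of a product are bounded by one at a finite place -/
theorem nv_coeff_mul_le (v : FinitePlace K) {P Q : K[X]} (hP : ∀ s, nv (.inr v) (P.coeff s) ≤ 1)
    (hQ : ∀ s, nv (.inr v) (Q.coeff s) ≤ 1) (s : ℕ) : nv (.inr v) ((P * Q).coeff s) ≤ 1 := by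
  rw [Polynomial.coeff_mul]
  refine nv_sum_le_inr v _ _ 1 zero_le_one fun i _ => ?_
  rw [nv_mul]
  exact mul_le_one₀ (hP _) (nv_nonneg _ _) (hQ _)

theorem nv_coeff_X_pow_le (v : FinitePlace K) (a s : ℕ) :
    nv (.inr v) ((X ^ a : K[X]).coeff s) ≤ 1 := by
  rw [coeff_X_pow]
  split_ifs
  · rw [nv_one]
  · rw [nv_zero]; exact zero_le_one

theorem nv_coeff_one_le (v : FinitePlace K) (s : ℕ) : nv (.inr v) ((1 : K[X]).coeff s) ≤ 1 := by
  rw [coeff_one]
  split_ifs
  · rw [nv_one]
  · rw [nv_zero]; exact zero_le_one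

theorem nv_coeff_prod_le (v : FinitePlace K) {ι : Type*} (s : Finset ι) (B : ι → K[X])
    (hB : ∀ i ∈ s, ∀ t, nv (.inr v) ((B i).coeff t) ≤ 1) :
    ∀ t, nv (.inr v) ((∏ i ∈ s, B i).coeff t) ≤ 1 := by
  classical
  induction s using Finset.induction_on with
  | empty => intro t; rw [Finset.prod_empty]; exact nv_coeff_one_le v t
  | insert a s ha ih =>
    intro t
    rw [Finset.prod_insert ha]
    exact nv_coeff_mul_le v (hB a (Finset.mem_insert_self _ _))
      (ih fun i hi => hB i (Finset.mem_insert_of_mem hi)) t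

theorem prof_zero : Prof (fun _ => 0) 0 :=
  ⟨fun _ => le_refl _, fun _ _ _ => le_refl _, fun _ => le_refl _, fun _ _ => rfl⟩

theorem lev_zero (N i : ℕ) : lev N (fun _ => 0) i = 0 := by simp [lev]

theorem natDegree_prod_lt {n r N : ℕ} (hr : 0 < r) (B : Fin n → K[X])
    (hB : ∀ i, (B i).natDegree ≤ r) (a : Fin r) (g : Fin N → Fin n) :
    (X ^ (a : ℕ) * ∏ i, B (g i)).natDegree < r * N + r := by
  have h1 : (∏ i, B (g i)).natDegree ≤ r * N := by
    have := natDegree_prod_le' (Finset.univ : Finset (Fin N)) (fun i => B (g i)) (r := r)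
      fun i _ => hB (g i)
    rwa [Finset.card_univ, Fintype.card_fin] at this
  have h2 : (X ^ (a : ℕ) * ∏ i, B (g i)).natDegree ≤ a + r * N := by
    refine natDegree_mul_le.trans (add_le_add ?_ h1)
    exact natDegree_X_pow_le _
  have h3 := a.2
  omega

/-- the exponents -/
noncomputable def bet {A : Finset (Option K)} {nn : Pl K → Option K → ℕ} {N Q : ℕ}
    (T : Finset (Pl K)) (e : (w : Pl K) → ((p : A) × Fin (N * nn w p.1)) → Fin Q)
    (m : Pl K → Option K → ℕ → ℝ) (τ : ℝ) (w : Pl K) (q : Fin Q) : ℝ := by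
  classical
  exact if w ∈ T then - τ * ∑ i : ((p : A) × Fin (N * nn w p.1)),
    (if e w i = q then lev N (m w i.1) i.2 else 0) else 0

section bet

variable {A : Finset (Option K)} {nn : Pl K → Option K → ℕ} {N Q : ℕ}
  (T : Finset (Pl K)) (e : (w : Pl K) → ((p : A) × Fin (N * nn w p.1)) → Fin Q)
  (m : Pl K → Option K → ℕ → ℝ) (τ : ℝ)

theorem bet_out {w : Pl K} (hw : w ∉ T) : bet T e m τ w = 0 := by
  funext q
  simp [bet, hw]

theorem bet_e {w : Pl K} (hw : w ∈ T) (he : Function.Injective (e w))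
    (i : (p : A) × Fin (N * nn w p.1)) : bet T e m τ w (e w i) = - τ * lev N (m w i.1) i.2 := by
  classical
  simp only [bet, hw, if_true]
  congr 1
  rw [Finset.sum_eq_single i]
  · simp
  · intro j _ hj
    rw [if_neg fun h => hj (he h)]
  · intro h; exact absurd (Finset.mem_univ i) h

theorem bet_ne {w : Pl K} (hw : w ∈ T) (q : Fin Q) (hq : ∀ i, e w i ≠ q) :
    bet T e m τ w q = 0 := by
  classical
  simp only [bet, hw, if_true]
  rw [Finset.sum_eq_zero fun i _ => if_neg (hq i), mul_zero]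

theorem sum_bet {w : Pl K} (hw : w ∈ T) : ∑ q, bet T e m τ w q =
    - τ * ∑ p ∈ A, ∑ i ∈ Finset.range (N * nn w p), lev N (m w p) i := by
  classical
  simp only [bet, hw, if_true]
  rw [← Finset.mul_sum, Finset.sum_comm]
  congr 1
  have h1 : ∀ i : (p : A) × Fin (N * nn w p.1),
      ∑ q : Fin Q, (if e w i = q then lev N (m w i.1) i.2 else 0) = lev N (m w i.1) i.2 := by
    intro i
    rw [Finset.sum_ite_eq]
    simp
  rw [Finset.sum_congr rfl fun i _ => h1 i, Fintype.sum_sigma, ← Finset.sum_coe_sort A]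
  refine Finset.sum_congr rfl fun p _ => ?_
  exact (Finset.sum_range fun i => lev N (m w p) i).symm

theorem deg_bet : deg (bet T e m τ) =
    - (τ * ∑ w ∈ T, ∑ p ∈ A, ∑ i ∈ Finset.range (N * nn w p), lev N (m w p) i) := by
  unfold deg
  rw [gsum_supp T _ fun v hv => by rw [bet_out T e m τ hv]; simp,
    Finset.sum_congr rfl fun w hw => sum_bet T e m τ hw, ← Finset.mul_sum]
  ring

end bet

end DetB

open DetB

theorem det_ineq {K : Type*} [Field K] [NumberField K] {n r N : ℕ} (hr : 0 < r) (hN : 0 < N)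
    (b : Fin n → K[X]) (hb : NoBase r b)
    (hint : ∀ (v : FinitePlace K) i s, nv (.inr v) ((b i).coeff s) ≤ 1)
    (T : Finset (Pl K)) (hT : ∀ v : InfinitePlace K, Sum.inl v ∈ T) (A : Finset (Option K))
    (nn : Pl K → Option K → ℕ) (hnn : ∀ w ∈ T, ∑ p ∈ A, nn w p ≤ r) (D : ℝ) (hD : 1 ≤ D) :
    ∃ c : ℝ, ∀ m : Pl K → Option K → ℕ → ℝ, (∀ w ∈ T, ∀ p ∈ A, Prof (m w p) (nn w p)) →
      ∀ τ : ℝ, 0 ≤ τ → ∀ κ : Pl K → ℝ, ∀ x : Fin n → Fin n → K, LinearIndependent K x →
      (∀ w ∈ T, ∀ p ∈ A, ∀ l, ∀ s ≤ r, nv w ((tay p r (∑ i, C (x l i) * b i)).coeff s) ≤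
        D * Real.exp (τ * (κ w - m w p s))) →
      (∀ w ∈ T, ∀ l s, nv w ((∑ i, C (x l i) * b i).coeff s) ≤ D * Real.exp (τ * κ w)) →
      (∀ v : FinitePlace K, Sum.inr v ∉ T → ∀ l i, nv (.inr v) (x l i) ≤ 1) →
      τ * ∑ w ∈ T, ∑ p ∈ A, ∑ i ∈ Finset.range (N * nn w p), lev N (m w p) i ≤
        τ * ((r * N + r) * (N * ∑ w ∈ T, κ w)) + c := by
  classical
  have hQ0 : 0 < r * N + r := by omega
  -- the Hermite matrices
  have H : ∀ w : Pl K, ∃ (Λ : Matrix (Fin (r * N + r)) (Fin (r * N + r)) K)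
      (e : ((p : A) × Fin (N * nn w p.1)) → Fin (r * N + r)), Λ.det ≠ 0 ∧ (w ∉ T → Λ = 1) ∧
      (w ∈ T → Function.Injective e ∧
        ∀ (i : (p : A) × Fin (N * nn w p.1)) (P : K[X]), P.natDegree < r * N + r →
        Λ.mulVec (fun j : Fin (r * N + r) => P.coeff j) (e i) =
          (tay (i.1 : Option K) (r * N + r - 1) P).coeff i.2) := by
    intro w
    by_cases hw : w ∈ T
    · have hJ : ∑ p ∈ A, N * nn w p ≤ r * N + r := by
        rw [← Finset.mul_sum]
        calc N * ∑ p ∈ A, nn w p ≤ N * r := Nat.mul_le_mul_left _ (hnn w hw)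
          _ ≤ r * N + r := by rw [mul_comm]; omega
      obtain ⟨Λ, e, h1, h2, h3⟩ := herm A (fun p => N * nn w p) (r * N + r) hJ
      exact ⟨Λ, e, h1, fun h => absurd hw h, fun _ => ⟨h2, h3⟩⟩
    · exact ⟨1, fun _ => ⟨0, hQ0⟩, by rw [Matrix.det_one]; exact one_ne_zero, fun _ => rfl,
        fun h => absurd h hw⟩
  choose Λ e hdet hone hherm using H
  let F : Frm K (Fin (r * N + r)) :=
    { S := T.toRight
      L := Λ
      hL := hdet
      hS := fun v hv => hone _ fun h => hv (Finset.mem_toRight.mpr h) }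
  obtain ⟨C0, hC0⟩ := det_lower (Fintype.card_fin (r * N + r)) F
  have HL : ∀ (w : Pl K) (p : Option K), ∃ c : ℝ, 1 ≤ c ∧ ∀ (m : ℕ → ℝ) (n : ℕ), Prof m n →
      ∀ (τ κ D : ℝ), 0 ≤ τ → 1 ≤ D →
      ∀ B : Fin N → K[X], (∀ j, (B j).natDegree ≤ r) →
      (∀ j, ∀ s ≤ r, nv w ((tay p r (B j)).coeff s) ≤ D * Real.exp (τ * (κ - m s))) →
      ∀ a < r, ∀ i, nv w ((tay p (r * N + r - 1) (X ^ a * ∏ j, B j)).coeff i) ≤
        c * D ^ N * Real.exp (τ * (N * κ - lev N m i)) := fun w p => loc_bound w p hr hN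
  choose cc hcc1 hcc using HL
  have hcc0 : ∀ w p, 0 ≤ cc w p := fun w p => zero_le_one.trans (hcc1 w p)
  let M : Pl K → ℝ := fun w => ∑ q, ∑ j, nv w (Λ w q j)
  have hM : ∀ w q j, nv w (Λ w q j) ≤ M w := by
    intro w q j
    refine (Finset.single_le_sum (f := fun j => nv w (Λ w q j)) (fun j _ => nv_nonneg _ _)
      (Finset.mem_univ j)).trans ?_
    exact Finset.single_le_sum (f := fun q => ∑ j, nv w (Λ w q j))
      (fun q _ => Finset.sum_nonneg fun j _ => nv_nonneg _ _) (Finset.mem_univ q)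
  have hM0 : ∀ w, 0 ≤ M w := fun w =>
    Finset.sum_nonneg fun q _ => Finset.sum_nonneg fun j _ => nv_nonneg _ _
  let c1 : Pl K → ℝ := fun w => ((r * N + r : ℕ) + 1 : ℝ) ^ 2 * (M w * cc w (some 0))
  have hc1 : ∀ w, 0 ≤ c1 w := fun w =>
    mul_nonneg (sq_nonneg _) (mul_nonneg (hM0 w) (hcc0 w _))
  let c2 : Pl K → ℝ := fun w => ∑ p ∈ A, cc w p
  have hc2 : ∀ w, 0 ≤ c2 w := fun w => Finset.sum_nonneg fun p _ => hcc0 w p
  let cw : Pl K → ℝ := fun w => 1 + c1 w + c2 w
  have hcw : ∀ w, 0 < cw w := fun w => by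
    have h1 := hc1 w
    have h2 := hc2 w
    simp only [cw]; linarith
  have hDN : 0 < D ^ N := pow_pos (by linarith) N
  refine ⟨C0 + (r * N + r : ℕ) * ∑ w ∈ T, Real.log (cw w * D ^ N), ?_⟩
  intro m hm τ hτ κ x hx hx1 hx2 hx3
  set B : Fin n → K[X] := fun l => ∑ i, C (x l i) * b i with hBdef
  have hNB : NoBase r B := hb.change x hx
  obtain ⟨f, hf⟩ := span_prod hr N B hNB
  set P : Fin (r * N + r) → K[X] := fun l => X ^ ((f l).1 : ℕ) * ∏ i, B ((f l).2 i) with hPdef
  have hPdeg : ∀ l, (P l).natDegree < r * N + r := fun l =>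
    natDegree_prod_lt hr B hNB.deg (f l).1 (f l).2
  set y : Fin (r * N + r) → Fin (r * N + r) → K := fun l j => (P l).coeff j with hydef
  have hy : LinearIndependent K y := hf
  set β : Pl K → Fin (r * N + r) → ℝ := bet T e m τ with hβdef
  have hβ : ExpS F.S β := fun v hv => bet_out T e m τ fun h => hv (Finset.mem_toRight.mpr h)
  have h1 := hC0 β hβ y hy
  rw [hβdef, deg_bet, neg_neg, ← hβdef] at h1
  -- upper bound
  have h2 : ∀ l, tH F β (y l) ≤ ∑ w ∈ T, (Real.log (cw w * D ^ N) + τ * (N * κ w)) := by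
    intro l
    have hyl : y l ≠ 0 := hy.ne_zero l
    unfold tH
    refine gsum_le_sum T (finS_tn F β hβ hyl) ?_ ?_
    · intro w hw
      have hE : 0 < Real.exp (τ * (N * κ w)) := Real.exp_pos _
      have h3 : tn F β w (y l) ≤ cw w * D ^ N * Real.exp (τ * (N * κ w)) := by
        refine tn_le F β w (y l) (mul_nonneg (mul_nonneg (hcw w).le hDN.le) hE.le) fun q => ?_
        by_cases hq : ∃ i, e w i = q
        · obtain ⟨i, rfl⟩ := hq
          have h4 : Matrix.mulVec (F.L w) (y l) (e w i) =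
              (tay (i.1 : Option K) (r * N + r - 1) (P l)).coeff i.2 :=
            (hherm w hw).2 i (P l) (hPdeg l)
          rw [h4, hβdef, bet_e T e m τ hw (hherm w hw).1 i]
          have h5 := hcc w (i.1 : Option K) (m w i.1) (nn w i.1) (hm w hw _ i.1.2) τ (κ w) D hτ hD
            (fun j => B ((f l).2 j)) (fun j => hNB.deg _)
            (fun j s hs => hx1 w hw _ i.1.2 _ s hs) ((f l).1 : ℕ) (f l).1.2 i.2
          have h6 : cc w (i.1 : Option K) ≤ cw w := by
            have h7 : cc w (i.1 : Option K) ≤ c2 w :=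
              Finset.single_le_sum (f := fun p => cc w p) (fun p _ => hcc0 w p) i.1.2
            have h8 := hc1 w
            simp only [cw]; linarith
          calc nv w ((tay (i.1 : Option K) (r * N + r - 1) (P l)).coeff i.2) *
                Real.exp (-(- τ * lev N (m w i.1) i.2))
              ≤ (cc w (i.1 : Option K) * D ^ N *
                  Real.exp (τ * (N * κ w - lev N (m w i.1) i.2))) *
                Real.exp (-(- τ * lev N (m w i.1) i.2)) :=
                mul_le_mul_of_nonneg_right h5 (Real.exp_pos _).le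
            _ = cc w (i.1 : Option K) * D ^ N * Real.exp (τ * (N * κ w)) := by
                rw [mul_assoc, ← Real.exp_add]
                congr 2
                ring
            _ ≤ cw w * D ^ N * Real.exp (τ * (N * κ w)) :=
                mul_le_mul_of_nonneg_right (mul_le_mul_of_nonneg_right h6 hDN.le) hE.le
        · push Not at hq
          rw [hβdef, bet_ne T e m τ hw q hq, neg_zero, Real.exp_zero, mul_one]
          have h4 : ∀ j : Fin (r * N + r), nv w (y l j) ≤
              cc w (some 0) * D ^ N * Real.exp (τ * (N * κ w)) := by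
            intro j
            have h5 := hcc w (some 0) (fun _ => 0) 0 prof_zero τ (κ w) D hτ hD
              (fun j => B ((f l).2 j)) (fun j => hNB.deg _)
              (fun j s hs => by
                rw [tay_some, C_0, add_zero, comp_X, sub_zero]
                exact hx2 w hw _ s) ((f l).1 : ℕ) (f l).1.2 j
            rw [tay_some, C_0, add_zero, comp_X, lev_zero, sub_zero] at h5
            exact h5
          have h5 : nv w (Matrix.mulVec (F.L w) (y l) q) ≤ ((r * N + r : ℕ) + 1 : ℝ) ^ 2 *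
              (M w * (cc w (some 0) * D ^ N * Real.exp (τ * (N * κ w)))) := by
            have h6 := nv_sum_le w (Finset.univ : Finset (Fin (r * N + r)))
              (fun j => Λ w q j * y l j)
              (M w * (cc w (some 0) * D ^ N * Real.exp (τ * (N * κ w))))
              (mul_nonneg (hM0 w) (mul_nonneg (mul_nonneg (hcc0 w _) hDN.le) hE.le))
              (fun j _ => by
                rw [nv_mul]
                exact mul_le_mul (hM w q j) (h4 j) (nv_nonneg _ _) (hM0 w))
            rw [Finset.card_univ, Fintype.card_fin] at h6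
            exact h6
          refine h5.trans ?_
          have h6 : c1 w ≤ cw w := by
            have h8 := hc2 w
            simp only [cw]; linarith
          calc ((r * N + r : ℕ) + 1 : ℝ) ^ 2 *
                (M w * (cc w (some 0) * D ^ N * Real.exp (τ * (N * κ w))))
              = c1 w * D ^ N * Real.exp (τ * (N * κ w)) := by simp only [c1]; ring
            _ ≤ cw w * D ^ N * Real.exp (τ * (N * κ w)) :=
                mul_le_mul_of_nonneg_right (mul_le_mul_of_nonneg_right h6 hDN.le) hE.le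
      have h4 := Real.log_le_log (tn_pos F β w hyl) h3
      rw [Real.log_mul (mul_pos (hcw w) hDN).ne' hE.ne', Real.log_exp] at h4
      exact h4
    · intro v hv
      rcases v with v | v
      · exact absurd (hT v) hv
      · refine Real.log_nonpos (tn_nonneg _ _ _ _) ?_
        rw [tn_out F β hβ (fun h => hv (Finset.mem_toRight.mp h))]
        refine vn_le _ _ zero_le_one fun j => ?_
        have hB1 : ∀ l s, nv (.inr v) ((B l).coeff s) ≤ 1 := by
          intro l s
          simp only [hBdef, finsetSum_coeff, coeff_C_mul]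
          refine nv_sum_le_inr v _ _ 1 zero_le_one fun i _ => ?_
          rw [nv_mul]
          exact mul_le_one₀ (hx3 v hv l i) (nv_nonneg _ _) (hint v i s)
        exact nv_coeff_mul_le v (nv_coeff_X_pow_le v _)
          (nv_coeff_prod_le v _ _ fun i _ => hB1 _) _
  have h3 : ∑ l, tH F β (y l) ≤
      ∑ _l : Fin (r * N + r), ∑ w ∈ T, (Real.log (cw w * D ^ N) + τ * (N * κ w)) :=
    Finset.sum_le_sum fun l _ => h2 l
  rw [Finset.sum_const, Finset.card_univ, Fintype.card_fin, nsmul_eq_mul, Finset.sum_add_distrib,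
    ← Finset.mul_sum, ← Finset.mul_sum] at h3
  have h4 : (((r * N + r : ℕ) : ℝ)) = (r : ℝ) * N + r := by push_cast; ring
  rw [h4] at h3 ⊢
  nlinarith [h1, h3]

end Pool.Agent.Helper61.AD
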