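import Pool.Agent.Helper61.AD.Defs
import Pool.Agent.Helper21.V2.M0
import Pool.Agent.Helper21.V2.SL8

/-!
# Block AD-SLOPE: all slopes are at most one

If the sequence `y` has twisted height at most `(1 + o(1)) t` and lies in no proper subspace (along the
ultrafilter), then all slopes of the boxes are at most one, i.e. the boxes raised by `1 + ε` contain
bases.
-/

namespace Pool.Agent.Helper61.AD

open NumberField Finset
open Pool.Agent.Helper64.Vojta (Pl nv sn)
open Pool.Agent.V2

/-- The twisted height for the exponents raised by `a`. -/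
theorem tH_rai {K : Type*} [Field K] [NumberField K] {n : ℕ} (F : Frm K (Fin n))
    (b : Pl K → Fin n → ℝ) (hb : ExpS F.S b) (a : ℝ) {y : Fin n → K} (hy : y ≠ 0) :
    tH F (rai b a) y = tH F b y - a := by
  have hd : (0 : ℝ) < Module.finrank ℚ K := Nat.cast_pos.2 Module.finrank_pos
  have h1 : ∀ v : InfinitePlace K, tn F (rai b a) (.inl v) y =
      tn F b (.inl v) y * Real.exp (-(a * v.mult / Module.finrank ℚ K)) := by
    intro v
    unfold tn
    rw [Real.iSup_mul_of_nonneg (Real.exp_pos _).le]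
    refine iSup_congr fun i => ?_
    have : rai b a (.inl v) i = b (.inl v) i + a * v.mult / Module.finrank ℚ K := rfl
    rw [this, mul_assoc, ← Real.exp_add]
    congr 2
    ring
  have h2 : ∀ v : FinitePlace K, tn F (rai b a) (.inr v) y = tn F b (.inr v) y := fun v => rfl
  let g : Pl K → ℝ := fun v => match v with
    | .inl v => v.mult * (-(a / Module.finrank ℚ K))
    | .inr _ => 0
  have h3 : (fun v => Real.log (tn F (rai b a) v y)) =
      fun v => Real.log (tn F b v y) + g v := by
    funext v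
    rcases v with v | v
    · rw [h1 v, Real.log_mul (tn_pos F b _ hy).ne' (Real.exp_pos _).ne', Real.log_exp]
      show _ = _ + v.mult * (-(a / Module.finrank ℚ K))
      ring
    · rw [h2 v]
      show _ = _ + 0
      ring
  unfold tH
  rw [h3, gsum_add (finS_tn F b hb hy) (finS_of_S ∅ fun v _ => rfl)]
  have h4 : gsum g = Module.finrank ℚ K * (-(a / Module.finrank ℚ K)) := gsum_inf _
  rw [h4]
  field_simp
  ring

theorem sc_rai {K : Type*} [Field K] [NumberField K] {n : ℕ} (c : Pl K → Fin n → ℝ) (t a : ℝ) :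
    sc t (rai c a) = rai (sc t c) (t * a) := by
  funext v i
  rcases v with v | v
  · show t * (c (.inl v) i + a * v.mult / Module.finrank ℚ K) =
      t * c (.inl v) i + t * a * v.mult / Module.finrank ℚ K
    ring
  · rfl

theorem rai_rai {K : Type*} [Field K] [NumberField K] {n : ℕ} (c : Pl K → Fin n → ℝ) (a b : ℝ) :
    rai (rai c a) b = rai c (a + b) := by
  funext v i
  rcases v with v | v
  · show c (.inl v) i + a * v.mult / Module.finrank ℚ K + b * v.mult / Module.finrank ℚ K =
      c (.inl v) i + (a + b) * v.mult / Module.finrank ℚ K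
    ring
  · rfl

theorem slope {K : Type*} [Field K] [NumberField K] {n : ℕ} (hn : 0 < n) (F : Frm K (Fin n))
    (c : Pl K → Fin n → ℝ) (hc : ExpS F.S c) (U : Ultrafilter ℕ) (t : ℕ → ℝ)
    (ht : Filter.Tendsto t (U : Filter ℕ) Filter.atTop) (y : ℕ → Fin n → K)
    (hy : ∀ ε : ℝ, 0 < ε → ∀ᶠ j in (U : Filter ℕ), tH F (sc (t j) c) (y j) ≤ (1 + ε) * t j)
    (hgen : ∀ W : Submodule K (Fin n → K), W ≠ ⊤ → ∀ᶠ j in (U : Filter ℕ), y j ∉ W) :
    ∀ ε : ℝ, 0 < ε → ∀ᶠ j in (U : Filter ℕ), ∃ x : Fin n → Fin n → K, LinearIndependent K x ∧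
      ∀ l, Bb F (sc (t j) (rai c (1 + ε))) (x l) := by
  have hn0 : (n : ℝ) ≠ 0 := by exact_mod_cast hn.ne'
  set ρ : ℝ := -(deg c) / n with hρ
  set c' : Pl K → Fin n → ℝ := rai c ρ with hc'
  have hc1 : ExpS F.S c' := ExpS.rai hc ρ
  have hd1 : deg c' = 0 := by
    rw [hc', deg_rai F.S c hc, Fintype.card_fin, hρ]
    field_simp
    ring
  have hbot : (⊥ : Submodule K (Fin n → K)) ≠ ⊤ := by
    have : Nonempty (Fin n) := ⟨⟨0, hn⟩⟩
    exact bot_ne_top
  have hy0 : ∀ᶠ j in (U : Filter ℕ), y j ≠ 0 := by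
    filter_upwards [hgen ⊥ hbot] with j hj h0
    exact hj (by rw [h0]; exact Submodule.zero_mem _)
  have hy' : ∀ ε : ℝ, 0 < ε → ∀ᶠ j in (U : Filter ℕ),
      tH F (sc (t j) c') (y j) ≤ (1 - ρ + ε) * t j := by
    intro ε hε
    filter_upwards [hy ε hε, hy0] with j h1 h2
    rw [hc', sc_rai, tH_rai F _ (ExpS.sc hc _) _ h2]
    linarith
  obtain ⟨x, ν, h⟩ := slopes_exist (Fintype.card_fin n) F c' hc1 U t ht
  have htop : ∀ᶠ j in (U : Filter ℕ), 0 < t j := ht.eventually_gt_atTop 0
  -- the last slope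
  have hlast : ∀ l, ν l ≤ 1 - ρ := by
    have hl : ν ⟨n - 1, by omega⟩ ≤ 1 - ρ := by
      set m : Fin n := ⟨n - 1, by omega⟩ with hm
      have hwf : WellFounded ((· < ·) : Fin n → Fin n → Prop) := wellFounded_lt
      set k : Fin n := hwf.min {l | ν l = ν m} ⟨m, rfl⟩ with hk
      have hkm : ν k = ν m := hwf.min_mem {l | ν l = ν m} ⟨m, rfl⟩
      have hmin : ∀ l' < k, ν l' < ν k := by
        intro l' hl'
        have h1 : ν l' ≤ ν k := h.mono hl'.le
        refine lt_of_le_of_ne h1 fun h2 => ?_
        exact hwf.not_lt_min {l | ν l = ν m} (by show ν l' = ν m; rw [h2, hkm]) hl'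
      have hout : ∀ᶠ j in (U : Filter ℕ), y j ∉ Submodule.span K (x j '' {l' | l' < k}) := by
        rcases Nat.eq_zero_or_pos (k : ℕ) with h0 | h0
        · filter_upwards [hy0] with j hj
          have hem : {l' : Fin n | l' < k} = ∅ := by
            ext l'
            simp only [Set.mem_setOf_eq, Set.mem_empty_iff_false, iff_false, not_lt]
            rw [Fin.le_def, h0]
            exact Nat.zero_le _
          rw [hem, Set.image_empty, Submodule.span_empty, Submodule.mem_bot]
          exact hj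
        · obtain ⟨W, hW⟩ := gap_const hc1 hd1 ht h k h0 hmin
          have hWt : W ≠ ⊤ := by
            rintro rfl
            obtain ⟨j, hj1, hj2⟩ := (hW.and h.indep).exists
            have h1 : x j k ∈ Submodule.span K (x j '' {l' | l' < k}) := by rw [hj1]; trivial
            refine hj2.notMem_span_image (s := {l' | l' < k}) (x := k) ?_ h1
            simp
          filter_upwards [hW, hgen W hWt] with j h1 h2
          rw [h1]
          exact h2
      refine le_of_forall_pos_le_add fun ε hε => ?_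
      obtain ⟨j, ⟨h1, h2⟩, h3, h4⟩ :=
        (((h.lower (ε / 2) (by linarith) k).and hout).and
          ((hy' (ε / 2) (by linarith)).and htop)).exists
      have h5 := h1 (y j) h2
      have h6 : (ν k - ε / 2) * t j ≤ (1 - ρ + ε / 2) * t j := h5.trans h3
      have h7 := le_of_mul_le_mul_right h6 h4
      rw [← hkm]
      linarith
    intro l
    refine (h.mono ?_).trans hl
    rw [Fin.le_def]
    have := l.2
    show (l : ℕ) ≤ n - 1
    omega
  intro ε hε
  have hup : ∀ᶠ j in (U : Filter ℕ), ∀ l, Bb F (sc (t j) (rai c' (ν l + ε))) (x j l) :=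
    Filter.eventually_all.2 fun l => h.upper ε hε l
  filter_upwards [hup, h.indep, htop] with j h1 h2 h3
  refine ⟨x j, h2, fun l => ?_⟩
  refine SL2.Bb_mono ?_ (h1 l)
  intro v i
  rw [hc', rai_rai]
  have hdp : (0 : ℝ) < Module.finrank ℚ K := Nat.cast_pos.2 Module.finrank_pos
  rcases v with v | v
  · show t j * (c (.inl v) i + (ρ + (ν l + ε)) * v.mult / Module.finrank ℚ K) ≤
      t j * (c (.inl v) i + (1 + ε) * v.mult / Module.finrank ℚ K)
    have h4 := hlast l
    have h5 : (ρ + (ν l + ε)) * v.mult / Module.finrank ℚ K ≤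
        (1 + ε) * v.mult / Module.finrank ℚ K :=
      div_le_div_of_nonneg_right
        (mul_le_mul_of_nonneg_right (by linarith) (Nat.cast_nonneg _)) hdp.le
    exact mul_le_mul_of_nonneg_left (by linarith) h3.le
  · exact le_refl _

end Pool.Agent.Helper61.AD
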