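import Pool.Agent.Helper61.AD.Tay
import Pool.Agent.Helper61.AD.Adapt
import Pool.Agent.Helper61.AD.Slope
import Pool.Agent.Helper61.AD.DetB
import Pool.Agent.Helper61.AD.Lev

/-!
# Block AD-CORE: the core inequality for a generic sequence

`y j` is a sequence in `K^n` which lies in no proper subspace (along the ultrafilter `U`), of height at
most `(1 + o(1)) t j`; the forms `∑ y j i • b i` have Taylor coefficients at `p ∈ A` and `w ∈ T` bounded by
`‖y j‖_w exp (-(m w p s - o(1)) t j)`.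

Proof. (1) For `w ∈ T` and real `τ` let `V_w τ` be the subspace of all `s : Fin n → K` with: for every
`ε > 0` eventually `nv w (∑ i, s i * y j i) ≤ vn w (y j) * exp (t j * (ε - τ))`; put `V_w τ = ⊤` for `τ ≤ 0`
(for `τ ≤ 0` the condition holds automatically for large `t j`; subspace because
`nv w (a + b) ≤ 4 max`, constants are `≤ exp (ε t j)` eventually). Antitone in `τ`. Levels
`Λ_w = {0} ∪ {m w p s : p ∈ A, s ≤ r}`. `adapt` gives `M_w`, `c_w`.
(2) Frm `F`: `F.S = T.toRight`, `F.L w = M_w` for `w ∈ T`, else `1`. `c w i = - c_w i` for `w ∈ T`, else `0`.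
`tH F (sc (t j) c) (y j) ≤ vH (y j) + |T| ε t j`: for `w ∈ T`,
`tn ≤ vn w (y j) exp (ε t j)` as `M_w i ∈ V_w (c_w i)`; for `w ∉ T` (finite) `tn = vn w (y j)`. So the
hypothesis of `slope` holds (`y j ≠ 0` eventually by genericity).
(3) Fix `ε > 0`, `N > 0`. `slope` gives for almost all `j` a basis `x` of `K^n` with
`Bb F (sc (t j) (rai c (1 + ε))) (x l)`: with `κ w = (1+ε) mult / [K:ℚ]` (infinite `w`), `0` (finite):
`nv w (M_w i · x l) ≤ exp (t j (κ w - c_w i))` for `w ∈ T`, `nv w (x l i) ≤ 1` for `w ∉ T`. The vector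
`σ = (fun i => (tay p r (b i)).coeff s)` is in `V_w (m w p s)` (hypothesis `happ`, `coeff_tay_comb`), so
it is a combination of rows `M_w i` with `c_w i ≥ m w p s`; hence
`nv w ((tay p r (∑ C (x l i) * b i)).coeff s) ≤ D exp (t j (κ w - m w p s))`. Same for the
coefficients (`V_w 0 = ⊤`) with `m = 0`. `D` depends on the finitely many coefficients of these
combinations only.
(4) `det_ineq` with `τ = t j`, `∑ κ = 1 + ε` (`InfinitePlace.sum_mult_eq`; all infinite places are in `T`), and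
`sum_lev`: `t j N² ∑∑ (m 0 + 2 ∑_{Ico 1 (nn w p)} m) ≤ 2 (t j (r N + r) N (1 + ε) + C)`. Divide by
`t j N²`, `t j → ∞`: `∑∑ (..) ≤ 2 r (1 + 1/N) (1 + ε)`; `N → ∞`, `ε → 0`. Finally
`∑_{Ico 1 r} = ∑_{Ico 1 (nn w p)}` since `m w p s = 0` for `s ≥ nn w p` and `nn w p ≤ r`.
-/

namespace Pool.Agent.Helper61.AD

open NumberField Finset Polynomial
open Pool.Agent.Helper64.Vojta (Pl nv sn)
open Pool.Agent.V2

/-- a quantity bounded by a constant times `exp (t a)` is eventually at most `exp (t (a + ε))` -/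
theorem core_absorb {U : Ultrafilter ℕ} {t : ℕ → ℝ}
    (ht : Filter.Tendsto t (U : Filter ℕ) Filter.atTop) (C : ℝ) {ε : ℝ} (hε : 0 < ε) :
    ∀ᶠ j in (U : Filter ℕ), C ≤ Real.exp (t j * ε) := by
  have h1 : Filter.Tendsto (fun j => Real.exp (t j * ε)) (U : Filter ℕ) Filter.atTop :=
    Real.tendsto_exp_atTop.comp (ht.atTop_mul_const hε)
  exact h1.eventually_ge_atTop C

theorem core_vn_nonneg {K : Type*} [Field K] [NumberField K] {n : ℕ} (w : Pl K) (y : Fin n → K) :
    0 ≤ vn w y := Real.iSup_nonneg fun _ => Pool.Agent.Helper64.Vojta.nv_nonneg _ _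

/-- the subspace `V τ` -/
noncomputable def coreV {K : Type*} [Field K] [NumberField K] {n : ℕ} (U : Ultrafilter ℕ)
    (t : ℕ → ℝ) (ht : Filter.Tendsto t (U : Filter ℕ) Filter.atTop) (y : ℕ → Fin n → K) (w : Pl K)
    (τ : ℝ) : Submodule K (Fin n → K) where
  carrier := {s | ∀ ε : ℝ, 0 < ε → ∀ᶠ j in (U : Filter ℕ),
    nv w (∑ i, s i * y j i) ≤ vn w (y j) * Real.exp (t j * (ε - τ))}
  zero_mem' := by
    intro ε hε
    refine Filter.Eventually.of_forall fun j => ?_
    simp only [Pi.zero_apply, zero_mul, Finset.sum_const_zero, Pool.Agent.Helper64.Vojta.nv_zero]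
    exact mul_nonneg (core_vn_nonneg _ _) (Real.exp_pos _).le
  add_mem' := by
    intro a b ha hb ε hε
    filter_upwards [ha (ε / 2) (by linarith), hb (ε / 2) (by linarith),
      core_absorb ht 9 (ε := ε / 2) (by linarith)] with j h1 h2 h3
    have h4 := Pool.Agent.Helper64.Vojta.nv_sum_le w (Finset.univ : Finset (Fin 2))
      ![∑ i, a i * y j i, ∑ i, b i * y j i] (vn w (y j) * Real.exp (t j * (ε / 2 - τ)))
      (mul_nonneg (core_vn_nonneg _ _) (Real.exp_pos _).le) (by
        intro i _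
        fin_cases i
        · exact h1
        · exact h2)
    rw [Fin.sum_univ_two] at h4
    simp only [Matrix.cons_val_zero, Matrix.cons_val_one, Finset.card_univ, Fintype.card_fin,
      Nat.cast_ofNat] at h4
    have h5 : ∑ i, (a + b) i * y j i = ∑ i, a i * y j i + ∑ i, b i * y j i := by
      rw [← Finset.sum_add_distrib]
      refine Finset.sum_congr rfl fun i _ => ?_
      rw [Pi.add_apply, add_mul]
    rw [h5]
    refine h4.trans ?_
    have h6 : Real.exp (t j * (ε - τ)) = Real.exp (t j * (ε / 2)) * Real.exp (t j * (ε / 2 - τ)) := by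
      rw [← Real.exp_add]; congr 1; ring
    rw [h6]
    have h7 : (0 : ℝ) ≤ vn w (y j) * Real.exp (t j * (ε / 2 - τ)) :=
      mul_nonneg (core_vn_nonneg _ _) (Real.exp_pos _).le
    nlinarith
  smul_mem' := by
    intro a s hs ε hε
    filter_upwards [hs (ε / 2) (by linarith),
      core_absorb ht (nv w a) (ε := ε / 2) (by linarith)] with j h1 h3
    have h5 : ∑ i, (a • s) i * y j i = a * ∑ i, s i * y j i := by
      rw [Finset.mul_sum]
      refine Finset.sum_congr rfl fun i _ => ?_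
      rw [Pi.smul_apply, smul_eq_mul, mul_assoc]
    rw [h5, Pool.Agent.Helper64.Vojta.nv_mul]
    have h6 : Real.exp (t j * (ε - τ)) = Real.exp (t j * (ε / 2)) * Real.exp (t j * (ε / 2 - τ)) := by
      rw [← Real.exp_add]; congr 1; ring
    rw [h6]
    have h7 : (0 : ℝ) ≤ vn w (y j) * Real.exp (t j * (ε / 2 - τ)) :=
      mul_nonneg (core_vn_nonneg _ _) (Real.exp_pos _).le
    calc nv w a * nv w (∑ i, s i * y j i)
        ≤ Real.exp (t j * (ε / 2)) * (vn w (y j) * Real.exp (t j * (ε / 2 - τ))) :=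
          mul_le_mul h3 h1 (Pool.Agent.Helper64.Vojta.nv_nonneg _ _) (Real.exp_pos _).le
      _ = _ := by ring

theorem mem_coreV {K : Type*} [Field K] [NumberField K] {n : ℕ} {U : Ultrafilter ℕ}
    {t : ℕ → ℝ} {ht : Filter.Tendsto t (U : Filter ℕ) Filter.atTop} {y : ℕ → Fin n → K} {w : Pl K}
    {τ : ℝ} {s : Fin n → K} : s ∈ coreV U t ht y w τ ↔ ∀ ε : ℝ, 0 < ε → ∀ᶠ j in (U : Filter ℕ),
    nv w (∑ i, s i * y j i) ≤ vn w (y j) * Real.exp (t j * (ε - τ)) := Iff.rfl

theorem coreV_anti {K : Type*} [Field K] [NumberField K] {n : ℕ} (U : Ultrafilter ℕ)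
    (t : ℕ → ℝ) (ht : Filter.Tendsto t (U : Filter ℕ) Filter.atTop) (y : ℕ → Fin n → K) (w : Pl K) :
    Antitone (coreV U t ht y w) := by
  intro τ τ' hτ s hs
  rw [mem_coreV] at hs ⊢
  intro ε hε
  filter_upwards [hs ε hε, ht.eventually_ge_atTop 0] with j h1 h2
  refine h1.trans (mul_le_mul_of_nonneg_left (Real.exp_le_exp.mpr ?_) (core_vn_nonneg _ _))
  exact mul_le_mul_of_nonneg_left (by linarith) h2

theorem coreV_zero {K : Type*} [Field K] [NumberField K] {n : ℕ} (U : Ultrafilter ℕ)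
    (t : ℕ → ℝ) (ht : Filter.Tendsto t (U : Filter ℕ) Filter.atTop) (y : ℕ → Fin n → K) (w : Pl K) :
    coreV U t ht y w 0 = ⊤ := by
  rw [eq_top_iff]
  intro s _
  rw [mem_coreV]
  intro ε hε
  filter_upwards [core_absorb ht ((n + 1 : ℝ) ^ 2 * vn w s) hε] with j h3
  have h4 := Pool.Agent.Helper64.Vojta.nv_sum_le w (Finset.univ : Finset (Fin n))
      (fun i => s i * y j i) (vn w s * vn w (y j))
      (mul_nonneg (core_vn_nonneg _ _) (core_vn_nonneg _ _)) (by
        intro i _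
        rw [Pool.Agent.Helper64.Vojta.nv_mul]
        exact mul_le_mul (le_vn _ _ _) (le_vn _ _ _) (Pool.Agent.Helper64.Vojta.nv_nonneg _ _)
          (core_vn_nonneg _ _))
  rw [Finset.card_univ, Fintype.card_fin] at h4
  refine h4.trans ?_
  rw [sub_zero]
  have h5 := core_vn_nonneg w (y j)
  calc (n + 1 : ℝ) ^ 2 * (vn w s * vn w (y j)) = ((n + 1 : ℝ) ^ 2 * vn w s) * vn w (y j) := by ring
    _ ≤ Real.exp (t j * ε) * vn w (y j) := mul_le_mul_of_nonneg_right h3 h5
    _ = _ := mul_comm _ _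

/-- bounds for combinations of rows -/
theorem core_comb {K : Type*} [Field K] [NumberField K] {n : ℕ} (w : Pl K)
    (M : Matrix (Fin n) (Fin n) K) (c : Fin n → ℝ) (τ : ℝ) (σ : Fin n → K)
    (hσ : σ ∈ Submodule.span K {x | ∃ i, τ ≤ c i ∧ x = M i}) :
    ∃ D : ℝ, 1 ≤ D ∧ ∀ (t κ : ℝ) (z : Fin n → K), 0 ≤ t →
      (∀ i, nv w (M.mulVec z i) ≤ Real.exp (t * (κ - c i))) →
      nv w (∑ k, σ k * z k) ≤ D * Real.exp (t * (κ - τ)) := by
  induction hσ using Submodule.span_induction with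
  | mem x hx =>
    obtain ⟨i, hi, rfl⟩ := hx
    refine ⟨1, le_rfl, fun t κ z ht h => ?_⟩
    rw [one_mul]
    refine (h i).trans (Real.exp_le_exp.mpr ?_)
    exact mul_le_mul_of_nonneg_left (by linarith) ht
  | zero =>
    refine ⟨1, le_rfl, fun t κ z ht h => ?_⟩
    simp only [Pi.zero_apply, zero_mul, Finset.sum_const_zero, Pool.Agent.Helper64.Vojta.nv_zero]
    positivity
  | add a b _ _ iha ihb =>
    obtain ⟨D1, h1, h1'⟩ := iha
    obtain ⟨D2, h2, h2'⟩ := ihb
    refine ⟨9 * (D1 + D2), by linarith, fun t κ z ht h => ?_⟩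
    have hE := Real.exp_pos (t * (κ - τ))
    have e1 := h1' t κ z ht h
    have e2 := h2' t κ z ht h
    have h4 := Pool.Agent.Helper64.Vojta.nv_sum_le w (Finset.univ : Finset (Fin 2))
      ![∑ i, a i * z i, ∑ i, b i * z i] ((D1 + D2) * Real.exp (t * (κ - τ)))
      (by positivity) (by
        intro i _
        fin_cases i
        · exact e1.trans (mul_le_mul_of_nonneg_right (by linarith) hE.le)
        · exact e2.trans (mul_le_mul_of_nonneg_right (by linarith) hE.le))
    rw [Fin.sum_univ_two] at h4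
    simp only [Matrix.cons_val_zero, Matrix.cons_val_one, Finset.card_univ, Fintype.card_fin,
      Nat.cast_ofNat] at h4
    have h5 : ∑ i, (a + b) i * z i = ∑ i, a i * z i + ∑ i, b i * z i := by
      rw [← Finset.sum_add_distrib]
      refine Finset.sum_congr rfl fun i _ => ?_
      rw [Pi.add_apply, add_mul]
    rw [h5]
    refine h4.trans (le_of_eq ?_)
    ring
  | smul a s _ ih =>
    obtain ⟨D1, h1, h1'⟩ := ih
    refine ⟨1 + nv w a * D1, ?_, fun t κ z ht h => ?_⟩
    · have := mul_nonneg (Pool.Agent.Helper64.Vojta.nv_nonneg w a) (by linarith : (0 : ℝ) ≤ D1)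
      linarith
    · have h5 : ∑ i, (a • s) i * z i = a * ∑ i, s i * z i := by
        rw [Finset.mul_sum]
        refine Finset.sum_congr rfl fun i _ => ?_
        rw [Pi.smul_apply, smul_eq_mul, mul_assoc]
      rw [h5, Pool.Agent.Helper64.Vojta.nv_mul]
      have hE := Real.exp_pos (t * (κ - τ))
      have e1 := mul_le_mul_of_nonneg_left (h1' t κ z ht h)
        (Pool.Agent.Helper64.Vojta.nv_nonneg w a)
      nlinarith

/-- a common constant for finitely many conditions -/
theorem core_unif {ι : Type*} (s : Finset ι) (P : ι → ℝ → Prop)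
    (hmono : ∀ i D D', D ≤ D' → P i D → P i D') (h : ∀ i ∈ s, ∃ D, P i D) :
    ∃ D : ℝ, 1 ≤ D ∧ ∀ i ∈ s, P i D := by
  classical
  induction s using Finset.induction_on with
  | empty => exact ⟨1, le_rfl, by simp⟩
  | insert a s ha ih =>
    obtain ⟨D1, h1, h2⟩ := ih fun i hi => h i (Finset.mem_insert_of_mem hi)
    obtain ⟨D2, h3⟩ := h a (Finset.mem_insert_self a s)
    refine ⟨max D1 D2, h1.trans (le_max_left _ _), fun i hi => ?_⟩
    rcases Finset.mem_insert.mp hi with rfl | hi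
    · exact hmono _ _ _ (le_max_right _ _) h3
    · exact hmono _ _ _ (le_max_left _ _) (h2 i hi)

/-- passing to the limit in `t` -/
theorem core_lim {U : Ultrafilter ℕ} {t : ℕ → ℝ}
    (ht : Filter.Tendsto t (U : Filter ℕ) Filter.atTop) {L R c : ℝ}
    (h : ∀ᶠ j in (U : Filter ℕ), t j * L ≤ t j * R + c) : L ≤ R := by
  by_contra hcon
  push Not at hcon
  obtain ⟨j, h1, h2⟩ := (h.and (ht.eventually_gt_atTop (c / (L - R)))).exists
  rw [div_lt_iff₀ (by linarith)] at h2
  nlinarith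

/-- passing to the limit in `N` and `ε` -/
theorem core_lim2 {X R : ℝ} (hR : 0 ≤ R)
    (h : ∀ N : ℕ, 0 < N → ∀ ε : ℝ, 0 < ε → (N : ℝ) ^ 2 * X ≤ 2 * ((R * N + R) * (N * (1 + ε)))) :
    X ≤ 2 * R := by
  by_contra hcon
  push Not at hcon
  -- choose N with 1/N small, ε = 1/N
  set δ := X - 2 * R with hδ
  have hδ0 : 0 < δ := by linarith
  obtain ⟨N, hN⟩ := exists_nat_gt (6 * R / δ)
  have hN1 : 6 * R < N * δ := by rwa [div_lt_iff₀ hδ0] at hN
  have hN0 : 0 < N := by
    rcases Nat.eq_zero_or_pos N with h0 | h0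
    · subst h0
      simp only [Nat.cast_zero, zero_mul] at hN1
      linarith
    · exact h0
  have hNr : (1 : ℝ) ≤ N := by exact_mod_cast hN0
  have h1 := h N hN0 (1 / N) (by positivity)
  have h2 : (N : ℝ) * (1 + 1 / N) = N + 1 := by field_simp
  rw [h2] at h1
  have h3 : (N : ℝ) ^ 2 * X = N ^ 2 * δ + 2 * R * N ^ 2 := by rw [hδ]; ring
  have h4 : (N : ℝ) ^ 2 * δ ≤ 4 * R * N + 2 * R := by nlinarith
  have h5 : (N : ℝ) ^ 2 * δ = N * (N * δ) := by ring
  have h6 : N * (6 * R) < N * (N * δ) := by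
    apply mul_lt_mul_of_pos_left hN1
    linarith
  nlinarith

theorem core {K : Type*} [Field K] [NumberField K] {n r : ℕ} (hn : 0 < n) (hr : 0 < r)
    (b : Fin n → K[X]) (hb : NoBase r b)
    (hint : ∀ (v : FinitePlace K) i s, nv (.inr v) ((b i).coeff s) ≤ 1)
    (T : Finset (Pl K)) (hT : ∀ v : InfinitePlace K, Sum.inl v ∈ T) (A : Finset (Option K))
    (nn : Pl K → Option K → ℕ) (hnn : ∀ w ∈ T, ∑ p ∈ A, nn w p ≤ r)
    (m : Pl K → Option K → ℕ → ℝ) (hm : ∀ w ∈ T, ∀ p ∈ A, Prof (m w p) (nn w p))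
    (U : Ultrafilter ℕ) (t : ℕ → ℝ) (ht : Filter.Tendsto t (U : Filter ℕ) Filter.atTop)
    (y : ℕ → Fin n → K)
    (hgen : ∀ W : Submodule K (Fin n → K), W ≠ ⊤ → ∀ᶠ j in (U : Filter ℕ), y j ∉ W)
    (hH : ∀ ε : ℝ, 0 < ε → ∀ᶠ j in (U : Filter ℕ), vH (y j) ≤ (1 + ε) * t j)
    (happ : ∀ w ∈ T, ∀ p ∈ A, ∀ s ≤ r, ∀ ε : ℝ, 0 < ε → ∀ᶠ j in (U : Filter ℕ),
      nv w ((tay p r (∑ i, C (y j i) * b i)).coeff s) ≤
        vn w (y j) * Real.exp (t j * (ε - m w p s))) :
    ∑ w ∈ T, ∑ p ∈ A, (m w p 0 + 2 * ∑ s ∈ Finset.Ico 1 r, m w p s) ≤ 2 * r := by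
  classical
  have hT' : ∀ w : Pl K, w ∉ T → ∃ v : FinitePlace K, w = .inr v := by
    rintro (v | v) hw
    · exact absurd (hT v) hw
    · exact ⟨v, rfl⟩
  -- the filtrations and the adapted bases
  set V := fun w => coreV U t ht y w with hV
  let Λ : Pl K → Finset ℝ := fun w =>
    insert 0 ((A ×ˢ Finset.range (r + 1)).image fun q => m w q.1 q.2)
  have hΛ0 : ∀ w, (0 : ℝ) ∈ Λ w := fun w => Finset.mem_insert_self _ _
  have hΛm : ∀ w, ∀ p ∈ A, ∀ s ≤ r, m w p s ∈ Λ w := by
    intro w p hp s hs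
    refine Finset.mem_insert_of_mem (Finset.mem_image.mpr ⟨(p, s), ?_, rfl⟩)
    rw [Finset.mem_product]
    exact ⟨hp, Finset.mem_range.mpr (Nat.lt_succ_of_le hs)⟩
  have hex : ∀ w : Pl K, ∃ (M : Matrix (Fin n) (Fin n) K) (c : Fin n → ℝ), M.det ≠ 0 ∧
      (∀ i, M i ∈ V w (c i)) ∧
      (w ∈ T → ∀ τ ∈ Λ w, V w τ ≤ Submodule.span K {x | ∃ i, τ ≤ c i ∧ x = M i}) ∧
      (w ∉ T → M = 1 ∧ c = 0) := by
    intro w
    by_cases hw : w ∈ T
    · obtain ⟨M, c, h1, h2, h3, h4⟩ := adapt (Λ w) (hΛ0 w) (by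
        intro τ hτ
        rcases Finset.mem_insert.mp hτ with rfl | hτ
        · exact le_rfl
        · obtain ⟨q, hq, rfl⟩ := Finset.mem_image.mp hτ
          rw [Finset.mem_product] at hq
          exact (hm w hw q.1 hq.1).nonneg _) (V w) (coreV_zero U t ht y w) (coreV_anti U t ht y w)
      exact ⟨M, c, h1, h3, fun _ => h4, fun h => absurd hw h⟩
    · refine ⟨1, 0, by simp, fun i => ?_, fun h => absurd h hw, fun _ => ⟨rfl, rfl⟩⟩
      rw [Pi.zero_apply, hV]
      simp only [coreV_zero]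
      trivial
  choose M c hdet hrow hspan hout using hex
  let F : Frm K (Fin n) :=
    { S := T.toRight
      L := M
      hL := hdet
      hS := fun v hv => (hout _ fun h => hv (Finset.mem_toRight.mpr h)).1 }
  let cc : Pl K → Fin n → ℝ := fun w i => - c w i
  have hcc : ExpS F.S cc := by
    intro v hv
    funext i
    have h1 : c (.inr v) = 0 := (hout _ fun h => hv (Finset.mem_toRight.mpr h)).2
    simp only [cc, h1, Pi.zero_apply, neg_zero]
  have hy0 : ∀ᶠ j in (U : Filter ℕ), y j ≠ 0 := by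
    haveI : Nonempty (Fin n) := ⟨⟨0, hn⟩⟩
    filter_upwards [hgen ⊥ bot_ne_top] with j hj h0
    exact hj (by rw [h0]; exact Submodule.zero_mem _)
  -- twisted heights
  have hslope := slope hn F cc hcc U t ht y (by
    intro ε hε
    set δ : ℝ := ε / (2 * (T.card + 1)) with hδ
    have hδ0 : 0 < δ := by positivity
    have hrows : ∀ w ∈ T, ∀ᶠ j in (U : Filter ℕ), ∀ i,
        nv w (∑ k, M w i k * y j k) ≤ vn w (y j) * Real.exp (t j * (δ - c w i)) := by
      intro w _
      rw [Filter.eventually_all]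
      intro i
      exact (mem_coreV.mp (hrow w i)) δ hδ0
    have hrows' : ∀ᶠ j in (U : Filter ℕ), ∀ w ∈ T, ∀ i,
        nv w (∑ k, M w i k * y j k) ≤ vn w (y j) * Real.exp (t j * (δ - c w i)) := by
      rw [Filter.eventually_all_finset]
      exact hrows
    filter_upwards [hrows', hH (ε / 2) (by linarith), hy0, ht.eventually_ge_atTop 0]
      with j h1 h2 h3 h4
    have h5 : tH F (sc (t j) cc) (y j) ≤ vH (y j) + ∑ w ∈ T, t j * δ := by
      unfold tH vH
      rw [← gsum_supp T (fun w => if w ∈ T then t j * δ else 0) (fun v hv => if_neg hv) |>.trans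
        (Finset.sum_congr rfl fun v hv => if_pos hv)]
      rw [← gsum_add (finS_vn h3) (finS_supp T _ fun v hv => if_neg hv)]
      refine gsum_mono (finS_tn F _ (hcc.sc _) h3)
        ((finS_vn h3).add (finS_supp T _ fun v hv => if_neg hv)) fun w => ?_
      by_cases hw : w ∈ T
      · rw [if_pos hw]
        have h6 : tn F (sc (t j) cc) w (y j) ≤ vn w (y j) * Real.exp (t j * δ) := by
          refine tn_le F _ w _ (mul_nonneg (core_vn_nonneg _ _) (Real.exp_pos _).le) fun i => ?_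
          rw [Real.exp_neg, ← div_eq_mul_inv, div_le_iff₀ (Real.exp_pos _)]
          refine (h1 w hw i).trans (le_of_eq ?_)
          rw [mul_assoc, ← Real.exp_add]
          congr 2
          simp only [sc, cc]
          ring
        have h7 := Real.log_le_log (tn_pos F _ w h3) h6
        rwa [Real.log_mul (vn_pos w h3).ne' (Real.exp_pos _).ne', Real.log_exp] at h7
      · rw [if_neg hw, add_zero]
        obtain ⟨v, rfl⟩ := hT' w hw
        rw [tn_out F _ (hcc.sc _) (fun h => hw (Finset.mem_toRight.mp h))]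
    refine h5.trans ?_
    rw [Finset.sum_const, nsmul_eq_mul]
    have h6 : (T.card : ℝ) * (t j * δ) ≤ ε / 2 * t j := by
      have h7 : (T.card : ℝ) * δ ≤ ε / 2 := by
        rw [hδ]
        have h8 : (0 : ℝ) ≤ T.card := Nat.cast_nonneg _
        rw [← mul_div_assoc, div_le_div_iff₀ (by positivity) (by norm_num)]
        nlinarith
      nlinarith
    nlinarith) hgen
  -- the constant D
  obtain ⟨D1, hD1, hD1'⟩ := core_unif ((T ×ˢ A) ×ˢ Finset.range (r + 1))
    (fun q D => ∀ (τ κ : ℝ) (z : Fin n → K), 0 ≤ τ →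
      (∀ i, nv q.1.1 ((M q.1.1).mulVec z i) ≤ Real.exp (τ * (κ - c q.1.1 i))) →
      nv q.1.1 ((tay q.1.2 r (∑ i, C (z i) * b i)).coeff q.2) ≤
        D * Real.exp (τ * (κ - m q.1.1 q.1.2 q.2)))
    (fun q D D' hDD h τ κ z h1 h2 => (h τ κ z h1 h2).trans
      (mul_le_mul_of_nonneg_right hDD (Real.exp_pos _).le)) (by
    rintro ⟨⟨w, p⟩, s⟩ hq
    simp only [Finset.mem_product, Finset.mem_range] at hq
    obtain ⟨⟨hw, hp⟩, hs⟩ := hq
    have hs' : s ≤ r := Nat.lt_succ_iff.mp hs
    have hmem : (fun i => (tay p r (b i)).coeff s) ∈ V w (m w p s) := by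
      change _ ∈ coreV U t ht y w (m w p s)
      rw [mem_coreV]
      intro ε hε
      filter_upwards [happ w hw p hp s hs' ε hε] with j hj
      rw [coeff_tay_comb] at hj
      simpa only [mul_comm] using hj
    obtain ⟨D, hD, hD'⟩ := core_comb w (M w) (c w) (m w p s) _
      (hspan w hw _ (hΛm w p hp s hs') hmem)
    refine ⟨D, fun τ κ z h1 h2 => ?_⟩
    have h3 := hD' τ κ z h1 h2
    simp only
    rw [coeff_tay_comb]
    simpa only [mul_comm] using h3)
  obtain ⟨D2, hD2, hD2'⟩ := core_unif (T ×ˢ Finset.range (r + 1))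
    (fun q D => ∀ (τ κ : ℝ) (z : Fin n → K), 0 ≤ τ →
      (∀ i, nv q.1 ((M q.1).mulVec z i) ≤ Real.exp (τ * (κ - c q.1 i))) →
      nv q.1 ((∑ i, C (z i) * b i).coeff q.2) ≤ D * Real.exp (τ * κ))
    (fun q D D' hDD h τ κ z h1 h2 => (h τ κ z h1 h2).trans
      (mul_le_mul_of_nonneg_right hDD (Real.exp_pos _).le)) (by
    rintro ⟨w, s⟩ hq
    simp only [Finset.mem_product, Finset.mem_range] at hq
    obtain ⟨hw, hs⟩ := hq
    have hmem : (fun i => (b i).coeff s) ∈ V w 0 := by
      change _ ∈ coreV U t ht y w 0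
      rw [coreV_zero]
      trivial
    obtain ⟨D, hD, hD'⟩ := core_comb w (M w) (c w) 0 _ (hspan w hw _ (hΛ0 w) hmem)
    refine ⟨D, fun τ κ z h1 h2 => ?_⟩
    have h3 := hD' τ κ z h1 h2
    simp only
    rw [sub_zero] at h3
    rw [finsetSum_coeff]
    simp only [coeff_C_mul]
    simpa only [mul_comm] using h3)
  set D := max D1 D2 with hDdef
  have hD : 1 ≤ D := hD1.trans (le_max_left _ _)
  -- main estimate for fixed N, ε
  have hmain : ∀ N : ℕ, 0 < N → ∀ ε : ℝ, 0 < ε →
      ∑ w ∈ T, ∑ p ∈ A, ∑ i ∈ Finset.range (N * nn w p), lev N (m w p) i ≤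
        (r * N + r : ℝ) * (N * (1 + ε)) := by
    intro N hN ε hε
    obtain ⟨c0, hc0⟩ := det_ineq hr hN b hb hint T hT A nn hnn D hD
    refine core_lim (c := c0) ht ?_
    let κ : Pl K → ℝ := fun w => match w with
      | .inl v => (1 + ε) * v.mult / Module.finrank ℚ K
      | .inr _ => 0
    have hκ : ∑ w ∈ T, κ w = 1 + ε := by
      have hd : (0 : ℝ) < Module.finrank ℚ K := by exact_mod_cast Module.finrank_pos
      have h1 : ∑ w ∈ T, κ w = ∑ v : InfinitePlace K, (1 + ε) * v.mult / Module.finrank ℚ K := by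
        conv_lhs => rw [← Finset.toLeft_disjSum_toRight (u := T)]
        rw [Finset.sum_disjSum]
        have h2 : T.toLeft = Finset.univ := by
          rw [Finset.eq_univ_iff_forall]
          intro v
          exact Finset.mem_toLeft.mpr (hT v)
        rw [h2]
        simp only [κ, Finset.sum_const_zero, add_zero]
      rw [h1, ← Finset.sum_div, ← Finset.mul_sum]
      have h3 : ∑ v : InfinitePlace K, (v.mult : ℝ) = Module.finrank ℚ K := by
        rw [← NumberField.InfinitePlace.sum_mult_eq]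
        push_cast
        rfl
      rw [h3]
      field_simp
    filter_upwards [hslope ε hε, ht.eventually_ge_atTop 0] with j hj ht0
    obtain ⟨x, hx, hB⟩ := hj
    have hB' : ∀ l w i, nv w ((M w).mulVec (x l) i) ≤ Real.exp (t j * (κ w - c w i)) := by
      intro l w i
      refine (hB l w i).trans (le_of_eq ?_)
      congr 1
      rcases w with v | v
      · simp only [sc, rai, cc, κ]; ring
      · simp only [sc, rai, cc, κ]; ring
    have h1 := hc0 m hm (t j) ht0 κ x hx ?_ ?_ ?_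
    · rw [hκ] at h1
      exact h1
    · intro w hw p hp l s hs
      refine (hD1' ((w, p), s) ?_ (t j) (κ w) (x l) ht0 (hB' l w)).trans ?_
      · simp only [Finset.mem_product, Finset.mem_range]
        exact ⟨⟨hw, hp⟩, Nat.lt_succ_of_le hs⟩
      · exact mul_le_mul_of_nonneg_right (le_max_left _ _) (Real.exp_pos _).le
    · intro w hw l s
      rcases Nat.lt_or_ge r s with hs | hs
      · have h2 : (∑ i, C (x l i) * b i).coeff s = 0 := by
          rw [finsetSum_coeff]
          refine Finset.sum_eq_zero fun i _ => ?_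
          rw [coeff_C_mul, coeff_eq_zero_of_natDegree_lt ((hb.deg i).trans_lt hs), mul_zero]
        rw [h2, Pool.Agent.Helper64.Vojta.nv_zero]
        positivity
      · refine (hD2' (w, s) ?_ (t j) (κ w) (x l) ht0 (hB' l w)).trans ?_
        · simp only [Finset.mem_product, Finset.mem_range]
          exact ⟨hw, Nat.lt_succ_of_le hs⟩
        · exact mul_le_mul_of_nonneg_right (le_max_right _ _) (Real.exp_pos _).le
    · intro v hv l i
      have h2 := hB' l (.inr v) i
      rw [(hout _ hv).1, (hout _ hv).2] at h2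
      simpa [κ] using h2
  -- the sums
  have hnr : ∀ w ∈ T, ∀ p ∈ A, nn w p ≤ r := fun w hw p hp =>
    (Finset.single_le_sum (f := fun p => nn w p) (fun _ _ => Nat.zero_le _) hp).trans (hnn w hw)
  have hico : ∀ w ∈ T, ∀ p ∈ A, ∑ s ∈ Finset.Ico 1 r, m w p s =
      ∑ s ∈ Finset.Ico 1 (nn w p), m w p s := by
    intro w hw p hp
    symm
    refine Finset.sum_subset (Finset.Ico_subset_Ico_right (hnr w hw p hp)) fun s h1 h2 => ?_
    rw [Finset.mem_Ico] at h1 h2
    exact (hm w hw p hp).zero s (by omega)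
  refine core_lim2 (Nat.cast_nonneg r) fun N hN ε hε => ?_
  have h1 := hmain N hN ε hε
  calc (N : ℝ) ^ 2 * ∑ w ∈ T, ∑ p ∈ A, (m w p 0 + 2 * ∑ s ∈ Finset.Ico 1 r, m w p s)
      = ∑ w ∈ T, ∑ p ∈ A, (N : ℝ) ^ 2 * (m w p 0 + 2 * ∑ s ∈ Finset.Ico 1 (nn w p), m w p s) := by
        rw [Finset.mul_sum]
        refine Finset.sum_congr rfl fun w hw => ?_
        rw [Finset.mul_sum]
        refine Finset.sum_congr rfl fun p hp => ?_
        rw [hico w hw p hp]
    _ ≤ ∑ w ∈ T, ∑ p ∈ A, 2 * ∑ i ∈ Finset.range (N * nn w p), lev N (m w p) i :=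
        Finset.sum_le_sum fun w hw => Finset.sum_le_sum fun p hp => sum_lev (hm w hw p hp) hN
    _ = 2 * ∑ w ∈ T, ∑ p ∈ A, ∑ i ∈ Finset.range (N * nn w p), lev N (m w p) i := by
        rw [Finset.mul_sum]
        refine Finset.sum_congr rfl fun w hw => ?_
        rw [Finset.mul_sum]
    _ ≤ _ := by linarith

end Pool.Agent.Helper61.AD
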