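import Pool.Agent.Helper61.AD.Tay
import Pool.Agent.Helper61.AD.Core
import Pool.Agent.Helper21.V2.M1

/-!
# Block AD-GEN: from a sequence of irreducible polynomials over `k` to a generic sequence

Proof. Let `V = Fin (r+1) → k` and `c j = cf r (P j) ∈ V`. Among the subspaces `W` of `V` with
`c j ∈ W` for `U`-almost all `j` choose one of minimal dimension (`⊤` is one). `W ≠ ⊥` since `c j ≠ 0`. Let
`n = dim W > 0`, and `β : Fin n → V` a basis of `W`, scaled by a non-zero integer so that all coordinates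
are integral over `ℤ` (`nv (.inr v) ≤ 1` for all finite places `v` of `K`).
`b i = ∑ s, C (algebraMap k K (β i s)) * X^s ∈ K[X]`. For `U`-almost all `j`: `c j = ∑ i, z j i • β i` with
`z j : Fin n → k`; `y j i = algebraMap k K (z j i)`, so `(P j).map = ∑ C (y j i) * b i`.
* Genericity over `K`: a non-zero linear form `φ` over `K` vanishing on `W'`, composed with a `k`-linear
 functional of `K`, gives a non-zero linear form over `k` which vanishes at `z j`
 eventually; then `c j` lies in a proper subspace of `W` eventually, contradiction to minimality.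
* `NoBase r b`: `k[X]` is a PID: `Ideal.span (range b0) = (G)`. If `G` is not a unit, `G` is associated to
 `P j` for almost all `j`, and as `P j` is monic, `P j` is constant along `U`, contradiction to `hV`.
* Heights and norms: constants are absorbed by `ε t j` as `t j → ∞`.
Then apply `core`.
-/

namespace Pool.Agent.Helper61.AD

open NumberField Finset Polynomial
open Pool.Agent.Helper64.Vojta (Pl nv sn nv_nonneg nv_mul nv_sum_le)
open Pool.Agent.V2

namespace Gen

theorem exists_min {k V : Type*} [Field k] [AddCommGroup V] [Module k V] [FiniteDimensional k V]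
    (U : Ultrafilter ℕ) (c : ℕ → V) :
    ∃ W : Submodule k V, (∀ᶠ j in (U : Filter ℕ), c j ∈ W) ∧
      ∀ W' : Submodule k V, (∀ᶠ j in (U : Filter ℕ), c j ∈ W') → W ≤ W' := by
  obtain ⟨W, hW, hmin⟩ := (wellFounded_lt (α := Submodule k V)).has_min
    {W | ∀ᶠ j in (U : Filter ℕ), c j ∈ W} ⟨⊤, by simp⟩
  refine ⟨W, hW, fun W' hW' => ?_⟩
  have h1 : ∀ᶠ j in (U : Filter ℕ), c j ∈ W ⊓ W' := by
    filter_upwards [hW, hW'] with j h h' using ⟨h, h'⟩
  have h2 := hmin (W ⊓ W') h1
  have h3 : W ⊓ W' = W := by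
    by_contra hne
    exact h2 (lt_of_le_of_ne inf_le_left hne)
  exact h3 ▸ inf_le_right

/-- a basis with integral coordinates -/
theorem exists_basis {k : Type*} [Field k] [NumberField k] {r : ℕ}
    (W : Submodule k (Fin (r + 1) → k)) :
    ∃ (n : ℕ) (B : Module.Basis (Fin n) k W),
      ∀ i s, ∃ x : 𝓞 k, (x : k) = (B i : Fin (r + 1) → k) s := by
  let B := Module.finBasis k W
  obtain ⟨d, hd⟩ := IsLocalization.exist_integer_multiples_of_finite (nonZeroDivisors (𝓞 k))
    (fun p : Fin (Module.finrank k W) × Fin (r + 1) => (B p.1 : Fin (r + 1) → k) p.2)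
  have hd0 : algebraMap (𝓞 k) k d ≠ 0 := by
    intro h
    exact nonZeroDivisors.ne_zero d.2 ((FaithfulSMul.algebraMap_injective (𝓞 k) k) (by rw [h, map_zero]))
  have hu : ∀ i : Fin (Module.finrank k W), IsUnit (algebraMap (𝓞 k) k d) := fun _ => hd0.isUnit
  refine ⟨_, B.isUnitSMul hu, fun i s => ?_⟩
  obtain ⟨x, hx⟩ := hd (i, s)
  refine ⟨x, ?_⟩
  rw [Module.Basis.isUnitSMul_apply, Submodule.coe_smul, Pi.smul_apply, smul_eq_mul]
  have h2 : ((d : 𝓞 k) • (B i : Fin (r + 1) → k) s) = algebraMap (𝓞 k) k d * (B i : Fin (r + 1) → k) s :=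
    Algebra.smul_def _ _
  rw [← h2]
  exact hx

section pol

variable {k : Type*} [Field k]

/-- the polynomial with given coefficients -/
noncomputable def pol (r : ℕ) (v : Fin (r + 1) → k) : k[X] := ∑ s : Fin (r + 1), C (v s) * X ^ (s : ℕ)

theorem pol_coeff (r : ℕ) (v : Fin (r + 1) → k) (s : ℕ) :
    (pol r v).coeff s = if h : s < r + 1 then v ⟨s, h⟩ else 0 := by
  unfold pol
  rw [finsetSum_coeff]
  simp only [coeff_C_mul, coeff_X_pow, mul_ite, mul_one, mul_zero]
  split_ifs with h
  · rw [Finset.sum_eq_single (⟨s, h⟩ : Fin (r + 1))]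
    · simp
    · intro b _ hb
      rw [if_neg]
      intro hh
      exact hb (Fin.ext hh.symm)
    · intro h'
      exact absurd (Finset.mem_univ _) h'
  · refine Finset.sum_eq_zero fun i _ => ?_
    rw [if_neg]
    intro hh
    exact h (hh ▸ i.2)

theorem pol_deg (r : ℕ) (v : Fin (r + 1) → k) : (pol r v).natDegree ≤ r := by
  rw [natDegree_le_iff_coeff_eq_zero]
  intro s hs
  rw [pol_coeff, dif_neg (by omega)]

theorem pol_cf {r : ℕ} {Q : k[X]} (hQ : Q.natDegree ≤ r) : pol r (cf r Q) = Q := by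
  ext s
  rw [pol_coeff]
  split_ifs with h
  · rfl
  · exact (coeff_eq_zero_of_natDegree_lt (by omega)).symm

theorem pol_sum {r n : ℕ} (a : Fin n → k) (v : Fin n → Fin (r + 1) → k) :
    pol r (∑ i, a i • v i) = ∑ i, C (a i) * pol r (v i) := by
  ext s
  rw [pol_coeff, finsetSum_coeff]
  simp only [coeff_C_mul, pol_coeff]
  split_ifs with h
  · simp [Finset.sum_apply]
  · simp

end pol

/-- if a non-trivial ideal contained irreducible monic polynomials `P j`, they would be constant -/
theorem span_top {k : Type*} [Field k] {n : ℕ} (b0 : Fin n → k[X]) (U : Ultrafilter ℕ)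
    (P : ℕ → k[X]) (hmon : ∀ j, (P j).Monic) (hirr : ∀ j, Irreducible (P j))
    (hP : ∀ᶠ j in (U : Filter ℕ), P j ∈ Ideal.span (Set.range b0))
    (f : k[X] → ℝ) (hV : Filter.Tendsto (fun j => f (P j)) (U : Filter ℕ) Filter.atTop) :
    Ideal.span (Set.range b0) = ⊤ := by
  by_contra hne
  obtain ⟨G, hG⟩ := (IsPrincipalIdealRing.principal (Ideal.span (Set.range b0))).principal
  have hG' : Ideal.span (Set.range b0) = Ideal.span {G} := hG
  have hGu : ¬ IsUnit G := by
    intro h
    exact hne (hG'.trans (Ideal.span_singleton_eq_top.mpr h))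
  have hass : ∀ᶠ j in (U : Filter ℕ), Associated G (P j) := by
    filter_upwards [hP] with j hj
    rw [hG'] at hj
    obtain ⟨H, hH⟩ := Ideal.mem_span_singleton.mp hj
    rcases (hirr j).isUnit_or_isUnit hH with h | h
    · exact absurd h hGu
    · exact ⟨h.unit, by rw [hH]; rfl⟩
  obtain ⟨j0, hj0⟩ := hass.exists
  have hconst : ∀ᶠ j in (U : Filter ℕ), P j = P j0 := by
    filter_upwards [hass] with j hj
    exact eq_of_monic_of_associated (hmon j) (hmon j0) (hj.symm.trans hj0)
  obtain ⟨j, h1, h2⟩ := (hconst.and (hV.eventually (Filter.eventually_gt_atTop (f (P j0))))).exists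
  rw [h1] at h2
  exact lt_irrefl _ h2

/-- Genericity -/
theorem generic {k K V : Type*} [Field k] [Field K] [Algebra k K] [AddCommGroup V] [Module k V]
    {n : ℕ} (W : Submodule k V) (B : Module.Basis (Fin n) k W) (U : Ultrafilter ℕ) (c : ℕ → V)
    (hmin : ∀ W' : Submodule k V, (∀ᶠ j in (U : Filter ℕ), c j ∈ W') → W ≤ W')
    (z : ℕ → Fin n → k)
    (hz : ∀ᶠ j in (U : Filter ℕ), c j = ∑ i, z j i • (B i : V))
    (W' : Submodule K (Fin n → K)) (hW' : W' ≠ ⊤) :
    ∀ᶠ j in (U : Filter ℕ), (fun i => algebraMap k K (z j i)) ∉ W' := by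
  classical
  by_contra hcon
  rw [Ultrafilter.eventually_not, not_not] at hcon
  obtain ⟨φ, hφ0, hφ⟩ := Submodule.exists_le_ker_of_lt_top W' (lt_top_iff_ne_top.mpr hW')
  have hi0 : ∃ i0, φ (Pi.single i0 1) ≠ 0 := by
    by_contra h
    push Not at h
    apply hφ0
    refine LinearMap.pi_ext' fun i => ?_
    ext
    simp [h i]
  obtain ⟨i0, hi0⟩ := hi0
  obtain ⟨ψ, hψ⟩ : ∃ ψ : Module.Dual k K, ψ (φ (Pi.single i0 1)) ≠ 0 := by
    by_contra h
    push Not at h
    exact hi0 ((Module.forall_dual_apply_eq_zero_iff k _).mp h)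
  let L : (Fin n → k) →ₗ[k] k := ∑ i, (ψ (φ (Pi.single i 1))) • (LinearMap.proj i : (Fin n → k) →ₗ[k] k)
  have hL : ∀ z : Fin n → k, L z = ψ (φ (fun i => algebraMap k K (z i))) := by
    intro z
    have h1 : φ (fun i => algebraMap k K (z i)) = ∑ i, z i • φ (Pi.single i 1) := by
      rw [LinearMap.pi_apply_eq_sum_univ φ]
      refine Finset.sum_congr rfl fun i _ => ?_
      have hs : (fun j => if i = j then (1 : K) else 0) = Pi.single i 1 := by
        funext j
        simp [Pi.single_apply, eq_comm]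
      rw [hs, Algebra.smul_def (z i) (φ (Pi.single i 1)), smul_eq_mul]
    rw [h1, map_sum]
    simp only [L, LinearMap.sum_apply, LinearMap.smul_apply, LinearMap.proj_apply, smul_eq_mul]
    refine Finset.sum_congr rfl fun i _ => ?_
    rw [map_smul, smul_eq_mul, mul_comm]
  let E : (Fin n → k) →ₗ[k] V := W.subtype ∘ₗ B.equivFun.symm.toLinearMap
  have hE : ∀ z : Fin n → k, E z = ∑ i, z i • (B i : V) := by
    intro z
    simp [E, Module.Basis.equivFun_symm_apply]
  have hEinj : Function.Injective E :=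
    W.injective_subtype.comp B.equivFun.symm.injective
  have h1 : ∀ᶠ j in (U : Filter ℕ), c j ∈ (LinearMap.ker L).map E := by
    filter_upwards [hz, hcon] with j hj hj'
    refine ⟨z j, ?_, ?_⟩
    · rw [SetLike.mem_coe, LinearMap.mem_ker, hL]
      have := hφ hj'
      rw [LinearMap.mem_ker] at this
      rw [this, map_zero]
    · rw [hE, hj]
  have h2 := hmin _ h1
  obtain ⟨x, hx, hx'⟩ := h2 (B i0).2
  have h3 : E (Pi.single i0 1) = (B i0 : V) := by
    rw [hE, Finset.sum_eq_single i0]
    · simp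
    · intro i _ hi
      simp [hi]
    · intro h; exact absurd (Finset.mem_univ _) h
  have h4 : x = Pi.single i0 1 := hEinj (hx'.trans h3.symm)
  rw [SetLike.mem_coe, LinearMap.mem_ker, h4, hL] at hx
  apply hψ
  rw [← hx]
  congr 2
  funext j
  by_cases hj : j = i0
  · subst hj; simp
  · simp [hj]

end Gen

open Gen in
theorem core_irred {k K : Type*} [Field k] [NumberField k] [Field K] [NumberField K] [Algebra k K]
    {r : ℕ} (hr : 0 < r)
    (T : Finset (Pl K)) (hT : ∀ v : InfinitePlace K, Sum.inl v ∈ T) (A : Finset (Option K))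
    (nn : Pl K → Option K → ℕ) (hnn : ∀ w ∈ T, ∑ p ∈ A, nn w p ≤ r)
    (m : Pl K → Option K → ℕ → ℝ) (hm : ∀ w ∈ T, ∀ p ∈ A, Prof (m w p) (nn w p))
    (U : Ultrafilter ℕ) (t : ℕ → ℝ) (ht : Filter.Tendsto t (U : Filter ℕ) Filter.atTop)
    (P : ℕ → k[X]) (hmon : ∀ j, (P j).Monic) (hirr : ∀ j, Irreducible (P j))
    (hdeg : ∀ j, (P j).natDegree = r)
    (hV : Filter.Tendsto (fun j => vH (cf r ((P j).map (algebraMap k K)))) (U : Filter ℕ)
      Filter.atTop)
    (hH : ∀ ε : ℝ, 0 < ε → ∀ᶠ j in (U : Filter ℕ),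
      vH (cf r ((P j).map (algebraMap k K))) ≤ (1 + ε) * t j)
    (happ : ∀ w ∈ T, ∀ p ∈ A, ∀ s ≤ r, ∀ ε : ℝ, 0 < ε → ∀ᶠ j in (U : Filter ℕ),
      nv w ((tay p r ((P j).map (algebraMap k K))).coeff s) ≤
        vn w (cf r ((P j).map (algebraMap k K))) * Real.exp (t j * (ε - m w p s))) :
    ∑ w ∈ T, ∑ p ∈ A, (m w p 0 + 2 * ∑ s ∈ Finset.Ico 1 r, m w p s) ≤ 2 * r := by
  classical
  obtain ⟨W, hW, hmin⟩ := exists_min (k := k) U (fun j => cf r (P j))
  obtain ⟨n, B, hB⟩ := exists_basis W
  obtain ⟨q, hq⟩ := W.subtype.exists_leftInverse_of_injective W.ker_subtype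
  let g : (Fin (r + 1) → k) →ₗ[k] (Fin n → k) := B.equivFun.toLinearMap ∘ₗ q
  have hg : ∀ v ∈ W, v = ∑ i, g v i • (B i : Fin (r + 1) → k) := by
    intro v hv
    have h1 : q v = ⟨v, hv⟩ := by
      have := LinearMap.congr_fun hq ⟨v, hv⟩
      simpa using this
    have h2 : (∑ i, g v i • B i : W) = ⟨v, hv⟩ := by
      have h3 : ∀ i, g v i = B.equivFun ⟨v, hv⟩ i := by
        intro i
        simp [g, h1]
      simp_rw [h3]
      exact B.sum_equivFun _
    have h4 := congrArg Subtype.val h2
    simpa using h4.symm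
  let b0 : Fin n → k[X] := fun i => pol r (B i : Fin (r + 1) → k)
  let b : Fin n → K[X] := fun i => (b0 i).map (algebraMap k K)
  let z : ℕ → Fin n → k := fun j => g (cf r (P j))
  let y : ℕ → Fin n → K := fun j i => algebraMap k K (z j i)
  have hz : ∀ᶠ j in (U : Filter ℕ), cf r (P j) = ∑ i, z j i • (B i : Fin (r + 1) → k) := by
    filter_upwards [hW] with j hj using hg _ hj
  have hP : ∀ᶠ j in (U : Filter ℕ), P j = ∑ i, C (z j i) * b0 i := by
    filter_upwards [hz] with j hj
    rw [← pol_cf (hdeg j).le, hj, pol_sum]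
  have hPK : ∀ᶠ j in (U : Filter ℕ), (P j).map (algebraMap k K) = ∑ i, C (y j i) * b i := by
    filter_upwards [hP] with j hj
    conv_lhs => rw [hj]
    rw [Polynomial.map_sum]
    refine Finset.sum_congr rfl fun i _ => ?_
    rw [Polynomial.map_mul, Polynomial.map_C]
  have hPK0 : ∀ j, (P j).map (algebraMap k K) ≠ 0 := fun j => ((hmon j).map _).ne_zero
  have hn : 0 < n := by
    rcases Nat.eq_zero_or_pos n with h | h
    · exfalso
      obtain ⟨j, hj⟩ := hPK.exists
      apply hPK0 j
      rw [hj]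
      subst h
      simp
    · exact h
  have hb : NoBase r b := by
    refine ⟨fun i => ?_, ?_, ?_⟩
    · exact natDegree_map_le.trans (pol_deg _ _)
    · have h1 : Ideal.span (Set.range b0) = ⊤ := by
        refine span_top b0 U P hmon hirr ?_ (fun Q => vH (cf r (Q.map (algebraMap k K)))) hV
        filter_upwards [hP] with j hj
        rw [hj]
        exact Ideal.sum_mem _ fun i _ => Ideal.mul_mem_left _ _ (Ideal.subset_span ⟨i, rfl⟩)
      have h2 := congrArg (Ideal.map (mapRingHom (algebraMap k K))) h1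
      rw [Ideal.map_span, Ideal.map_top, ← Set.range_comp] at h2
      exact h2
    · obtain ⟨j, hj⟩ := hPK.exists
      by_contra hcon
      push Not at hcon
      have h1 : ((P j).map (algebraMap k K)).coeff r = 1 := by
        have h2 := ((hmon j).map (algebraMap k K)).coeff_natDegree
        rwa [(hmon j).natDegree_map, hdeg j] at h2
      rw [hj, finsetSum_coeff] at h1
      simp [hcon] at h1
  have hint : ∀ (v : FinitePlace K) i s, nv (.inr v) ((b i).coeff s) ≤ 1 := by
    intro v i s
    have h1 : (b i).coeff s = algebraMap k K ((b0 i).coeff s) := coeff_map _ _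
    rw [h1]
    have h2 : (b0 i).coeff s = if h : s < r + 1 then (B i : Fin (r + 1) → k) ⟨s, h⟩ else 0 :=
      pol_coeff _ _ _
    rw [h2]
    split_ifs with h
    · obtain ⟨x, hx⟩ := hB i ⟨s, h⟩
      rw [← hx]
      have hx' : IsIntegral ℤ (algebraMap k K (x : k)) :=
        (x.2).map (algebraMap k K).toIntAlgHom
      exact M1.nv_int_le_one v ⟨algebraMap k K (x : k), hx'⟩
    · rw [map_zero, Pool.Agent.Helper64.Vojta.nv_zero]
      exact zero_le_one
  have hy0 : ∀ᶠ j in (U : Filter ℕ), y j ≠ 0 := by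
    filter_upwards [hPK] with j hj h0
    apply hPK0 j
    rw [hj, h0]
    simp
  have hcf0 : ∀ j, cf r ((P j).map (algebraMap k K)) ≠ 0 := by
    intro j h0
    apply hPK0 j
    rw [← pol_cf (natDegree_map_le.trans (hdeg j).le), h0]
    ext s
    rw [pol_coeff]
    simp
  -- heights
  let Γ : Fin n × Fin (r + 1) → K := fun p =>
    algebraMap k K (g (fun j => if p.2 = j then 1 else 0) p.1)
  have hyΓ : ∀ j, y j = fun i => ∑ s, Γ (i, s) * cf r ((P j).map (algebraMap k K)) s := by
    intro j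
    funext i
    have h1 : z j i = ∑ s, (cf r (P j) s) * g (fun l => if s = l then 1 else 0) i := by
      have h2 : z j = g (cf r (P j)) := rfl
      rw [h2, LinearMap.pi_apply_eq_sum_univ g]
      simp [Finset.sum_apply]
    change algebraMap k K (z j i) = _
    rw [h1, map_sum]
    refine Finset.sum_congr rfl fun s _ => ?_
    rw [map_mul, mul_comm]
    congr 1
    exact (coeff_map _ _).symm
  have hH' : ∀ ε : ℝ, 0 < ε → ∀ᶠ j in (U : Filter ℕ), vH (y j) ≤ (1 + ε) * t j := by
    intro ε hε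
    have h1 : ∀ᶠ j in (U : Filter ℕ), (Height.totalWeight K * Real.log (Nat.card (Fin (r + 1))) +
        Height.logHeight Γ) / (ε / 2) ≤ t j := ht.eventually (Filter.eventually_ge_atTop _)
    filter_upwards [h1, hy0, hH (ε / 2) (by positivity)] with j h1 h2 h3
    rw [div_le_iff₀ (by positivity)] at h1
    rw [vH_eq h2]
    rw [vH_eq (hcf0 j)] at h3
    have h4 := Height.logHeight_linearMap_apply_le Γ (cf r ((P j).map (algebraMap k K)))
    rw [← hyΓ j] at h4
    nlinarith
  have happ' : ∀ w ∈ T, ∀ p ∈ A, ∀ s ≤ r, ∀ ε : ℝ, 0 < ε → ∀ᶠ j in (U : Filter ℕ),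
      nv w ((tay p r (∑ i, C (y j i) * b i)).coeff s) ≤
        vn w (y j) * Real.exp (t j * (ε - m w p s)) := by
    intro w hw p hp s hs ε hε
    let M : ℝ := ∑ i, ∑ s : Fin (r + 1), nv w ((b i).coeff s)
    have hM0 : 0 ≤ M := Finset.sum_nonneg fun i _ => Finset.sum_nonneg fun s _ => nv_nonneg _ _
    have hM : ∀ i (s : Fin (r + 1)), nv w ((b i).coeff s) ≤ M := by
      intro i s
      refine le_trans (Finset.single_le_sum (f := fun s : Fin (r + 1) => nv w ((b i).coeff s))
        (fun _ _ => nv_nonneg _ _) (Finset.mem_univ s)) ?_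
      exact Finset.single_le_sum (f := fun i => ∑ s : Fin (r + 1), nv w ((b i).coeff s))
        (fun _ _ => Finset.sum_nonneg fun _ _ => nv_nonneg _ _) (Finset.mem_univ i)
    let D : ℝ := ((Finset.univ : Finset (Fin n)).card + 1 : ℝ) ^ 2 * M
    have hD0 : 0 ≤ D := by positivity
    have hvn : ∀ᶠ j in (U : Filter ℕ), vn w (cf r ((P j).map (algebraMap k K))) ≤ D * vn w (y j) := by
      filter_upwards [hPK] with j hj
      have hvy : 0 ≤ vn w (y j) := by
        have : Nonempty (Fin n) := ⟨⟨0, hn⟩⟩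
        exact (nv_nonneg w _).trans (le_vn w (y j) ⟨0, hn⟩)
      refine vn_le _ _ (mul_nonneg hD0 hvy) fun s => ?_
      have h1 : cf r ((P j).map (algebraMap k K)) s = ∑ i, y j i * (b i).coeff s := by
        change ((P j).map (algebraMap k K)).coeff s = _
        rw [hj, finsetSum_coeff]
        exact Finset.sum_congr rfl fun i _ => coeff_C_mul _
      rw [h1]
      refine (nv_sum_le w Finset.univ (fun i => y j i * (b i).coeff s) (M * vn w (y j))
        (mul_nonneg hM0 hvy) fun i _ => ?_).trans ?_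
      · rw [nv_mul, mul_comm]
        exact mul_le_mul (hM i s) (le_vn w (y j) i) (nv_nonneg _ _) hM0
      · rw [← mul_assoc]
    have h1 : ∀ᶠ j in (U : Filter ℕ), Real.log (D + 1) / (ε / 2) ≤ t j :=
      ht.eventually (Filter.eventually_ge_atTop _)
    filter_upwards [h1, hvn, hPK, happ w hw p hp s hs (ε / 2) (by positivity)] with j h1 h2 h3 h4
    rw [div_le_iff₀ (by positivity)] at h1
    rw [← h3]
    have hvy : 0 ≤ vn w (y j) := by
      have : Nonempty (Fin n) := ⟨⟨0, hn⟩⟩
      exact (nv_nonneg w _).trans (le_vn w (y j) ⟨0, hn⟩)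
    have h5 : D ≤ Real.exp (t j * (ε / 2)) := by
      calc D ≤ D + 1 := by linarith
        _ = Real.exp (Real.log (D + 1)) := (Real.exp_log (by positivity)).symm
        _ ≤ Real.exp (t j * (ε / 2)) := Real.exp_le_exp.mpr h1
    calc nv w ((tay p r ((P j).map (algebraMap k K))).coeff s)
        ≤ vn w (cf r ((P j).map (algebraMap k K))) * Real.exp (t j * (ε / 2 - m w p s)) := h4
      _ ≤ (D * vn w (y j)) * Real.exp (t j * (ε / 2 - m w p s)) :=
          mul_le_mul_of_nonneg_right h2 (Real.exp_pos _).le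
      _ ≤ (Real.exp (t j * (ε / 2)) * vn w (y j)) * Real.exp (t j * (ε / 2 - m w p s)) :=
          mul_le_mul_of_nonneg_right (mul_le_mul_of_nonneg_right h5 hvy) (Real.exp_pos _).le
      _ = vn w (y j) * Real.exp (t j * (ε - m w p s)) := by
          have h6 : t j * (ε - m w p s) = t j * (ε / 2) + t j * (ε / 2 - m w p s) := by ring
          rw [h6, Real.exp_add]
          ring
  have hgen : ∀ W' : Submodule K (Fin n → K), W' ≠ ⊤ → ∀ᶠ j in (U : Filter ℕ), y j ∉ W' :=
    fun W' hW' => generic W B U (fun j => cf r (P j)) hmin z hz W' hW'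
  exact core hn hr b hb hint T hT A nn hnn m hm U t ht y hgen hH' happ'

end Pool.Agent.Helper61.AD
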