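import Pool.Agent.Helper61.AD.Tay
import Pool.Agent.Helper61.AD.Gauss

/-!
# Block AD-ROOT: Taylor coefficients of a product of linear factors whose roots are close to a point

Proof. Put `L i = max 0 (cl w (x i) p)`.
`p = some b`: `tay p r (∏ (X - C (x i))) = ∏ (X + C (b - x i))`, whose coefficient of `X^s` is
`∑_{|I| = r - s} ∏_{i ∈ I} (b - x i)` (`Finset.prod_X_add_C_coeff` or `Multiset.prod_X_add_C_coeff`). For `i`:
`nv w (b - x i) = sn w ![x i, 1] * sn w ![b, 1] * exp (- cl w (x i) p) ≤ 4 * sn * sn * exp (- L i)`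
(`cl_ge`; here `b ≠ x i` is used; `nv w (x i - b) = nv w (b - x i)`). All `sn ≥ 1`. So each product is at
most `4^r * (sn w ![b,1])^r * (∏ all i, sn w ![x i, 1]) * exp (- ∑ I, L i)`, and `∑ I, L i ≥ M`. A sum of
at most `2^r` terms costs `(2^r+1)^2` (`nv_sum_le`). Finally `∏ sn w ![x i,1] ≤ c * vn w (cf ..)`
(`gauss_fin`, `gauss_inf`).
`p = none`: `(tay none r Q).coeff s = Q.coeff (r - s)` (`coeff_reflect`, `revAt`), which is
`± ∑_{|J| = s} ∏_{J} x i`, `nv w (∏_J x i) ≤ ∏_J sn w ![x i,1] = (∏ all) / ∏_{J^c} sn w ![x i,1]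
= (∏ all) exp (- ∑_{J^c} cl w (x i) none)` and `|J^c| = r - s`. `(sn w ![0,1])^r = 1`.
-/

namespace Pool.Agent.Helper61.AD

open NumberField Finset Polynomial
open Pool.Agent.Helper64.Vojta (Pl nv sn)
open Pool.Agent.V2 (vn vH)

universe u

section rootaux

variable {N : Type u} [Field N] [NumberField N]

theorem root_sn_ge_one (w : Pl N) (y : N) : 1 ≤ sn w ![y, 1] := by
  have h := Pool.Agent.Helper64.Vojta.le_sn w ![y, 1] 1
  have h2 : nv w ((![y, 1] : Fin 2 → N) 1) = 1 := Pool.Agent.Helper64.Vojta.nv_one w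
  rwa [h2] at h

theorem root_nv_le_sn (w : Pl N) (y : N) : nv w y ≤ sn w ![y, 1] :=
  Pool.Agent.Helper64.Vojta.le_sn w ![y, 1] 0

theorem root_nv_neg (w : Pl N) (y : N) : nv w (-y) = nv w y := by
  rcases w with w | w
  · change w.1 (-y) ^ w.mult = w.1 y ^ w.mult
    rw [w.1.map_neg]
  · change w.1 (-y) = w.1 y
    rw [w.1.map_neg]

theorem root_nv_prod (w : Pl N) {α : Type*} (s : Finset α) (f : α → N) :
    nv w (∏ i ∈ s, f i) = ∏ i ∈ s, nv w (f i) := by
  classical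
  induction s using Finset.induction_on with
  | empty => simp [Pool.Agent.Helper64.Vojta.nv_one]
  | insert a s ha ih =>
    rw [prod_insert ha, prod_insert ha, Pool.Agent.Helper64.Vojta.nv_mul, ih]

/-- one factor -/
theorem root_factor (w : Pl N) (a b : N) (h : (some b : Option N) ≠ some a) :
    nv w (b - a) ≤ 4 * sn w ![b, 1] * (sn w ![a, 1] * Real.exp (-(max 0 (cl w a (some b))))) := by
  have hab : a - b ≠ 0 := fun h0 => h (congrArg some (sub_eq_zero.mp h0).symm)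
  have h1 : nv w (b - a) = nv w (a - b) := by rw [← root_nv_neg w (b - a), neg_sub]
  have h2 : 0 < nv w (a - b) := Pool.Agent.Helper64.Vojta.nv_pos w hab
  have hA := root_sn_ge_one w a
  have hB := root_sn_ge_one w b
  have hA0 : 0 < sn w ![a, 1] := by linarith
  have hB0 : 0 < sn w ![b, 1] := by linarith
  have h3 : nv w (a - b) = sn w ![a, 1] * sn w ![b, 1] * Real.exp (-(cl w a (some b))) := by
    have h4 : -(cl w a (some b)) =
        Real.log (nv w (a - b)) - (Real.log (sn w ![a, 1]) + Real.log (sn w ![b, 1])) := by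
      simp only [cl]; ring
    rw [h4, Real.exp_sub, Real.exp_add, Real.exp_log h2, Real.exp_log hA0, Real.exp_log hB0]
    field_simp
  have h5 : Real.exp (-(cl w a (some b))) ≤ 4 * Real.exp (-(max 0 (cl w a (some b)))) := by
    have h6 := cl_ge w a (some b) h
    rcases le_total 0 (cl w a (some b)) with h7 | h7
    · rw [max_eq_right h7]
      have := Real.exp_pos (-(cl w a (some b)))
      linarith
    · rw [max_eq_left h7, neg_zero, Real.exp_zero, mul_one]
      calc Real.exp (-(cl w a (some b))) ≤ Real.exp (Real.log 4) := Real.exp_le_exp.mpr (by linarith)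
        _ = 4 := Real.exp_log (by norm_num)
  rw [h1, h3]
  calc sn w ![a, 1] * sn w ![b, 1] * Real.exp (-(cl w a (some b)))
      ≤ sn w ![a, 1] * sn w ![b, 1] * (4 * Real.exp (-(max 0 (cl w a (some b))))) :=
        mul_le_mul_of_nonneg_left h5 (mul_pos hA0 hB0).le
    _ = _ := by ring

theorem root_prod_le {ι : Type*} [Fintype ι] (I : Finset ι) (A : ι → ℝ) (hA : ∀ i, 1 ≤ A i) :
    ∏ i ∈ I, A i ≤ ∏ i, A i :=
by
  classical
  have h0 : 0 ≤ ∏ i ∈ I, A i := Finset.prod_nonneg fun i _ => by have := hA i; linarith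
  have h1 : 1 ≤ ∏ i ∈ Iᶜ, A i := by
    calc (1 : ℝ) = ∏ _i ∈ Iᶜ, (1 : ℝ) := by simp
      _ ≤ ∏ i ∈ Iᶜ, A i := Finset.prod_le_prod (fun _ _ => zero_le_one) fun i _ => hA i
  rw [← Finset.prod_mul_prod_compl I A]
  nlinarith

/-- one product, finite point -/
theorem root_term_some (w : Pl N) {r : ℕ} (x : Fin r → N) (b : N)
    (hb : ∀ i, (some b : Option N) ≠ some (x i)) (I : Finset (Fin r)) (M : ℝ)
    (hM : M ≤ ∑ i ∈ I, max 0 (cl w (x i) (some b))) :
    nv w (∏ i ∈ I, (b - x i)) ≤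
      4 ^ r * (sn w ![b, 1]) ^ r * Real.exp (-M) * ∏ i, sn w ![x i, 1] := by
  have hB := root_sn_ge_one w b
  have hI : I.card ≤ r := by
    have := Finset.card_le_univ I
    rwa [Fintype.card_fin] at this
  rw [root_nv_prod]
  have hA0 : ∀ i : Fin r, 0 ≤ sn w ![x i, 1] := fun i => by
    have := root_sn_ge_one w (x i); linarith
  have hP0 : 0 ≤ ∏ i ∈ I, sn w ![x i, 1] := Finset.prod_nonneg fun i _ => hA0 i
  calc ∏ i ∈ I, nv w (b - x i)
      ≤ ∏ i ∈ I, (4 * sn w ![b, 1] *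
          (sn w ![x i, 1] * Real.exp (-(max 0 (cl w (x i) (some b)))))) :=
        Finset.prod_le_prod (fun i _ => Pool.Agent.Helper64.Vojta.nv_nonneg w _)
          (fun i _ => root_factor w (x i) b (hb i))
    _ = (4 * sn w ![b, 1]) ^ I.card * ((∏ i ∈ I, sn w ![x i, 1]) *
          Real.exp (-(∑ i ∈ I, max 0 (cl w (x i) (some b))))) := by
        rw [Finset.prod_mul_distrib, Finset.prod_const, Finset.prod_mul_distrib,
          ← Real.exp_sum, Finset.sum_neg_distrib]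
    _ ≤ (4 * sn w ![b, 1]) ^ r * ((∏ i, sn w ![x i, 1]) * Real.exp (-M)) := by
        apply mul_le_mul
        · exact pow_le_pow_right₀ (by linarith) hI
        · apply mul_le_mul (root_prod_le I _ fun i => root_sn_ge_one w (x i))
            (Real.exp_le_exp.mpr (by linarith)) (Real.exp_pos _).le
          exact Finset.prod_nonneg fun i _ => hA0 i
        · exact mul_nonneg hP0 (Real.exp_pos _).le
        · positivity
    _ = _ := by rw [mul_pow]; ring

/-- one product, infinite point -/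
theorem root_term_none (w : Pl N) {r : ℕ} (x : Fin r → N) (J : Finset (Fin r)) (M : ℝ)
    (hM : M ≤ ∑ i ∈ Jᶜ, max 0 (cl w (x i) none)) :
    nv w (∏ i ∈ J, (-(x i))) ≤ Real.exp (-M) * ∏ i, sn w ![x i, 1] := by
  rw [root_nv_prod]
  have hA1 : ∀ i : Fin r, 1 ≤ sn w ![x i, 1] := fun i => root_sn_ge_one w (x i)
  have hA0 : ∀ i : Fin r, 0 < sn w ![x i, 1] := fun i => by have := hA1 i; linarith
  have h1 : ∏ i ∈ J, nv w (-(x i)) ≤ ∏ i ∈ J, sn w ![x i, 1] :=
    Finset.prod_le_prod (fun i _ => Pool.Agent.Helper64.Vojta.nv_nonneg w _) fun i _ => by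
      rw [root_nv_neg]; exact root_nv_le_sn w (x i)
  have h2 : ∑ i ∈ Jᶜ, max 0 (cl w (x i) none) = ∑ i ∈ Jᶜ, Real.log (sn w ![x i, 1]) := by
    refine Finset.sum_congr rfl fun i _ => ?_
    simp only [cl]
    exact max_eq_right (Real.log_nonneg (hA1 i))
  have h3 : Real.exp (∑ i ∈ Jᶜ, Real.log (sn w ![x i, 1])) = ∏ i ∈ Jᶜ, sn w ![x i, 1] := by
    rw [Real.exp_sum]
    exact Finset.prod_congr rfl fun i _ => Real.exp_log (hA0 i)
  have h4 : Real.exp M ≤ ∏ i ∈ Jᶜ, sn w ![x i, 1] := by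
    rw [← h3]
    exact Real.exp_le_exp.mpr (by rw [← h2]; exact hM)
  have h5 : (∏ i ∈ J, sn w ![x i, 1]) * ∏ i ∈ Jᶜ, sn w ![x i, 1] = ∏ i, sn w ![x i, 1] :=
    Finset.prod_mul_prod_compl J _
  have h6 : 0 ≤ ∏ i ∈ J, sn w ![x i, 1] := Finset.prod_nonneg fun i _ => (hA0 i).le
  calc ∏ i ∈ J, nv w (-(x i)) ≤ ∏ i ∈ J, sn w ![x i, 1] := h1
    _ = Real.exp (-M) * ((∏ i ∈ J, sn w ![x i, 1]) * Real.exp M) := by
        rw [Real.exp_neg]
        field_simp
    _ ≤ Real.exp (-M) * ((∏ i ∈ J, sn w ![x i, 1]) * ∏ i ∈ Jᶜ, sn w ![x i, 1]) := by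
        apply mul_le_mul_of_nonneg_left _ (Real.exp_pos _).le
        exact mul_le_mul_of_nonneg_left h4 h6
    _ = _ := by rw [h5]

theorem root_sum_le (w : Pl N) {r k : ℕ} (f : Finset (Fin r) → N) (B : ℝ) (hB : 0 ≤ B)
    (h : ∀ t ∈ (Finset.univ : Finset (Fin r)).powersetCard k, nv w (f t) ≤ B) :
    nv w (∑ t ∈ (Finset.univ : Finset (Fin r)).powersetCard k, f t) ≤ ((2 : ℝ) ^ r + 1) ^ 2 * B := by
  refine (Pool.Agent.Helper64.Vojta.nv_sum_le w _ f B hB h).trans ?_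
  apply mul_le_mul_of_nonneg_right _ hB
  have h1 : ((Finset.univ : Finset (Fin r)).powersetCard k).card ≤ 2 ^ r := by
    rw [Finset.card_powersetCard, Finset.card_univ, Fintype.card_fin]
    exact Nat.choose_le_two_pow r k
  have h3 : ((((Finset.univ : Finset (Fin r)).powersetCard k).card : ℕ) : ℝ) ≤ (2 : ℝ) ^ r := by
    exact_mod_cast h1
  have h4 : (0 : ℝ) ≤ ((((Finset.univ : Finset (Fin r)).powersetCard k).card : ℕ) : ℝ) :=
    Nat.cast_nonneg _
  exact pow_le_pow_left₀ (by linarith) (by linarith) 2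

theorem root_coeff_bound (w : Pl N) {r : ℕ} (x : Fin r → N) (p : Option N)
    (hp : ∀ i, p ≠ some (x i)) (s : ℕ) (hs : s ≤ r) (M : ℝ)
    (hM : ∀ I : Finset (Fin r), I.card = r - s → M ≤ ∑ i ∈ I, max 0 (cl w (x i) p)) :
    nv w ((tay p r (∏ i, (X - C (x i)))).coeff s) ≤
      ((2 : ℝ) ^ r + 1) ^ 2 *
        (4 ^ r * (sn w ![p.getD 0, 1]) ^ r * Real.exp (-M) * ∏ i, sn w ![x i, 1]) := by
  have hA0 : ∀ i : Fin r, 0 ≤ sn w ![x i, 1] := fun i => by
    have := root_sn_ge_one w (x i); linarith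
  have hB := root_sn_ge_one w (p.getD 0)
  have hB0 : 0 ≤ sn w ![p.getD 0, 1] := by linarith
  have hP0 : 0 ≤ ∏ i, sn w ![x i, 1] := Finset.prod_nonneg fun i _ => hA0 i
  have hbig : 0 ≤ 4 ^ r * (sn w ![p.getD 0, 1]) ^ r * Real.exp (-M) * ∏ i, sn w ![x i, 1] := by
    positivity
  cases p with
  | some b =>
    have h1 : tay (some b) r (∏ i, (X - C (x i))) = ∏ i, (X + C (b - x i)) := by
      rw [tay_some, Polynomial.prod_comp]
      refine Finset.prod_congr rfl fun i _ => ?_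
      simp only [sub_comp, X_comp, C_comp, C_sub]
      ring
    rw [h1, Finset.prod_X_add_C_coeff _ _ (by rw [Finset.card_univ, Fintype.card_fin]; exact hs)]
    refine root_sum_le w _ _ hbig fun t ht => ?_
    rw [Finset.mem_powersetCard, Finset.card_univ, Fintype.card_fin] at ht
    exact root_term_some w x b hp t M (hM t ht.2)
  | none =>
    have h1 : (tay none r (∏ i, (X - C (x i)))).coeff s =
        (∏ i, (X + C (-(x i)))).coeff (r - s) := by
      rw [tay_none, coeff_reflect, revAt_le hs]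
      simp only [C_neg, sub_eq_add_neg]
    have hcard : (Finset.univ : Finset (Fin r)).card = r := by
      rw [Finset.card_univ, Fintype.card_fin]
    rw [h1, Finset.prod_X_add_C_coeff _ _ (by rw [hcard]; exact Nat.sub_le r s)]
    refine root_sum_le w _ _ hbig fun t ht => ?_
    rw [Finset.mem_powersetCard, hcard] at ht
    have hc : (tᶜ).card = r - s := by
      rw [Finset.card_compl, Fintype.card_fin, ht.2]
      omega
    refine (root_term_none w x t M (hM tᶜ hc)).trans ?_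
    have h3 : (1 : ℝ) ≤ 4 ^ r * (sn w ![(none : Option N).getD 0, 1]) ^ r := by
      have h4 : (1 : ℝ) ≤ 4 ^ r := one_le_pow₀ (by norm_num)
      have h5 : (1 : ℝ) ≤ (sn w ![(none : Option N).getD 0, 1]) ^ r := one_le_pow₀ hB
      nlinarith
    calc Real.exp (-M) * ∏ i, sn w ![x i, 1]
        = 1 * (Real.exp (-M) * ∏ i, sn w ![x i, 1]) := (one_mul _).symm
      _ ≤ (4 ^ r * (sn w ![(none : Option N).getD 0, 1]) ^ r) *
            (Real.exp (-M) * ∏ i, sn w ![x i, 1]) :=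
          mul_le_mul_of_nonneg_right h3 (mul_nonneg (Real.exp_pos _).le hP0)
      _ = _ := by ring

end rootaux

theorem root_bound (r : ℕ) : ∃ c : ℝ, 1 ≤ c ∧ ∀ (N : Type u) [Field N] [NumberField N] (w : Pl N)
    (x : Fin r → N) (p : Option N), (∀ i, p ≠ some (x i)) → ∀ s ≤ r, ∀ M : ℝ,
    (∀ I : Finset (Fin r), I.card = r - s → M ≤ ∑ i ∈ I, max 0 (cl w (x i) p)) →
    nv w ((tay p r (∏ i, (X - C (x i)))).coeff s) ≤
      c * (sn w ![p.getD 0, 1]) ^ r * Real.exp (-M) * vn w (cf r (∏ i, (X - C (x i)))) := by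
  obtain ⟨g, hg1, hg⟩ := gauss_inf.{u} r
  have hK : (1 : ℝ) ≤ ((2 : ℝ) ^ r + 1) ^ 2 * 4 ^ r := by
    have h1 : (1 : ℝ) ≤ ((2 : ℝ) ^ r + 1) ^ 2 := one_le_pow₀ (by
      have : (0 : ℝ) < 2 ^ r := by positivity
      linarith)
    have h2 : (1 : ℝ) ≤ 4 ^ r := one_le_pow₀ (by norm_num)
    nlinarith
  refine ⟨((2 : ℝ) ^ r + 1) ^ 2 * 4 ^ r * g, by nlinarith, ?_⟩
  intro N _ _ w x p hp s hs M hM
  have h1 := root_coeff_bound w x p hp s hs M hM
  have hvn0 : ∀ w : Pl N, 0 ≤ vn w (cf r (∏ i, (X - C (x i)))) := fun w =>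
    Real.iSup_nonneg fun i => Pool.Agent.Helper64.Vojta.nv_nonneg w _
  have h2 : ∏ i, sn w ![x i, 1] ≤ g * vn w (cf r (∏ i, (X - C (x i)))) := by
    rcases w with w | w
    · exact hg N w x
    · refine (gauss_fin w x).trans ?_
      have := hvn0 (.inr w)
      nlinarith
  have hB := root_sn_ge_one w (p.getD 0)
  have hB0 : 0 ≤ sn w ![p.getD 0, 1] := by linarith
  refine h1.trans ?_
  calc ((2 : ℝ) ^ r + 1) ^ 2 *
        (4 ^ r * (sn w ![p.getD 0, 1]) ^ r * Real.exp (-M) * ∏ i, sn w ![x i, 1])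
      = (((2 : ℝ) ^ r + 1) ^ 2 * 4 ^ r * (sn w ![p.getD 0, 1]) ^ r * Real.exp (-M)) *
          ∏ i, sn w ![x i, 1] := by ring
    _ ≤ (((2 : ℝ) ^ r + 1) ^ 2 * 4 ^ r * (sn w ![p.getD 0, 1]) ^ r * Real.exp (-M)) *
          (g * vn w (cf r (∏ i, (X - C (x i))))) :=
        mul_le_mul_of_nonneg_left h2 (by positivity)
    _ = _ := by ring

end Pool.Agent.Helper61.AD
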